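import Pool.Agent.H57.LC.Zyk

/-!
Sizes of the parts (note 3541, 4b), real arithmetic only.
-/

namespace H57LC

open Finset

/-- mean value bound for powers -/
lemma pow_add_le (n : ℕ) (x s : ℝ) (hx : 0 ≤ x) (hs : 0 ≤ s) :
    (x + s) ^ n ≤ x ^ n + n * s * (x + s) ^ (n - 1) := by
  induction n with
  | zero => simp
  | succ k ih =>
    rcases Nat.eq_zero_or_pos k with rfl | hk
    · simp
    · have e1 : (x + s) * (x + s) ^ (k - 1) = (x + s) ^ k := by
        rw [← pow_succ']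
        congr 1
        omega
      have h1 : x ^ k ≤ (x + s) ^ k := pow_le_pow_left₀ hx (by linarith) k
      have h2 : 0 ≤ x + s := by linarith
      have h3 := mul_le_mul_of_nonneg_left ih h2
      have h4 : (x + s) * ((k : ℝ) * s * (x + s) ^ (k - 1)) = k * s * (x + s) ^ k := by
        rw [← e1]; ring
      have h5 : (x + s) * (x ^ k + (k : ℝ) * s * (x + s) ^ (k - 1)) =
          x ^ (k + 1) + s * x ^ k + k * s * (x + s) ^ k := by
        rw [mul_add, h4, pow_succ]; ring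
      have h6 : s * x ^ k ≤ s * (x + s) ^ k := mul_le_mul_of_nonneg_left h1 hs
      rw [h5] at h3
      have h7 : (x + s) ^ (k + 1) = (x + s) * (x + s) ^ k := by ring
      rw [h7, Nat.add_sub_cancel]
      push_cast
      linarith

/-- the product of the scaled sizes -/
lemma prod_scaled {R : ℕ} (x : Fin R → ℝ) (hx : ∀ i, 0 ≤ x i) (i : Fin R) :
    ∏ j, x j ≤ Real.exp ((∑ j, x j) - R - (Real.sqrt (x i) - 1) ^ 2) := by
  have h1 : ∏ j, x j = x i * ∏ j ∈ univ.erase i, x j := (mul_prod_erase univ x (mem_univ i)).symm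
  have h2 : ∏ j ∈ univ.erase i, x j ≤ ∏ j ∈ univ.erase i, Real.exp (x j - 1) := by
    refine prod_le_prod (fun j _ => hx j) fun j _ => ?_
    have := Real.add_one_le_exp (x j - 1)
    linarith
  rw [← Real.exp_sum] at h2
  have h3 : x i ≤ Real.exp (2 * (Real.sqrt (x i) - 1)) := by
    have h4 := Real.add_one_le_exp (Real.sqrt (x i) - 1)
    have h5 : Real.sqrt (x i) ≤ Real.exp (Real.sqrt (x i) - 1) := by linarith
    have h6 : Real.sqrt (x i) * Real.sqrt (x i) ≤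
        Real.exp (Real.sqrt (x i) - 1) * Real.exp (Real.sqrt (x i) - 1) :=
      mul_le_mul h5 h5 (Real.sqrt_nonneg _) (Real.exp_pos _).le
    rw [Real.mul_self_sqrt (hx i), ← Real.exp_add] at h6
    convert h6 using 2
    ring
  have h7 : ∏ j, x j ≤ Real.exp (2 * (Real.sqrt (x i) - 1)) *
      Real.exp (∑ j ∈ univ.erase i, (x j - 1)) := by
    rw [h1]
    exact mul_le_mul h3 h2 (prod_nonneg fun j _ => hx j) (Real.exp_pos _).le
  rw [← Real.exp_add] at h7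
  have h8 : ∑ j ∈ univ.erase i, (x j - 1) = (∑ j, x j) - x i - (R - 1) := by
    have h9 : (x i - 1) + ∑ j ∈ univ.erase i, (x j - 1) = ∑ j, (x j - 1) :=
      add_sum_erase univ (fun j => x j - 1) (mem_univ i)
    have h10 : ∑ j, (x j - 1) = (∑ j, x j) - R := by
      rw [sum_sub_distrib]
      simp
    linarith
  have h11 : 2 * (Real.sqrt (x i) - 1) + ∑ j ∈ univ.erase i, (x j - 1) =
      (∑ j, x j) - R - (Real.sqrt (x i) - 1) ^ 2 := by
    rw [h8]
    have h12 := Real.sq_sqrt (hx i)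
    nlinarith
  rwa [h11] at h7

/-- upper bound for the product -/
theorem prod_up (R r : ℕ) (hR : 1 ≤ R) : ∃ C : ℝ, 0 < C ∧ ∀ m : ℕ, 1 ≤ m → ∀ a : Fin R → ℕ,
    ∑ i, a i ≤ R * m + r → (∏ i, (a i : ℝ)) ≤ (m : ℝ) ^ R + C * (m : ℝ) ^ (R - 1) := by
  have hR0 : (0 : ℝ) < R := by exact_mod_cast hR
  set s : ℝ := (r : ℝ) / R with hs
  have hs0 : 0 ≤ s := by positivity
  refine ⟨R * s * (1 + s) ^ (R - 1) + 1, by positivity, fun m hm a ha => ?_⟩
  have hm1 : (1 : ℝ) ≤ m := by exact_mod_cast hm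
  have h1 := prod_le_avg hR (fun i => (a i : ℝ)) (fun i => by positivity)
  have h2 : (∑ i, (a i : ℝ)) / R ≤ m + s := by
    rw [div_le_iff₀ hR0]
    have h3 : (∑ i, (a i : ℝ)) ≤ R * m + r := by exact_mod_cast ha
    have h4 : s * R = r := by rw [hs]; field_simp
    nlinarith
  have h5 : ((∑ i, (a i : ℝ)) / R) ^ R ≤ ((m : ℝ) + s) ^ R :=
    pow_le_pow_left₀ (by positivity) h2 R
  have h6 := pow_add_le R (m : ℝ) s (by linarith) hs0
  have h7 : ((m : ℝ) + s) ^ (R - 1) ≤ ((1 + s) * m) ^ (R - 1) :=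
    pow_le_pow_left₀ (by positivity) (by nlinarith) _
  rw [mul_pow] at h7
  have h8 : (R : ℝ) * s * ((m : ℝ) + s) ^ (R - 1) ≤
      R * s * ((1 + s) ^ (R - 1) * (m : ℝ) ^ (R - 1)) :=
    mul_le_mul_of_nonneg_left h7 (by positivity)
  have h9 : (0 : ℝ) ≤ (m : ℝ) ^ (R - 1) := by positivity
  calc (∏ i, (a i : ℝ)) ≤ ((∑ i, (a i : ℝ)) / R) ^ R := h1
    _ ≤ ((m : ℝ) + s) ^ R := h5
    _ ≤ (m : ℝ) ^ R + R * s * ((m : ℝ) + s) ^ (R - 1) := h6
    _ ≤ (m : ℝ) ^ R + R * s * ((1 + s) ^ (R - 1) * (m : ℝ) ^ (R - 1)) := by linarith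
    _ ≤ (m : ℝ) ^ R + (R * s * (1 + s) ^ (R - 1) + 1) * (m : ℝ) ^ (R - 1) := by nlinarith

/-- if the product is nearly maximal, all `a i` are near `m` -/
theorem sizes (R r : ℕ) (hR : 2 ≤ R) (C δ : ℝ) (hC : 0 < C) (hδ : 0 < δ) :
    ∃ m₀ : ℕ, ∀ m : ℕ, m₀ ≤ m → ∀ a : Fin R → ℕ, ∑ i, a i ≤ R * m + r →
      (m : ℝ) ^ R - C * (m : ℝ) ^ (R - 1) ≤ ∏ i, (a i : ℝ) → ∀ i, |(a i : ℝ) - m| ≤ δ * m := by
  set κ : ℝ := min 1 (δ / 4) with hκ
  have hκ0 : 0 < κ := lt_min one_pos (by linarith)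
  have hκ1 : κ ≤ 1 := min_le_left _ _
  have hκ2 : κ ≤ δ / 4 := min_le_right _ _
  set c : ℝ := 1 - Real.exp (-(κ ^ 2 / 2)) with hc
  have hc0 : 0 < c := by
    have : Real.exp (-(κ ^ 2 / 2)) < 1 := by
      rw [Real.exp_lt_one_iff]
      have := pow_pos hκ0 2
      linarith
    linarith
  obtain ⟨m₀, hm₀⟩ := exists_nat_gt (1 + C / c + 2 * r / κ ^ 2)
  refine ⟨m₀, fun m hm a ha hp i => ?_⟩
  have hκ3 : 0 < κ ^ 2 := pow_pos hκ0 2
  have hmm : 1 + C / c + 2 * r / κ ^ 2 < (m : ℝ) :=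
    lt_of_lt_of_le hm₀ (by exact_mod_cast hm)
  have hq1 : 0 < C / c := by positivity
  have hq2 : 0 ≤ 2 * (r : ℝ) / κ ^ 2 := by positivity
  have hm1 : (0 : ℝ) < m := by linarith
  have hCm : C / m < c := by
    rw [div_lt_iff₀ hm1]
    have : C / c < m := by linarith
    rw [div_lt_iff₀ hc0] at this
    linarith
  have hrm : (r : ℝ) / m ≤ κ ^ 2 / 2 := by
    rw [div_le_iff₀ hm1]
    have : 2 * (r : ℝ) / κ ^ 2 < m := by linarith
    rw [div_lt_iff₀ hκ3] at this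
    linarith
  have hx := prod_scaled (fun j => (a j : ℝ) / m) (fun j => by positivity) i
  rw [prod_div_distrib, prod_const, card_univ, Fintype.card_fin, ← sum_div] at hx
  have hsum : (∑ j, (a j : ℝ)) / m ≤ R + r / m := by
    have h3 : (∑ j, (a j : ℝ)) ≤ R * m + r := by exact_mod_cast ha
    rw [div_le_iff₀ hm1, add_mul, div_mul_cancel₀ _ hm1.ne']
    exact h3
  by_contra hcon
  push Not at hcon
  set w : ℝ := Real.sqrt ((a i : ℝ) / m) with hw
  have hw0 : 0 ≤ w := Real.sqrt_nonneg _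
  have hw2 : w ^ 2 = (a i : ℝ) / m := Real.sq_sqrt (by positivity)
  have hai : (a i : ℝ) = w ^ 2 * m := by rw [hw2]; field_simp
  have hfar : κ ^ 2 ≤ (w - 1) ^ 2 := by
    by_contra h
    push Not at h
    have h1 : |w - 1| < κ := abs_lt_of_sq_lt_sq h hκ0.le
    have h2 := abs_lt.1 h1
    have h3 : |(a i : ℝ) - m| = |w - 1| * (w + 1) * m := by
      rw [hai]
      have : w ^ 2 * m - m = (w - 1) * ((w + 1) * m) := by ring
      rw [this, abs_mul, abs_of_nonneg (by positivity : 0 ≤ (w + 1) * m)]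
      ring
    rw [h3] at hcon
    have h4 : |w - 1| * (w + 1) ≤ κ * 3 :=
      mul_le_mul h1.le (by linarith [h2.2]) (by linarith) hκ0.le
    have h5 : |w - 1| * (w + 1) * m ≤ κ * 3 * m := mul_le_mul_of_nonneg_right h4 hm1.le
    have h6 : κ * 3 * m ≤ δ * m := mul_le_mul_of_nonneg_right (by linarith) hm1.le
    linarith
  have hexp : Real.exp ((∑ j, (a j : ℝ)) / m - R - (w - 1) ^ 2) ≤ 1 - c := by
    have : 1 - c = Real.exp (-(κ ^ 2 / 2)) := by rw [hc]; ring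
    rw [this]
    apply Real.exp_le_exp.2
    linarith
  have h1 : (∏ j, (a j : ℝ)) / (m : ℝ) ^ R ≤ 1 - c := hx.trans hexp
  have hmR : (0 : ℝ) < (m : ℝ) ^ R := by positivity
  rw [div_le_iff₀ hmR] at h1
  have h2 : (m : ℝ) ^ R = m * (m : ℝ) ^ (R - 1) := by
    rw [← pow_succ']
    congr 1
    omega
  have h3 : (0 : ℝ) < (m : ℝ) ^ (R - 1) := by positivity
  have h4 : c * (m : ℝ) ^ R ≤ C * (m : ℝ) ^ (R - 1) := by linarith
  rw [h2] at h4
  have h5 : c * m ≤ C := by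
    have h6 : (c * m) * (m : ℝ) ^ (R - 1) ≤ C * (m : ℝ) ^ (R - 1) := by linarith
    exact le_of_mul_le_mul_right h6 h3
  rw [div_lt_iff₀ hm1] at hCm
  linarith

end H57LC
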