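import Pool.Agent.H57.LC.Defs

/-!
Tuples: light cliques as clique transversals, resampling a coordinate.
-/

namespace H57LC

open Finset

set_option linter.unusedSectionVars false

variable {V : Type*} [DecidableEq V] {G : SimpleGraph V} [DecidableRel G.Adj]

/-- a clique inside `un B` has at most one vertex in each `B i` -/
theorem clique_inter_card {R : ℕ} {B : Fin R → Finset V}
    (hind : ∀ i, ∀ a ∈ B i, ∀ b ∈ B i, ¬ G.Adj a b) {T : Finset V} (hT : IsCl G T) (i : Fin R) :
    (T ∩ B i).card ≤ 1 := by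
  rw [Finset.card_le_one]
  intro a ha b hb
  by_contra hne
  rw [mem_inter] at ha hb
  exact hind i a ha.2 b hb.2 (hT a ha.1 b hb.1 hne)

/-- sums over the `R`-cliques inside `un B` are sums over the clique transversals -/
theorem sum_light {R : ℕ} {S : Finset V} {B : Fin R → Finset V} (hsub : ∀ i, B i ⊆ S)
    (hdisj : ∀ i j, i ≠ j → Disjoint (B i) (B j))
    (hind : ∀ i, ∀ a ∈ B i, ∀ b ∈ B i, ¬ G.Adj a b) (F : Finset V → ℝ) :
    ∑ T ∈ (clq G S R).filter (fun T => T ⊆ un B), F T = ∑ f ∈ tcl G B, F (im f) := by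
  symm
  refine Finset.sum_bij (fun f _ => im f) ?_ ?_ ?_ ?_
  · intro f hf
    exact mem_filter.2 ⟨im_mem_clq hsub hf, im_subset hf⟩
  · intro f hf g hg hfg
    funext i
    have h1 : f i ∈ im g := by
      have : f i ∈ im f := mem_im.2 ⟨i, rfl⟩
      exact hfg ▸ this
    obtain ⟨j, hj⟩ := mem_im.1 h1
    by_cases hij : i = j
    · rw [← hj, hij]
    · exfalso
      have ha : f i ∈ B i := (mem_tcl.1 hf).1 i
      have hb : f i ∈ B j := hj ▸ (mem_tcl.1 hg).1 j
      exact (Finset.disjoint_left.1 (hdisj i j hij)) ha hb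
  · intro T hT
    obtain ⟨hTc, hTU⟩ := mem_filter.1 hT
    obtain ⟨⟨hTS, hTR⟩, hTcl⟩ := mem_clq.1 hTc
    have hle : ∀ i, (T ∩ B i).card ≤ 1 := fun i => clique_inter_card hind hTcl i
    have hTeq : T = (univ : Finset (Fin R)).biUnion (fun i => T ∩ B i) := by
      ext a
      simp only [mem_biUnion, mem_univ, true_and, mem_inter]
      constructor
      · intro ha
        obtain ⟨i, hi⟩ := mem_un.1 (hTU ha)
        exact ⟨i, ha, hi⟩
      · rintro ⟨i, ha, -⟩
        exact ha
    have hsum : R ≤ ∑ i : Fin R, (T ∩ B i).card := by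
      calc R = T.card := hTR.symm
        _ = ((univ : Finset (Fin R)).biUnion (fun i => T ∩ B i)).card := by rw [← hTeq]
        _ ≤ _ := Finset.card_biUnion_le
    have hone : ∀ i, (T ∩ B i).card = 1 := by
      intro i
      by_contra hne
      have hlt : (T ∩ B i).card < 1 := lt_of_le_of_ne (hle i) hne
      have h1 : ∑ j : Fin R, (T ∩ B j).card < ∑ _j : Fin R, 1 :=
        Finset.sum_lt_sum (fun j _ => hle j) ⟨i, mem_univ i, hlt⟩
      rw [Finset.sum_const, Finset.card_univ, Fintype.card_fin, smul_eq_mul, mul_one] at h1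
      exact absurd hsum (not_le.2 h1)
    have hex : ∀ i, ∃ a, a ∈ T ∩ B i := fun i => by
      have : 0 < (T ∩ B i).card := by rw [hone i]; exact Nat.one_pos
      exact Finset.card_pos.1 this
    choose f hf using hex
    have hfT : ∀ i, f i ∈ T := fun i => (mem_inter.1 (hf i)).1
    have hfB : ∀ i, f i ∈ B i := fun i => (mem_inter.1 (hf i)).2
    have hftcl : f ∈ tcl G B := by
      refine mem_tcl.2 ⟨hfB, fun i j hij => hTcl _ (hfT i) _ (hfT j) ?_⟩
      intro h
      exact (Finset.disjoint_left.1 (hdisj i j hij)) (hfB i) (h ▸ hfB j)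
    refine ⟨f, hftcl, ?_⟩
    refine Finset.eq_of_subset_of_card_le ?_ ?_
    · intro a ha
      obtain ⟨i, rfl⟩ := mem_im.1 ha
      exact hfT i
    · rw [im_card hftcl, hTR]
  · intro f _
    rfl

/-- the number of `R`-cliques not inside `U` -/
theorem card_meet (S U : Finset V) {R : ℕ} (hR : 1 ≤ R) :
    ((clq G S R).filter (fun T => ¬ T ⊆ U)).card ≤ (S \ U).card * S.card ^ (R - 1) := by
  have hsub : (clq G S R).filter (fun T => ¬ T ⊆ U) ⊆
      ((S \ U) ×ˢ (S.powersetCard (R - 1))).image (fun p => insert p.1 p.2) := by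
    intro T hT
    obtain ⟨hTc, hTU⟩ := mem_filter.1 hT
    obtain ⟨⟨hTS, hTR⟩, -⟩ := mem_clq.1 hTc
    obtain ⟨z, hzT, hzU⟩ := Finset.not_subset.1 hTU
    refine mem_image.2 ⟨(z, T.erase z), ?_, ?_⟩
    · refine mem_product.2 ⟨mem_sdiff.2 ⟨hTS hzT, hzU⟩, ?_⟩
      refine mem_powersetCard.2 ⟨(Finset.erase_subset _ _).trans hTS, ?_⟩
      rw [Finset.card_erase_of_mem hzT, hTR]
    · exact Finset.insert_erase hzT
  calc ((clq G S R).filter (fun T => ¬ T ⊆ U)).card
      ≤ (((S \ U) ×ˢ (S.powersetCard (R - 1))).image (fun p => insert p.1 p.2)).card :=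
        Finset.card_le_card hsub
    _ ≤ ((S \ U) ×ˢ (S.powersetCard (R - 1))).card := Finset.card_image_le
    _ = (S \ U).card * (S.card.choose (R - 1)) := by
        rw [Finset.card_product, Finset.card_powersetCard]
    _ ≤ (S \ U).card * S.card ^ (R - 1) :=
        Nat.mul_le_mul_left _ (Nat.choose_le_pow _ _)

/-- resampling the coordinate `k` -/
theorem resample {R : ℕ} (B : Fin R → Finset V) (k : Fin R) (F : (Fin R → V) → ℝ) :
    ((B k).card : ℝ) * ∑ f ∈ Fintype.piFinset B, F f =
      ∑ f ∈ Fintype.piFinset B, ∑ y ∈ B k, F (Function.update f k y) := by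
  have h1 : ((B k).card : ℝ) * ∑ f ∈ Fintype.piFinset B, F f =
      ∑ f ∈ Fintype.piFinset B, ∑ _y ∈ B k, F f := by
    rw [Finset.mul_sum]
    refine Finset.sum_congr rfl fun f _ => ?_
    rw [Finset.sum_const, nsmul_eq_mul]
  rw [h1, ← Finset.sum_product', ← Finset.sum_product']
  have hmem : ∀ p : (Fin R → V) × V, p ∈ Fintype.piFinset B ×ˢ B k →
      ((Function.update p.1 k p.2, p.1 k) : (Fin R → V) × V) ∈ Fintype.piFinset B ×ˢ B k := by
    intro p hp
    obtain ⟨hp1, hp2⟩ := mem_product.1 hp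
    refine mem_product.2 ⟨Fintype.mem_piFinset.2 fun l => ?_, Fintype.mem_piFinset.1 hp1 k⟩
    by_cases hl : l = k
    · subst hl
      simpa using hp2
    · simp only [Function.update_of_ne hl]
      exact Fintype.mem_piFinset.1 hp1 l
  have hinv : ∀ p : (Fin R → V) × V,
      ((Function.update (Function.update p.1 k p.2) k (p.1 k),
        (Function.update p.1 k p.2) k) : (Fin R → V) × V) = p := by
    intro p
    ext1
    · simp
    · simp
  refine Finset.sum_bij' (fun p _ => ((Function.update p.1 k p.2, p.1 k) : (Fin R → V) × V))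
    (fun p _ => ((Function.update p.1 k p.2, p.1 k) : (Fin R → V) × V)) ?_ ?_ ?_ ?_ ?_
  · intro p hp
    exact hmem p hp
  · intro p hp
    exact hmem p hp
  · intro p _
    exact hinv p
  · intro p _
    exact hinv p
  · intro p _
    simp

/-- sum of a function of one coordinate -/
theorem one_sum {R : ℕ} (B : Fin R → Finset V) (i : Fin R) (g : V → ℝ) :
    ((B i).card : ℝ) * ∑ f ∈ Fintype.piFinset B, g (f i) =
      (∏ l, ((B l).card : ℝ)) * ∑ y ∈ B i, g y := by
  rw [resample B i (fun f => g (f i))]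
  have h1 : ∀ f ∈ Fintype.piFinset B, ∑ y ∈ B i, g ((Function.update f i y) i) =
      ∑ y ∈ B i, g y := by
    intro f _
    refine Finset.sum_congr rfl fun y _ => ?_
    simp
  rw [Finset.sum_congr rfl h1, Finset.sum_const, nsmul_eq_mul, Fintype.card_piFinset]
  push_cast
  ring

/-- sum of a function of two coordinates -/
theorem pair_sum {R : ℕ} (B : Fin R → Finset V) {i j : Fin R} (hij : i ≠ j) (g : V → V → ℝ) :
    ((B i).card : ℝ) * (B j).card * ∑ f ∈ Fintype.piFinset B, g (f i) (f j) =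
      (∏ l, ((B l).card : ℝ)) * ∑ y ∈ B i, ∑ z ∈ B j, g y z := by
  have h1 : ((B i).card : ℝ) * ∑ f ∈ Fintype.piFinset B, g (f i) (f j) =
      ∑ y ∈ B i, ∑ f ∈ Fintype.piFinset B, g y (f j) := by
    rw [resample B i (fun f => g (f i) (f j)), Finset.sum_comm]
    refine Finset.sum_congr rfl fun y _ => Finset.sum_congr rfl fun f _ => ?_
    rw [Function.update_self, Function.update_of_ne hij.symm]
  calc ((B i).card : ℝ) * (B j).card * ∑ f ∈ Fintype.piFinset B, g (f i) (f j)
      = (B j).card * (((B i).card : ℝ) * ∑ f ∈ Fintype.piFinset B, g (f i) (f j)) := by ring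
    _ = (B j).card * ∑ y ∈ B i, ∑ f ∈ Fintype.piFinset B, g y (f j) := by rw [h1]
    _ = ∑ y ∈ B i, ((B j).card : ℝ) * ∑ f ∈ Fintype.piFinset B, g y (f j) := by
        rw [Finset.mul_sum]
    _ = ∑ y ∈ B i, (∏ l, ((B l).card : ℝ)) * ∑ z ∈ B j, g y z :=
        Finset.sum_congr rfl fun y _ => one_sum B j (g y)
    _ = (∏ l, ((B l).card : ℝ)) * ∑ y ∈ B i, ∑ z ∈ B j, g y z := by
        rw [Finset.mul_sum]

/-- a tuple with a missing pair has at least two ordered missing pairs -/
lemma two_le_DD {R : ℕ} {f : Fin R → V} {i j : Fin R} (hij : i ≠ j)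
    (h : ¬ G.Adj (f i) (f j)) : 2 ≤ DD G f := by
  have hrow : ∀ a b : Fin R, a ≠ b → ¬ G.Adj (f a) (f b) →
      (1 : ℝ) ≤ ∑ l ∈ univ.erase a, na G (f a) (f l) := by
    intro a b hab hadj
    have h1 : na G (f a) (f b) = 1 := by
      unfold na
      rw [if_neg hadj]
    rw [← h1]
    exact Finset.single_le_sum (f := fun l => na G (f a) (f l)) (fun l _ => na_nonneg _ _)
      (Finset.mem_erase.2 ⟨hab.symm, mem_univ b⟩)
  have hadj' : ¬ G.Adj (f j) (f i) := fun h' => h h'.symm
  have h1 := hrow i j hij h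
  have h2 := hrow j i hij.symm hadj'
  have h3 : ∑ a ∈ ({i, j} : Finset (Fin R)), ∑ l ∈ univ.erase a, na G (f a) (f l) ≤ DD G f := by
    unfold DD
    exact Finset.sum_le_sum_of_subset_of_nonneg (subset_univ _)
      (fun a _ _ => Finset.sum_nonneg fun l _ => na_nonneg _ _)
  rw [Finset.sum_pair hij] at h3
  linarith

/-- a lower bound for the number of clique transversals -/
theorem card_tcl_ge {R : ℕ} (B : Fin R → Finset V) :
    (∏ l, ((B l).card : ℝ)) - (1 / 2) * ∑ f ∈ Fintype.piFinset B, DD G f ≤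
      ((tcl G B).card : ℝ) := by
  have hcard : ((tcl G B).card : ℝ) = ∑ f ∈ Fintype.piFinset B,
      (if (∀ i j, i ≠ j → G.Adj (f i) (f j)) then (1 : ℝ) else 0) := by
    unfold tcl
    rw [Finset.card_filter]
    push_cast
    rfl
  have hprod : (∏ l, ((B l).card : ℝ)) = ∑ _f ∈ Fintype.piFinset B, (1 : ℝ) := by
    rw [Finset.sum_const, nsmul_eq_mul, Fintype.card_piFinset]
    push_cast
    ring
  rw [hcard, hprod, Finset.mul_sum, ← Finset.sum_sub_distrib]
  refine Finset.sum_le_sum fun f _ => ?_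
  split_ifs with h
  · have := DD_nonneg (G := G) f
    linarith
  · push Not at h
    obtain ⟨i, j, hij, hadj⟩ := h
    have := two_le_DD hij hadj
    linarith

/-- the number of clique transversals and the missing pairs between two parts -/
theorem card_tcl_pair {R : ℕ} (B : Fin R → Finset V) {i j : Fin R} (hij : i ≠ j) :
    ((tcl G B).card : ℝ) + ∑ f ∈ Fintype.piFinset B, na G (f i) (f j) ≤
      ∏ l, ((B l).card : ℝ) := by
  have hcard : ((tcl G B).card : ℝ) = ∑ f ∈ Fintype.piFinset B,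
      (if (∀ i j, i ≠ j → G.Adj (f i) (f j)) then (1 : ℝ) else 0) := by
    unfold tcl
    rw [Finset.card_filter]
    push_cast
    rfl
  have hprod : (∏ l, ((B l).card : ℝ)) = ∑ _f ∈ Fintype.piFinset B, (1 : ℝ) := by
    rw [Finset.sum_const, nsmul_eq_mul, Fintype.card_piFinset]
    push_cast
    ring
  rw [hcard, hprod, ← Finset.sum_add_distrib]
  refine Finset.sum_le_sum fun f _ => ?_
  split_ifs with h
  · have : na G (f i) (f j) = 0 := by
      unfold na
      rw [if_pos (h i j hij)]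
    linarith
  · have := na_le_one (G := G) (f i) (f j)
    linarith

end H57LC
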