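import Pool.Agent.H57.LC.Zyk
import Pool.Agent.H57.LC.Tup
import Pool.Agent.H57.LC.Sizes

/-!
The first structure (note 3541, 4b): the sets `A i = {z : h_{Q₀}(z) = {q_i}}`.
-/

namespace H57LC

open Finset

set_option linter.unusedSectionVars false

section AStrAux

variable {V : Type*} [DecidableEq V] {G : SimpleGraph V} [DecidableRel G.Adj]

/-- two vertices with the same single non-neighbour in `Q` are not adjacent -/
lemma AStr_ind {S Q : Finset V} {R : ℕ} (hfree : clq G S (R + 1) = ∅) (hQ : Q ∈ clq G S R)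
    {t a b : V} (ht : t ∈ Q) (ha : a ∈ S) (hb : b ∈ S) (hsa : hs G Q a = {t})
    (hsb : hs G Q b = {t}) : ¬ G.Adj a b := by
  intro hab
  rw [mem_clq] at hQ
  have hadj : ∀ c : V, hs G Q c = {t} → ∀ u ∈ Q.erase t, G.Adj c u := by
    intro c hc u hu
    rw [mem_erase] at hu
    by_contra h
    have h1 : u ∈ hs G Q c := mem_hs.2 ⟨hu.2, h⟩
    rw [hc, mem_singleton] at h1
    exact hu.1 h1
  have hbn : b ∉ Q.erase t := fun h => G.loopless.irrefl b (hadj b hsb b h)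
  have han : a ∉ insert b (Q.erase t) := by
    rw [mem_insert]
    rintro (h | h)
    · rw [h] at hab
      exact G.loopless.irrefl b hab
    · exact G.loopless.irrefl a (hadj a hsa a h)
  have h0 : IsCl G (Q.erase t) := hQ.2.subset (erase_subset _ _)
  have h1 : IsCl G (insert b (Q.erase t)) := isCl_insert h0 (hadj b hsb)
  have h2 : IsCl G (insert a (insert b (Q.erase t))) := by
    refine isCl_insert h1 fun u hu => ?_
    rw [mem_insert] at hu
    rcases hu with rfl | hu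
    · exact hab
    · exact hadj a hsa u hu
  have h3 : insert a (insert b (Q.erase t)) ∈ clq G S (R + 1) := by
    rw [mem_clq]
    refine ⟨⟨?_, ?_⟩, h2⟩
    · exact insert_subset ha (insert_subset hb ((erase_subset _ _).trans hQ.1.1))
    · rw [card_insert_of_notMem han, card_insert_of_notMem hbn, card_erase_of_mem ht, hQ.1.2]
      have : 0 < Q.card := card_pos.2 ⟨t, ht⟩
      rw [hQ.1.2] at this
      omega
  rw [hfree] at h3
  exact absurd h3 (notMem_empty _)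

/-- a vertex without two non-neighbours in `Q` has exactly one -/
lemma AStr_one {S Q : Finset V} {R : ℕ} (hfree : clq G S (R + 1) = ∅) (hQ : Q ∈ clq G S R)
    {z : V} (hz : z ∈ S) (h : ¬ 2 ≤ (hs G Q z).card) : ∃ t ∈ Q, hs G Q z = {t} := by
  have h1 := card_pos.2 (hs_nonempty hfree hQ hz)
  obtain ⟨t, ht⟩ := card_eq_one.1 (by omega : (hs G Q z).card = 1)
  refine ⟨t, ?_, ht⟩
  have h2 : t ∈ hs G Q z := by
    rw [ht]
    exact mem_singleton_self t
  exact (mem_hs.1 h2).1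

/-- the sum of the sizes of disjoint subsets -/
lemma AStr_sum {S : Finset V} {R : ℕ} {A : Fin R → Finset V} (hsub : ∀ i, A i ⊆ S)
    (hdisj : ∀ i j, i ≠ j → Disjoint (A i) (A j)) : ∑ i, (A i).card ≤ S.card := by
  have h1 : (univ.biUnion A).card = ∑ i, (A i).card :=
    card_biUnion fun i _ j _ hij => hdisj i j hij
  rw [← h1]
  refine card_le_card fun z hz => ?_
  rw [mem_biUnion] at hz
  obtain ⟨i, -, hi⟩ := hz
  exact hsub i hi

/-- the clique transversals are at least the cliques inside `un A` -/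
lemma AStr_count {S : Finset V} {R : ℕ} (hR : 1 ≤ R) {A : Fin R → Finset V} (hsub : ∀ i, A i ⊆ S)
    (hdisj : ∀ i j, i ≠ j → Disjoint (A i) (A j))
    (hind : ∀ i, ∀ a ∈ A i, ∀ b ∈ A i, ¬ G.Adj a b) :
    ((clq G S R).card : ℝ) ≤ (tcl G A).card + ((S \ un A).card : ℝ) * (S.card : ℝ) ^ (R - 1) := by
  have h1 := sum_light (S := S) hsub hdisj hind (fun _ => (1 : ℝ))
  rw [sum_const, sum_const, nsmul_eq_mul, nsmul_eq_mul, mul_one, mul_one] at h1
  have h2 := card_meet (G := G) S (un A) hR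
  have h3 : (((clq G S R).filter (fun T => ¬ T ⊆ un A)).card : ℝ) ≤
      ((S \ un A).card : ℝ) * (S.card : ℝ) ^ (R - 1) := by exact_mod_cast h2
  have h4 := card_filter_add_card_filter_not (s := clq G S R) (fun T => T ⊆ un A)
  have h5 : (((clq G S R).filter (fun T => T ⊆ un A)).card : ℝ) +
      (((clq G S R).filter (fun T => ¬ T ⊆ un A)).card : ℝ) = ((clq G S R).card : ℝ) := by
    exact_mod_cast h4
  rw [← h5, h1]
  linarith

lemma AStr_tcl_le {R : ℕ} (A : Fin R → Finset V) :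
    ((tcl G A).card : ℝ) ≤ ∏ l, ((A l).card : ℝ) := by
  have h1 : (tcl G A).card ≤ (Fintype.piFinset A).card := card_le_card (filter_subset _ _)
  rw [Fintype.card_piFinset] at h1
  exact_mod_cast h1

end AStrAux

/-- the structure `AS` of a set with many `R`-cliques -/
theorem exists_AS (R r : ℕ) (hR : 2 ≤ R) (C₁ : ℝ) (hC₁ : 0 < C₁) :
    ∃ C : ℝ, 0 < C ∧ ∀ δ : ℝ, 0 < δ → ∃ m₀ : ℕ, ∀ m : ℕ, m₀ ≤ m →
      ∀ (V : Type) [DecidableEq V] (G : SimpleGraph V) [DecidableRel G.Adj] (S : Finset V),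
        S.card ≤ R * m + r → clq G S (R + 1) = ∅ →
        (m : ℝ) ^ R * (1 - C₁ / m) < ((clq G S R).card : ℝ) →
        ∃ A : Fin R → Finset V, AS G S R m C δ A := by
  obtain ⟨Cu, hCu0, hCu⟩ := prod_up R r (by omega)
  have hR1 : (1 : ℝ) ≤ R := by exact_mod_cast (by omega : 1 ≤ R)
  obtain ⟨Ch, hCh⟩ : ∃ Ch : ℝ, Ch = 2 * (R * C₁ + r) + (R - 1) * r := ⟨_, rfl⟩
  have hCh0 : 0 < Ch := by
    have h1 : 0 < (R : ℝ) * C₁ := by positivity
    have h2 : 0 ≤ ((R : ℝ) - 1) * r := mul_nonneg (by linarith) (by positivity)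
    have h3 : (0 : ℝ) ≤ r := by positivity
    rw [hCh]
    linarith
  obtain ⟨C₂, hC₂⟩ : ∃ C₂ : ℝ, C₂ = C₁ + Ch * ((R : ℝ) + r) ^ (R - 1) := ⟨_, rfl⟩
  have hC₂0 : 0 < C₂ := by
    rw [hC₂]
    positivity
  refine ⟨Ch + 9 / 4 * 2 ^ R * (Cu + C₂), by positivity, fun δ hδ => ?_⟩
  have hδ' : 0 < min δ (1 / 2) := lt_min hδ (by norm_num)
  obtain ⟨m₁, hm₁⟩ := sizes R r hR C₂ (min δ (1 / 2)) hC₂0 hδ'
  obtain ⟨m₂, hm₂⟩ := exists_nat_gt (2 * C₁)
  refine ⟨m₁ + m₂ + 1, fun m hm V _ G _ S hS hfree hB => ?_⟩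
  have hm0 : 0 < m := by omega
  have hmR : (1 : ℝ) ≤ m := by exact_mod_cast hm0
  have hm2 : 2 * C₁ ≤ m := by
    have : (m₂ : ℝ) ≤ m := by exact_mod_cast (by omega : m₂ ≤ m)
    linarith
  obtain ⟨Q, hQ, hge⟩ := exists_Q0 hR hm0 hC₁.le hm2 hS hfree hB
  rw [← hCh] at hge
  have hQc : Q.card = R := (mem_clq.1 hQ).1.2
  obtain ⟨q, hqi, hqm, hqs⟩ : ∃ q : Fin R → V, Function.Injective q ∧ (∀ i, q i ∈ Q) ∧
      ∀ t ∈ Q, ∃ i, q i = t := by
    refine ⟨fun i => ((Q.equivFinOfCardEq hQc).symm i : V), ?_, ?_, ?_⟩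
    · intro i j hij
      exact (Q.equivFinOfCardEq hQc).symm.injective (Subtype.ext hij)
    · exact fun i => ((Q.equivFinOfCardEq hQc).symm i).2
    · exact fun t ht => ⟨Q.equivFinOfCardEq hQc ⟨t, ht⟩, by simp⟩
  obtain ⟨A, hA⟩ : ∃ A : Fin R → Finset V, A = fun i => S.filter fun z => hs G Q z = {q i} :=
    ⟨_, rfl⟩
  have hmemA : ∀ i z, z ∈ A i ↔ z ∈ S ∧ hs G Q z = {q i} := by
    intro i z
    rw [hA]
    exact mem_filter
  have hsub : ∀ i, A i ⊆ S := fun i z hz => ((hmemA i z).1 hz).1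
  have hdisj : ∀ i j, i ≠ j → Disjoint (A i) (A j) := by
    intro i j hij
    rw [disjoint_left]
    intro z hz hz'
    have h1 := ((hmemA i z).1 hz).2
    rw [((hmemA j z).1 hz').2] at h1
    exact hij (hqi (singleton_injective h1)).symm
  have hind : ∀ i, ∀ a ∈ A i, ∀ b ∈ A i, ¬ G.Adj a b := by
    intro i a ha b hb
    rw [hmemA] at ha hb
    exact AStr_ind hfree hQ (hqm i) ha.1 hb.1 ha.2 hb.2
  have hX : ((S \ un A).card : ℝ) ≤ Ch := by
    refine le_trans ?_ hge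
    have h1 : (S \ un A).card ≤ H57LC.hge G S Q := by
      unfold H57LC.hge
      refine card_le_card fun z hz => ?_
      rw [mem_sdiff] at hz
      rw [mem_filter]
      refine ⟨hz.1, ?_⟩
      by_contra hcon
      obtain ⟨t, ht, hzt⟩ := AStr_one hfree hQ hz.1 hcon
      obtain ⟨i, rfl⟩ := hqs t ht
      exact hz.2 (mem_un.2 ⟨i, (hmemA i z).2 ⟨hz.1, hzt⟩⟩)
    exact_mod_cast h1
  -- the number of clique transversals
  have hmne : (m : ℝ) ≠ 0 := by positivity
  have hpow : (m : ℝ) ^ R = m * (m : ℝ) ^ (R - 1) := by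
    rw [← pow_succ']
    congr 1
    omega
  have hlow : (m : ℝ) ^ R - C₂ * (m : ℝ) ^ (R - 1) ≤ ((tcl G A).card : ℝ) := by
    have h1 := AStr_count (by omega : 1 ≤ R) hsub hdisj hind
    have h2 : (m : ℝ) ^ R * (1 - C₁ / m) = (m : ℝ) ^ R - C₁ * (m : ℝ) ^ (R - 1) := by
      rw [hpow]
      field_simp
    rw [h2] at hB
    have h3 : (S.card : ℝ) ≤ ((R : ℝ) + r) * m := by
      have h4 : (S.card : ℝ) ≤ R * m + r := by exact_mod_cast hS
      have h5 : (r : ℝ) * 1 ≤ r * m := mul_le_mul_of_nonneg_left hmR (by positivity)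
      linarith
    have h6 : (S.card : ℝ) ^ (R - 1) ≤ ((R : ℝ) + r) ^ (R - 1) * (m : ℝ) ^ (R - 1) := by
      rw [← mul_pow]
      exact pow_le_pow_left₀ (by positivity) h3 _
    have h7 : ((S \ un A).card : ℝ) * (S.card : ℝ) ^ (R - 1) ≤
        Ch * (((R : ℝ) + r) ^ (R - 1) * (m : ℝ) ^ (R - 1)) :=
      mul_le_mul hX h6 (by positivity) hCh0.le
    rw [hC₂]
    linarith
  have hlowP := hlow.trans (AStr_tcl_le (G := G) A)
  have hsum : ∑ i, (A i).card ≤ R * m + r := (AStr_sum hsub hdisj).trans hS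
  have hup : (∏ i, ((A i).card : ℝ)) ≤ (m : ℝ) ^ R + Cu * (m : ℝ) ^ (R - 1) :=
    hCu m hm0 (fun i => (A i).card) hsum
  have hsize := hm₁ m (by omega) (fun i => (A i).card) hsum hlowP
  have hsz : ∀ i, |((A i).card : ℝ) - m| ≤ δ * m ∧ |((A i).card : ℝ) - m| ≤ 1 / 2 * m := by
    intro i
    have h1 : |((A i).card : ℝ) - m| ≤ min δ (1 / 2) * m := hsize i
    exact ⟨h1.trans (mul_le_mul_of_nonneg_right (min_le_left _ _) (by linarith)),
      h1.trans (mul_le_mul_of_nonneg_right (min_le_right _ _) (by linarith))⟩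
  refine ⟨A, hsub, hdisj, hind, ?_, ?_, ?_, ?_⟩
  · have : 0 ≤ 9 / 4 * 2 ^ R * (Cu + C₂) := by positivity
    linarith
  · intro i
    have := (abs_le.1 (hsz i).1).1
    linarith
  · intro i
    have := (abs_le.1 (hsz i).1).2
    linarith
  · intro i j hij
    obtain ⟨P, hP⟩ : ∃ P : ℝ, P = ∏ l, ((A l).card : ℝ) := ⟨_, rfl⟩
    obtain ⟨N, hN⟩ : ∃ N : ℝ, N = ∑ f ∈ Fintype.piFinset A, na G (f i) (f j) := ⟨_, rfl⟩
    obtain ⟨t, ht⟩ : ∃ t : ℝ, t = ∑ z ∈ A i, ((hs G (A j) z).card : ℝ) := ⟨_, rfl⟩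
    have h1 := card_tcl_pair (G := G) A hij
    rw [← hN, ← hP] at h1
    have h2 := pair_sum A hij (na G)
    have h3 : ∑ y ∈ A i, ∑ z ∈ A j, na G y z = t := by
      rw [ht]
      exact sum_congr rfl fun y _ => sum_na (A j) y
    rw [h3, ← hN, ← hP] at h2
    rw [← hP] at hup
    have h4 : N ≤ (Cu + C₂) * (m : ℝ) ^ (R - 1) := by linarith
    have h5 : ((m : ℝ) / 2) ^ R ≤ P := by
      rw [hP]
      have h6 : ((m : ℝ) / 2) ^ R = ∏ _l : Fin R, ((m : ℝ) / 2) := by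
        rw [prod_const, card_univ, Fintype.card_fin]
      rw [h6]
      refine prod_le_prod (fun _ _ => by positivity) fun l _ => ?_
      have := (abs_le.1 (hsz l).2).1
      linarith
    have h7 : ∀ l, ((A l).card : ℝ) ≤ 3 / 2 * m := by
      intro l
      have := (abs_le.1 (hsz l).2).2
      linarith
    have ht0 : 0 ≤ t := by
      rw [ht]
      exact sum_nonneg fun _ _ => by positivity
    have hN0 : 0 ≤ N := by
      rw [hN]
      exact sum_nonneg fun _ _ => na_nonneg _ _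
    have h8 : ((m : ℝ) / 2) ^ R * t ≤ (3 / 2 * m) * (3 / 2 * m) * ((Cu + C₂) * (m : ℝ) ^ (R - 1)) := by
      calc ((m : ℝ) / 2) ^ R * t ≤ P * t := mul_le_mul_of_nonneg_right h5 ht0
        _ = ((A i).card : ℝ) * (A j).card * N := h2.symm
        _ ≤ (3 / 2 * m) * (3 / 2 * m) * N := by
            refine mul_le_mul_of_nonneg_right ?_ hN0
            exact mul_le_mul (h7 i) (h7 j) (by positivity) (by positivity)
        _ ≤ _ := mul_le_mul_of_nonneg_left h4 (by positivity)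
    have h9 : (m : ℝ) ^ R * t ≤ (m : ℝ) ^ R * (9 / 4 * 2 ^ R * (Cu + C₂) * m) := by
      have h10 : (m : ℝ) ^ R = 2 ^ R * ((m : ℝ) / 2) ^ R := by
        rw [← mul_pow]
        congr 1
        ring
      calc (m : ℝ) ^ R * t = 2 ^ R * (((m : ℝ) / 2) ^ R * t) := by rw [h10]; ring
        _ ≤ 2 ^ R * ((3 / 2 * m) * (3 / 2 * m) * ((Cu + C₂) * (m : ℝ) ^ (R - 1))) :=
            mul_le_mul_of_nonneg_left h8 (by positivity)
        _ = (m * (m : ℝ) ^ (R - 1)) * (9 / 4 * 2 ^ R * (Cu + C₂) * m) := by ring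
        _ = _ := by rw [← hpow]
    have h11 := le_of_mul_le_mul_left h9 (by positivity)
    rw [← ht]
    have h12 : 0 ≤ Ch * m := by positivity
    linarith

end H57LC
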