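import Pool.Agent.H57.LC.Tup

/-!
The light sets (note 3541, 4c).
-/

namespace H57LC

open Finset

set_option linter.unusedSectionVars false

section aux

variable {V : Type*} [DecidableEq V] {G : SimpleGraph V} [DecidableRel G.Adj]

/-- a family with few missing pairs and large parts has a clique transversal -/
lemma tcl_nonempty_of_large {R : ℕ} (A' : Fin R → Finset V) {C m : ℝ} (hm : 0 < m)
    (hmC : 2 * (R : ℝ) ^ 2 * C < m) (hC : 0 ≤ C)
    (hlarge : ∀ l, m / 2 ≤ ((A' l).card : ℝ))
    (htot : ∀ i j, i ≠ j → ∑ z ∈ A' i, ((hs G (A' j) z).card : ℝ) ≤ C * m) :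
    (tcl G A').Nonempty := by
  obtain ⟨P, hP⟩ : ∃ P : ℝ, P = ∏ l, ((A' l).card : ℝ) := ⟨_, rfl⟩
  have hPpos : 0 < P := by
    rw [hP]
    exact prod_pos fun l _ => lt_of_lt_of_le (by linarith) (hlarge l)
  have hpair : ∀ i j : Fin R, i ≠ j →
      ∑ f ∈ Fintype.piFinset A', na G (f i) (f j) ≤ 4 * C * P / m := by
    intro i j hij
    have h1 := pair_sum A' hij (na G)
    rw [← hP] at h1
    have h2 : ∑ y ∈ A' i, ∑ z ∈ A' j, na G y z ≤ C * m := by
      calc ∑ y ∈ A' i, ∑ z ∈ A' j, na G y z = ∑ y ∈ A' i, ((hs G (A' j) y).card : ℝ) :=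
            sum_congr rfl fun y _ => sum_na _ _
        _ ≤ C * m := htot i j hij
    have hX0 : 0 ≤ ∑ f ∈ Fintype.piFinset A', na G (f i) (f j) :=
      sum_nonneg fun f _ => na_nonneg _ _
    generalize (∑ f ∈ Fintype.piFinset A', na G (f i) (f j)) = X at h1 hX0 ⊢
    have hi := hlarge i
    have hj := hlarge j
    have h3 : (m / 2) * (m / 2) * X ≤ P * (C * m) := by
      have a1 : (m / 2) * (m / 2) ≤ ((A' i).card : ℝ) * (A' j).card :=
        mul_le_mul hi hj (by linarith) (Nat.cast_nonneg _)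
      calc (m / 2) * (m / 2) * X ≤ ((A' i).card : ℝ) * (A' j).card * X :=
            mul_le_mul_of_nonneg_right a1 hX0
        _ = P * ∑ y ∈ A' i, ∑ z ∈ A' j, na G y z := h1
        _ ≤ P * (C * m) := mul_le_mul_of_nonneg_left h2 hPpos.le
    rw [le_div_iff₀ hm]
    have h4 : (X * m) * m ≤ (4 * C * P) * m := by nlinarith [h3]
    exact le_of_mul_le_mul_right h4 hm
  have hDD : ∑ f ∈ Fintype.piFinset A', DD G f ≤ (R : ℝ) ^ 2 * (4 * C * P / m) := by
    have e : ∑ f ∈ Fintype.piFinset A', DD G f =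
        ∑ i : Fin R, ∑ j ∈ univ.erase i, ∑ f ∈ Fintype.piFinset A', na G (f i) (f j) := by
      unfold DD
      rw [sum_comm]
      refine sum_congr rfl fun i _ => ?_
      rw [sum_comm]
    rw [e]
    have hnn : 0 ≤ 4 * C * P / m :=
      div_nonneg (mul_nonneg (mul_nonneg (by norm_num) hC) hPpos.le) hm.le
    calc ∑ i : Fin R, ∑ j ∈ univ.erase i, ∑ f ∈ Fintype.piFinset A', na G (f i) (f j)
        ≤ ∑ _i : Fin R, ∑ _j : Fin R, (4 * C * P / m) := by
          refine sum_le_sum fun i _ => ?_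
          calc ∑ j ∈ univ.erase i, ∑ f ∈ Fintype.piFinset A', na G (f i) (f j)
              ≤ ∑ _j ∈ univ.erase i, (4 * C * P / m) :=
                sum_le_sum fun j hj => hpair i j (ne_of_mem_erase hj).symm
            _ ≤ ∑ _j : Fin R, (4 * C * P / m) :=
                sum_le_sum_of_subset_of_nonneg (erase_subset _ _) fun _ _ _ => hnn
      _ = (R : ℝ) ^ 2 * (4 * C * P / m) := by
          simp only [sum_const, card_univ, Fintype.card_fin, nsmul_eq_mul]
          ring
  have hge := card_tcl_ge (G := G) A'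
  have hlt : (R : ℝ) ^ 2 * (4 * C * P / m) < 2 * P := by
    have : (R : ℝ) ^ 2 * (4 * C * P / m) = (2 * (R : ℝ) ^ 2 * C) * (2 * P) / m := by ring
    rw [this, div_lt_iff₀ hm, mul_comm (2 * P) m]
    exact mul_lt_mul_of_pos_right hmC (by linarith)
  have hpos : 0 < ((tcl G A').card : ℝ) := by
    rw [← hP] at hge
    linarith
  exact card_pos.1 (by exact_mod_cast hpos)

lemma hs_card_filter {T : Finset V} {z : V} :
    ((T.filter fun t => G.Adj z t).card : ℝ) = (T.card : ℝ) - ((hs G T z).card : ℝ) := by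
  have h := card_filter_add_card_filter_not (s := T) (fun t => G.Adj z t)
  unfold hs
  have h' : (((T.filter fun t => G.Adj z t).card + (T.filter fun t => ¬ G.Adj z t).card : ℕ) : ℝ)
      = (T.card : ℝ) := by rw [h]
  push_cast at h'
  linarith

lemma hs_card_filter2 {T : Finset V} {z z' : V} :
    (T.card : ℝ) - ((hs G T z).card : ℝ) - ((hs G T z').card : ℝ) ≤
      ((T.filter fun t => G.Adj z t ∧ G.Adj z' t).card : ℝ) := by
  have h1 : T ⊆ (T.filter fun t => G.Adj z t ∧ G.Adj z' t) ∪ (hs G T z ∪ hs G T z') := by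
    intro t ht
    by_cases h : G.Adj z t
    · by_cases h' : G.Adj z' t
      · exact mem_union_left _ (mem_filter.2 ⟨ht, h, h'⟩)
      · exact mem_union_right _ (mem_union_right _ (mem_hs.2 ⟨ht, h'⟩))
    · exact mem_union_right _ (mem_union_left _ (mem_hs.2 ⟨ht, h⟩))
  have h2 := (card_le_card h1).trans ((card_union_le _ _).trans
    (Nat.add_le_add_left (card_union_le _ _) _))
  have h3 : (T.card : ℝ) ≤ ((T.filter fun t => G.Adj z t ∧ G.Adj z' t).card : ℝ) +
      (((hs G T z).card : ℝ) + ((hs G T z').card : ℝ)) := by exact_mod_cast h2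
  linarith

lemma hs_card_le_add {T T' : Finset V} (z : V) :
    ((hs G T z).card : ℝ) ≤ ((hs G T' z).card : ℝ) + ((T \ T').card : ℝ) := by
  have h1 : hs G T z ⊆ hs G T' z ∪ (T \ T') := by
    intro t ht
    rw [mem_hs] at ht
    by_cases h : t ∈ T'
    · exact mem_union_left _ (mem_hs.2 ⟨h, ht.2⟩)
    · exact mem_union_right _ (mem_sdiff.2 ⟨ht.1, h⟩)
  have h2 := (card_le_card h1).trans (card_union_le _ _)
  exact_mod_cast h2

end aux

/-- from `AS` to `LS`: `B i = {z ∈ S : z misses at most η₁ m of A j for all j ≠ i}` -/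
theorem exists_LS_of_AS (R : ℕ) (hR : 2 ≤ R) (C η₁ : ℝ) (hC : 0 < C) (hη : 0 < η₁)
    (hη1 : η₁ ≤ 1 / 16) :
    ∃ C' : ℝ, 0 < C' ∧ ∀ δ : ℝ, 0 < δ → ∃ δ' : ℝ, 0 < δ' ∧ ∃ m₀ : ℕ, ∀ m : ℕ, m₀ ≤ m →
      ∀ (V : Type) [DecidableEq V] (G : SimpleGraph V) [DecidableRel G.Adj] (S : Finset V)
        (A : Fin R → Finset V), clq G S (R + 1) = ∅ → AS G S R m C δ' A →
        ∃ B : Fin R → Finset V, LS G S R m C' η₁ δ B := by
  have hR0 : (0 : ℝ) < R := by
    have : 0 < R := by omega
    exact_mod_cast this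
  refine ⟨4 * C + (R : ℝ) ^ 2 * C / η₁, by positivity, fun δ hδ => ?_⟩
  refine ⟨min (δ / 2) (1 / 4), by positivity, ?_⟩
  obtain ⟨m₀, hm₀⟩ := exists_nat_gt (1 + 2 * (R : ℝ) ^ 2 * C + 2 * R * C / η₁ ^ 2 + C / η₁ +
    2 * C / δ + 2 * R * C / (η₁ * δ) + 4 * C)
  refine ⟨m₀, fun m hm V _ G _ S A hfree hA => ?_⟩
  have hmm : (m₀ : ℝ) ≤ m := by exact_mod_cast hm
  have p1 : 0 ≤ 2 * (R : ℝ) ^ 2 * C := by positivity
  have p2 : 0 ≤ 2 * R * C / η₁ ^ 2 := by positivity
  have p3 : 0 ≤ C / η₁ := by positivity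
  have p4 : 0 ≤ 2 * C / δ := by positivity
  have p5 : 0 ≤ 2 * R * C / (η₁ * δ) := by positivity
  have hm1 : (1 : ℝ) ≤ m := by linarith
  have hm2 : 2 * (R : ℝ) ^ 2 * C < m := by linarith
  have hm3 : 2 * R * C / η₁ ^ 2 ≤ m := by linarith
  have hm4 : C / η₁ ≤ m := by linarith
  have hm5 : 2 * C / δ ≤ m := by linarith
  have hm6 : 2 * R * C / (η₁ * δ) ≤ m := by linarith
  have hm7 : 4 * C ≤ m := by linarith
  have hmpos : (0 : ℝ) < m := by linarith
  set δ' : ℝ := min (δ / 2) (1 / 4) with hδ'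
  have hδ1 : δ' ≤ δ / 2 := min_le_left _ _
  have hδ2 : δ' ≤ 1 / 4 := min_le_right _ _
  have hδ0 : 0 < δ' := by rw [hδ']; positivity
  have n3 : 2 * R * C / η₁ ≤ η₁ * m := by
    rw [div_le_iff₀ (by positivity)] at hm3 ⊢
    nlinarith
  have n4 : C ≤ η₁ * m := by
    rw [div_le_iff₀ hη] at hm4
    linarith
  have n5 : 2 * C ≤ δ * m := by
    rw [div_le_iff₀ hδ] at hm5
    linarith
  have n6 : 2 * R * C / η₁ ≤ δ * m := by
    rw [div_le_iff₀ (by positivity)] at hm6 ⊢
    nlinarith
  have hη1m : η₁ * m ≤ m / 16 := by nlinarith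
  classical
  -- the light sets
  set B : Fin R → Finset V := fun i =>
    S.filter fun z => ∀ j, j ≠ i → ((hs G (A j) z).card : ℝ) ≤ η₁ * m with hB
  have memB : ∀ {i : Fin R} {z : V}, z ∈ B i ↔
      z ∈ S ∧ ∀ j, j ≠ i → ((hs G (A j) z).card : ℝ) ≤ η₁ * m := by
    intro i z
    simp only [hB, mem_filter]
  have Alarge : ∀ l, 3 / 4 * (m : ℝ) ≤ ((A l).card : ℝ) := by
    intro l
    have h := hA.size_lo l
    nlinarith
  -- existence of transversals in subfamilies
  have key : ∀ A' : Fin R → Finset V, (∀ l, A' l ⊆ A l) →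
      (∀ l, (m : ℝ) / 2 ≤ ((A' l).card : ℝ)) → (tcl G A').Nonempty := by
    intro A' hsub hlarge
    refine tcl_nonempty_of_large A' hmpos hm2 hC.le hlarge fun i j hij => ?_
    calc ∑ z ∈ A' i, ((hs G (A' j) z).card : ℝ) ≤ ∑ z ∈ A' i, ((hs G (A j) z).card : ℝ) := by
          refine sum_le_sum fun z _ => ?_
          exact_mod_cast card_le_card (hs_mono (hsub j) z)
      _ ≤ ∑ z ∈ A i, ((hs G (A j) z).card : ℝ) :=
          sum_le_sum_of_subset_of_nonneg (hsub i) fun _ _ _ => Nat.cast_nonneg _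
      _ ≤ C * m := hA.tot i j hij
  have hdisj : ∀ i j, i ≠ j → Disjoint (B i) (B j) := by
    intro i j hij
    rw [disjoint_left]
    intro z hzi hzj
    have hzS : z ∈ S := (memB.1 hzi).1
    have hall : ∀ l, ((hs G (A l) z).card : ℝ) ≤ η₁ * m := by
      intro l
      by_cases h : l = i
      · subst h
        exact (memB.1 hzj).2 l hij
      · exact (memB.1 hzi).2 l h
    obtain ⟨f, hf⟩ := key (fun l => (A l).filter fun t => G.Adj z t) (fun l => filter_subset _ _)
      (fun l => by
        rw [hs_card_filter]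
        have h1 := hall l
        have h2 := Alarge l
        linarith)
    have hf' := mem_tcl.1 hf
    have hT : im f ∈ clq G S R := im_mem_clq
      (fun l => (filter_subset _ _).trans (hA.sub l)) hf
    obtain ⟨t, ht⟩ := hs_nonempty hfree hT hzS
    rw [mem_hs] at ht
    obtain ⟨l, rfl⟩ := mem_im.1 ht.1
    exact ht.2 (mem_filter.1 (hf'.1 l)).2
  have hind : ∀ i, ∀ a ∈ B i, ∀ b ∈ B i, ¬ G.Adj a b := by
    intro i a ha b hb hab
    have ha' := memB.1 ha
    have hb' := memB.1 hb
    obtain ⟨f, hf⟩ := key (fun l => if l = i then A l else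
        (A l).filter fun t => G.Adj a t ∧ G.Adj b t) (fun l => by
        split_ifs
        · exact Subset.rfl
        · exact filter_subset _ _)
      (fun l => by
        split_ifs with h
        · have h2 := Alarge l
          linarith
        · have h1 := ha'.2 l h
          have h2 := hb'.2 l h
          have h3 := Alarge l
          have h4 := hs_card_filter2 (G := G) (T := A l) (z := a) (z' := b)
          linarith)
    have hf' := mem_tcl.1 hf
    have hadj : ∀ l, l ≠ i → G.Adj a (f l) ∧ G.Adj b (f l) := by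
      intro l hl
      have h := hf'.1 l
      rw [if_neg hl] at h
      exact (mem_filter.1 h).2
    have hg : Function.update f i a ∈ tcl G (fun _ : Fin R => S) := by
      rw [mem_tcl]
      constructor
      · intro l
        by_cases hl : l = i
        · subst hl
          rw [Function.update_self]
          exact ha'.1
        · rw [Function.update_of_ne hl]
          have h := hf'.1 l
          rw [if_neg hl] at h
          exact hA.sub l (mem_filter.1 h).1
      · intro l l' hll'
        by_cases hl : l = i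
        · subst hl
          rw [Function.update_self, Function.update_of_ne hll'.symm]
          exact (hadj l' hll'.symm).1
        · rw [Function.update_of_ne hl]
          by_cases hl' : l' = i
          · subst hl'
            rw [Function.update_self]
            exact (hadj l hl).1.symm
          · rw [Function.update_of_ne hl']
            exact hf'.2 l l' hll'
    have hT : im (Function.update f i a) ∈ clq G S R := im_mem_clq (fun _ => Subset.rfl) hg
    obtain ⟨t, ht⟩ := hs_nonempty hfree hT hb'.1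
    rw [mem_hs] at ht
    obtain ⟨l, rfl⟩ := mem_im.1 ht.1
    apply ht.2
    by_cases hl : l = i
    · subst hl
      rw [Function.update_self]
      exact hab.symm
    · rw [Function.update_of_ne hl]
      exact (hadj l hl).2
  -- differences
  have hBA : ∀ i j, i ≠ j → Disjoint (B i) (A j) := by
    intro i j hij
    rw [disjoint_left]
    intro z hz hzA
    have h1 := (memB.1 hz).2 j hij.symm
    have h2 : hs G (A j) z = A j := by
      apply Subset.antisymm (hs_subset _ _)
      intro t ht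
      exact mem_hs.2 ⟨ht, hA.ind j z hzA t ht⟩
    rw [h2] at h1
    have h3 := Alarge j
    linarith
  have hBmA : ∀ i, B i \ A i ⊆ S \ un A := by
    intro i z hz
    rw [mem_sdiff] at hz ⊢
    refine ⟨(memB.1 hz.1).1, fun h => ?_⟩
    obtain ⟨j, hj⟩ := mem_un.1 h
    by_cases hji : j = i
    · subst hji
      exact hz.2 hj
    · exact (disjoint_left.1 (hBA i j (Ne.symm hji))) hz.1 hj
  have cBmA : ∀ i, ((B i \ A i).card : ℝ) ≤ C := by
    intro i
    have h : ((B i \ A i).card : ℝ) ≤ ((S \ un A).card : ℝ) := by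
      exact_mod_cast card_le_card (hBmA i)
    exact h.trans hA.hX
  have cAmB : ∀ i, ((A i \ B i).card : ℝ) ≤ R * C / η₁ := by
    intro i
    rw [le_div_iff₀ hη]
    have h1 : ((A i \ B i).card : ℝ) * (η₁ * m) ≤
        ∑ z ∈ A i, ∑ j ∈ univ.erase i, ((hs G (A j) z).card : ℝ) := by
      calc ((A i \ B i).card : ℝ) * (η₁ * m) = ∑ _z ∈ A i \ B i, (η₁ * m) := by
            rw [sum_const, nsmul_eq_mul]
        _ ≤ ∑ z ∈ A i \ B i, ∑ j ∈ univ.erase i, ((hs G (A j) z).card : ℝ) := by
            refine sum_le_sum fun z hz => ?_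
            rw [mem_sdiff] at hz
            have hzS : z ∈ S := hA.sub i hz.1
            have hn : ¬ ∀ j, j ≠ i → ((hs G (A j) z).card : ℝ) ≤ η₁ * m := fun h =>
              hz.2 (memB.2 ⟨hzS, h⟩)
            push Not at hn
            obtain ⟨j, hji, hj⟩ := hn
            refine hj.le.trans ?_
            exact single_le_sum (f := fun j => ((hs G (A j) z).card : ℝ))
              (fun _ _ => Nat.cast_nonneg _) (mem_erase.2 ⟨hji, mem_univ _⟩)
        _ ≤ ∑ z ∈ A i, ∑ j ∈ univ.erase i, ((hs G (A j) z).card : ℝ) :=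
            sum_le_sum_of_subset_of_nonneg sdiff_subset fun _ _ _ =>
              sum_nonneg fun _ _ => Nat.cast_nonneg _
    have h2 : ∑ z ∈ A i, ∑ j ∈ univ.erase i, ((hs G (A j) z).card : ℝ) ≤ R * (C * m) := by
      rw [sum_comm]
      calc ∑ j ∈ univ.erase i, ∑ z ∈ A i, ((hs G (A j) z).card : ℝ)
          ≤ ∑ _j ∈ univ.erase i, (C * m) :=
            sum_le_sum fun j hj => hA.tot i j (ne_of_mem_erase hj).symm
        _ ≤ ∑ _j : Fin R, (C * m) :=
            sum_le_sum_of_subset_of_nonneg (erase_subset _ _) fun _ _ _ => by positivity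
        _ = R * (C * m) := by
            rw [sum_const, card_univ, Fintype.card_fin, nsmul_eq_mul]
    have h3 : ((A i \ B i).card : ℝ) * η₁ * m ≤ R * C * m := by
      calc ((A i \ B i).card : ℝ) * η₁ * m = ((A i \ B i).card : ℝ) * (η₁ * m) := by ring
        _ ≤ R * (C * m) := h1.trans h2
        _ = R * C * m := by ring
    exact le_of_mul_le_mul_right h3 hmpos
  have cBle : ∀ i, ((B i).card : ℝ) ≤ ((A i).card : ℝ) + C := by
    intro i
    have h : (B i).card ≤ (A i).card + (B i \ A i).card := by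
      have h1 : B i ⊆ A i ∪ (B i \ A i) := by
        intro z hz
        by_cases h : z ∈ A i
        · exact mem_union_left _ h
        · exact mem_union_right _ (mem_sdiff.2 ⟨hz, h⟩)
      exact (card_le_card h1).trans (card_union_le _ _)
    have h' : ((B i).card : ℝ) ≤ ((A i).card : ℝ) + ((B i \ A i).card : ℝ) := by exact_mod_cast h
    linarith [cBmA i]
  have cAle : ∀ i, ((A i).card : ℝ) ≤ ((B i).card : ℝ) + R * C / η₁ := by
    intro i
    have h : (A i).card ≤ (B i).card + (A i \ B i).card := by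
      have h1 : A i ⊆ B i ∪ (A i \ B i) := by
        intro z hz
        by_cases h : z ∈ B i
        · exact mem_union_left _ h
        · exact mem_union_right _ (mem_sdiff.2 ⟨hz, h⟩)
      exact (card_le_card h1).trans (card_union_le _ _)
    have h' : ((A i).card : ℝ) ≤ ((B i).card : ℝ) + ((A i \ B i).card : ℝ) := by exact_mod_cast h
    linarith [cAmB i]
  refine ⟨B, ⟨fun i => filter_subset _ _, hdisj, hind, ?_, ?_, ?_, ?_, ?_, ?_⟩⟩
  · -- hX
    have h1 : S \ un B ⊆ (S \ un A) ∪ univ.biUnion fun i => A i \ B i := by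
      intro z hz
      rw [mem_sdiff] at hz
      by_cases h : z ∈ un A
      · obtain ⟨i, hi⟩ := mem_un.1 h
        refine mem_union_right _ (mem_biUnion.2 ⟨i, mem_univ _, mem_sdiff.2 ⟨hi, fun hb => ?_⟩⟩)
        exact hz.2 (mem_un.2 ⟨i, hb⟩)
      · exact mem_union_left _ (mem_sdiff.2 ⟨hz.1, h⟩)
    have h2 := (card_le_card h1).trans ((card_union_le _ _).trans
      (Nat.add_le_add_left card_biUnion_le _))
    have h3 : ((S \ un B).card : ℝ) ≤ ((S \ un A).card : ℝ) +
        ∑ i : Fin R, ((A i \ B i).card : ℝ) := by exact_mod_cast h2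
    have h4 : ∑ i : Fin R, ((A i \ B i).card : ℝ) ≤ (R : ℝ) ^ 2 * C / η₁ := by
      calc ∑ i : Fin R, ((A i \ B i).card : ℝ) ≤ ∑ _i : Fin R, (R * C / η₁) :=
            sum_le_sum fun i _ => cAmB i
        _ = (R : ℝ) ^ 2 * C / η₁ := by
            rw [sum_const, card_univ, Fintype.card_fin, nsmul_eq_mul]
            ring
    linarith [hA.hX]
  · -- size_lo
    intro i
    have h1 := hA.size_lo i
    have h2 := cAle i
    have h3 : δ' * m ≤ δ / 2 * m := by gcongr
    have h4 : (2 * R * C / η₁ : ℝ) = 2 * (R * C / η₁) := by ring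
    rw [h4] at n6
    linarith
  · -- size_hi
    intro i
    have h1 := hA.size_hi i
    have h2 := cBle i
    have h3 : δ' * m ≤ δ / 2 * m := by gcongr
    linarith
  · -- row
    intro i j hij z hz
    have h1 := (memB.1 hz).2 j hij.symm
    have h2 := hs_card_le_add (G := G) (T := B j) (T' := A j) z
    linarith [cBmA j]
  · -- tot
    intro i j hij
    have h1 : ∑ z ∈ B i, ((hs G (B j) z).card : ℝ) ≤
        ∑ z ∈ B i, (((hs G (A j) z).card : ℝ) + C) := by
      refine sum_le_sum fun z _ => ?_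
      have h2 := hs_card_le_add (G := G) (T := B j) (T' := A j) z
      linarith [cBmA j]
    have h2 : ∑ z ∈ B i, ((hs G (A j) z).card : ℝ) ≤ C * m + C * (η₁ * m) := by
      have e : B i = (B i ∩ A i) ∪ (B i \ A i) := by
        rw [union_comm, sdiff_union_inter]
      have hd : Disjoint (B i ∩ A i) (B i \ A i) := (disjoint_sdiff_inter _ _).symm
      have h3 : ∑ z ∈ B i ∩ A i, ((hs G (A j) z).card : ℝ) ≤ C * m :=
        (sum_le_sum_of_subset_of_nonneg inter_subset_right
          (fun _ _ _ => Nat.cast_nonneg _)).trans (hA.tot i j hij)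
      have h4 : ∑ z ∈ B i \ A i, ((hs G (A j) z).card : ℝ) ≤ C * (η₁ * m) := by
        calc ∑ z ∈ B i \ A i, ((hs G (A j) z).card : ℝ) ≤ ∑ _z ∈ B i \ A i, (η₁ * m) :=
              sum_le_sum fun z hz => (memB.1 (mem_sdiff.1 hz).1).2 j hij.symm
          _ = ((B i \ A i).card : ℝ) * (η₁ * m) := by rw [sum_const, nsmul_eq_mul]
          _ ≤ C * (η₁ * m) := by
              have := cBmA i
              gcongr
      have h5 : ∑ z ∈ B i, ((hs G (A j) z).card : ℝ) =
          ∑ z ∈ B i ∩ A i, ((hs G (A j) z).card : ℝ) +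
            ∑ z ∈ B i \ A i, ((hs G (A j) z).card : ℝ) := by
        rw [← sum_union hd, ← e]
      linarith
    have h3 : ∑ z ∈ B i, (((hs G (A j) z).card : ℝ) + C) =
        ∑ z ∈ B i, ((hs G (A j) z).card : ℝ) + ((B i).card : ℝ) * C := by
      rw [sum_add_distrib, sum_const, nsmul_eq_mul]
    have h4 : ((B i).card : ℝ) ≤ 2 * m := by
      have h5 := cBle i
      have h6 := hA.size_hi i
      nlinarith
    have h5 : ((B i).card : ℝ) * C ≤ 2 * m * C := by gcongr
    have h6 : C * (η₁ * m) ≤ C * m := by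
      have : η₁ * m ≤ m := by linarith
      gcongr
    have h7 : 0 ≤ (R : ℝ) ^ 2 * C / η₁ * m := by positivity
    linarith
  · -- heavy
    intro z hz i
    rw [mem_sdiff] at hz
    have hn : ¬ ∀ j, j ≠ i → ((hs G (A j) z).card : ℝ) ≤ η₁ * m := fun h =>
      hz.2 (mem_un.2 ⟨i, memB.2 ⟨hz.1, h⟩⟩)
    push Not at hn
    obtain ⟨j, hji, hj⟩ := hn
    refine ⟨j, hji, ?_⟩
    have h2 := hs_card_le_add (G := G) (T := A j) (T' := B j) z
    have h3 := cAmB j
    have h4 : (2 * R * C / η₁ : ℝ) = 2 * (R * C / η₁) := by ring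
    rw [h4] at n3
    linarith

end H57LC
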