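import Pool.Agent.H57.LC.Defs

/-!
Counting `R`-cliques in a set without `(R+1)`-cliques (note 3541, 4b).
-/

namespace H57LC

open Finset

set_option linter.unusedSectionVars false

/-- weighted AM-GM -/
lemma amgm_step {s : ℕ} (hs : 1 ≤ s) {d t m : ℝ} (hd : 0 ≤ d) (ht : 0 ≤ t) (hm : 0 < m)
    (h : (s : ℝ) ^ s * t ≤ d ^ s) : (((s : ℝ) + 1) * m - d) * t ≤ m ^ (s + 1) := by
  have hs0 : (0 : ℝ) < s := by exact_mod_cast hs
  have hm0 : 0 ≤ m ^ (s + 1) := by positivity
  rcases le_or_gt (((s : ℝ) + 1) * m - d) 0 with h0 | h0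
  · exact (mul_nonpos_of_nonpos_of_nonneg h0 ht).trans hm0
  rcases hd.eq_or_lt with hd0 | hd0
  · have h1 : t = 0 := by
      rw [← hd0, zero_pow (by omega)] at h
      have h2 : 0 < (s : ℝ) ^ s := by positivity
      nlinarith
    rw [h1, mul_zero]
    exact hm0
  set x : ℝ := d / s with hx
  have hx0 : 0 < x := by positivity
  have hdx : d = s * x := by rw [hx]; field_simp
  have htx : t ≤ x ^ s := by
    rw [hdx, mul_pow] at h
    exact le_of_mul_le_mul_left h (by positivity)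
  have hB := one_add_mul_le_pow (a := m / x - 1) (by
    have : 0 < m / x := by positivity
    linarith) (s + 1)
  have h1 : x ^ (s + 1) * (1 + ((s + 1 : ℕ) : ℝ) * (m / x - 1)) ≤
      x ^ (s + 1) * (1 + (m / x - 1)) ^ (s + 1) :=
    mul_le_mul_of_nonneg_left hB (by positivity)
  have h2 : x ^ (s + 1) * (1 + (m / x - 1)) ^ (s + 1) = m ^ (s + 1) := by
    rw [← mul_pow]
    congr 1
    field_simp
    ring
  have h3 : x ^ (s + 1) * (1 + ((s + 1 : ℕ) : ℝ) * (m / x - 1)) =
      (((s : ℝ) + 1) * m - s * x) * x ^ s := by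
    push_cast
    rw [pow_succ]
    field_simp
    ring
  calc (((s : ℝ) + 1) * m - d) * t ≤ (((s : ℝ) + 1) * m - d) * x ^ s :=
        mul_le_mul_of_nonneg_left htx h0.le
    _ = (((s : ℝ) + 1) * m - s * x) * x ^ s := by rw [← hdx]
    _ ≤ m ^ (s + 1) := by rw [← h3, ← h2]; exact h1

/-- AM-GM for a finite family -/
lemma prod_le_avg {R : ℕ} (hR : 0 < R) (a : Fin R → ℝ) (ha : ∀ i, 0 ≤ a i) :
    ∏ i, a i ≤ ((∑ i, a i) / R) ^ R := by
  have hR0 : (0 : ℝ) < R := by exact_mod_cast hR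
  have h := Real.geom_mean_le_arith_mean_weighted (univ : Finset (Fin R))
    (fun _ => (1 : ℝ) / R) a (fun _ _ => by positivity)
    (by simp [Finset.sum_const, hR0.ne']) (fun i _ => ha i)
  have h1 : (∏ i, a i ^ ((1 : ℝ) / R)) ^ R = ∏ i, a i := by
    rw [← Finset.prod_pow]
    refine Finset.prod_congr rfl fun i _ => ?_
    rw [← Real.rpow_natCast, ← Real.rpow_mul (ha i), one_div, inv_mul_cancel₀ hR0.ne',
      Real.rpow_one]
  have h2 : ∑ i, (1 : ℝ) / R * a i = (∑ i, a i) / R := by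
    rw [← Finset.mul_sum]
    ring
  rw [h2] at h
  rw [← h1]
  exact pow_le_pow_left₀ (Finset.prod_nonneg fun i _ => Real.rpow_nonneg (ha i) _) h R

variable {V : Type*} [DecidableEq V] {G : SimpleGraph V} [DecidableRel G.Adj]

/-- the number of `s`-cliques in the neighbourhood of `v` is the number of `(s+1)`-cliques through
`v` -/
lemma clq_through (S : Finset V) (s : ℕ) {v : V} (hv : v ∈ S) :
    (clq G (S.filter (G.Adj v)) s).card = ((clq G S (s + 1)).filter fun Q => v ∈ Q).card := by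
  refine Finset.card_nbij' (fun T => insert v T) (fun Q => Q.erase v) ?_ ?_ ?_ ?_
  · intro T hT
    rw [mem_coe, mem_clq] at hT
    have hvT : v ∉ T := fun h => G.loopless.irrefl v (mem_filter.1 (hT.1.1 h)).2
    simp only [coe_filter, Set.mem_ofPred_eq, mem_clq]
    refine ⟨⟨⟨?_, ?_⟩, ?_⟩, mem_insert_self _ _⟩
    · exact insert_subset hv fun a ha => (mem_filter.1 (hT.1.1 ha)).1
    · rw [card_insert_of_notMem hvT, hT.1.2]
    · exact isCl_insert hT.2 fun a ha => (mem_filter.1 (hT.1.1 ha)).2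
  · intro Q hQ
    simp only [coe_filter, Set.mem_ofPred_eq, mem_clq] at hQ
    rw [mem_coe, mem_clq]
    refine ⟨⟨?_, ?_⟩, hQ.1.2.subset (erase_subset _ _)⟩
    · intro a ha
      rw [mem_erase] at ha
      exact mem_filter.2 ⟨hQ.1.1.1 ha.2, hQ.1.2 v hQ.2 a ha.2 (Ne.symm ha.1)⟩
    · rw [card_erase_of_mem hQ.2, hQ.1.1.2]
      rfl
  · intro T hT
    rw [mem_coe, mem_clq] at hT
    have hvT : v ∉ T := fun h => G.loopless.irrefl v (mem_filter.1 (hT.1.1 h)).2
    exact erase_insert hvT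
  · intro Q hQ
    simp only [coe_filter, Set.mem_ofPred_eq] at hQ
    exact insert_erase hQ.2

/-- double counting of pairs (vertex, clique) -/
lemma sum_through (S : Finset V) (s : ℕ) (F : V → ℝ) :
    ∑ v ∈ S, F v * ((clq G (S.filter (G.Adj v)) s).card : ℝ) =
      ∑ Q ∈ clq G S (s + 1), ∑ q ∈ Q, F q := by
  have h1 : ∀ v ∈ S, F v * ((clq G (S.filter (G.Adj v)) s).card : ℝ) =
      ∑ Q ∈ (clq G S (s + 1)).filter (fun Q => v ∈ Q), F v := by
    intro v hv
    rw [clq_through S s hv, sum_const, nsmul_eq_mul, mul_comm]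
  rw [sum_congr rfl h1]
  refine sum_comm' ?_
  intro v Q
  simp only [mem_filter, mem_clq]
  constructor
  · rintro ⟨h1, h2, h3⟩
    exact ⟨h3, h2⟩
  · rintro ⟨h1, h2⟩
    exact ⟨h2.1.1 h1, h2, h1⟩

/-- the sum of the degrees over a clique -/
lemma sum_deg_le {S Q : Finset V} {s : ℕ} (hfree : clq G S (s + 1 + 1) = ∅)
    (hQ : Q ∈ clq G S (s + 1)) :
    ∑ q ∈ Q, ((S.filter (G.Adj q)).card : ℝ) ≤ s * S.card - hge G S Q := by
  have h1 : ∑ q ∈ Q, ((S.filter (G.Adj q)).card : ℝ) =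
      ∑ z ∈ S, ((Q.filter fun q => G.Adj q z).card : ℝ) := by
    simp only [card_filter]
    push_cast
    rw [sum_comm]
  have h2 : ∀ z ∈ S, ((Q.filter fun q => G.Adj q z).card : ℝ) ≤
      (s : ℝ) - (if 2 ≤ (hs G Q z).card then 1 else 0) := by
    intro z hz
    have h3 : (Q.filter fun q => G.Adj q z).card + (hs G Q z).card = s + 1 := by
      have h4 : (Q.filter fun q => G.Adj q z) = Q.filter fun q => G.Adj z q :=
        filter_congr fun q _ => G.adj_comm q z
      rw [h4]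
      unfold hs
      rw [card_filter_add_card_filter_not, (mem_clq.1 hQ).1.2]
    have h5 : 1 ≤ (hs G Q z).card := card_pos.2 (hs_nonempty hfree hQ hz)
    have h3' : ((Q.filter fun q => G.Adj q z).card : ℝ) + ((hs G Q z).card : ℝ) = s + 1 := by
      exact_mod_cast h3
    split_ifs with h6
    · have h7 : (2 : ℝ) ≤ ((hs G Q z).card : ℝ) := by exact_mod_cast h6
      linarith
    · have h7 : (1 : ℝ) ≤ ((hs G Q z).card : ℝ) := by exact_mod_cast h5
      linarith
  rw [h1]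
  refine (sum_le_sum h2).trans (le_of_eq ?_)
  rw [sum_sub_distrib, sum_const, nsmul_eq_mul]
  unfold hge
  rw [card_filter]
  push_cast
  ring

/-- the step of the induction -/
lemma star_step {s : ℕ} (hs : 1 ≤ s)
    (ih : ∀ S : Finset V, clq G S (s + 1) = ∅ →
      (s : ℝ) ^ s * ((clq G S s).card : ℝ) ≤ (S.card : ℝ) ^ s)
    (S : Finset V) (hfree : clq G S (s + 1 + 1) = ∅) (m : ℝ) (hm : 0 < m) :
    (∑ Q ∈ clq G S (s + 1), (hge G S Q : ℝ)) +
      (((s : ℝ) + 1) ^ 2 * m - s * S.card) * ((clq G S (s + 1)).card : ℝ) ≤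
        S.card * m ^ (s + 1) := by
  have h1 : ∀ v ∈ S, (((s : ℝ) + 1) * m - ((S.filter (G.Adj v)).card : ℝ)) *
      ((clq G (S.filter (G.Adj v)) s).card : ℝ) ≤ m ^ (s + 1) := by
    intro v hv
    refine amgm_step hs (by positivity) (by positivity) hm (ih _ ?_)
    rw [← card_eq_zero, clq_through S (s + 1) hv, hfree]
    rfl
  have h2 := sum_le_sum h1
  rw [sum_through S s (fun v => ((s : ℝ) + 1) * m - ((S.filter (G.Adj v)).card : ℝ)), sum_const,
    nsmul_eq_mul] at h2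
  have h3 : ∀ Q ∈ clq G S (s + 1), (hge G S Q : ℝ) + (((s : ℝ) + 1) ^ 2 * m - s * S.card) ≤
      ∑ q ∈ Q, (((s : ℝ) + 1) * m - ((S.filter (G.Adj q)).card : ℝ)) := by
    intro Q hQ
    have h4 := sum_deg_le hfree hQ
    rw [sum_sub_distrib, sum_const, nsmul_eq_mul, (mem_clq.1 hQ).1.2]
    push_cast
    nlinarith
  have h5 := sum_le_sum h3
  rw [sum_add_distrib, sum_const, nsmul_eq_mul] at h5
  linarith

/-- (star) and the bound of Zykov, by induction on `R` -/
theorem star_zyk (R : ℕ) (hR : 1 ≤ R) :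
    (∀ S : Finset V, clq G S (R + 1) = ∅ → (R : ℝ) ^ R * ((clq G S R).card : ℝ) ≤ (S.card : ℝ) ^ R) ∧
    (2 ≤ R → ∀ S : Finset V, clq G S (R + 1) = ∅ → ∀ m : ℝ, 0 < m →
      (∑ Q ∈ clq G S R, (hge G S Q : ℝ)) +
        ((R : ℝ) ^ 2 * m - (R - 1) * S.card) * ((clq G S R).card : ℝ) ≤ S.card * m ^ R) := by
  induction R, hR using Nat.le_induction with
  | base =>
    refine ⟨?_, fun h => absurd h (by norm_num)⟩
    intro S _
    have h1 : (clq G S 1).card ≤ S.card := by
      refine (card_le_card (filter_subset _ _)).trans (le_of_eq ?_)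
      rw [card_powersetCard, Nat.choose_one_right]
    have h2 : ((clq G S 1).card : ℝ) ≤ S.card := by exact_mod_cast h1
    simpa using h2
  | succ s hs ih =>
    have hstar := star_step (G := G) hs ih.1
    refine ⟨?_, ?_⟩
    · intro S hfree
      rcases S.eq_empty_or_nonempty with rfl | hne
      · have h1 : clq G (∅ : Finset V) (s + 1) = ∅ := by
          rw [eq_empty_iff_forall_notMem]
          intro T hT
          rw [mem_clq, subset_empty] at hT
          have := hT.1.2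
          rw [hT.1.1] at this
          simp at this
        rw [h1]
        simp
      have hn : 0 < (S.card : ℝ) := by exact_mod_cast card_pos.2 hne
      have hs1 : (0 : ℝ) < (s : ℝ) + 1 := by positivity
      have h2 := hstar S hfree ((S.card : ℝ) / ((s : ℝ) + 1)) (by positivity)
      have h3 : (0 : ℝ) ≤ ∑ Q ∈ clq G S (s + 1), (hge G S Q : ℝ) :=
        sum_nonneg fun _ _ => by positivity
      have h4 : ((s : ℝ) + 1) ^ 2 * ((S.card : ℝ) / ((s : ℝ) + 1)) - s * S.card = S.card := by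
        field_simp
        ring
      rw [h4] at h2
      have h5 : (S.card : ℝ) * ((clq G S (s + 1)).card : ℝ) ≤
          (S.card : ℝ) * ((S.card : ℝ) / ((s : ℝ) + 1)) ^ (s + 1) := by linarith
      have h6 := le_of_mul_le_mul_left h5 hn
      rw [div_pow, le_div_iff₀ (by positivity)] at h6
      push_cast
      linarith
    · intro _ S hfree m hm
      have h2 := hstar S hfree m hm
      push_cast
      have h3 : (s : ℝ) + 1 - 1 = s := by ring
      rw [h3]
      exact h2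

/-- a clique `Q` with few vertices having at least two non-neighbours in `Q` -/
theorem exists_Q0 {R r m : ℕ} (hR : 2 ≤ R) (hm : 0 < m) {C₁ : ℝ} (hC : 0 ≤ C₁)
    (hCm : 2 * C₁ ≤ m) {S : Finset V} (hS : S.card ≤ R * m + r) (hfree : clq G S (R + 1) = ∅)
    (hB : (m : ℝ) ^ R * (1 - C₁ / m) < ((clq G S R).card : ℝ)) :
    ∃ Q ∈ clq G S R, (hge G S Q : ℝ) ≤ 2 * (R * C₁ + r) + (R - 1) * r := by
  by_contra hcon
  push Not at hcon
  have hm0 : (0 : ℝ) < m := by exact_mod_cast hm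
  have hR2 : (2 : ℝ) ≤ R := by exact_mod_cast hR
  have hr0 : (0 : ℝ) ≤ r := by positivity
  have hmR : (0 : ℝ) < (m : ℝ) ^ R := by positivity
  set k : ℝ := ((clq G S R).card : ℝ) with hk
  have hCm' : C₁ / m ≤ 1 / 2 := by
    rw [div_le_iff₀ hm0]
    linarith
  have hk2 : (m : ℝ) ^ R ≤ 2 * k := by nlinarith
  have hk0 : 0 < k := by linarith
  have h1 := (star_zyk (G := G) R (by omega)).2 hR S hfree m hm0
  have hn : (S.card : ℝ) ≤ R * m + r := by exact_mod_cast hS
  have h2 : k * (2 * (R * C₁ + r) + (R - 1) * r) < ∑ Q ∈ clq G S R, (hge G S Q : ℝ) := by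
    have hne : (clq G S R).Nonempty := by
      have h0 : (0 : ℝ) < ((clq G S R).card : ℝ) := hk0
      rw [← card_pos]
      exact_mod_cast h0
    have h3 := sum_lt_sum_of_nonempty hne hcon
    rw [sum_const, nsmul_eq_mul] at h3
    exact h3
  have h4 : (S.card : ℝ) * ((m : ℝ) ^ R + (R - 1) * k) ≤
      (R * m + r) * ((m : ℝ) ^ R + (R - 1) * k) := by
    refine mul_le_mul_of_nonneg_right hn ?_
    have : 0 ≤ ((R : ℝ) - 1) * k := mul_nonneg (by linarith) hk0.le
    linarith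
  have h5 : (m : ℝ) ^ R - k ≤ (m : ℝ) ^ R * (C₁ / m) := by
    have : (m : ℝ) ^ R * (1 - C₁ / m) = (m : ℝ) ^ R - (m : ℝ) ^ R * (C₁ / m) := by ring
    linarith
  have h6 : R * m * ((m : ℝ) ^ R - k) ≤ R * C₁ * (m : ℝ) ^ R := by
    have h7 : R * m * ((m : ℝ) ^ R - k) ≤ R * m * ((m : ℝ) ^ R * (C₁ / m)) :=
      mul_le_mul_of_nonneg_left h5 (by positivity)
    have h8 : R * m * ((m : ℝ) ^ R * (C₁ / m)) = R * C₁ * (m : ℝ) ^ R := by
      field_simp
    linarith
  have h9 : R * C₁ * (m : ℝ) ^ R ≤ R * C₁ * (2 * k) :=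
    mul_le_mul_of_nonneg_left hk2 (by positivity)
  have h10 : r * (m : ℝ) ^ R ≤ r * (2 * k) := mul_le_mul_of_nonneg_left hk2 hr0
  have h11 : (S.card : ℝ) * (m : ℝ) ^ R - ((R : ℝ) ^ 2 * m - (R - 1) * S.card) * k ≤
      k * (2 * (R * C₁ + r) + (R - 1) * r) := by
    have e1 : (S.card : ℝ) * (m : ℝ) ^ R - ((R : ℝ) ^ 2 * m - (R - 1) * S.card) * k =
        (S.card : ℝ) * ((m : ℝ) ^ R + (R - 1) * k) - (R : ℝ) ^ 2 * m * k := by ring
    have e2 : (R * m + r) * ((m : ℝ) ^ R + (R - 1) * k) - (R : ℝ) ^ 2 * m * k =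
        R * m * ((m : ℝ) ^ R - k) + r * (m : ℝ) ^ R + (R - 1) * r * k := by ring
    rw [e1]
    have e3 : k * (2 * (R * C₁ + r) + (R - 1) * r) = R * C₁ * (2 * k) + r * (2 * k) +
        (R - 1) * r * k := by ring
    rw [e3]
    linarith
  linarith

end H57LC
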