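import Pool.Agent.H57.LC.Defs

/-!
Double counting of the pairs (`u`-clique, `R`-clique in its common neighbourhood).
-/

namespace H57LC

open Finset

set_option linter.unusedSectionVars false

variable {V : Type*} [Fintype V] [DecidableEq V] {G : SimpleGraph V} [DecidableRel G.Adj]

lemma disjoint_of_cn {U T : Finset V} (hT : T ⊆ cn G U) : Disjoint U T := by
  rw [Finset.disjoint_left]
  intro a haU haT
  exact G.loopless.irrefl a (mem_cn.1 (hT haT) a haU)

lemma isCl_union {U T : Finset V} (hU : IsCl G U) (hT : IsCl G T) (hTU : T ⊆ cn G U) :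
    IsCl G (U ∪ T) := by
  intro a ha b hb hab
  rw [mem_union] at ha hb
  rcases ha with ha | ha <;> rcases hb with hb | hb
  · exact hU a ha b hb hab
  · exact mem_cn.1 (hTU hb) a ha
  · exact (mem_cn.1 (hTU ha) b hb).symm
  · exact hT a ha b hb hab

lemma union_mem_clq {U T : Finset V} {u R : ℕ} (hU : U ∈ clq G univ u)
    (hT : T ∈ clq G (cn G U) R) : U ∪ T ∈ clq G univ (R + u) := by
  rw [mem_clq] at hU hT ⊢
  refine ⟨⟨subset_univ _, ?_⟩, isCl_union hU.2 hT.2 hT.1.1⟩
  rw [card_union_of_disjoint (disjoint_of_cn hT.1.1), hU.1.2, hT.1.2, add_comm]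

theorem double_count (u R : ℕ) (F : Finset V → Finset V → ℝ) :
    ∑ U ∈ clq G univ u, ∑ T ∈ clq G (cn G U) R, F U T =
      ∑ K ∈ clq G univ (R + u), ∑ T ∈ powersetCard R K, F (K \ T) T := by
  rw [sum_sigma', sum_sigma']
  refine sum_bij' (fun x _ => ⟨x.1 ∪ x.2, x.2⟩) (fun x _ => ⟨x.1 \ x.2, x.2⟩) ?_ ?_ ?_ ?_ ?_
  · rintro ⟨U, T⟩ h
    rw [mem_sigma] at h ⊢
    refine ⟨union_mem_clq h.1 h.2, ?_⟩
    rw [mem_powersetCard]
    exact ⟨subset_union_right, (mem_clq.1 h.2).1.2⟩
  · rintro ⟨K, T⟩ h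
    rw [mem_sigma] at h ⊢
    have hK := mem_clq.1 h.1
    have hT := mem_powersetCard.1 h.2
    refine ⟨?_, ?_⟩
    · rw [mem_clq]
      refine ⟨⟨subset_univ _, ?_⟩, hK.2.subset sdiff_subset⟩
      have := card_sdiff_add_card_eq_card hT.1
      simp only at hK hT this ⊢
      omega
    · rw [mem_clq]
      refine ⟨⟨fun t ht => ?_, hT.2⟩, hK.2.subset hT.1⟩
      rw [mem_cn]
      intro a ha
      have ha' := mem_sdiff.1 ha
      exact hK.2 a ha'.1 t (hT.1 ht) (fun e => ha'.2 (e ▸ ht))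
  · rintro ⟨U, T⟩ h
    rw [mem_sigma] at h
    have hd := disjoint_of_cn (mem_clq.1 h.2).1.1
    simp only [Sigma.mk.injEq, heq_eq_eq, and_true]
    rw [union_sdiff_right]
    exact sdiff_eq_self_of_disjoint hd
  · rintro ⟨K, T⟩ h
    rw [mem_sigma] at h
    have hT := (mem_powersetCard.1 h.2).1
    simp only [Sigma.mk.injEq, heq_eq_eq, and_true]
    exact sdiff_union_of_subset hT
  · rintro ⟨U, T⟩ h
    rw [mem_sigma] at h
    have hd := disjoint_of_cn (mem_clq.1 h.2).1.1
    simp only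
    rw [union_sdiff_right, sdiff_eq_self_of_disjoint hd]

/-- no `(R + 1)`-clique in the common neighbourhood of a `u`-clique -/
theorem cn_free {u R : ℕ} (hfree : clq G univ (R + u + 1) = ∅) {U : Finset V}
    (hU : U ∈ clq G univ u) : clq G (cn G U) (R + 1) = ∅ := by
  rw [eq_empty_iff_forall_notMem]
  intro T hT
  have h := union_mem_clq hU hT
  have e : R + 1 + u = R + u + 1 := by ring
  rw [e, hfree] at h
  exact absurd h (notMem_empty _)

end H57LC
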