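import Pool.Agent.H57.LC.Defs

/-!
The tight case: `e_R(1/a)` is smallest for balanced `a` (note 3541, 3), and bounds for `rinv`.
-/

namespace H57LC

open Finset

/-- the elementary symmetric sums of a function on a finset -/
noncomputable def eS {ι : Type*} (K : Finset ι) (x : ι → ℝ) (n : ℕ) : ℝ :=
  ∑ T ∈ powersetCard n K, ∏ t ∈ T, x t

lemma eS_zero {ι : Type*} (K : Finset ι) (x : ι → ℝ) : eS K x 0 = 1 := by
  simp [eS]

lemma eS_insert {ι : Type*} [DecidableEq ι] {K : Finset ι} {a : ι} (ha : a ∉ K) (x : ι → ℝ)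
    (n : ℕ) : eS (insert a K) x (n + 1) = eS K x (n + 1) + x a * eS K x n := by
  unfold eS
  rw [powersetCard_succ_insert ha, sum_union, sum_image, mul_sum]
  · congr 1
    refine sum_congr rfl fun T hT => ?_
    rw [mem_powersetCard] at hT
    rw [prod_insert (fun h => ha (hT.1 h))]
  · intro T hT T' hT' h
    have hT1 := (mem_powersetCard.1 hT).1
    have hT1' := (mem_powersetCard.1 hT').1
    have h1 : a ∉ T := fun h => ha (hT1 h)
    have h2 : a ∉ T' := fun h => ha (hT1' h)
    rw [← erase_insert h1, ← erase_insert h2, h]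
  · rw [disjoint_left]
    intro T hT hT'
    rw [mem_powersetCard] at hT
    rw [mem_image] at hT'
    obtain ⟨T', -, rfl⟩ := hT'
    exact ha (hT.1 (mem_insert_self _ _))

lemma eS_nonneg {ι : Type*} {K : Finset ι} {x : ι → ℝ} (hx : ∀ k ∈ K, 0 ≤ x k) (n : ℕ) :
    0 ≤ eS K x n :=
  sum_nonneg fun T hT => prod_nonneg fun t ht => hx t ((mem_powersetCard.1 hT).1 ht)

lemma eS_congr {ι : Type*} {K : Finset ι} {x y : ι → ℝ} (h : ∀ k ∈ K, x k = y k) (n : ℕ) :
    eS K x n = eS K y n :=
  sum_congr rfl fun T hT => prod_congr rfl fun t ht => h t ((mem_powersetCard.1 hT).1 ht)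

/-- changing two entries -/
lemma eS_two {ι : Type*} [DecidableEq ι] {K : Finset ι} {s t : ι} (hs : s ∈ K) (ht : t ∈ K)
    (hst : s ≠ t) {x y : ι → ℝ} (hx : ∀ k ∈ K, 0 ≤ x k)
    (hxy : ∀ k ∈ K, k ≠ s → k ≠ t → x k = y k)
    (h1 : y s + y t ≤ x s + x t) (h2 : y s * y t ≤ x s * x t) (n : ℕ) :
    eS K y n ≤ eS K x n := by
  set K' := (K.erase s).erase t with hK'
  have ht' : t ∈ K.erase s := mem_erase.2 ⟨hst.symm, ht⟩
  have hKe : K = insert s (insert t K') := by
    rw [hK', insert_erase ht', insert_erase hs]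
  have htK : t ∉ K' := notMem_erase _ _
  have hsK : s ∉ insert t K' := by
    rw [hK', insert_erase ht']
    exact notMem_erase _ _
  have hsub : K' ⊆ K := (erase_subset _ _).trans (erase_subset _ _)
  have hc : ∀ n, eS K' x n = eS K' y n := fun n => eS_congr (fun k hk => by
    refine hxy k (hsub hk) ?_ ?_
    · rintro rfl
      exact hsK (mem_insert_of_mem hk)
    · rintro rfl
      exact htK hk) n
  have hn : ∀ n, 0 ≤ eS K' x n := fun n => eS_nonneg (fun k hk => hx k (hsub hk)) n
  rcases n with _ | _ | n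
  · rw [eS_zero, eS_zero]
  · rw [hKe, eS_insert hsK, eS_insert hsK, eS_insert htK, eS_insert htK, eS_zero, eS_zero,
      eS_zero, eS_zero, hc]
    linarith
  · rw [hKe, eS_insert hsK, eS_insert hsK, eS_insert htK, eS_insert htK, eS_insert htK,
      eS_insert htK, ← hc, ← hc, ← hc]
    have e1 := hn (n + 1)
    have e2 := hn n
    have p1 := mul_le_mul_of_nonneg_right h1 e1
    have p2 := mul_le_mul_of_nonneg_right h2 e2
    nlinarith

/-- `eS` as a symmetric function of a multiset -/
lemma eS_esymm {ι : Type*} (K : Finset ι) (x : ι → ℝ) (n : ℕ) :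
    eS K x n = (K.val.map x).esymm n := (Finset.esymm_map_val x K n).symm

lemma map_two {ι : Type*} (K : Finset ι) (P : ι → Prop) [DecidablePred P] (a b : ℝ) :
    K.val.map (fun k => if P k then a else b) =
      Multiset.replicate (K.filter P).card a +
        Multiset.replicate (K.filter fun k => ¬ P k).card b := by
  have h0 : K.val = (K.filter P).val + (K.filter fun k => ¬ P k).val := by
    rw [filter_val, filter_val, Multiset.filter_add_not]
  rw [h0, Multiset.map_add]
  congr 1
  · rw [Multiset.map_congr rfl (g := fun _ => a)]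
    · rw [Multiset.map_const']
      rfl
    · intro k hk
      rw [if_pos (mem_filter.1 hk).2]
  · rw [Multiset.map_congr rfl (g := fun _ => b)]
    · rw [Multiset.map_const']
      rfl
    · intro k hk
      rw [if_neg (mem_filter.1 hk).2]

/-- `rinv` as the sum over the `R`-subsets of any `w`-set with `r` large parts -/
theorem rinv_eq {ι : Type*} [DecidableEq ι] {K : Finset ι} {w R r m : ℕ} (hK : K.card = w)
    {g : ι → ℕ} (hg : ∀ k ∈ K, g k ≤ 1) (hs : ∑ k ∈ K, g k = r) :
    ∑ T ∈ powersetCard R K, ∏ t ∈ T, ((m : ℝ) + g t)⁻¹ = rinv w R r m := by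
  have hr : (K.filter fun k => g k = 1).card = r := by
    rw [card_filter, ← hs]
    refine sum_congr rfl fun k hk => ?_
    have := hg k hk
    interval_cases h : g k <;> simp
  have hrw : r ≤ w := by
    rw [← hr, ← hK]
    exact card_filter_le _ _
  have h1 : eS K (fun k => ((m : ℝ) + g k)⁻¹) R =
      eS K (fun k => if g k = 1 then ((m : ℝ) + 1)⁻¹ else ((m : ℝ) + 0)⁻¹) R := by
    refine eS_congr (fun k hk => ?_) R
    have := hg k hk
    interval_cases h : g k <;> simp
  have h2 : eS (univ : Finset (Fin w)) (fun i => ((m : ℝ) + (if i.val < r then 1 else 0))⁻¹) R =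
      eS (univ : Finset (Fin w))
        (fun i => if i.val < r then ((m : ℝ) + 1)⁻¹ else ((m : ℝ) + 0)⁻¹) R := by
    refine eS_congr (fun k hk => ?_) R
    split_ifs <;> rfl
  have hc1 : (univ.filter fun i : Fin w => i.val < r).card = r := by
    rw [Fin.card_filter_val_lt]
    omega
  have hc2 : (univ.filter fun i : Fin w => ¬ i.val < r).card = w - r := by
    have := card_filter_add_card_filter_not (s := (univ : Finset (Fin w)))
      (fun i : Fin w => i.val < r)
    rw [hc1, card_univ, Fintype.card_fin] at this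
    omega
  have hc3 : (K.filter fun k => ¬ g k = 1).card = w - r := by
    have := card_filter_add_card_filter_not (s := K) (fun k => g k = 1)
    rw [hr, hK] at this
    omega
  change eS K (fun k => ((m : ℝ) + g k)⁻¹) R = eS (univ : Finset (Fin w))
    (fun i => ((m : ℝ) + (if i.val < r then 1 else 0))⁻¹) R
  rw [h1, h2, eS_esymm, eS_esymm, map_two, map_two, hr, hc1, hc2, hc3]

/-- **smoothing** -/
theorem rinv_le_of_sum {ι : Type*} [DecidableEq ι] {K : Finset ι} {w R r m : ℕ} (hK : K.card = w)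
    (hm : 1 ≤ m) (hr : r ≤ w) {g : ι → ℕ} (hs : ∑ k ∈ K, g k = r) :
    rinv w R r m ≤ ∑ T ∈ powersetCard R K, ∏ t ∈ T, ((m : ℝ) + g t)⁻¹ := by
  have hm' : (1 : ℝ) ≤ m := by exact_mod_cast hm
  induction hN : ∑ k ∈ K, g k ^ 2 using Nat.strong_induction_on generalizing g with
  | _ N ih =>
    by_cases hg : ∀ k ∈ K, g k ≤ 1
    · rw [rinv_eq hK hg hs]
    · push Not at hg
      obtain ⟨s, hsK, hs1⟩ := hg
      have : ∃ t ∈ K, g t = 0 := by
        by_contra hcon
        push Not at hcon
        have h1 : ∑ k ∈ K, 1 < ∑ k ∈ K, g k :=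
          sum_lt_sum (fun k hk => Nat.one_le_iff_ne_zero.2 (hcon k hk)) ⟨s, hsK, hs1⟩
        rw [hs] at h1
        simp only [sum_const, smul_eq_mul, mul_one] at h1
        omega
      obtain ⟨t, htK, ht0⟩ := this
      have hst : s ≠ t := by
        rintro rfl
        omega
      set g' : ι → ℕ := Function.update (Function.update g s (g s - 1)) t 1 with hg'
      have e1 : g' s = g s - 1 := by
        rw [hg', Function.update_of_ne hst, Function.update_self]
      have e2 : g' t = 1 := by rw [hg', Function.update_self]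
      have e3 : ∀ k, k ≠ s → k ≠ t → g' k = g k := fun k h1 h2 => by
        rw [hg', Function.update_of_ne h2, Function.update_of_ne h1]
      have ht' : t ∈ K.erase s := mem_erase.2 ⟨hst.symm, htK⟩
      have hsum : ∀ f : ι → ℕ, ∑ k ∈ K, f k = f s + (f t + ∑ k ∈ (K.erase s).erase t, f k) := by
        intro f
        rw [← add_sum_erase _ _ hsK, ← add_sum_erase _ _ ht']
      have hrest : ∀ F : ℕ → ℕ, ∑ k ∈ (K.erase s).erase t, F (g' k) =
          ∑ k ∈ (K.erase s).erase t, F (g k) := by
        intro F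
        refine sum_congr rfl fun k hk => ?_
        rw [mem_erase, mem_erase] at hk
        rw [e3 k hk.2.1 hk.1]
      have hs' : ∑ k ∈ K, g' k = r := by
        rw [← hs, hsum g', hsum g, e1, e2, ht0, hrest (fun n => n)]
        omega
      have hN' : ∑ k ∈ K, g' k ^ 2 < N := by
        rw [← hN, hsum (fun k => g' k ^ 2), hsum (fun k => g k ^ 2), hrest (fun n => n ^ 2), e1, e2,
          ht0]
        obtain ⟨c, hc⟩ : ∃ c, g s = c + 2 := ⟨g s - 2, by omega⟩
        rw [hc]
        have : c + 2 - 1 = c + 1 := by omega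
        rw [this]
        nlinarith
      refine (ih _ hN' hs' rfl).trans ?_
      change eS K (fun k => ((m : ℝ) + g' k)⁻¹) R ≤ eS K (fun k => ((m : ℝ) + g k)⁻¹) R
      obtain ⟨c, hc⟩ : ∃ c, g s = c + 2 := ⟨g s - 2, by omega⟩
      have e1' : (g' s : ℝ) = c + 1 := by
        rw [e1, hc]
        have : c + 2 - 1 = c + 1 := by omega
        rw [this]
        push_cast
        ring
      have hc0 : (0 : ℝ) ≤ c := Nat.cast_nonneg c
      have hsr : (g s : ℝ) = c + 2 := by rw [hc]; push_cast; ring
      have hp : (0 : ℝ) < m := by linarith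
      refine eS_two hsK htK hst (fun k _ => by positivity) (fun k _ h1 h2 => by rw [e3 k h1 h2])
        ?_ ?_ R
      · simp only [e1', e2, ht0, hsr]
        push_cast
        rw [inv_add_inv (by positivity) (by positivity), inv_add_inv (by positivity)
          (by positivity), div_le_div_iff₀ (by positivity) (by positivity)]
        nlinarith [mul_nonneg hc0 hp.le]
      · simp only [e1', e2, ht0, hsr]
        push_cast
        rw [← mul_inv, ← mul_inv]
        refine inv_anti₀ (by positivity) ?_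
        nlinarith

lemma prod_eq {w r m : ℕ} (hm : 1 ≤ m) (T : Finset (Fin w)) :
    ∏ i ∈ T, ((m : ℝ) + (if i.val < r then 1 else 0))⁻¹ =
      ((1 + 1 / (m : ℝ))⁻¹) ^ (T.filter fun i => i.val < r).card / (m : ℝ) ^ T.card := by
  have hp : (0 : ℝ) < m := by exact_mod_cast hm
  have h1 : ∀ i ∈ T, ((m : ℝ) + (if i.val < r then 1 else 0))⁻¹ =
      (if i.val < r then (1 + 1 / (m : ℝ))⁻¹ else 1) * (m : ℝ)⁻¹ := by
    intro i _
    split_ifs
    · rw [← mul_inv]
      congr 1
      field_simp
    · simp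
  rw [prod_congr rfl h1, prod_mul_distrib, prod_const, prod_ite, prod_const, prod_const_one,
    mul_one, div_eq_mul_inv _ ((m : ℝ) ^ _), inv_pow (m : ℝ)]

lemma pow_le_first {x : ℝ} (hx : 0 ≤ x) (j : ℕ) :
    ((1 + x)⁻¹) ^ j ≤ 1 - j * x + (j : ℝ) ^ 2 * x ^ 2 := by
  induction j with
  | zero => simp
  | succ j ih =>
    have h1 : (0 : ℝ) < 1 + x := by linarith
    rw [pow_succ]
    refine (mul_le_mul_of_nonneg_right ih (inv_nonneg.2 h1.le)).trans ?_
    rw [← div_eq_mul_inv, div_le_iff₀ h1]
    push_cast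
    have hj : (0 : ℝ) ≤ j := Nat.cast_nonneg j
    have a1 : 0 ≤ (j : ℝ) * x ^ 2 := by positivity
    have a2 : 0 ≤ ((j : ℝ) + 1) ^ 2 * x ^ 3 := by positivity
    nlinarith

/-- crude upper bound -/
theorem rinv_le_crude {w R r m : ℕ} (hm : 1 ≤ m) :
    rinv w R r m ≤ (w.choose R : ℝ) / (m : ℝ) ^ R := by
  have hp : (0 : ℝ) < m := by exact_mod_cast hm
  unfold rinv
  have : ∀ T ∈ powersetCard R (univ : Finset (Fin w)),
      ∏ i ∈ T, ((m : ℝ) + (if i.val < r then 1 else 0))⁻¹ ≤ 1 / (m : ℝ) ^ R := by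
    intro T hT
    rw [prod_eq hm, (mem_powersetCard.1 hT).2]
    refine div_le_div_of_nonneg_right ?_ (by positivity)
    refine pow_le_one₀ (by positivity) ?_
    refine inv_le_one_of_one_le₀ ?_
    have : 0 ≤ 1 / (m : ℝ) := by positivity
    linarith
  refine (sum_le_sum this).trans ?_
  rw [sum_const, card_powersetCard, card_univ, Fintype.card_fin, nsmul_eq_mul, mul_one_div]

lemma sum_cap {w R r : ℕ} (hR : 1 ≤ R) (hr : r ≤ w) :
    ∑ T ∈ powersetCard R (univ : Finset (Fin w)), ((T.filter fun i => i.val < r).card : ℝ) =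
      r * ((w - 1).choose (R - 1) : ℝ) := by
  have h1 : ∀ T : Finset (Fin w), ((T.filter fun i => i.val < r).card : ℝ) =
      ∑ i ∈ (univ : Finset (Fin w)).filter (fun i => i.val < r), if i ∈ T then (1 : ℝ) else 0 := by
    intro T
    rw [← sum_filter, sum_const, nsmul_eq_mul, mul_one]
    congr 2
    ext i
    simp [and_comm]
  rw [sum_congr rfl fun T _ => h1 T, sum_comm]
  have h2 : ∀ i ∈ (univ : Finset (Fin w)).filter (fun i => i.val < r),
      ∑ T ∈ powersetCard R (univ : Finset (Fin w)), (if i ∈ T then (1 : ℝ) else 0) =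
        ((w - 1).choose (R - 1) : ℝ) := by
    intro i _
    rw [← sum_filter, sum_const, nsmul_eq_mul, mul_one]
    congr 1
    have h3 : ((powersetCard R (univ : Finset (Fin w))).filter fun T => i ∈ T) =
        (powersetCard (R - 1) ((univ : Finset (Fin w)).erase i)).image (insert i) := by
      ext T
      simp only [mem_filter, mem_powersetCard, mem_image]
      constructor
      · rintro ⟨⟨-, hc⟩, hi⟩
        refine ⟨T.erase i, ⟨erase_subset_erase _ (subset_univ _), ?_⟩, insert_erase hi⟩
        rw [card_erase_of_mem hi, hc]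
      · rintro ⟨T', ⟨hT', hc⟩, rfl⟩
        have hi : i ∉ T' := fun h => notMem_erase _ _ (hT' h)
        refine ⟨⟨subset_univ _, ?_⟩, mem_insert_self _ _⟩
        rw [card_insert_of_notMem hi, hc]
        omega
    rw [h3, card_image_of_injOn, card_powersetCard, card_erase_of_mem (mem_univ _), card_univ,
      Fintype.card_fin]
    intro T hT T' hT' h
    have h1 : i ∉ T := fun h => notMem_erase _ _ ((mem_powersetCard.1 hT).1 h)
    have h2 : i ∉ T' := fun h => notMem_erase _ _ ((mem_powersetCard.1 hT').1 h)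
    rw [← erase_insert h1, ← erase_insert h2, h]
  rw [sum_congr rfl h2, sum_const, nsmul_eq_mul, Fin.card_filter_val_lt]
  congr 2
  omega

/-- first order upper bound -/
theorem rinv_le_first {w R r m : ℕ} (hm : 1 ≤ m) (hR : 1 ≤ R) (hRw : R ≤ w) (hr : r ≤ w) :
    rinv w R r m ≤ ((w.choose R : ℝ) - ((w - 1).choose (R - 1) : ℝ) * r / m +
      (w.choose R : ℝ) * (R : ℝ) ^ 2 / (m : ℝ) ^ 2) / (m : ℝ) ^ R := by
  have hp : (0 : ℝ) < m := by exact_mod_cast hm
  unfold rinv
  have h1 : ∀ T ∈ powersetCard R (univ : Finset (Fin w)),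
      ∏ i ∈ T, ((m : ℝ) + (if i.val < r then 1 else 0))⁻¹ ≤
        (1 - ((T.filter fun i => i.val < r).card : ℝ) * (1 / m) +
          (R : ℝ) ^ 2 * (1 / (m : ℝ)) ^ 2) / (m : ℝ) ^ R := by
    intro T hT
    rw [prod_eq hm, (mem_powersetCard.1 hT).2]
    refine div_le_div_of_nonneg_right ?_ (by positivity)
    refine (pow_le_first (by positivity) _).trans ?_
    have h2 : ((T.filter fun i => i.val < r).card : ℝ) ≤ R := by
      have := card_filter_le T (fun i => i.val < r)
      rw [(mem_powersetCard.1 hT).2] at this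
      exact_mod_cast this
    have h3 : ((T.filter fun i => i.val < r).card : ℝ) ^ 2 ≤ (R : ℝ) ^ 2 :=
      pow_le_pow_left₀ (Nat.cast_nonneg _) h2 2
    have h4 := mul_le_mul_of_nonneg_right h3 (sq_nonneg (1 / (m : ℝ)))
    linarith
  refine (sum_le_sum h1).trans (le_of_eq ?_)
  rw [← sum_div, sum_add_distrib, sum_sub_distrib, ← sum_mul, sum_cap hR hr, sum_const, sum_const,
    card_powersetCard, card_univ, Fintype.card_fin, nsmul_eq_mul, nsmul_eq_mul]
  field_simp

theorem rinv_pos {w R r m : ℕ} (hm : 1 ≤ m) (hRw : R ≤ w) : 0 < rinv w R r m := by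
  have hp : (0 : ℝ) < m := by exact_mod_cast hm
  unfold rinv
  refine sum_pos (fun T _ => prod_pos fun i _ => ?_) ?_
  · refine inv_pos.2 ?_
    split_ifs <;> positivity
  · rw [powersetCard_nonempty, card_univ, Fintype.card_fin]
    exact hRw

end H57LC
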