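import Pool.Agent.H57.LC.Tup

/-!
Sums over all tuples of the light sets (note 3541, 4d).
-/

namespace H57LC

open Finset

set_option linter.unusedSectionVars false

variable {V : Type*} [DecidableEq V] {G : SimpleGraph V} [DecidableRel G.Adj]

private lemma TSums_na_one {x y : V} (h : ¬ G.Adj x y) : na G x y = 1 := by
  unfold na
  rw [if_neg h]

private lemma TSums_na_zero {x y : V} (h : G.Adj x y) : na G x y = 0 := by
  unfold na
  rw [if_pos h]

/-- resampling the first vertex of the missing pairs -/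
private lemma TSums_first {R m : ℕ} {S : Finset V} {C η₁ δ : ℝ} {B : Fin R → Finset V}
    (h : LS G S R m C η₁ δ B) :
    ∑ f ∈ Fintype.piFinset B, ∑ i, ∑ z ∈ B i, ∑ j ∈ univ.erase i, na G z (f j) ≤
      (1 + δ) * m * ∑ f ∈ Fintype.piFinset B, DD G f := by
  have h1 : ∀ i, ∑ f ∈ Fintype.piFinset B, ∑ z ∈ B i, ∑ j ∈ univ.erase i, na G z (f j) =
      ((B i).card : ℝ) * ∑ f ∈ Fintype.piFinset B, ∑ j ∈ univ.erase i, na G (f i) (f j) := by
    intro i
    rw [resample B i (fun f => ∑ j ∈ univ.erase i, na G (f i) (f j))]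
    refine Finset.sum_congr rfl fun f _ => Finset.sum_congr rfl fun z _ =>
      Finset.sum_congr rfl fun j hj => ?_
    rw [Function.update_self, Function.update_of_ne (Finset.mem_erase.1 hj).1]
  rw [Finset.sum_comm]
  calc ∑ i, ∑ f ∈ Fintype.piFinset B, ∑ z ∈ B i, ∑ j ∈ univ.erase i, na G z (f j)
      = ∑ i, ((B i).card : ℝ) *
          ∑ f ∈ Fintype.piFinset B, ∑ j ∈ univ.erase i, na G (f i) (f j) :=
        Finset.sum_congr rfl fun i _ => h1 i
    _ ≤ ∑ i : Fin R, ((1 + δ) * m) *
          ∑ f ∈ Fintype.piFinset B, ∑ j ∈ univ.erase i, na G (f i) (f j) := by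
        refine Finset.sum_le_sum fun i _ => ?_
        exact mul_le_mul_of_nonneg_right (h.size_hi i)
          (Finset.sum_nonneg fun f _ => Finset.sum_nonneg fun j _ => na_nonneg _ _)
    _ = (1 + δ) * m * ∑ f ∈ Fintype.piFinset B, DD G f := by
        rw [← Finset.mul_sum, Finset.sum_comm]
        rfl

/-- first order: `ss` against `DD` -/
theorem sum_ss_le {R m : ℕ} {S : Finset V} {C η₁ δ : ℝ} {B : Fin R → Finset V}
    (h : LS G S R m C η₁ δ B) :
    ∑ f ∈ Fintype.piFinset B, ss G B f ≤ (1 + δ) * m * ∑ f ∈ Fintype.piFinset B, DD G f := by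
  refine le_trans (Finset.sum_le_sum fun f _ => ?_) (TSums_first h)
  unfold ss
  refine Finset.sum_le_sum fun i _ => ?_
  rw [Finset.natCast_card_filter]
  refine Finset.sum_le_sum fun z _ => ?_
  split_ifs with hz
  · obtain ⟨j, hji, hj⟩ := hz
    rw [← TSums_na_one hj]
    exact Finset.single_le_sum (f := fun l => na G z (f l)) (fun l _ => na_nonneg _ _)
      (Finset.mem_erase.2 ⟨hji, mem_univ j⟩)
  · exact Finset.sum_nonneg fun j _ => na_nonneg _ _

/-- resampling the coordinate `k` in a missing pair whose other vertex does not depend on it -/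
private lemma TSums_key {R m : ℕ} {S : Finset V} {C η₁ δ : ℝ} {B : Fin R → Finset V}
    (h : LS G S R m C η₁ δ B) (hδ : δ ≤ 1 / 2) (hm : 0 < m) (k i : Fin R)
    (hik : i ≠ k) (g : (Fin R → V) → ℝ) (hg0 : ∀ f, 0 ≤ g f)
    (hg : ∀ f y, g (Function.update f k y) = g f) (zz : (Fin R → V) → V)
    (hz : ∀ f ∈ Fintype.piFinset B, zz f ∈ B i)
    (hzz : ∀ f y, zz (Function.update f k y) = zz f) :
    ∑ f ∈ Fintype.piFinset B, g f * na G (zz f) (f k) ≤
      4 * η₁ * ∑ f ∈ Fintype.piFinset B, g f := by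
  have hm0 : (0 : ℝ) < m := by exact_mod_cast hm
  have h1 : ((B k).card : ℝ) * ∑ f ∈ Fintype.piFinset B, g f * na G (zz f) (f k) ≤
      2 * η₁ * m * ∑ f ∈ Fintype.piFinset B, g f := by
    rw [resample B k (fun f => g f * na G (zz f) (f k)), Finset.mul_sum]
    refine Finset.sum_le_sum fun f hf => ?_
    have h2 : ∑ y ∈ B k, g (Function.update f k y) *
        na G (zz (Function.update f k y)) ((Function.update f k y) k) =
        g f * ((hs G (B k) (zz f)).card : ℝ) := by
      rw [← sum_na, Finset.mul_sum]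
      refine Finset.sum_congr rfl fun y _ => ?_
      rw [hg, hzz, Function.update_self]
    rw [h2, mul_comm]
    exact mul_le_mul_of_nonneg_right (h.row i k hik _ (hz f hf)) (hg0 f)
  have hnn : 0 ≤ ∑ f ∈ Fintype.piFinset B, g f * na G (zz f) (f k) :=
    Finset.sum_nonneg fun f _ => mul_nonneg (hg0 f) (na_nonneg _ _)
  have hb : (m : ℝ) / 2 ≤ ((B k).card : ℝ) := by
    have h3 := h.size_lo k
    nlinarith
  have h4 := mul_le_mul_of_nonneg_right hb hnn
  have h5 : (m : ℝ) / 2 * ∑ f ∈ Fintype.piFinset B, g f * na G (zz f) (f k) ≤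
      (m : ℝ) / 2 * (4 * η₁ * ∑ f ∈ Fintype.piFinset B, g f) := by
    calc _ ≤ _ := h4
      _ ≤ _ := h1
      _ = _ := by ring
  exact le_of_mul_le_mul_left h5 (by positivity)

/-- second order: `s2` against `DD` -/
theorem sum_s2_le {R m : ℕ} {S : Finset V} {C η₁ δ : ℝ} {B : Fin R → Finset V}
    (h : LS G S R m C η₁ δ B) (hη : 0 ≤ η₁) (hδ : δ ≤ 1 / 2) (hδ0 : 0 ≤ δ) (hm : 0 < m) :
    ∑ f ∈ Fintype.piFinset B, s2 G B f ≤
      4 * η₁ * R * m * ∑ f ∈ Fintype.piFinset B, DD G f := by
  have hm0 : (0 : ℝ) < m := by exact_mod_cast hm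
  -- the count is at most half the sum over the ordered pairs
  have h1 : ∀ f : Fin R → V, s2 G B f ≤ ∑ i, ∑ z ∈ B i, 1 / 2 * ∑ j ∈ univ.erase i,
      ∑ k ∈ (univ.erase i).erase j, na G z (f j) * na G z (f k) := by
    intro f
    unfold s2
    refine Finset.sum_le_sum fun i _ => ?_
    rw [Finset.natCast_card_filter]
    refine Finset.sum_le_sum fun z _ => ?_
    have hnn : ∀ a ∈ univ.erase i, 0 ≤ ∑ k ∈ (univ.erase i).erase a,
        na G z (f a) * na G z (f k) := fun a _ =>
      Finset.sum_nonneg fun k _ => mul_nonneg (na_nonneg _ _) (na_nonneg _ _)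
    split_ifs with hz
    · obtain ⟨j, k, hji, hki, hjk, hj, hk⟩ := hz
      have hrow : ∀ a b : Fin R, b ≠ i → b ≠ a → ¬ G.Adj z (f a) → ¬ G.Adj z (f b) →
          (1 : ℝ) ≤ ∑ l ∈ (univ.erase i).erase a, na G z (f a) * na G z (f l) := by
        intro a b hbi hba ha hb
        have e : (1 : ℝ) = na G z (f a) * na G z (f b) := by
          rw [TSums_na_one ha, TSums_na_one hb, one_mul]
        rw [e]
        exact Finset.single_le_sum (f := fun l => na G z (f a) * na G z (f l))
          (fun l _ => mul_nonneg (na_nonneg _ _) (na_nonneg _ _))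
          (Finset.mem_erase.2 ⟨hba, Finset.mem_erase.2 ⟨hbi, mem_univ b⟩⟩)
      have h2 := hrow j k hki hjk.symm hj hk
      have h3 := hrow k j hji hjk hk hj
      have hsub : ({j, k} : Finset (Fin R)) ⊆ univ.erase i := by
        intro a ha
        rw [Finset.mem_insert, Finset.mem_singleton] at ha
        rcases ha with rfl | rfl
        · exact Finset.mem_erase.2 ⟨hji, mem_univ _⟩
        · exact Finset.mem_erase.2 ⟨hki, mem_univ _⟩
      have h4 := Finset.sum_le_sum_of_subset_of_nonneg hsub (fun a ha _ => hnn a ha)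
      rw [Finset.sum_pair hjk] at h4
      linarith
    · have := Finset.sum_nonneg hnn
      linarith
  -- resampling
  have h2 : ∀ i, ∀ z ∈ B i, ∀ j ∈ univ.erase i, ∑ f ∈ Fintype.piFinset B,
      ∑ k ∈ (univ.erase i).erase j, na G z (f j) * na G z (f k) ≤
      4 * η₁ * R * ∑ f ∈ Fintype.piFinset B, na G z (f j) := by
    intro i z hz j hj
    rw [Finset.sum_comm]
    have h3 : ∀ k ∈ (univ.erase i).erase j, ∑ f ∈ Fintype.piFinset B,
        na G z (f j) * na G z (f k) ≤ 4 * η₁ * ∑ f ∈ Fintype.piFinset B, na G z (f j) := by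
      intro k hk
      obtain ⟨hkj, hk1⟩ := Finset.mem_erase.1 hk
      obtain ⟨hki, -⟩ := Finset.mem_erase.1 hk1
      exact TSums_key h hδ hm k i hki.symm (fun f => na G z (f j)) (fun f => na_nonneg _ _)
        (fun f y => by simp only [Function.update_of_ne hkj.symm]) (fun _ => z)
        (fun _ _ => hz) (fun _ _ => rfl)
    have hnn : 0 ≤ 4 * η₁ * ∑ f ∈ Fintype.piFinset B, na G z (f j) :=
      mul_nonneg (by positivity) (Finset.sum_nonneg fun f _ => na_nonneg _ _)
    calc _ ≤ ∑ _k ∈ (univ.erase i).erase j,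
          4 * η₁ * ∑ f ∈ Fintype.piFinset B, na G z (f j) := Finset.sum_le_sum h3
      _ = (((univ.erase i).erase j).card : ℝ) *
          (4 * η₁ * ∑ f ∈ Fintype.piFinset B, na G z (f j)) := by
          rw [Finset.sum_const, nsmul_eq_mul]
      _ ≤ (R : ℝ) * (4 * η₁ * ∑ f ∈ Fintype.piFinset B, na G z (f j)) := by
          refine mul_le_mul_of_nonneg_right ?_ hnn
          have h5 : ((univ.erase i).erase j).card ≤ (univ : Finset (Fin R)).card :=
            Finset.card_le_card ((Finset.erase_subset _ _).trans (Finset.erase_subset _ _))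
          rw [Finset.card_univ, Fintype.card_fin] at h5
          exact_mod_cast h5
      _ = _ := by ring
  have hS : 0 ≤ ∑ f ∈ Fintype.piFinset B, DD G f := Finset.sum_nonneg fun f _ => DD_nonneg f
  calc ∑ f ∈ Fintype.piFinset B, s2 G B f
      ≤ ∑ f ∈ Fintype.piFinset B, ∑ i, ∑ z ∈ B i, 1 / 2 * ∑ j ∈ univ.erase i,
        ∑ k ∈ (univ.erase i).erase j, na G z (f j) * na G z (f k) :=
        Finset.sum_le_sum fun f _ => h1 f
    _ = ∑ i, ∑ z ∈ B i, 1 / 2 * ∑ j ∈ univ.erase i, ∑ f ∈ Fintype.piFinset B,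
        ∑ k ∈ (univ.erase i).erase j, na G z (f j) * na G z (f k) := by
        rw [Finset.sum_comm]
        refine Finset.sum_congr rfl fun i _ => ?_
        rw [Finset.sum_comm]
        refine Finset.sum_congr rfl fun z _ => ?_
        rw [← Finset.mul_sum, Finset.sum_comm]
    _ ≤ ∑ i, ∑ z ∈ B i, 1 / 2 * ∑ j ∈ univ.erase i,
        4 * η₁ * R * ∑ f ∈ Fintype.piFinset B, na G z (f j) := by
        refine Finset.sum_le_sum fun i _ => Finset.sum_le_sum fun z hz => ?_
        exact mul_le_mul_of_nonneg_left (Finset.sum_le_sum (h2 i z hz)) (by norm_num)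
    _ = 2 * η₁ * R * ∑ f ∈ Fintype.piFinset B, ∑ i, ∑ z ∈ B i,
        ∑ j ∈ univ.erase i, na G z (f j) := by
        rw [Finset.sum_comm (s := Fintype.piFinset B), Finset.mul_sum]
        refine Finset.sum_congr rfl fun i _ => ?_
        rw [Finset.sum_comm (s := Fintype.piFinset B), Finset.mul_sum]
        refine Finset.sum_congr rfl fun z _ => ?_
        rw [Finset.sum_comm (s := Fintype.piFinset B), ← Finset.mul_sum]
        ring
    _ ≤ 2 * η₁ * R * ((1 + δ) * m * ∑ f ∈ Fintype.piFinset B, DD G f) :=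
        mul_le_mul_of_nonneg_left (TSums_first h) (by positivity)
    _ = (1 + δ) * (2 * η₁ * R * m * ∑ f ∈ Fintype.piFinset B, DD G f) := by ring
    _ ≤ 2 * (2 * η₁ * R * m * ∑ f ∈ Fintype.piFinset B, DD G f) :=
        mul_le_mul_of_nonneg_right (by linarith) (by positivity)
    _ = _ := by ring

/-- the ordered pairs of different coordinates -/
private def TSums_P (R : ℕ) : Finset (Fin R × Fin R) :=
  (univ : Finset (Fin R × Fin R)).filter fun p => p.1 ≠ p.2

private lemma TSums_DD {R : ℕ} (f : Fin R → V) :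
    DD G f = ∑ p ∈ TSums_P R, na G (f p.1) (f p.2) := by
  unfold DD TSums_P
  rw [Finset.sum_filter, ← Finset.univ_product_univ, Finset.sum_product]
  refine Finset.sum_congr rfl fun i _ => ?_
  rw [← Finset.sum_filter]
  refine Finset.sum_congr ?_ fun _ _ => rfl
  ext j
  simp [ne_comm]

/-- `DD` is an even natural number -/
private lemma TSums_even {R : ℕ} (f : Fin R → V) : ∃ Y : ℕ, DD G f = 2 * Y := by
  refine ⟨((univ : Finset (Fin R × Fin R)).filter
    fun p => p.1 < p.2 ∧ ¬ G.Adj (f p.1) (f p.2)).card, ?_⟩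
  have h1 : (((univ : Finset (Fin R × Fin R)).filter
      fun p => p.1 < p.2 ∧ ¬ G.Adj (f p.1) (f p.2)).card : ℝ) =
      ∑ p : Fin R × Fin R, (if p.1 < p.2 then na G (f p.1) (f p.2) else 0) := by
    rw [Finset.natCast_card_filter]
    refine Finset.sum_congr rfl fun p _ => ?_
    unfold na
    by_cases hp : p.1 < p.2 <;> by_cases ha : G.Adj (f p.1) (f p.2) <;> simp [hp, ha]
  have h2 : ∑ p : Fin R × Fin R, (if p.1 < p.2 then na G (f p.1) (f p.2) else 0) =
      ∑ p : Fin R × Fin R, (if p.2 < p.1 then na G (f p.1) (f p.2) else 0) := by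
    refine Fintype.sum_equiv (Equiv.prodComm _ _) _ _ fun p => ?_
    simp only [Equiv.prodComm_apply, Prod.fst_swap, Prod.snd_swap]
    rw [na_comm]
  have h3 : DD G f = ∑ p : Fin R × Fin R, (if p.1 < p.2 then na G (f p.1) (f p.2) else 0) +
      ∑ p : Fin R × Fin R, (if p.2 < p.1 then na G (f p.1) (f p.2) else 0) := by
    rw [TSums_DD, TSums_P, Finset.sum_filter, ← Finset.sum_add_distrib]
    refine Finset.sum_congr rfl fun p _ => ?_
    rcases lt_trichotomy p.1 p.2 with hp | hp | hp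
    · simp [hp, hp.ne, hp.not_gt]
    · simp [hp]
    · simp [hp, hp.ne', hp.not_gt]
  rw [h3, ← h2, h1]
  ring

/-- second Bonferroni inequality for the number of clique transversals -/
theorem card_tcl_le {R m : ℕ} {S : Finset V} {C η₁ δ : ℝ} {B : Fin R → Finset V}
    (h : LS G S R m C η₁ δ B) (hη : 0 ≤ η₁) (hδ : δ ≤ 1 / 2) (hm : 0 < m) :
    ((tcl G B).card : ℝ) ≤ (∏ l, ((B l).card : ℝ)) - (1 / 2) * (∑ f ∈ Fintype.piFinset B, DD G f) +
      (R : ℝ) ^ 2 * η₁ * ∑ f ∈ Fintype.piFinset B, DD G f := by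
  -- the indicator
  have hind : ∀ f : Fin R → V, (if (∀ i j, i ≠ j → G.Adj (f i) (f j)) then (1 : ℝ) else 0) ≤
      1 - 1 / 2 * DD G f + 1 / 8 * (DD G f ^ 2 - 2 * DD G f) := by
    intro f
    obtain ⟨Y, hY⟩ := TSums_even (G := G) f
    rw [hY]
    split_ifs with hf
    · have h0 : DD G f = 0 := by
        unfold DD
        refine Finset.sum_eq_zero fun i _ => Finset.sum_eq_zero fun j hj => ?_
        exact TSums_na_zero (hf i j (Finset.mem_erase.1 hj).1.symm)
      rw [hY] at h0
      rw [h0]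
      norm_num
    · rcases Nat.lt_or_ge Y 2 with hY2 | hY2
      · interval_cases Y <;> norm_num
      · have h2 : (2 : ℝ) ≤ Y := by exact_mod_cast hY2
        nlinarith
  -- the second moment
  have hsq : ∀ f : Fin R → V, DD G f ^ 2 - 2 * DD G f = ∑ p ∈ TSums_P R,
      ∑ q ∈ ((TSums_P R).erase p).erase p.swap,
        na G (f p.1) (f p.2) * na G (f q.1) (f q.2) := by
    intro f
    have h1 : ∀ p ∈ TSums_P R, ∑ q ∈ ((TSums_P R).erase p).erase p.swap,
        na G (f p.1) (f p.2) * na G (f q.1) (f q.2) =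
        na G (f p.1) (f p.2) * DD G f - 2 * na G (f p.1) (f p.2) := by
      intro p hp
      have hp' : p.1 ≠ p.2 := (Finset.mem_filter.1 hp).2
      have hsw : p.swap ∈ (TSums_P R).erase p := by
        refine Finset.mem_erase.2 ⟨fun he => hp' ?_, Finset.mem_filter.2 ⟨mem_univ _, ?_⟩⟩
        · have := congrArg Prod.snd he
          simpa using this
        · simpa using hp'.symm
      have hid : na G (f p.1) (f p.2) * na G (f p.1) (f p.2) = na G (f p.1) (f p.2) := by
        unfold na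
        split_ifs <;> norm_num
      have e1 := Finset.add_sum_erase ((TSums_P R).erase p)
        (fun q => na G (f p.1) (f p.2) * na G (f q.1) (f q.2)) hsw
      have e2 := Finset.add_sum_erase (TSums_P R)
        (fun q => na G (f p.1) (f p.2) * na G (f q.1) (f q.2)) hp
      simp only [Prod.fst_swap, Prod.snd_swap] at e1 e2
      rw [na_comm (f p.2) (f p.1)] at e1
      rw [hid] at e1 e2
      rw [← Finset.mul_sum (s := TSums_P R), ← TSums_DD] at e2
      linarith
    rw [Finset.sum_congr rfl h1, Finset.sum_sub_distrib, ← Finset.sum_mul, ← Finset.mul_sum,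
      ← TSums_DD]
    ring
  -- resampling
  have hnaF : ∀ (p : Fin R × Fin R) (k : Fin R), k ≠ p.1 → k ≠ p.2 → ∀ (f : Fin R → V) (y : V),
      na G (Function.update f k y p.1) (Function.update f k y p.2) = na G (f p.1) (f p.2) := by
    intro p k h1 h2 f y
    rw [Function.update_of_ne h1.symm, Function.update_of_ne h2.symm]
  have hpair : ∀ p ∈ TSums_P R, ∀ q ∈ ((TSums_P R).erase p).erase p.swap,
      ∑ f ∈ Fintype.piFinset B, na G (f p.1) (f p.2) * na G (f q.1) (f q.2) ≤
      4 * η₁ * ∑ f ∈ Fintype.piFinset B, na G (f p.1) (f p.2) := by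
    intro p hp q hq
    obtain ⟨hq1, hq2⟩ := Finset.mem_erase.1 hq
    obtain ⟨hq3, hq4⟩ := Finset.mem_erase.1 hq2
    have hq' : q.1 ≠ q.2 := (Finset.mem_filter.1 hq4).2
    have hor : (q.1 ≠ p.1 ∧ q.1 ≠ p.2) ∨ (q.2 ≠ p.1 ∧ q.2 ≠ p.2) := by
      by_contra hcon
      rw [not_or, not_and_or, not_and_or, not_not, not_not, not_not, not_not] at hcon
      obtain ⟨h1 | h1, h2 | h2⟩ := hcon
      · exact hq' (h1.trans h2.symm)
      · exact hq3 (Prod.ext h1 h2)
      · exact hq1 (Prod.ext (by simpa using h1) (by simpa using h2))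
      · exact hq' (h1.trans h2.symm)
    rcases hor with ⟨h1, h2⟩ | ⟨h1, h2⟩
    · have h3 := TSums_key h hδ hm q.1 q.2 hq'.symm (fun f => na G (f p.1) (f p.2))
        (fun f => na_nonneg _ _) (hnaF p q.1 h1 h2) (fun f => f q.2)
        (fun f hf => Fintype.mem_piFinset.1 hf q.2)
        (fun f y => by simp only [Function.update_of_ne hq'.symm])
      refine le_trans (le_of_eq ?_) h3
      refine Finset.sum_congr rfl fun f _ => ?_
      rw [na_comm (f q.1) (f q.2)]
    · exact TSums_key h hδ hm q.2 q.1 hq' (fun f => na G (f p.1) (f p.2))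
        (fun f => na_nonneg _ _) (hnaF p q.2 h1 h2) (fun f => f q.1)
        (fun f hf => Fintype.mem_piFinset.1 hf q.1)
        (fun f y => by simp only [Function.update_of_ne hq'])
  have hcardP : ∀ p : Fin R × Fin R,
      ((((TSums_P R).erase p).erase p.swap).card : ℝ) ≤ (R : ℝ) ^ 2 := by
    intro p
    have h1 : (((TSums_P R).erase p).erase p.swap).card ≤
        (univ : Finset (Fin R × Fin R)).card := Finset.card_le_card (Finset.subset_univ _)
    rw [Finset.card_univ, Fintype.card_prod, Fintype.card_fin] at h1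
    have h2 : ((((TSums_P R).erase p).erase p.swap).card : ℝ) ≤ ((R * R : ℕ) : ℝ) := by
      exact_mod_cast h1
    rw [pow_two]
    push_cast at h2
    exact h2
  have hsum : ∑ f ∈ Fintype.piFinset B, (DD G f ^ 2 - 2 * DD G f) ≤
      4 * (R : ℝ) ^ 2 * η₁ * ∑ f ∈ Fintype.piFinset B, DD G f := by
    calc ∑ f ∈ Fintype.piFinset B, (DD G f ^ 2 - 2 * DD G f)
        = ∑ p ∈ TSums_P R, ∑ q ∈ ((TSums_P R).erase p).erase p.swap,
          ∑ f ∈ Fintype.piFinset B, na G (f p.1) (f p.2) * na G (f q.1) (f q.2) := by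
          rw [Finset.sum_congr rfl fun f _ => hsq f, Finset.sum_comm]
          refine Finset.sum_congr rfl fun p _ => ?_
          rw [Finset.sum_comm]
      _ ≤ ∑ p ∈ TSums_P R, ∑ _q ∈ ((TSums_P R).erase p).erase p.swap,
          4 * η₁ * ∑ f ∈ Fintype.piFinset B, na G (f p.1) (f p.2) :=
          Finset.sum_le_sum fun p hp => Finset.sum_le_sum fun q hq => hpair p hp q hq
      _ ≤ ∑ p ∈ TSums_P R, (R : ℝ) ^ 2 *
          (4 * η₁ * ∑ f ∈ Fintype.piFinset B, na G (f p.1) (f p.2)) := by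
          refine Finset.sum_le_sum fun p _ => ?_
          rw [Finset.sum_const, nsmul_eq_mul]
          exact mul_le_mul_of_nonneg_right (hcardP p)
            (mul_nonneg (by positivity) (Finset.sum_nonneg fun f _ => na_nonneg _ _))
      _ = 4 * (R : ℝ) ^ 2 * η₁ * ∑ f ∈ Fintype.piFinset B, DD G f := by
          rw [← Finset.mul_sum, ← Finset.mul_sum, Finset.sum_comm]
          rw [Finset.sum_congr rfl fun f _ => (TSums_DD (G := G) f).symm]
          ring
  have hcard : ((tcl G B).card : ℝ) = ∑ f ∈ Fintype.piFinset B,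
      (if (∀ i j, i ≠ j → G.Adj (f i) (f j)) then (1 : ℝ) else 0) := by
    unfold tcl
    rw [Finset.card_filter]
    push_cast
    rfl
  have hprod : (∏ l, ((B l).card : ℝ)) = ∑ _f ∈ Fintype.piFinset B, (1 : ℝ) := by
    rw [Finset.sum_const, nsmul_eq_mul, Fintype.card_piFinset]
    push_cast
    ring
  have hS : 0 ≤ ∑ f ∈ Fintype.piFinset B, DD G f := Finset.sum_nonneg fun f _ => DD_nonneg f
  calc ((tcl G B).card : ℝ) = _ := hcard
    _ ≤ ∑ f ∈ Fintype.piFinset B, (1 - 1 / 2 * DD G f + 1 / 8 * (DD G f ^ 2 - 2 * DD G f)) :=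
        Finset.sum_le_sum fun f _ => hind f
    _ = (∏ l, ((B l).card : ℝ)) - (1 / 2) * (∑ f ∈ Fintype.piFinset B, DD G f) +
        1 / 8 * ∑ f ∈ Fintype.piFinset B, (DD G f ^ 2 - 2 * DD G f) := by
        rw [Finset.sum_add_distrib, Finset.sum_sub_distrib, ← hprod, ← Finset.mul_sum,
          ← Finset.mul_sum]
    _ ≤ _ := by
        have h9 : 0 ≤ (R : ℝ) ^ 2 * η₁ * ∑ f ∈ Fintype.piFinset B, DD G f := by positivity
        nlinarith

end H57LC
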