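import Pool.Agent.H57.LC.Smooth
import Pool.Agent.H57.E32.Turan

/-!
The Turan graph `T_w(w m + r)`, `r < w`.
-/

namespace H57LC

open Finset H57E32

/-- the Turan graph -/
abbrev TG (w m r : ℕ) : SimpleGraph (Fin (w * m + r)) := SimpleGraph.turanGraph (w * m + r) w

/-- the class of a vertex -/
def tcN (w m r : ℕ) (hw : 1 ≤ w) (v : Fin (w * m + r)) : Fin w :=
  ⟨v.val % w, Nat.mod_lt _ (by omega)⟩

lemma tcN_adj {w m r : ℕ} (hw : 1 ≤ w) (v v' : Fin (w * m + r)) :
    (TG w m r).Adj v v' ↔ tcN w m r hw v ≠ tcN w m r hw v' := by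
  simp [TG, SimpleGraph.turanGraph, tcN]

lemma tcN_card {w m r : ℕ} (hw : 1 ≤ w) (hr : r < w) (j : Fin w) :
    (cls (tcN w m r hw) j).card = m + if j.val < r then 1 else 0 := by
  have h1 : (cls (tcN w m r hw) j).card =
      ((range (w * m + r)).filter (fun x => x ≡ j.val [MOD w])).card := by
    apply card_bij (fun v _ => v.val)
    · intro v hv
      have h2 : tcN w m r hw v = j := (mem_filter.mp hv).2
      rw [mem_filter, mem_range]
      refine ⟨v.2, ?_⟩
      have h3 : v.val % w = j.val := by rw [← h2]; rfl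
      unfold Nat.ModEq
      rw [h3, Nat.mod_eq_of_lt j.2]
    · intro v _ v' _ h
      exact Fin.ext h
    · intro x hx
      rw [mem_filter, mem_range] at hx
      refine ⟨⟨x, hx.1⟩, mem_filter.mpr ⟨mem_univ _, ?_⟩, rfl⟩
      apply Fin.ext
      have h3 := hx.2
      unfold Nat.ModEq at h3
      rw [Nat.mod_eq_of_lt j.2] at h3
      exact h3
  rw [h1, ← Nat.count_eq_card_filter_range, Nat.count_modEq_card _ (by omega)]
  have h4 : (w * m + r) / w = m := by
    rw [Nat.mul_add_div (by omega), Nat.div_eq_of_lt hr, add_zero]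
  have h5 : (w * m + r) % w = r := by
    rw [Nat.mul_add_mod, Nat.mod_eq_of_lt hr]
  rw [h4, h5, Nat.mod_eq_of_lt j.2]

/-- clique numbers of the Turan graph -/
theorem kc_TG {w m r : ℕ} (hw : 1 ≤ w) (hr : r < w) (k : ℕ) :
    kc k (TG w m r) = ∑ J ∈ powersetCard k (univ : Finset (Fin w)), ∏ j ∈ J,
      (m + if j.val < r then 1 else 0) := by
  rw [kc_multi (tcN w m r hw) (tcN_adj hw)]
  exact sum_congr rfl fun J _ => prod_congr rfl fun j _ => tcN_card hw hr j

/-- the ratio of the numbers of `u`-cliques and `w`-cliques is `rinv` -/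
theorem kc_TG_ratio {u R m r : ℕ} (hm : 1 ≤ m) (hw : 1 ≤ R + u) (hr : r < R + u) :
    (kc (R + u) (TG (R + u) m r) : ℝ) * rinv (R + u) R r m = kc u (TG (R + u) m r) := by
  have hm0 : (0 : ℝ) < m := by exact_mod_cast hm
  have hpos : ∀ j : Fin (R + u), (0 : ℝ) < (m : ℝ) + if j.val < r then 1 else 0 := by
    intro j
    split_ifs <;> linarith
  have hc : (powersetCard (R + u) (univ : Finset (Fin (R + u)))) = {univ} := by
    have := powersetCard_self (univ : Finset (Fin (R + u)))
    rwa [card_univ, Fintype.card_fin] at this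
  rw [kc_TG hw hr, kc_TG hw hr, hc, sum_singleton]
  unfold rinv
  push_cast
  rw [mul_sum]
  refine sum_bij' (fun T _ => Tᶜ) (fun T _ => Tᶜ) ?_ ?_ ?_ ?_ ?_
  · intro T hT
    rw [mem_powersetCard] at hT ⊢
    refine ⟨subset_univ _, ?_⟩
    rw [card_compl, hT.2, Fintype.card_fin]
    omega
  · intro T hT
    rw [mem_powersetCard] at hT ⊢
    refine ⟨subset_univ _, ?_⟩
    rw [card_compl, hT.2, Fintype.card_fin]
    omega
  · intro T _
    exact compl_compl T
  · intro T _
    exact compl_compl T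
  · intro T _
    rw [← prod_mul_prod_compl T (fun j : Fin (R + u) => (m : ℝ) + if j.val < r then 1 else 0),
      prod_inv_distrib]
    have h1 : (∏ j ∈ T, ((m : ℝ) + if j.val < r then 1 else 0)) ≠ 0 :=
      prod_ne_zero_iff.mpr fun j _ => (hpos j).ne'
    field_simp

theorem kc_TG_pos {u R m r : ℕ} (hm : 1 ≤ m) (hw : 1 ≤ R + u) (hr : r < R + u) :
    0 < kc u (TG (R + u) m r) ∧ 0 < kc (R + u) (TG (R + u) m r) := by
  have key : ∀ k, k ≤ R + u → 0 < kc k (TG (R + u) m r) := by
    intro k hk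
    rw [kc_TG hw hr]
    apply sum_pos
    · intro J _
      apply prod_pos
      intro j _
      omega
    · rw [powersetCard_nonempty, card_univ, Fintype.card_fin]
      exact hk
  exact ⟨key u (by omega), key _ le_rfl⟩

theorem TG_allowed {u R m r : ℕ} (hu : 1 ≤ u) (hr : r < R + u) :
    Allowed u (R * m + r) (R + u) (TG (R + u) m r) := by
  classical
  have hw : 1 ≤ R + u := by omega
  rw [allowed_iff]
  refine ⟨?_, SimpleGraph.turanGraph_cliqueFree (by omega)⟩
  intro A hA
  rw [cns_ncard]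
  have hinj : Set.InjOn (tcN (R + u) m r hw) A := by
    intro x hx y hy hxy
    by_contra hne
    exact (tcN_adj hw x y).mp (hA.1 hx hy hne) hxy
  set B := A.biUnion (fun a => cls (tcN (R + u) m r hw) (tcN (R + u) m r hw a)) with hB
  have hBc : u * m ≤ B.card := by
    rw [hB, card_biUnion]
    · calc u * m = ∑ _a ∈ A, m := by rw [sum_const, hA.card_eq, smul_eq_mul]
        _ ≤ _ := sum_le_sum (fun a _ => by rw [tcN_card hw hr]; omega)
    · intro x hx y hy hxy
      change Disjoint (cls (tcN (R + u) m r hw) (tcN (R + u) m r hw x))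
        (cls (tcN (R + u) m r hw) (tcN (R + u) m r hw y))
      rw [disjoint_left]
      intro v hv hv'
      exact hxy (hinj hx hy ((mem_filter.mp hv).2.symm.trans (mem_filter.mp hv').2))
  have hd : Disjoint (H57E32.cn (TG (R + u) m r) A) B := by
    rw [disjoint_left]
    intro v hv hv'
    rw [hB, mem_biUnion] at hv'
    obtain ⟨a, ha, hva⟩ := hv'
    have h1 := H57E32.mem_cn.mp hv a ha
    rw [tcN_adj hw] at h1
    exact h1 (mem_filter.mp hva).2.symm
  have h2 := card_union_of_disjoint hd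
  have h3 := card_le_univ (H57E32.cn (TG (R + u) m r) A ∪ B)
  rw [h2, Fintype.card_fin] at h3
  have h4 : (R + u) * m = R * m + u * m := by ring
  omega

end H57LC
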