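import Pool.Agent.H57.LC.Upper
import Pool.Agent.H57.LC.TurN

/-!
The limit.
-/

namespace H57LC

open Finset Filter Topology H57E32

lemma kc_eq_clq {V : Type*} [Fintype V] [DecidableEq V] (G : SimpleGraph V) [DecidableRel G.Adj]
    (k : ℕ) : kc k G = (clq G univ k).card := by
  rw [kc_eq]
  congr 1
  ext A
  rw [SimpleGraph.mem_cliqueFinset_iff, SimpleGraph.isNClique_iff, mem_clq]
  constructor
  · rintro ⟨h1, h2⟩
    exact ⟨⟨subset_univ A, h2⟩, fun a ha b hb hab => h1 ha hb hab⟩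
  · rintro ⟨⟨_, h2⟩, h3⟩
    exact ⟨fun a ha b hb hab => h3 a ha b hb hab, h2⟩

/-- translation of the upper bound -/
theorem upper_kc {u R r : ℕ} (hu : 1 ≤ u) (hr : 1 ≤ r) (hr2 : r + 2 ≤ R)
    (hcond : 0 < ((R : ℤ) - 1) * (R - 1 - r) + u * (R - 1 - 2 * r)) :
    ∃ m₀ : ℕ, ∀ m : ℕ, m₀ ≤ m → ∀ (n : ℕ) (G : SimpleGraph (Fin n)),
      Allowed u (R * m + r) (R + u) G →
        (kc (R + u) G : ℝ) * rinv (R + u) R r m ≤ (kc u G : ℝ) := by
  classical
  obtain ⟨m₀, hm₀⟩ := upper u R r hu hr hr2 hcond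
  refine ⟨m₀, fun m hm n G hG => ?_⟩
  rw [allowed_iff] at hG
  rw [kc_eq_clq, kc_eq_clq]
  refine hm₀ m hm (Fin n) G ?_ ?_
  · intro U hU
    rw [mem_clq] at hU
    have h1 : G.IsNClique u U := by
      rw [SimpleGraph.isNClique_iff]
      exact ⟨fun a ha b hb hab => hU.2 a ha b hb hab, hU.1.2⟩
    have h2 := hG.1 U h1
    have h3 : (cns G U).ncard = (cn G U).card := by
      rw [← Set.ncard_coe_finset]
      congr 1
      ext v
      simp [cns, mem_cn]
    rw [← h3]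
    exact h2
  · rw [eq_empty_iff_forall_notMem]
    intro A hA
    rw [mem_clq] at hA
    refine hG.2 A ?_
    rw [SimpleGraph.isNClique_iff]
    exact ⟨fun a ha b hb hab => hA.2 a ha b hb hab, hA.1.2⟩

/-- the extremal function is attained, `A * a ≤ p * b` for all achievable pairs -/
lemma exK_mem_of {u t Δ ω a b : ℕ} (hu : 1 ≤ u) (hω : u ≤ ω) (htu : u < t) (ha : 0 < a)
    (hup : ∀ (n : ℕ) (G : SimpleGraph (Fin n)), Allowed u Δ ω G → kc t G * a ≤ kc u G * b)
    (p : ℕ) : Ach u t Δ ω p (exK u t Δ ω p) := by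
  have hne : {N : ℕ | ∃ (m : ℕ) (G : SimpleGraph (Fin m)), Allowed u Δ ω G ∧
      kc u G = p ∧ kc t G = N}.Nonempty := by
    have h := (Ach.one (u := u) (t := t) (Δ := Δ) (ω := ω) hω htu).mul hu (by omega) p
    rw [mul_one] at h
    exact ⟨_, h⟩
  have hbdd : BddAbove {N : ℕ | ∃ (m : ℕ) (G : SimpleGraph (Fin m)),
      Allowed u Δ ω G ∧ kc u G = p ∧ kc t G = N} := by
    refine ⟨p * b, ?_⟩
    rintro N ⟨m, G, hG, hp, hN⟩
    have h := hup m G hG
    rw [hp, hN] at h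
    exact (Nat.le_mul_of_pos_right N ha).trans h
  exact Nat.sSup_mem hne hbdd

lemma le_exK_of {u t Δ ω a b : ℕ} (ha : 0 < a)
    (hup : ∀ (n : ℕ) (G : SimpleGraph (Fin n)), Allowed u Δ ω G → kc t G * a ≤ kc u G * b)
    {p N : ℕ} (h : Ach u t Δ ω p N) : N ≤ exK u t Δ ω p := by
  have hbdd : BddAbove {N : ℕ | ∃ (m : ℕ) (G : SimpleGraph (Fin m)),
      Allowed u Δ ω G ∧ kc u G = p ∧ kc t G = N} := by
    refine ⟨p * b, ?_⟩
    rintro N ⟨m, G, hG, hp, hN⟩
    have h := hup m G hG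
    rw [hp, hN] at h
    exact (Nat.le_mul_of_pos_right N ha).trans h
  exact le_csSup hbdd h

lemma tendsto_of_bounds {a b : ℕ} (ha : 0 < a) (f : ℕ → ℕ)
    (h1 : ∀ p, f p * a ≤ p * b) (h2 : ∀ p, (p / a) * b ≤ f p) :
    Tendsto (fun p : ℕ => (f p : ℝ) / p) atTop (𝓝 ((b : ℝ) / a)) := by
  have ha' : (0 : ℝ) < a := by exact_mod_cast ha
  have hlow : Tendsto (fun p : ℕ => (b : ℝ) / a - (b : ℝ) / p) atTop (𝓝 ((b : ℝ) / a - 0)) :=
    tendsto_const_nhds.sub (tendsto_const_div_atTop_nhds_zero_nat _)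
  rw [sub_zero] at hlow
  refine tendsto_of_tendsto_of_tendsto_of_le_of_le' hlow tendsto_const_nhds ?_ ?_
  · filter_upwards [eventually_gt_atTop 0] with p hp
    have hp' : (0 : ℝ) < p := by exact_mod_cast hp
    have h3 : (p : ℝ) < ((p / a : ℕ) + 1) * a := by
      have h4 := Nat.lt_div_mul_add (a := p) ha
      have h5 : p < (p / a + 1) * a := by rw [add_mul, one_mul]; exact h4
      exact_mod_cast h5
    have h6 : ((p / a : ℕ) : ℝ) * b ≤ (f p : ℝ) := by exact_mod_cast h2 p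
    have hb : (0 : ℝ) ≤ b := Nat.cast_nonneg b
    rw [le_div_iff₀ hp', sub_mul, div_mul_cancel₀ _ hp'.ne']
    have h7 : (b : ℝ) / a * p ≤ (((p / a : ℕ) : ℝ) + 1) * b := by
      rw [div_mul_eq_mul_div, div_le_iff₀ ha']
      calc (b : ℝ) * p ≤ b * ((((p / a : ℕ) : ℝ) + 1) * a) := mul_le_mul_of_nonneg_left h3.le hb
        _ = (((p / a : ℕ) : ℝ) + 1) * b * a := by ring
    linarith
  · filter_upwards [eventually_gt_atTop 0] with p hp
    have hp' : (0 : ℝ) < p := by exact_mod_cast hp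
    have h3 : (f p : ℝ) * a ≤ p * b := by exact_mod_cast h1 p
    rw [div_le_div_iff₀ hp' ha']
    linarith

/-- the extremal function and its limit -/
theorem main_lim {u R r : ℕ} (hu : 1 ≤ u) (hr : 1 ≤ r) (hr2 : r + 2 ≤ R)
    (hcond : 0 < ((R : ℤ) - 1) * (R - 1 - r) + u * (R - 1 - 2 * r)) :
    ∃ m₀ : ℕ, ∀ m : ℕ, m₀ ≤ m →
      (∀ p : ℕ, exK u (R + u) (R * m + r) (R + u) p * kc u (TG (R + u) m r) ≤
        p * kc (R + u) (TG (R + u) m r)) ∧
      (∀ q : ℕ, exK u (R + u) (R * m + r) (R + u) (q * kc u (TG (R + u) m r)) =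
        q * kc (R + u) (TG (R + u) m r)) ∧
      Tendsto (fun p : ℕ => (exK u (R + u) (R * m + r) (R + u) p : ℝ) / p) atTop
        (𝓝 ((kc (R + u) (TG (R + u) m r) : ℝ) / kc u (TG (R + u) m r))) := by
  obtain ⟨m₀, hm₀⟩ := upper_kc hu hr hr2 hcond
  refine ⟨max m₀ 1, fun m hm => ?_⟩
  have hm1 : 1 ≤ m := le_trans (le_max_right _ _) hm
  have hr3 : r < R + u := by omega
  have hw : 1 ≤ R + u := by omega
  have hω : u ≤ R + u := by omega
  have htu : u < R + u := by omega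
  obtain ⟨ha, hb⟩ := kc_TG_pos (u := u) (R := R) (m := m) (r := r) hm1 hw hr3
  have hratio := kc_TG_ratio (u := u) (R := R) (m := m) (r := r) hm1 hw hr3
  have hal := TG_allowed (u := u) (R := R) (m := m) (r := r) hu hr3
  have hup : ∀ (n : ℕ) (G : SimpleGraph (Fin n)), Allowed u (R * m + r) (R + u) G →
      kc (R + u) G * kc u (TG (R + u) m r) ≤ kc u G * kc (R + u) (TG (R + u) m r) := by
    intro n G hG
    have h := hm₀ m (le_trans (le_max_left _ _) hm) n G hG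
    have h1 : ((kc (R + u) G * kc u (TG (R + u) m r) : ℕ) : ℝ) ≤
        ((kc u G * kc (R + u) (TG (R + u) m r) : ℕ) : ℝ) := by
      push_cast
      rw [← hratio]
      calc (kc (R + u) G : ℝ) * ((kc (R + u) (TG (R + u) m r) : ℝ) * rinv (R + u) R r m)
          = ((kc (R + u) G : ℝ) * rinv (R + u) R r m) * (kc (R + u) (TG (R + u) m r) : ℝ) := by
            ring
        _ ≤ (kc u G : ℝ) * (kc (R + u) (TG (R + u) m r) : ℝ) :=
            mul_le_mul_of_nonneg_right h (Nat.cast_nonneg _)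
    exact_mod_cast h1
  have hle : ∀ p : ℕ, exK u (R + u) (R * m + r) (R + u) p * kc u (TG (R + u) m r) ≤
      p * kc (R + u) (TG (R + u) m r) := by
    intro p
    obtain ⟨n, G, hG, hp, hN⟩ := exK_mem_of hu hω htu ha hup p
    have h := hup n G hG
    rw [hp, hN] at h
    exact h
  have hach := ach_of (u := u) (t := R + u) (Δ := R * m + r) (ω := R + u) _ hal
  refine ⟨hle, fun q => ?_, ?_⟩
  · apply le_antisymm
    · have h := hle (q * kc u (TG (R + u) m r))
      have h1 : exK u (R + u) (R * m + r) (R + u) (q * kc u (TG (R + u) m r)) *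
          kc u (TG (R + u) m r) ≤ (q * kc (R + u) (TG (R + u) m r)) * kc u (TG (R + u) m r) := by
        calc _ ≤ _ := h
          _ = _ := by ring
      exact Nat.le_of_mul_le_mul_right h1 ha
    · exact le_exK_of ha hup (hach.mul hu (by omega) q)
  · refine tendsto_of_bounds ha _ hle (fun p => ?_)
    exact le_exK_of ha hup (Ach.div hu hω htu hach p)

end H57LC
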