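import Mathlib

/-!
Tightness lemmas (note 3541, 2): pure statements about integers.
-/

namespace H57LC

open Finset

variable {ι : Type*} [DecidableEq ι]

/-- (T2) -/
theorem tight_nonpos {K : Finset ι} {R u : ℕ} {r : ℤ} {e : ι → ℤ} (hK : K.card = R + u)
    (hu : 1 ≤ u) (hr : r ≤ (R : ℤ) - 1) (h : ∀ T ⊆ K, T.card = R → 0 ≤ ∑ i ∈ T, e i + r)
    (hE : ∑ i ∈ K, e i + r = 0) : ∀ k ∈ K, e k ≤ 0 := by
  intro k hk
  by_contra hcon
  push Not at hcon
  have hKe : (K.erase k).card = R + u - 1 := by rw [card_erase_of_mem hk, hK]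
  have hsplit := card_filter_add_card_filter_not (s := K.erase k) (p := fun i => 0 ≤ e i)
  rcases le_or_gt (u - 1) ((K.erase k).filter fun i => 0 ≤ e i).card with h1 | h1
  · obtain ⟨I, hI, hIc⟩ := exists_subset_card_eq h1
    have hIK : I ⊆ K.erase k := hI.trans (filter_subset _ _)
    have hkI : k ∉ I := fun h2 => notMem_erase k K (hIK h2)
    have hsub : insert k I ⊆ K := insert_subset hk (hIK.trans (erase_subset _ _))
    have hc : (K \ insert k I).card = R := by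
      rw [card_sdiff_of_subset hsub, card_insert_of_notMem hkI, hIc, hK]
      omega
    have h3 := h (K \ insert k I) sdiff_subset hc
    have h4 := sum_sdiff (f := e) hsub
    rw [sum_insert hkI] at h4
    have h5 : 0 ≤ ∑ i ∈ I, e i := sum_nonneg fun i hi => (mem_filter.1 (hI hi)).2
    linarith
  · have h2 : R ≤ ((K.erase k).filter fun i => ¬ 0 ≤ e i).card := by omega
    obtain ⟨T, hT, hTc⟩ := exists_subset_card_eq h2
    have h3 := h T (hT.trans ((filter_subset _ _).trans (erase_subset _ _))) hTc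
    have h4 : ∑ i ∈ T, e i ≤ ∑ _i ∈ T, (-1 : ℤ) := by
      refine sum_le_sum fun i hi => ?_
      have := (mem_filter.1 (hT hi)).2
      omega
    rw [sum_const, hTc, nsmul_eq_mul] at h4
    linarith

/-- (T3) -/
theorem tight_three {K : Finset ι} {R u : ℕ} {r : ℤ} {e : ι → ℤ} (hK : K.card = R + u)
    (hu : 1 ≤ u) (hr : r ≤ (R : ℤ) - 1) (h : ∀ T ⊆ K, T.card = R → 0 ≤ ∑ i ∈ T, e i + r)
    (hE : ∑ i ∈ K, e i + r = 0) {S' : Finset ι} (hS : S' ⊆ K) (h1 : S'.Nonempty)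
    (hR : S'.card ≤ R)
    (h2 : ∀ T ⊆ K, T.card = R → S' ⊆ T → (S'.card : ℤ) ≤ ∑ i ∈ T, e i + r) : False := by
  have hnp := tight_nonpos hK hu hr h hE
  have hS1 : 1 ≤ S'.card := h1.card_pos
  have hKS : (K \ S').card = R + u - S'.card := by rw [card_sdiff_of_subset hS, hK]
  have hcompl : ∀ I ⊆ K \ S', I.card = u → (K \ I).card = R ∧ S' ⊆ K \ I := by
    intro I hI hIc
    have hIK : I ⊆ K := hI.trans sdiff_subset
    refine ⟨by rw [card_sdiff_of_subset hIK, hK, hIc]; omega, fun i hi => mem_sdiff.2 ⟨hS hi, fun h3 => ?_⟩⟩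
    exact (mem_sdiff.1 (hI h3)).2 hi
  have hZ : ((K \ S').filter fun i => e i = 0).card ≤ u := by
    by_contra hcon
    push Not at hcon
    obtain ⟨I, hI, hIc⟩ := exists_subset_card_eq hcon.le
    have hI' : I ⊆ K \ S' := hI.trans (filter_subset _ _)
    obtain ⟨h3, h4⟩ := hcompl I hI' hIc
    have h5 := h2 (K \ I) sdiff_subset h3 h4
    have h6 := sum_sdiff (f := e) (hI'.trans sdiff_subset)
    have h7 : ∑ i ∈ I, e i = 0 := sum_eq_zero fun i hi => (mem_filter.1 (hI hi)).2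
    have h8 : (1 : ℤ) ≤ (S'.card : ℤ) := by exact_mod_cast hS1
    linarith
  obtain ⟨I, hZI, hI, hIc⟩ := exists_subsuperset_card_eq (filter_subset (fun i => e i = 0) (K \ S')) hZ (by omega)
  obtain ⟨h3, h4⟩ := hcompl I hI hIc
  have h5 := h2 (K \ I) sdiff_subset h3 h4
  have h6 := sum_sdiff (f := e) h4
  have h7 : ∑ i ∈ S', e i ≤ 0 := sum_nonpos fun i hi => hnp i (hS hi)
  have h8 : ∑ i ∈ (K \ I) \ S', e i ≤ ∑ _i ∈ (K \ I) \ S', (-1 : ℤ) := by
    refine sum_le_sum fun i hi => ?_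
    obtain ⟨h9, h10⟩ := mem_sdiff.1 hi
    obtain ⟨h11, h12⟩ := mem_sdiff.1 h9
    have h13 : e i ≠ 0 := fun h14 => h12 (hZI (mem_filter.2 ⟨mem_sdiff.2 ⟨h11, h10⟩, h14⟩))
    have h14 := hnp i h11
    omega
  rw [sum_const, card_sdiff_of_subset h4, h3, nsmul_eq_mul, Nat.cast_sub hR] at h8
  linarith

end H57LC
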