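import Pool.Agent.H57.LC.ThmP
import Pool.Agent.H57.LC.Tight
import Pool.Agent.H57.LC.Smooth

/-!
The inequality (K) (note 3541, 3): real numbers and integers only.
-/

namespace H57LC

open Finset

/-- the number of `R`-subsets of `K` containing a given set -/
lemma card_super {ι : Type*} [DecidableEq ι] {K S : Finset ι} {R : ℕ} (hS : S ⊆ K)
    (h : S.card ≤ R) :
    ((powersetCard R K).filter fun T => S ⊆ T).card = (K.card - S.card).choose (R - S.card) := by
  have h1 : (K \ S).card = K.card - S.card := card_sdiff_of_subset hS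
  rw [← h1, ← card_powersetCard]
  refine card_nbij' (fun T => T \ S) (fun T => T ∪ S) ?_ ?_ ?_ ?_
  · intro T hT
    obtain ⟨h2', h4⟩ := mem_filter.1 (mem_coe.1 hT)
    obtain ⟨h2, h3⟩ := mem_powersetCard.1 h2'
    exact mem_coe.2 (mem_powersetCard.2
      ⟨sdiff_subset_sdiff h2 (Subset.refl _), by rw [card_sdiff_of_subset h4, h3]⟩)
  · intro T hT
    have hT' := mem_powersetCard.1 (mem_coe.1 hT)
    obtain ⟨h2, h3⟩ := hT'
    have h4 : Disjoint T S := by
      rw [disjoint_left]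
      intro a ha hb
      exact (mem_sdiff.1 (h2 ha)).2 hb
    refine mem_coe.2 (mem_filter.2 ⟨mem_powersetCard.2 ⟨union_subset (h2.trans sdiff_subset) hS, ?_⟩,
      subset_union_right⟩)
    rw [card_union_of_disjoint h4, h3]
    omega
  · intro T hT
    have hT' := mem_filter.1 (mem_coe.1 hT)
    exact sdiff_union_of_subset hT'.2
  · intro T hT
    have hT' := mem_powersetCard.1 (mem_coe.1 hT)
    have h4 : Disjoint T S := by
      rw [disjoint_left]
      intro a ha hb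
      exact (mem_sdiff.1 (hT'.1 ha)).2 hb
    change (T ∪ S) \ S = T
    rw [union_sdiff_right, sdiff_eq_self_of_disjoint h4]

lemma sum_one {ι : Type*} [DecidableEq ι] {K : Finset ι} {R : ℕ} (hR : 1 ≤ R) (f : ι → ℝ) :
    ∑ T ∈ powersetCard R K, ∑ i ∈ T, f i = ((K.card - 1).choose (R - 1) : ℝ) * ∑ i ∈ K, f i := by
  have h1 : ∀ T ∈ powersetCard R K, ∑ i ∈ T, f i = ∑ i ∈ K, if {i} ⊆ T then f i else 0 := by
    intro T hT
    rw [← sum_filter]
    congr 1
    ext i
    simp only [mem_filter, singleton_subset_iff]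
    exact ⟨fun h => ⟨(mem_powersetCard.1 hT).1 h, h⟩, fun h => h.2⟩
  rw [sum_congr rfl h1, sum_comm, mul_sum]
  refine sum_congr rfl fun i hi => ?_
  rw [← sum_filter, sum_const, card_super (singleton_subset_iff.2 hi) (by simpa using hR),
    card_singleton, nsmul_eq_mul]

lemma sum_pairs {ι : Type*} [DecidableEq ι] {K : Finset ι} {R : ℕ} (hR : 2 ≤ R) (f : ι → ι → ℝ)
    (hd : ∀ i, f i i = 0) :
    ∑ T ∈ powersetCard R K, ∑ i ∈ T, ∑ j ∈ T, f i j =
      ((K.card - 2).choose (R - 2) : ℝ) * ∑ i ∈ K, ∑ j ∈ K, f i j := by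
  have h1 : ∀ T ∈ powersetCard R K, ∑ i ∈ T, ∑ j ∈ T, f i j =
      ∑ i ∈ K, ∑ j ∈ K, if {i, j} ⊆ T then f i j else 0 := by
    intro T hT
    have hTK := (mem_powersetCard.1 hT).1
    have h2 : ∀ i ∈ K, ∑ j ∈ K, (if {i, j} ⊆ T then f i j else 0) =
        if i ∈ T then ∑ j ∈ T, f i j else 0 := by
      intro i _
      by_cases hi : i ∈ T
      · rw [if_pos hi, ← sum_filter]
        congr 1
        ext j
        simp only [mem_filter, insert_subset_iff, singleton_subset_iff]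
        exact ⟨fun h => h.2.2, fun h => ⟨hTK h, hi, h⟩⟩
      · rw [if_neg hi]
        refine sum_eq_zero fun j _ => if_neg fun h => hi (h (mem_insert_self _ _))
    rw [sum_congr rfl h2, ← sum_filter]
    congr 1
    ext i
    simp only [mem_filter]
    exact ⟨fun h => ⟨hTK h, h⟩, fun h => h.2⟩
  rw [sum_congr rfl h1, sum_comm, mul_sum]
  refine sum_congr rfl fun i hi => ?_
  rw [sum_comm, mul_sum]
  refine sum_congr rfl fun j hj => ?_
  by_cases hij : i = j
  · subst hij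
    rw [hd]
    simp
  · rw [← sum_filter, sum_const, card_super (insert_subset hi (singleton_subset_iff.2 hj))
      (by rw [card_pair hij]; exact hR), card_pair hij, nsmul_eq_mul]

lemma sum_formula {ι : Type*} {F : Finset (Finset ι)} {m C0 C1 C2 R d η ζ SA NK D : ℝ}
    (hm : m ≠ 0) {a : ι → ℝ} {N : ι → ι → ℝ} (s1 : ∑ T ∈ F, ∑ t ∈ T, a t = C1 * SA)
    (s2 : ∑ T ∈ F, ∑ i ∈ T, ∑ j ∈ T, N i j = C2 * NK) (hc : (F.card : ℝ) = C0) :
    ∑ T ∈ F, (1 + (R * m - ∑ t ∈ T, a t) / m -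
      (1 + d) * (((1 / 2 + η) * ((∑ i ∈ T, ∑ j ∈ T, N i j) / 2) + ζ) / m)) / D =
    (C0 + (C0 * R * m - C1 * SA) / m -
      (1 + d) * (((1 / 2 + η) * (C2 * NK / 2) + C0 * ζ) / m)) / D := by
  have h : ∀ T ∈ F, (1 + (R * m - ∑ t ∈ T, a t) / m -
      (1 + d) * (((1 / 2 + η) * ((∑ i ∈ T, ∑ j ∈ T, N i j) / 2) + ζ) / m)) / D =
      (1 + R - (1 + d) * ζ / m) / D - (1 / m / D) * ∑ t ∈ T, a t -
        ((1 + d) * (1 / 2 + η) / 2 / m / D) * ∑ i ∈ T, ∑ j ∈ T, N i j := by
    intro T _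
    have e : R * m / m = R := by field_simp
    rw [sub_div (R * m), e]
    ring
  rw [sum_congr rfl h, sum_sub_distrib, sum_sub_distrib, ← mul_sum, ← mul_sum, s1, s2, sum_const,
    nsmul_eq_mul, hc]
  have e : C0 * R * m / m = C0 * R := by field_simp
  rw [sub_div (C0 * R * m), e]
  ring

/-- lower bound for the product of the inverses -/
lemma prod_inv_ge {ι : Type*} (T : Finset ι) (a : ι → ℕ) (ha : ∀ t ∈ T, 1 ≤ a t) {m : ℕ}
    (hm : 1 ≤ m) :
    (1 + ((T.card : ℝ) * m - ∑ t ∈ T, (a t : ℝ)) / m) / (m : ℝ) ^ T.card ≤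
      ∏ t ∈ T, ((a t : ℝ))⁻¹ := by
  have hp : (0 : ℝ) < m := by exact_mod_cast hm
  have hapos : ∀ t ∈ T, (0 : ℝ) < a t := fun t ht => by exact_mod_cast ha t ht
  have h1 : ∏ t ∈ T, (a t : ℝ) ≤ ∏ t ∈ T, ((m : ℝ) * Real.exp ((a t : ℝ) / m - 1)) := by
    refine prod_le_prod (fun t ht => (hapos t ht).le) fun t _ => ?_
    have := Real.add_one_le_exp ((a t : ℝ) / m - 1)
    calc (a t : ℝ) = m * ((a t : ℝ) / m - 1 + 1) := by field_simp; ring
      _ ≤ _ := mul_le_mul_of_nonneg_left this hp.le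
  rw [prod_mul_distrib, prod_const, ← Real.exp_sum] at h1
  set s : ℝ := ∑ t ∈ T, ((a t : ℝ) / m - 1) with hs
  have hsE : ((T.card : ℝ) * m - ∑ t ∈ T, (a t : ℝ)) / m = -s := by
    rw [hs, sum_sub_distrib, sum_const, nsmul_eq_mul, mul_one, ← sum_div]
    field_simp
    ring
  have hP : 0 < ∏ t ∈ T, (a t : ℝ) := prod_pos hapos
  rw [prod_inv_distrib, hsE]
  have h2 : ((m : ℝ) ^ T.card * Real.exp s)⁻¹ ≤ (∏ t ∈ T, (a t : ℝ))⁻¹ := inv_anti₀ hP h1
  refine le_trans ?_ h2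
  rw [mul_inv, ← Real.exp_neg, div_eq_inv_mul]
  refine mul_le_mul_of_nonneg_left ?_ (by positivity)
  have := Real.add_one_le_exp (-s)
  linarith

/-- upper bound for the product of the inverses -/
lemma prod_inv_le {ι : Type*} (T : Finset ι) (a : ι → ℕ) {m : ℕ} (hm : 1 ≤ m) {ε : ℝ}
    (h0 : 0 < ε) (hε : (T.card : ℝ) * ε ≤ 1 / 2) (hε1 : ε < 1)
    (ha : ∀ t ∈ T, (1 - ε) * m ≤ (a t : ℝ)) :
    ∏ t ∈ T, ((a t : ℝ))⁻¹ ≤ (1 + 2 * T.card * ε) / (m : ℝ) ^ T.card := by
  have hp : (0 : ℝ) < m := by exact_mod_cast hm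
  have h1e : (0 : ℝ) < 1 - ε := by linarith
  have h1 : ∏ t ∈ T, ((a t : ℝ))⁻¹ ≤ ∏ _t ∈ T, ((1 - ε) * m)⁻¹ := by
    refine prod_le_prod (fun t _ => by positivity) fun t ht => ?_
    exact inv_anti₀ (by positivity) (ha t ht)
  refine h1.trans ?_
  rw [prod_const, mul_inv, mul_pow, inv_pow, inv_pow, ← div_eq_mul_inv]
  refine div_le_div_of_nonneg_right ?_ (by positivity)
  have h2 : 1 - T.card * ε ≤ (1 - ε) ^ T.card := by
    have := one_add_mul_le_pow (a := -ε) (by linarith) T.card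
    calc 1 - (T.card : ℝ) * ε = 1 + T.card * (-ε) := by ring
      _ ≤ _ := this
      _ = _ := by rw [← sub_eq_add_neg]
  have h3 : (0 : ℝ) < 1 - T.card * ε := by linarith
  refine (inv_anti₀ h3 h2).trans ?_
  rw [inv_le_iff_one_le_mul₀ h3]
  have h4 : 0 ≤ (T.card : ℝ) * ε := by positivity
  nlinarith

/-- the estimate of a single light clique -/
lemma light_aux {r m eT : ℝ} (hm : 0 < m) (hr : 1 ≤ r) (hm8 : 8 * (r + 1) ≤ m)
    (h0 : 0 ≤ eT + r) (h1 : eT ≤ m / 16) :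
    (3 / 4 * (eT + r) + 1 / 4) / m ≤ 1 / 4 ∧
      1 - (r + 1) / m ≤ (1 + eT / m) * (1 - (3 / 4 * (eT + r) + 1 / 4) / m) := by
  have hfac2 : (3 / 4 * (eT + r) + 1 / 4) / m ≤ 1 / 4 := by
    rw [div_le_iff₀ hm]
    linarith
  refine ⟨hfac2, ?_⟩
  set y : ℝ := eT / m with hy
  set z : ℝ := r / m with hz
  set v : ℝ := 1 / m with hv
  have hv0 : 0 < v := by rw [hv]; positivity
  have hz0 : 0 < z := by rw [hz]; positivity
  have e1 : (r + 1) / m = z + v := by rw [hz, hv]; ring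
  have e2 : (3 / 4 * (eT + r) + 1 / 4) / m = 3 / 4 * (y + z) + 1 / 4 * v := by
    rw [hz, hv, hy]; ring
  rw [e1, e2]
  rw [e2] at hfac2
  rcases le_total 0 eT with h5 | h5
  · have hy0 : 0 ≤ y := by rw [hy]; positivity
    have := mul_nonneg hy0 (by linarith : 0 ≤ 1 / 4 - (3 / 4 * (y + z) + 1 / 4 * v))
    linarith
  · have hy0 : y ≤ 0 := by rw [hy]; exact div_nonpos_of_nonpos_of_nonneg h5 hm.le
    have hyz : 0 ≤ y + z := by
      rw [hy, hz, ← add_div]
      exact div_nonneg h0 hm.le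
    have := mul_nonneg (neg_nonneg.2 hy0) (by linarith : 0 ≤ 3 / 4 * (y + z) + 1 / 4 * v)
    linarith

/-- the main numerical estimate -/
lemma key_aux {δ lam C1 E X : ℝ} (h0 : 0 < δ) (h1 : δ < 1) (hl : lam = 1 - δ) (hl0 : 0 < lam)
    (hCE : 0 ≤ C1 * E) (hX : X ≤ (1 + δ / 8) * (lam * C1 * E)) :
    (1 + δ / 8) * (X + δ / 8) ≤ C1 * E - C1 * E * (δ / 2) + δ / 4 := by
  have hLE : 0 ≤ lam * C1 * E := by rw [mul_assoc]; positivity
  have h2 : (1 + δ / 8) * (1 + δ / 8) ≤ 1 + δ / 3 := by nlinarith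
  have h3 : (1 + δ / 8) * ((1 + δ / 8) * (lam * C1 * E)) ≤ (1 + δ / 3) * (lam * C1 * E) := by
    rw [← mul_assoc]
    exact mul_le_mul_of_nonneg_right h2 hLE
  have h5 : (1 + δ / 3) * lam ≤ 1 - δ / 2 := by rw [hl]; nlinarith
  have h4 : (1 + δ / 3) * (lam * C1 * E) ≤ (1 - δ / 2) * (C1 * E) := by
    calc (1 + δ / 3) * (lam * C1 * E) = ((1 + δ / 3) * lam) * (C1 * E) := by ring
      _ ≤ _ := mul_le_mul_of_nonneg_right h5 hCE
  have h6 : (1 + δ / 8) * (δ / 8) ≤ δ / 4 := by nlinarith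
  have h7 : (1 + δ / 8) * X ≤ (1 + δ / 8) * ((1 + δ / 8) * (lam * C1 * E)) :=
    mul_le_mul_of_nonneg_left hX (by positivity)
  linarith

/-- light clique, abstract version: `N` is the symmetric matrix of the numbers `N i j` -/
theorem K_ineq (u R r : ℕ) (hu : 1 ≤ u) (hr : 1 ≤ r) (hr2 : r + 2 ≤ R)
    (hcond : 0 < ((R : ℤ) - 1) * (R - 1 - r) + u * (R - 1 - 2 * r)) :
    ∃ C₁ η ζ ε : ℝ, 0 < C₁ ∧ 0 < η ∧ η ≤ 1 / 2 ∧ 0 < ζ ∧ ζ ≤ 1 / 4 ∧ 0 < ε ∧ ε < 1 ∧
      ∃ m₀ : ℕ, ∀ m : ℕ, m₀ ≤ m → ∀ (ι : Type) [DecidableEq ι] (K : Finset ι) (a : ι → ℕ)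
        (N : ι → ι → ℕ) (x : Finset ι → ℝ) (nu : ℝ), K.card = R + u → (∀ t ∈ K, 1 ≤ a t) →
        (∀ i j, N i j = N j i) → (∀ i, N i i = 0) →
        (∀ T ⊆ K, T.card = R → 2 * ∑ i ∈ T, a i + ∑ i ∈ T, ∑ j ∈ T, N i j ≤ 2 * (R * m + r)) →
        (nu = if ∑ i ∈ K, a i = (R + u) * m + r then 0 else 1) →
        (∀ T ⊆ K, T.card = R → Rich m R C₁ (x T) ∨
          ((∀ t ∈ T, (1 - ε) * m ≤ (a t : ℝ)) ∧
            (∏ t ∈ T, ((a t : ℝ))⁻¹) *
              (1 - ((1 / 2 + η) * (((∑ i ∈ T, ∑ j ∈ T, N i j : ℕ) : ℝ) / 2) + ζ * nu) / m)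
              ≤ x T)) →
        rinv (R + u) R r m ≤ ∑ T ∈ powersetCard R K, x T := by
  -- constants
  have huR : (1 : ℝ) ≤ u := by exact_mod_cast hu
  have hrR : (1 : ℝ) ≤ r := by exact_mod_cast hr
  have hRR : (r : ℝ) + 2 ≤ R := by exact_mod_cast hr2
  have hc' : (0 : ℝ) < ((R : ℝ) - 1) * (R - 1 - r) + u * (R - 1 - 2 * r) := by exact_mod_cast hcond
  set Q : ℝ := (R : ℝ) - 1 with hQ
  set A : ℝ := (R : ℝ) - 1 - r with hA
  have hA1 : 1 ≤ A := by rw [hA]; linarith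
  have hQ1 : 1 ≤ Q := by rw [hQ]; linarith
  have hrQA : (r : ℝ) = Q - A := by rw [hQ, hA]; ring
  set lam : ℝ := Q * (A + u) / (2 * A * (Q + u)) with hlam
  have hden : 0 < 2 * A * (Q + u) := by positivity
  have hlam0 : 0 < lam := by rw [hlam]; positivity
  have hlam1 : lam < 1 := by
    rw [hlam, div_lt_one hden]
    have e : 2 * A * (Q + u) - Q * (A + u) = Q * A + u * (Q - 2 * r) := by rw [hrQA]; ring
    linarith
  set δ : ℝ := 1 - lam with hδ
  have hδ0 : 0 < δ := by rw [hδ]; linarith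
  have hδ1 : δ < 1 := by rw [hδ]; linarith
  set C0 : ℝ := ((R + u).choose R : ℝ) with hC0
  have hC01 : 1 ≤ C0 := by
    rw [hC0]
    exact_mod_cast Nat.choose_pos (Nat.le_add_right R u)
  set C1 : ℝ := ((R + u - 1).choose (R - 1) : ℝ) with hC1
  have hC11 : 1 ≤ C1 := by
    rw [hC1]
    exact_mod_cast Nat.choose_pos (by omega)
  set C2 : ℝ := ((R + u - 2).choose (R - 2) : ℝ) with hC2
  have hC2r : C2 * (Q + u) = C1 * Q := by
    have h1 := Nat.add_one_mul_choose_eq (R + u - 2) (R - 2)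
    have e1 : R + u - 2 + 1 = R + u - 1 := by omega
    have e2 : R - 2 + 1 = R - 1 := by omega
    rw [e1, e2] at h1
    have h2 : ((R + u - 1 : ℕ) : ℝ) * C2 = C1 * ((R - 1 : ℕ) : ℝ) := by
      rw [hC1, hC2]
      exact_mod_cast h1
    rw [Nat.cast_sub (by omega), Nat.cast_sub (by omega)] at h2
    push_cast at h2
    rw [hQ]
    linarith
  have hRpos : (0 : ℝ) < R := by linarith
  clear_value Q A lam δ C0 C1 C2
  refine ⟨C0 * (r + 1), δ / 16, δ / (8 * C0), δ / (16 * R), by positivity, by positivity,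
    by linarith, by positivity, ?_, by positivity, ?_, 8 * (r + 1) + ⌈4 * C0 * (R : ℝ) ^ 2 / δ⌉₊, ?_⟩
  · rw [div_le_iff₀ (by positivity)]
    linarith
  · rw [div_lt_one (by positivity)]
    linarith
  intro m hm₀ ι _ K a N x nu hK ha hNs hNd hT hnu hx
  have hm8 : 8 * ((r : ℝ) + 1) ≤ m := by
    have : 8 * (r + 1) ≤ m := le_trans (Nat.le_add_right _ _) hm₀
    exact_mod_cast this
  have hmC : 4 * C0 * (R : ℝ) ^ 2 / δ ≤ m := by
    have h1 : ⌈4 * C0 * (R : ℝ) ^ 2 / δ⌉₊ ≤ m := le_trans (Nat.le_add_left _ _) hm₀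
    exact (Nat.le_ceil _).trans (by exact_mod_cast h1)
  have hp : (0 : ℝ) < m := by linarith
  have hm1 : 1 ≤ m := by
    rcases Nat.eq_zero_or_pos m with h | h
    · rw [h] at hp; simp at hp
    · exact h
  set η : ℝ := δ / 16 with hη
  set ζ : ℝ := δ / (8 * C0) with hζ
  set ε : ℝ := δ / (16 * R) with hε
  have hη0 : 0 < η := by rw [hη]; positivity
  have hζ0 : 0 < ζ := by rw [hζ]; positivity
  have hε0 : 0 < ε := by rw [hε]; positivity
  have hRε : (R : ℝ) * ε = δ / 16 := by rw [hε]; field_simp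
  have hζC : C0 * ζ = δ / 8 := by rw [hζ]; field_simp
  have hζ1 : ζ ≤ 1 / 4 := by
    rw [hζ, div_le_iff₀ (by positivity)]
    linarith
  have hε1 : ε < 1 := by
    have : 1 * ε ≤ R * ε := mul_le_mul_of_nonneg_right (by linarith) hε0.le
    rw [hRε] at this
    linarith
  clear_value η ζ ε
  -- integers
  set e : ι → ℤ := fun i => (m : ℤ) - a i with he
  set NZ : ι → ι → ℤ := fun i j => (N i j : ℤ) with hNZ
  have hsumE : ∀ T : Finset ι, ∑ i ∈ T, e i = (T.card : ℤ) * m - ∑ i ∈ T, (a i : ℤ) := by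
    intro T
    simp only [he]
    rw [sum_sub_distrib, sum_const, nsmul_eq_mul]
  have hTZ : ∀ T ⊆ K, T.card = R → ∑ i ∈ T, ∑ j ∈ T, NZ i j ≤ 2 * (∑ i ∈ T, e i + r) := by
    intro T hTK hTc
    have h1 := hT T hTK hTc
    have h2 : (2 : ℤ) * ∑ i ∈ T, (a i : ℤ) + ∑ i ∈ T, ∑ j ∈ T, NZ i j ≤ 2 * (R * m + r) := by
      simp only [hNZ]
      exact_mod_cast h1
    rw [hsumE, hTc]
    linarith
  have hTZ0 : ∀ T : Finset ι, 0 ≤ ∑ i ∈ T, ∑ j ∈ T, NZ i j := fun T =>
    sum_nonneg fun i _ => sum_nonneg fun j _ => Int.natCast_nonneg _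
  have hP := thmP (R + u) K R u r e NZ hK rfl (by omega) (by omega)
    (fun i j => Int.natCast_nonneg _) (fun i j => by simp only [hNZ]; rw [hNs i j])
    (fun i => by simp only [hNZ]; rw [hNd i]; rfl) hTZ
  rw [max_eq_left (by omega : (0 : ℤ) ≤ r)] at hP
  set E : ℤ := ∑ i ∈ K, e i + r with hE
  have hE0 : 0 ≤ E := by
    by_contra hcon
    push Not at hcon
    have h1 := hTZ0 K
    have h2 : (0 : ℤ) ≤ (R : ℤ) - 1 - r := by omega
    have h3 : (0 : ℤ) < (R : ℤ) - 1 - r + u := by omega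
    have h4 := mul_nonneg h2 h1
    have h5 := mul_neg_of_pos_of_neg h3 hcon
    linarith
  -- the light estimate
  have hnu01 : 0 ≤ nu ∧ nu ≤ 1 := by
    rw [hnu]
    split_ifs <;> norm_num
  have hreal : ∀ T ⊆ K, T.card = R → 0 ≤ (((∑ i ∈ T, ∑ j ∈ T, N i j : ℕ) : ℝ) / 2) ∧
      (((∑ i ∈ T, ∑ j ∈ T, N i j : ℕ) : ℝ) / 2) ≤ ((R : ℝ) * m - ∑ t ∈ T, (a t : ℝ)) + r := by
    intro T hTK hTc
    refine ⟨by positivity, ?_⟩
    have h1 := hT T hTK hTc
    have h2 : (2 : ℝ) * ∑ i ∈ T, (a i : ℝ) + ((∑ i ∈ T, ∑ j ∈ T, N i j : ℕ) : ℝ) ≤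
        2 * (R * m + r) := by exact_mod_cast h1
    linarith
  have hesmall : ∀ T ⊆ K, T.card = R → (∀ t ∈ T, (1 - ε) * m ≤ (a t : ℝ)) →
      ((R : ℝ) * m - ∑ t ∈ T, (a t : ℝ)) ≤ m / 16 := by
    intro T hTK hTc hl
    have h1 : ∑ _t ∈ T, (1 - ε) * (m : ℝ) ≤ ∑ t ∈ T, (a t : ℝ) := sum_le_sum hl
    rw [sum_const, hTc, nsmul_eq_mul] at h1
    have h2 : (R : ℝ) * ((1 - ε) * m) = R * m - (R * ε) * m := by ring
    rw [h2, hRε] at h1
    have h3 : δ / 16 * m ≤ 1 / 16 * m := mul_le_mul_of_nonneg_right (by linarith) hp.le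
    linarith
  by_cases hrich : ∃ T ⊆ K, T.card = R ∧ Rich m R (C0 * (r + 1)) (x T)
  · -- some rich clique
    obtain ⟨T₀, hT₀K, hT₀c, hT₀⟩ := hrich
    have hlow : ∀ T ∈ powersetCard R K, (1 - ((r : ℝ) + 1) / m) / (m : ℝ) ^ R ≤ x T := by
      intro T hTm
      obtain ⟨hTK, hTc⟩ := mem_powersetCard.1 hTm
      rcases hx T hTK hTc with h | ⟨h1, h2⟩
      · refine le_trans ?_ h
        refine div_le_div_of_nonneg_right ?_ (by positivity)
        have h3 : 0 ≤ C0 * ((r : ℝ) + 1) / m := by positivity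
        have h4 : 0 ≤ ((r : ℝ) + 1) / m := by positivity
        linarith
      · refine le_trans ?_ h2
        obtain ⟨hn0, hn1⟩ := hreal T hTK hTc
        have hes := hesmall T hTK hTc h1
        set n : ℝ := (((∑ i ∈ T, ∑ j ∈ T, N i j : ℕ) : ℝ) / 2) with hn
        set eT : ℝ := (R : ℝ) * m - ∑ t ∈ T, (a t : ℝ) with heT
        have hge := prod_inv_ge T a (fun t ht => ha t (hTK ht)) hm1
        rw [hTc, ← heT] at hge
        have hfac : ((1 / 2 + η) * n + ζ * nu) / m ≤ (3 / 4 * (eT + r) + 1 / 4) / m := by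
          refine div_le_div_of_nonneg_right ?_ hp.le
          have a1 : (1 / 2 + η) * n ≤ 3 / 4 * (eT + r) := by
            have : 1 / 2 + η ≤ 3 / 4 := by rw [hη]; linarith
            exact mul_le_mul this hn1 hn0 (by norm_num)
          have a2 : ζ * nu ≤ 1 / 4 :=
            (mul_le_mul hζ1 hnu01.2 hnu01.1 (by norm_num)).trans (by norm_num)
          linarith
        obtain ⟨hfac2, hgoal⟩ := light_aux hp hrR hm8 (by linarith) hes
        have hb : 0 ≤ 1 - (3 / 4 * (eT + r) + 1 / 4) / m := by linarith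
        have hprod : 0 ≤ ∏ t ∈ T, ((a t : ℝ))⁻¹ := prod_nonneg fun t _ => by positivity
        calc (1 - ((r : ℝ) + 1) / m) / (m : ℝ) ^ R
            ≤ (1 + eT / m) * (1 - (3 / 4 * (eT + r) + 1 / 4) / m) / (m : ℝ) ^ R :=
              div_le_div_of_nonneg_right hgoal (by positivity)
          _ = ((1 + eT / m) / (m : ℝ) ^ R) * (1 - (3 / 4 * (eT + r) + 1 / 4) / m) := by ring
          _ ≤ (∏ t ∈ T, ((a t : ℝ))⁻¹) * (1 - (3 / 4 * (eT + r) + 1 / 4) / m) :=
              mul_le_mul_of_nonneg_right hge hb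
          _ ≤ (∏ t ∈ T, ((a t : ℝ))⁻¹) * (1 - ((1 / 2 + η) * n + ζ * nu) / m) :=
              mul_le_mul_of_nonneg_left (by linarith) hprod
    refine (rinv_le_crude hm1).trans ?_
    have hT₀m : T₀ ∈ powersetCard R K := mem_powersetCard.2 ⟨hT₀K, hT₀c⟩
    rw [← add_sum_erase _ _ hT₀m]
    have h1 : ∑ _T ∈ (powersetCard R K).erase T₀, (1 - ((r : ℝ) + 1) / m) / (m : ℝ) ^ R ≤
        ∑ T ∈ (powersetCard R K).erase T₀, x T :=
      sum_le_sum fun T hT => hlow T (mem_of_mem_erase hT)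
    rw [sum_const, card_erase_of_mem hT₀m, card_powersetCard, hK, nsmul_eq_mul,
      Nat.cast_sub (Nat.choose_pos (Nat.le_add_right R u)), Nat.cast_one, ← hC0] at h1
    unfold Rich at hT₀
    have h2 : C0 / (m : ℝ) ^ R ≤ (1 + C0 * (r + 1) / m) / (m : ℝ) ^ R +
        (C0 - 1) * ((1 - ((r : ℝ) + 1) / m) / (m : ℝ) ^ R) := by
      have e1 : (1 + C0 * (r + 1) / m) / (m : ℝ) ^ R +
          (C0 - 1) * ((1 - ((r : ℝ) + 1) / m) / (m : ℝ) ^ R) =
          (C0 + ((r : ℝ) + 1) / m) / (m : ℝ) ^ R := by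
        field_simp
        ring
      rw [e1]
      refine div_le_div_of_nonneg_right ?_ (by positivity)
      have : 0 ≤ ((r : ℝ) + 1) / m := by positivity
      linarith
    rw [← hC0]
    linarith
  · push Not at hrich
    have hlight : ∀ T ⊆ K, T.card = R → (∀ t ∈ T, (1 - ε) * m ≤ (a t : ℝ)) ∧
        (∏ t ∈ T, ((a t : ℝ))⁻¹) *
          (1 - ((1 / 2 + η) * (((∑ i ∈ T, ∑ j ∈ T, N i j : ℕ) : ℝ) / 2) + ζ * nu) / m) ≤ x T := by
      intro T hTK hTc
      rcases hx T hTK hTc with h | h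
      · exact absurd h (hrich T hTK hTc)
      · exact h
    have hEsum : E = (R + u : ℤ) * m - ∑ i ∈ K, (a i : ℤ) + r := by
      rw [hE, hsumE, hK]
      push_cast
      ring
    rcases eq_or_lt_of_le hE0 with hEz | hEp
    · -- tight
      have hEz' : ∑ i ∈ K, e i + r = 0 := by rw [← hE, ← hEz]
      have hnu0 : nu = 0 := by
        rw [hnu, if_pos]
        have : (∑ i ∈ K, (a i : ℤ)) = (R + u) * m + r := by linarith
        exact_mod_cast this
      have hS : ∑ i ∈ K, ∑ j ∈ K, NZ i j = 0 := by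
        rw [← hEz, mul_zero] at hP
        refine le_antisymm ?_ (hTZ0 K)
        by_contra hcon
        push Not at hcon
        have h2 : (0 : ℤ) < (R : ℤ) - 1 - r := by omega
        have := mul_pos h2 hcon
        linarith
      have hNK : ∀ i ∈ K, ∀ j ∈ K, N i j = 0 := by
        intro i hi j hj
        have h1 : ∀ i ∈ K, 0 ≤ ∑ j ∈ K, NZ i j := fun i _ =>
          sum_nonneg fun j _ => Int.natCast_nonneg _
        have h2 := (sum_eq_zero_iff_of_nonneg h1).1 hS i hi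
        have h3 := (sum_eq_zero_iff_of_nonneg
          (fun j _ => Int.natCast_nonneg _ : ∀ j ∈ K, 0 ≤ NZ i j)).1 h2 j hj
        exact_mod_cast (show (N i j : ℤ) = 0 from h3)
      have hneg := tight_nonpos hK hu (by omega : (r : ℤ) ≤ (R : ℤ) - 1)
        (fun T hTK hTc => by
          have h1 := hTZ T hTK hTc
          have h2 := hTZ0 T
          linarith) hEz'
      set g : ι → ℕ := fun i => a i - m with hg
      have hag : ∀ i ∈ K, a i = m + g i := by
        intro i hi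
        have h1 : (m : ℤ) - a i ≤ 0 := hneg i hi
        have h2 : m ≤ a i := by
          have : (m : ℤ) ≤ a i := by linarith
          exact_mod_cast this
        exact (Nat.add_sub_cancel' h2).symm
      have hgs : ∑ k ∈ K, g k = r := by
        have h1 : ∑ i ∈ K, a i = ∑ i ∈ K, (m + g i) := sum_congr rfl hag
        rw [sum_add_distrib, sum_const, hK, smul_eq_mul] at h1
        have h2 : (∑ i ∈ K, (a i : ℤ)) = (R + u) * m + r := by linarith
        have h3 : ∑ i ∈ K, a i = (R + u) * m + r := by exact_mod_cast h2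
        omega
      refine (rinv_le_of_sum (R := R) hK hm1 (by omega) hgs).trans ?_
      refine sum_le_sum fun T hTm => ?_
      obtain ⟨hTK, hTc⟩ := mem_powersetCard.1 hTm
      refine le_trans (le_of_eq ?_) (hlight T hTK hTc).2
      have h1 : ∑ i ∈ T, ∑ j ∈ T, N i j = 0 :=
        sum_eq_zero fun i hi => sum_eq_zero fun j hj => hNK i (hTK hi) j (hTK hj)
      rw [h1, hnu0]
      simp only [Nat.cast_zero, zero_div, mul_zero, add_zero, sub_zero, mul_one]
      refine prod_congr rfl fun t ht => ?_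
      rw [hag t (hTK ht)]
      push_cast
      rfl
    · -- `E ≥ 1`
      have hE1 : (1 : ℝ) ≤ E := by exact_mod_cast hEp
      have hEreal : (E : ℝ) = ((R : ℝ) + u) * m - ∑ i ∈ K, (a i : ℝ) + r := by
        rw [hEsum]
        push_cast
        ring
      have hnu1 : nu ≤ 1 := hnu01.2
      set NK : ℝ := ∑ i ∈ K, ∑ j ∈ K, (N i j : ℝ) with hNKd
      have hNK0 : 0 ≤ NK := sum_nonneg fun i _ => sum_nonneg fun j _ => by positivity
      have hPr : A * NK ≤ 2 * (A + u) * E := by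
        have h1 : (((R : ℤ) - 1 - r) * ∑ i ∈ K, ∑ j ∈ K, NZ i j : ℤ) ≤
          2 * ((R : ℤ) - 1 - r + u) * E := hP
        have h2 : ((((R : ℤ) - 1 - r) * ∑ i ∈ K, ∑ j ∈ K, NZ i j : ℤ) : ℝ) ≤
          ((2 * ((R : ℤ) - 1 - r + u) * E : ℤ) : ℝ) := by exact_mod_cast h1
        push_cast at h2
        rw [hA, hNKd]
        simpa [hNZ] using h2
      have hterm : ∀ T ∈ powersetCard R K,
          (1 + ((R : ℝ) * m - ∑ t ∈ T, (a t : ℝ)) / m -
            (1 + δ / 8) * (((1 / 2 + η) * ((∑ i ∈ T, ∑ j ∈ T, (N i j : ℝ)) / 2) + ζ) / m)) /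
            (m : ℝ) ^ R ≤ x T := by
        intro T hTm
        obtain ⟨hTK, hTc⟩ := mem_powersetCard.1 hTm
        obtain ⟨h1, h2⟩ := hlight T hTK hTc
        refine le_trans ?_ h2
        have hge := prod_inv_ge T a (fun t ht => ha t (hTK ht)) hm1
        have hle := prod_inv_le T a hm1 hε0 (by rw [hTc, hRε]; linarith) hε1 h1
        rw [hTc] at hge hle
        have e1 : (1 : ℝ) + 2 * R * ε = 1 + δ / 8 := by
          have : 2 * (R : ℝ) * ε = 2 * (R * ε) := by ring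
          rw [this, hRε]; ring
        rw [e1] at hle
        set n : ℝ := (∑ i ∈ T, ∑ j ∈ T, (N i j : ℝ)) / 2 with hn
        have hn' : (((∑ i ∈ T, ∑ j ∈ T, N i j : ℕ) : ℝ) / 2) = n := by
          rw [hn]; push_cast; rfl
        rw [hn']
        have hn0 : 0 ≤ n := by rw [← hn']; positivity
        set P : ℝ := ∏ t ∈ T, ((a t : ℝ))⁻¹ with hPd
        have hP0 : 0 ≤ P := prod_nonneg fun t _ => by positivity
        have hB : ((1 / 2 + η) * n + ζ * nu) / m ≤ ((1 / 2 + η) * n + ζ) / m := by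
          refine div_le_div_of_nonneg_right ?_ hp.le
          have := mul_le_mul_of_nonneg_left hnu1 hζ0.le
          linarith
        have hB0 : 0 ≤ ((1 / 2 + η) * n + ζ) / m := by positivity
        have h3 : P * (((1 / 2 + η) * n + ζ * nu) / m) ≤
            (1 + δ / 8) / (m : ℝ) ^ R * (((1 / 2 + η) * n + ζ) / m) :=
          mul_le_mul hle hB (by
            refine div_nonneg ?_ hp.le
            have := hnu01.1
            positivity) (by positivity)
        calc _ = (1 + ((R : ℝ) * m - ∑ t ∈ T, (a t : ℝ)) / m) / (m : ℝ) ^ R -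
              (1 + δ / 8) / (m : ℝ) ^ R * (((1 / 2 + η) * n + ζ) / m) := by ring
          _ ≤ P - P * (((1 / 2 + η) * n + ζ * nu) / m) := by linarith
          _ = _ := by ring
      refine le_trans ?_ (sum_le_sum hterm)
      have hR1 : 1 ≤ R := by omega
      have hR2 : 2 ≤ R := by omega
      have s1 := sum_one (K := K) hR1 fun t => (a t : ℝ)
      have s2 := sum_pairs (K := K) hR2 (fun i j => (N i j : ℝ))
        (fun i => by rw [hNd i]; simp)
      rw [hK, ← hC1] at s1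
      rw [hK, ← hC2, ← hNKd] at s2
      have hcard : ((powersetCard R K).card : ℝ) = C0 := by
        rw [card_powersetCard, hK, hC0]
      have hC0R : C0 * R = C1 * (R + u) := by
        have h1 := Nat.add_one_mul_choose_eq (R + u - 1) (R - 1)
        have e1 : R + u - 1 + 1 = R + u := by omega
        have e2 : R - 1 + 1 = R := by omega
        rw [e1, e2] at h1
        have h2 : ((R + u : ℕ) : ℝ) * C1 = C0 * (R : ℝ) := by
          rw [hC1, hC0]
          exact_mod_cast h1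
        push_cast at h2
        linarith
      have hsum : ∑ T ∈ powersetCard R K, (1 + ((R : ℝ) * m - ∑ t ∈ T, (a t : ℝ)) / m -
            (1 + δ / 8) * (((1 / 2 + η) * ((∑ i ∈ T, ∑ j ∈ T, (N i j : ℝ)) / 2) + ζ) / m)) /
            (m : ℝ) ^ R =
          (C0 + (C0 * R * m - C1 * ∑ i ∈ K, (a i : ℝ)) / m -
            (1 + δ / 8) * (((1 / 2 + η) * (C2 * NK / 2) + C0 * ζ) / m)) / (m : ℝ) ^ R := by
        exact sum_formula hp.ne' s1 s2 hcard
      rw [hsum]
      refine (rinv_le_first hm1 hR1 (Nat.le_add_right R u) (by omega)).trans ?_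
      refine div_le_div_of_nonneg_right ?_ (by positivity)
      rw [← hC0, ← hC1]
      -- main inequality
      have hNKle : C2 * NK / 2 * (1 / 2 + η) ≤ (1 + δ / 8) * (lam * C1 * E) := by
        have h1 : C2 = C1 * Q / (Q + u) := by
          rw [eq_div_iff (by positivity)]
          exact hC2r
        have h2 : NK ≤ 2 * (A + u) * E / A := by
          rw [le_div_iff₀ (by linarith)]
          linarith
        have h3 : C2 * NK / 2 ≤ 2 * (lam * C1 * E) := by
          have h4 : 0 ≤ C1 * Q / (Q + u) := by positivity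
          rw [h1]
          calc C1 * Q / (Q + u) * NK / 2 ≤ C1 * Q / (Q + u) * (2 * (A + u) * E / A) / 2 := by
                have := mul_le_mul_of_nonneg_left h2 h4
                linarith
            _ = 2 * (lam * C1 * E) := by
                rw [hlam]
                have hA0 : A ≠ 0 := by linarith
                have hQu : Q + u ≠ 0 := by positivity
                field_simp
        have h5 : (1 / 2 + η) = (1 + δ / 8) / 2 := by rw [hη]; ring
        rw [h5]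
        have h6 : 0 ≤ (1 + δ / 8) / 2 := by positivity
        have := mul_le_mul_of_nonneg_right h3 h6
        linarith
      have hCE1 : 1 ≤ C1 * E := one_le_mul_of_one_le_of_one_le hC11 hE1
      have hkey : (1 + δ / 8) * ((1 / 2 + η) * (C2 * NK / 2) + C0 * ζ) ≤
          C1 * E - C1 * E * (δ / 2) + δ / 4 := by
        rw [hζC]
        exact key_aux hδ0 hδ1 (by rw [hδ]; ring) hlam0 (by linarith) (by rw [mul_comm]; exact hNKle)
      have hmain : C0 * (R : ℝ) ^ 2 / m ≤ δ / 4 := by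
        rw [div_le_iff₀ hp]
        rw [div_le_iff₀ hδ0] at hmC
        linarith
      have e1 : (C0 * R * m - C1 * ∑ i ∈ K, (a i : ℝ)) = C1 * (E - r) := by
        rw [hC0R, hEreal]; ring
      rw [e1]
      have e2 : C0 * (R : ℝ) ^ 2 / (m : ℝ) ^ 2 = (C0 * (R : ℝ) ^ 2 / m) / m := by
        rw [pow_two (m : ℝ), div_div]
      rw [e2]
      have h7 : (C0 * (R : ℝ) ^ 2 / m) / m ≤ (δ / 4) / m := div_le_div_of_nonneg_right hmain hp.le
      have h8 : (1 + δ / 8) * (((1 / 2 + η) * (C2 * NK / 2) + C0 * ζ) / m) ≤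
          (C1 * E - C1 * E * (δ / 2) + δ / 4) / m := by
        rw [← mul_div_assoc]
        exact div_le_div_of_nonneg_right hkey hp.le
      have h9 : (δ / 4) / m ≤ (C1 * E * (δ / 2) - δ / 4) / m := by
        refine div_le_div_of_nonneg_right ?_ hp.le
        have := mul_le_mul_of_nonneg_right hCE1 (by linarith : 0 ≤ δ / 2)
        linarith
      have h10 : C1 * (E - r) / m - (C1 * E - C1 * E * (δ / 2) + δ / 4) / m =
          (C1 * E * (δ / 2) - δ / 4) / m - C1 * r / m := by ring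
      linarith
end H57LC
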