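import Pool.Agent.H57.LC.Tup

/-!
The weight of one light clique (note 3541, 4d).
-/

namespace H57LC

open Finset

set_option linter.unusedSectionVars false

/-! ### helper lemmas -/

lemma hs_im_eq_single {V : Type*} [DecidableEq V] {G : SimpleGraph V} [DecidableRel G.Adj]
    {R m : ℕ} {S : Finset V} {C η₁ δ : ℝ} {B : Fin R → Finset V} (h : LS G S R m C η₁ δ B)
    {f : Fin R → V} (hf : f ∈ tcl G B) {i : Fin R} {z : V} (hz : z ∈ B i)
    (hn : ¬ ∃ j, j ≠ i ∧ ¬ G.Adj z (f j)) : hs G (im f) z = {f i} := by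
  ext t
  rw [mem_hs, mem_im, mem_singleton]
  constructor
  · rintro ⟨⟨k, rfl⟩, hk⟩
    by_contra hne
    have hki : k ≠ i := fun e => hne (by rw [e])
    exact hn ⟨k, hki, hk⟩
  · rintro rfl
    exact ⟨⟨i, rfl⟩, h.ind i z hz (f i) ((mem_tcl.1 hf).1 i)⟩

lemma hs_im_card_two {V : Type*} [DecidableEq V] {G : SimpleGraph V} [DecidableRel G.Adj]
    {R m : ℕ} {S : Finset V} {C η₁ δ : ℝ} {B : Fin R → Finset V} (h : LS G S R m C η₁ δ B)
    {f : Fin R → V} (hf : f ∈ tcl G B) {i : Fin R} {z : V} (hz : z ∈ B i)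
    (h1 : ∃ j, j ≠ i ∧ ¬ G.Adj z (f j))
    (h2 : ¬ ∃ j k, j ≠ i ∧ k ≠ i ∧ j ≠ k ∧ ¬ G.Adj z (f j) ∧ ¬ G.Adj z (f k)) :
    (hs G (im f) z).card = 2 := by
  obtain ⟨j, hji, hj⟩ := h1
  have : hs G (im f) z = {f i, f j} := by
    ext t
    rw [mem_hs, mem_im, mem_insert, mem_singleton]
    constructor
    · rintro ⟨⟨k, rfl⟩, hk⟩
      by_cases hki : k = i
      · left; rw [hki]
      · by_cases hkj : k = j
        · right; rw [hkj]
        · exact absurd ⟨j, k, hji, hki, fun e => hkj e.symm, hj, hk⟩ h2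
    · rintro (rfl | rfl)
      · exact ⟨⟨i, rfl⟩, h.ind i z hz (f i) ((mem_tcl.1 hf).1 i)⟩
      · exact ⟨⟨j, rfl⟩, hj⟩
  rw [this, card_pair]
  intro e
  exact hji (tcl_injective hf e).symm

lemma sum_im {V : Type*} [DecidableEq V] {G : SimpleGraph V} [DecidableRel G.Adj] {R : ℕ}
    {B : Fin R → Finset V} {f : Fin R → V} (hf : f ∈ tcl G B) (F : V → ℝ) :
    ∑ t ∈ im f, F t = ∑ l, F (f l) := by
  unfold im
  rw [sum_image]
  intro a _ b _ hab
  exact tcl_injective hf hab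

lemma prod_im {V : Type*} [DecidableEq V] {G : SimpleGraph V} [DecidableRel G.Adj] {R : ℕ}
    {B : Fin R → Finset V} {f : Fin R → V} (hf : f ∈ tcl G B) (F : V → ℝ) :
    ∏ t ∈ im f, F t = ∏ l, F (f l) := by
  unfold im
  rw [prod_image]
  intro a _ b _ hab
  exact tcl_injective hf hab

lemma one_add_sum_le_prod {ι : Type*} (s : Finset ι) (y : ι → ℝ) (hy : ∀ i ∈ s, 0 ≤ y i) :
    1 + ∑ i ∈ s, y i ≤ ∏ i ∈ s, (1 + y i) := by
  classical
  induction s using Finset.induction_on with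
  | empty => simp
  | insert a s ha ih =>
    rw [sum_insert ha, prod_insert ha]
    have h1 := ih fun i hi => hy i (mem_insert_of_mem hi)
    have h2 := hy a (mem_insert_self a s)
    have h3 : 0 ≤ ∑ i ∈ s, y i := sum_nonneg fun i hi => hy i (mem_insert_of_mem hi)
    nlinarith [mul_le_mul_of_nonneg_left h1 (by linarith : (0:ℝ) ≤ 1 + y a), mul_nonneg h2 h3]

lemma one_sub_sum_le_prod {ι : Type*} (s : Finset ι) (x : ι → ℝ) (hx : ∀ i ∈ s, 0 ≤ x i)
    (hx1 : ∀ i ∈ s, x i ≤ 1) : 1 - ∑ i ∈ s, x i ≤ ∏ i ∈ s, (1 - x i) := by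
  classical
  induction s using Finset.induction_on with
  | empty => simp
  | insert a s ha ih =>
    rw [sum_insert ha, prod_insert ha]
    have h1 := ih (fun i hi => hx i (mem_insert_of_mem hi)) fun i hi => hx1 i (mem_insert_of_mem hi)
    have h2 := hx a (mem_insert_self a s)
    have h2' := hx1 a (mem_insert_self a s)
    have h3 : 0 ≤ ∑ i ∈ s, x i := sum_nonneg fun i hi => hx i (mem_insert_of_mem hi)
    nlinarith [mul_le_mul_of_nonneg_left h1 (by linarith : (0:ℝ) ≤ 1 - x a), mul_nonneg h2 h3]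

/-- facts about the numbers `aa`, `h2` of a clique transversal `f`: `aa` of `f i` is at least
`b_i - δ_i + ξ_i`, `h2` is at least `ss - s2 +` the number of heavy vertices with two
non-neighbours, the `δ_i` are small, and `h2 ≤ |S| - Σ aa` -/
theorem aa_ge {V : Type*} [DecidableEq V] {G : SimpleGraph V} [DecidableRel G.Adj] {R m : ℕ}
    {S : Finset V} {C η₁ δ : ℝ} {B : Fin R → Finset V} (h : LS G S R m C η₁ δ B)
    {f : Fin R → V} (hf : f ∈ tcl G B) (i : Fin R) :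
    (((B i).card : ℝ) - (((B i).filter fun z => ∃ j, j ≠ i ∧ ¬ G.Adj z (f j)).card : ℝ)) +
      (((S \ un B).filter fun z => hs G (im f) z = {f i}).card : ℝ) ≤
        (aa G S (im f) (f i) : ℝ) := by
  have h1 : ((B i).filter fun z => ∃ j, j ≠ i ∧ ¬ G.Adj z (f j)).card +
      ((B i).filter fun z => ¬ ∃ j, j ≠ i ∧ ¬ G.Adj z (f j)).card = (B i).card :=
    card_filter_add_card_filter_not _
  have h2 : ((B i).filter fun z => ¬ ∃ j, j ≠ i ∧ ¬ G.Adj z (f j)).card +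
      ((S \ un B).filter fun z => hs G (im f) z = {f i}).card ≤ aa G S (im f) (f i) := by
    unfold aa
    rw [← card_union_of_disjoint]
    · apply card_le_card
      intro z hz
      rw [mem_union, mem_filter, mem_filter] at hz
      rw [mem_filter]
      rcases hz with ⟨hz, hn⟩ | ⟨hz, hn⟩
      · exact ⟨h.sub i hz, hs_im_eq_single h hf hz hn⟩
      · exact ⟨(mem_sdiff.1 hz).1, hn⟩
    · rw [disjoint_left]
      intro z hz hz'
      rw [mem_filter] at hz hz'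
      exact (mem_sdiff.1 hz'.1).2 (subset_un B i hz.1)
  have h1' : ((((B i).filter fun z => ∃ j, j ≠ i ∧ ¬ G.Adj z (f j)).card : ℕ) : ℝ) +
      ((((B i).filter fun z => ¬ ∃ j, j ≠ i ∧ ¬ G.Adj z (f j)).card : ℕ) : ℝ) =
        (((B i).card : ℕ) : ℝ) := by exact_mod_cast h1
  have h2' : ((((B i).filter fun z => ¬ ∃ j, j ≠ i ∧ ¬ G.Adj z (f j)).card : ℕ) : ℝ) +
      ((((S \ un B).filter fun z => hs G (im f) z = {f i}).card : ℕ) : ℝ) ≤
        ((aa G S (im f) (f i) : ℕ) : ℝ) := by exact_mod_cast h2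
  linarith

theorem h2_ge {V : Type*} [DecidableEq V] {G : SimpleGraph V} [DecidableRel G.Adj] {R m : ℕ}
    {S : Finset V} {C η₁ δ : ℝ} {B : Fin R → Finset V} (h : LS G S R m C η₁ δ B)
    {f : Fin R → V} (hf : f ∈ tcl G B) :
    ss G B f - s2 G B f + (((S \ un B).filter fun z => (hs G (im f) z).card = 2).card : ℝ) ≤
      (h2 G S (im f) : ℝ) := by
  set E : Fin R → Finset V := fun i => (B i).filter fun z => (∃ j, j ≠ i ∧ ¬ G.Adj z (f j)) ∧
    ¬ ∃ j k, j ≠ i ∧ k ≠ i ∧ j ≠ k ∧ ¬ G.Adj z (f j) ∧ ¬ G.Adj z (f k) with hE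
  have hdisj : ∀ i ∈ (univ : Finset (Fin R)), ∀ j ∈ (univ : Finset (Fin R)), i ≠ j →
      Disjoint (E i) (E j) := by
    intro i _ j _ hij
    exact disjoint_of_subset_left (filter_subset _ _)
      (disjoint_of_subset_right (filter_subset _ _) (h.disj i j hij))
  have h1 : ∀ i, (((B i).filter fun z => ∃ j, j ≠ i ∧ ¬ G.Adj z (f j)).card : ℝ) ≤
      (((B i).filter fun z => ∃ j k, j ≠ i ∧ k ≠ i ∧ j ≠ k ∧ ¬ G.Adj z (f j) ∧
        ¬ G.Adj z (f k)).card : ℝ) + ((E i).card : ℝ) := by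
    intro i
    have : ((B i).filter fun z => ∃ j, j ≠ i ∧ ¬ G.Adj z (f j)) ⊆
        ((B i).filter fun z => ∃ j k, j ≠ i ∧ k ≠ i ∧ j ≠ k ∧ ¬ G.Adj z (f j) ∧
          ¬ G.Adj z (f k)) ∪ E i := by
      intro z hz
      rw [mem_filter] at hz
      rw [mem_union, mem_filter, hE, mem_filter]
      by_cases hc : ∃ j k, j ≠ i ∧ k ≠ i ∧ j ≠ k ∧ ¬ G.Adj z (f j) ∧ ¬ G.Adj z (f k)
      · exact Or.inl ⟨hz.1, hc⟩
      · exact Or.inr ⟨hz.1, hz.2, hc⟩
    have h2 := (card_le_card this).trans (card_union_le _ _)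
    exact_mod_cast h2
  have h2' : (univ.biUnion E).card + ((S \ un B).filter fun z => (hs G (im f) z).card = 2).card ≤
      h2 G S (im f) := by
    unfold h2
    rw [← card_union_of_disjoint]
    · apply card_le_card
      intro z hz
      rw [mem_union, mem_biUnion, mem_filter] at hz
      rw [mem_filter]
      rcases hz with ⟨i, -, hz⟩ | ⟨hz, hn⟩
      · rw [hE, mem_filter] at hz
        exact ⟨h.sub i hz.1, hs_im_card_two h hf hz.1 hz.2.1 hz.2.2⟩
      · exact ⟨(mem_sdiff.1 hz).1, hn⟩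
    · rw [disjoint_left]
      intro z hz hz'
      rw [mem_biUnion] at hz
      obtain ⟨i, -, hz⟩ := hz
      rw [hE, mem_filter] at hz
      rw [mem_filter] at hz'
      exact (mem_sdiff.1 hz'.1).2 (subset_un B i hz.1)
  rw [card_biUnion hdisj] at h2'
  have h3 : (∑ i, ((E i).card : ℝ)) +
      (((S \ un B).filter fun z => (hs G (im f) z).card = 2).card : ℝ) ≤ (h2 G S (im f) : ℝ) := by
    exact_mod_cast h2'
  have h4 : ss G B f ≤ s2 G B f + ∑ i, ((E i).card : ℝ) := by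
    unfold ss s2
    rw [← sum_add_distrib]
    exact sum_le_sum fun i _ => h1 i
  linarith

theorem delta_le {V : Type*} [DecidableEq V] {G : SimpleGraph V} [DecidableRel G.Adj] {R m : ℕ}
    {S : Finset V} {C η₁ δ : ℝ} {B : Fin R → Finset V} (h : LS G S R m C η₁ δ B) (hη : 0 ≤ η₁)
    {f : Fin R → V} (hf : f ∈ tcl G B) (i : Fin R) :
    (((B i).filter fun z => ∃ j, j ≠ i ∧ ¬ G.Adj z (f j)).card : ℝ) ≤ 2 * R * η₁ * m := by
  have hsub : ((B i).filter fun z => ∃ j, j ≠ i ∧ ¬ G.Adj z (f j)) ⊆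
      (univ.erase i).biUnion fun j => hs G (B i) (f j) := by
    intro z hz
    rw [mem_filter] at hz
    obtain ⟨hz, j, hji, hj⟩ := hz
    rw [mem_biUnion]
    refine ⟨j, mem_erase.2 ⟨hji, mem_univ j⟩, mem_hs.2 ⟨hz, ?_⟩⟩
    rwa [G.adj_comm]
  have h1 : (((B i).filter fun z => ∃ j, j ≠ i ∧ ¬ G.Adj z (f j)).card : ℝ) ≤
      ∑ j ∈ univ.erase i, ((hs G (B i) (f j)).card : ℝ) := by
    have := (card_le_card hsub).trans card_biUnion_le
    exact_mod_cast this
  have h2 : ∑ j ∈ univ.erase i, ((hs G (B i) (f j)).card : ℝ) ≤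
      ∑ _j ∈ (univ.erase i : Finset (Fin R)), 2 * η₁ * m := by
    refine sum_le_sum fun j hj => ?_
    exact h.row j i (mem_erase.1 hj).1 (f j) ((mem_tcl.1 hf).1 j)
  rw [sum_const, nsmul_eq_mul] at h2
  have h3 : (((univ.erase i : Finset (Fin R)).card : ℕ) : ℝ) ≤ R := by
    have : (univ.erase i : Finset (Fin R)).card ≤ R := by
      refine (card_le_card (erase_subset _ _)).trans ?_
      rw [card_univ, Fintype.card_fin]
    exact_mod_cast this
  have h4 : 0 ≤ 2 * η₁ * (m : ℝ) := by positivity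
  have h5 := mul_le_mul_of_nonneg_right h3 h4
  calc _ ≤ _ := h1
    _ ≤ _ := h2
    _ ≤ _ := h5
    _ = 2 * R * η₁ * m := by ring

theorem sum_aa_h2_le {V : Type*} [DecidableEq V] {G : SimpleGraph V} [DecidableRel G.Adj]
    (S T : Finset V) : (∑ t ∈ T, aa G S T t) + h2 G S T ≤ S.card := by
  unfold aa h2
  rw [← card_biUnion]
  · rw [← card_union_of_disjoint]
    · apply card_le_card
      intro z hz
      rw [mem_union, mem_biUnion, mem_filter] at hz
      rcases hz with ⟨t, -, hz⟩ | ⟨hz, -⟩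
      · exact (mem_filter.1 hz).1
      · exact hz
    · rw [disjoint_left]
      intro z hz hz'
      rw [mem_biUnion] at hz
      obtain ⟨t, -, hz⟩ := hz
      rw [mem_filter] at hz hz'
      rw [hz.2, card_singleton] at hz'
      omega
  · intro a _ b _ hab
    refine disjoint_left.2 fun z hz hz' => ?_
    rw [mem_filter] at hz hz'
    rw [hz.2] at hz'
    exact hab (singleton_inj.1 hz'.2)

/-- in particular all `aa` of a light clique are at least `(1 - δ - 2 R η₁) m` -/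
theorem aa_lower {V : Type*} [DecidableEq V] {G : SimpleGraph V} [DecidableRel G.Adj] {R m : ℕ}
    {S : Finset V} {C η₁ δ : ℝ} {B : Fin R → Finset V} (h : LS G S R m C η₁ δ B) (hη : 0 ≤ η₁)
    {f : Fin R → V} (hf : f ∈ tcl G B) {t : V} (ht : t ∈ im f) :
    (1 - δ - 2 * R * η₁) * m ≤ (aa G S (im f) t : ℝ) := by
  obtain ⟨i, rfl⟩ := mem_im.1 ht
  have h1 := aa_ge h hf i
  have h2 := delta_le h hη hf i
  have h3 := h.size_lo i
  have h4 : (0 : ℝ) ≤ (((S \ un B).filter fun z => hs G (im f) z = {f i}).card : ℝ) :=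
    Nat.cast_nonneg _
  linarith

/-- the cost of a light clique is small -/
lemma cost_le (R r : ℕ) {η ζ η₁ δ : ℝ} (hη : 0 < η) (hη2 : η ≤ 1 / 2)
    (hζ : 0 < ζ) (hζ1 : ζ ≤ 1 / 4) (hη₁ : 0 < η₁) (hη₁R : 128 * R ^ 2 * η₁ ≤ 1)
    (hδ0 : 0 < δ) (hδR : 64 * R * δ ≤ 1) {m : ℕ} (hm : 2 * ((r : ℝ) + 1) ≤ m)
    {V : Type*} [DecidableEq V] {G : SimpleGraph V} [DecidableRel G.Adj] {S : Finset V}
    {C : ℝ} {B : Fin R → Finset V} {ν : Finset V → ℝ} (hS : S.card ≤ R * m + r)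
    (h : LS G S R m C η₁ δ B) (hν : ∀ T, 0 ≤ ν T ∧ ν T ≤ 1) {f : Fin R → V} (hf : f ∈ tcl G B) :
    ((1 / 2 + η) * h2 G S (im f) + ζ * ν (im f)) / m ≤ 1 := by
  have hr0 : (0 : ℝ) ≤ r := Nat.cast_nonneg r
  have hm0 : (0 : ℝ) < m := by linarith
  rw [div_le_one hm0]
  have h1 : (∑ t ∈ im f, (aa G S (im f) t : ℝ)) + (h2 G S (im f) : ℝ) ≤ (S.card : ℝ) := by
    exact_mod_cast sum_aa_h2_le (G := G) S (im f)
  have h2' : ∑ _t ∈ im f, (1 - δ - 2 * R * η₁) * (m : ℝ) ≤ ∑ t ∈ im f, (aa G S (im f) t : ℝ) :=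
    sum_le_sum fun t ht => aa_lower h hη₁.le hf ht
  rw [sum_const, nsmul_eq_mul, im_card hf] at h2'
  have h3 : (S.card : ℝ) ≤ R * m + r := by exact_mod_cast hS
  have h4 : (0 : ℝ) ≤ (h2 G S (im f) : ℝ) := Nat.cast_nonneg _
  have h5 : (h2 G S (im f) : ℝ) ≤ (R * δ + 2 * R ^ 2 * η₁) * m + r := by
    have : (R : ℝ) * ((1 - δ - 2 * R * η₁) * m) = R * m - (R * δ + 2 * R ^ 2 * η₁) * m := by ring
    linarith
  have h6 : (R * δ + 2 * R ^ 2 * η₁) ≤ 1 / 32 := by nlinarith only [hη₁R, hδR]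
  have h7 : (R * δ + 2 * R ^ 2 * η₁) * m ≤ 1 / 32 * m := mul_le_mul_of_nonneg_right h6 hm0.le
  have h8 : (1 / 2 + η) * (h2 G S (im f) : ℝ) ≤ 1 * (h2 G S (im f) : ℝ) :=
    mul_le_mul_of_nonneg_right (by linarith) h4
  have h9 : ζ * ν (im f) ≤ 1 / 4 := by
    have := hν (im f)
    nlinarith only [hη2, hζ1, this]
  linarith

/-- the weight of a light clique is nonnegative -/
theorem lw_nonneg (R r : ℕ) (hR : 2 ≤ R) (C η ζ η₁ δ : ℝ) (hη : 0 < η) (hη2 : η ≤ 1 / 2)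
    (hζ : 0 < ζ) (hζ1 : ζ ≤ 1 / 4) (hη₁ : 0 < η₁) (hη₁R : 128 * R ^ 2 * η₁ ≤ 1)
    (hδ0 : 0 < δ) (hδR : 64 * R * δ ≤ 1) :
    ∃ m₀ : ℕ, ∀ m : ℕ, m₀ ≤ m →
      ∀ (V : Type) [DecidableEq V] (G : SimpleGraph V) [DecidableRel G.Adj] (S : Finset V)
        (B : Fin R → Finset V) (ν : Finset V → ℝ), S.card ≤ R * m + r → LS G S R m C η₁ δ B →
        (∀ T, 0 ≤ ν T ∧ ν T ≤ 1) → ∀ f ∈ tcl G B, 0 ≤ lw G S m η ζ ν (im f) := by
  refine ⟨2 * (r + 1), fun m hm V _ G _ S B ν hS h hν f hf => ?_⟩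
  have hm' : 2 * ((r : ℝ) + 1) ≤ m := by exact_mod_cast hm
  have h1 := cost_le R r hη hη2 hζ hζ1 hη₁ hη₁R hδ0 hδR hm' hS h hν hf
  unfold lw
  refine mul_nonneg (prod_nonneg fun t _ => by positivity) (by linarith)

/-- the real inequality behind `point_le` -/
lemma point_real {R : ℕ} {b d x a : Fin R → ℝ} {m η ε δ κ c A SS S2 H N ξ : ℝ}
    (hm : 0 < m) (hη : 0 < η) (hη2 : η ≤ 1 / 2) (hε : 0 < ε) (hε1 : ε ≤ 1) (hδ : 0 < δ)
    (hδε : 16 * δ ≤ ε) (hδη : 64 * δ ≤ η) (hκ0 : 0 ≤ κ) (hκ1 : 4 * κ ≤ ε) (hκ2 : 4 * κ ≤ η)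
    (hA0 : 0 ≤ A) (hA : 64 * A ≤ η)
    (hb1 : ∀ i, (1 - δ) * m ≤ b i) (hb2 : ∀ i, b i ≤ (1 + δ) * m) (hd0 : ∀ i, 0 ≤ d i)
    (hdA : ∑ i, d i ≤ A * m) (hx0 : ∀ i, 0 ≤ x i) (hxa : ∀ i, b i - d i + x i ≤ a i)
    (hξ : ∑ i, x i = ξ) (hξκ : ξ ≤ κ * m) (hSS : ∑ i, d i = SS) (hS20 : 0 ≤ S2)
    (hS2 : S2 ≤ SS) (hH : 0 ≤ H) (hN : 0 ≤ N) (hc1 : c ≤ 1)
    (hc : (1 / 2 + η) * (SS - S2 + H) + N ≤ c * m) :
    (∏ i, b i) * ((∏ i, (a i)⁻¹) * (1 - c)) ≤
      1 + (1 / 2 - η / 2) * SS / m + S2 / m - (1 - ε) * (ξ + H / 2 + N) / m := by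
  have hδ1 : δ ≤ 1 / 128 := by linarith
  have hA1 : A ≤ 1 / 128 := by linarith
  have hSS0 : 0 ≤ SS := by rw [← hSS]; exact sum_nonneg fun i _ => hd0 i
  have hξ0 : 0 ≤ ξ := by rw [← hξ]; exact sum_nonneg fun i _ => hx0 i
  have hb0 : ∀ i, 0 < b i := fun i => lt_of_lt_of_le (by nlinarith only [hm, hε1, hδε]) (hb1 i)
  have hdi : ∀ i, d i ≤ A * m := fun i =>
    (single_le_sum (fun j _ => hd0 j) (mem_univ i)).trans hdA
  have hbd : ∀ i, 0 < b i - d i := by
    intro i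
    have := hb1 i
    have := hdi i
    nlinarith
  have hbdx : ∀ i, 0 < b i - d i + x i := fun i => by have := hbd i; have := hx0 i; linarith
  have ha0 : ∀ i, 0 < a i := fun i => lt_of_lt_of_le (hbdx i) (hxa i)
  -- first product
  set X : ℝ := ∑ i, d i / b i with hX
  have hX0 : 0 ≤ X := sum_nonneg fun i _ => div_nonneg (hd0 i) (hb0 i).le
  have hXle : X ≤ SS / ((1 - δ) * m) := by
    rw [hX, ← hSS, sum_div]
    refine sum_le_sum fun i _ => ?_
    exact div_le_div_of_nonneg_left (hd0 i) (by nlinarith only [hm, hε1, hδε]) (hb1 i)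
  have hP1 : 1 - X ≤ ∏ i, (1 - d i / b i) := by
    refine one_sub_sum_le_prod univ _ (fun i _ => div_nonneg (hd0 i) (hb0 i).le) fun i _ => ?_
    rw [div_le_one (hb0 i)]
    have := hbd i
    linarith
  -- second product
  set Y : ℝ := ∑ i, x i / (b i - d i) with hY
  have hYge : ξ / ((1 + δ) * m) ≤ Y := by
    rw [hY, ← hξ, sum_div]
    refine sum_le_sum fun i _ => ?_
    refine div_le_div_of_nonneg_left (hx0 i) (hbd i) ?_
    have := hb2 i
    have := hd0 i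
    linarith
  have hP2 : 1 + Y ≤ ∏ i, (1 + x i / (b i - d i)) :=
    one_add_sum_le_prod univ _ fun i _ => div_nonneg (hx0 i) (hbd i).le
  -- the main product
  have hprod : (∏ i, b i) * (∏ i, (a i)⁻¹) * ((1 - X) * (1 + Y)) ≤ 1 := by
    have hle : (1 - X) * (1 + Y) ≤ ∏ i, ((1 - d i / b i) * (1 + x i / (b i - d i))) := by
      rw [prod_mul_distrib]
      have h1 : 0 ≤ ∏ i, (1 - d i / b i) := prod_nonneg fun i _ => by
        rw [sub_nonneg, div_le_one (hb0 i)]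
        have := hbd i
        linarith
      have h2 : 0 ≤ 1 + Y := by
        have : 0 ≤ Y := sum_nonneg fun i _ => div_nonneg (hx0 i) (hbd i).le
        linarith
      exact mul_le_mul hP1 hP2 h2 h1
    have hpos : 0 ≤ (∏ i, b i) * (∏ i, (a i)⁻¹) :=
      mul_nonneg (prod_nonneg fun i _ => (hb0 i).le) (prod_nonneg fun i _ => (inv_pos.2 (ha0 i)).le)
    refine (mul_le_mul_of_nonneg_left hle hpos).trans ?_
    rw [← prod_mul_distrib, ← prod_mul_distrib]
    refine prod_le_one (fun i _ => ?_) fun i _ => ?_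
    · have h1 : 0 ≤ 1 - d i / b i := by
        rw [sub_nonneg, div_le_one (hb0 i)]
        have := hbd i
        linarith
      have h2 : 0 ≤ 1 + x i / (b i - d i) := by
        have := div_nonneg (hx0 i) (hbd i).le
        linarith
      have := (hb0 i).le
      have := (inv_pos.2 (ha0 i)).le
      positivity
    · have e : (1 - d i / b i) * (1 + x i / (b i - d i)) = (b i - d i + x i) / b i := by
        have h1 := (hb0 i).ne'
        have h2 := (hbd i).ne'
        field_simp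
      rw [e]
      have h1 := hb0 i
      have h2 := ha0 i
      have e2 : b i * (a i)⁻¹ * ((b i - d i + x i) / b i) = (b i - d i + x i) / a i := by
        field_simp
      rw [e2, div_le_one h2]
      exact hxa i
  -- bounds for X and Y
  have hX2 : X ≤ 2 * A := by
    refine hXle.trans ?_
    rw [div_le_iff₀ (by nlinarith only [hm, hε1, hδε])]
    rw [hSS] at hdA
    nlinarith only [hε1, hδε, hdA, hS20, hS2]
  have hX3 : (1 + η / 4) * (SS / m) * (1 - X) ≥ X := by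
    have h1 : X * ((1 - δ) * m) ≤ SS := by
      rw [le_div_iff₀ (by nlinarith only [hm, hε1, hδε])] at hXle
      exact hXle
    have h2 : X ≤ SS / m / (1 - δ) := by
      rw [div_div, mul_comm m]
      exact hXle
    have h3 : X * (1 - δ) ≤ SS / m := by
      rw [le_div_iff₀ (by linarith)] at h2
      exact h2
    have h4 : 0 ≤ SS / m := by positivity
    -- X ≤ (1+η/4)(1-X) X (1-δ)
    have h5 : 1 ≤ (1 + η / 4) * (1 - X) * (1 - δ) := by
      have h51 : X ≤ η / 32 := by linarith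
      have h52 : δ ≤ η / 64 := by linarith
      have h53 : 1 - 3 * η / 64 ≤ (1 - X) * (1 - δ) := by nlinarith only [hm, hδ, hδη, hA, hdA, hSS, h1]
      nlinarith only [hη2, hδ, hδη, h53]
    have h6 : 0 ≤ (1 + η / 4) * (1 - X) := by
      have : X ≤ 1 := by linarith
      have : 0 ≤ 1 - X := by linarith
      positivity
    nlinarith only [hX0, h3, h5, h6, mul_le_mul_of_nonneg_left h3 h6, mul_le_mul_of_nonneg_left h5 hX0]
  have hY3 : (1 - (1 - ε / 2) * (ξ / m)) * (1 + Y) ≥ 1 := by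
    set q := ξ / m with hq
    have hq0 : 0 ≤ q := by positivity
    have hqκ : q ≤ κ := by rw [hq, div_le_iff₀ hm]; exact hξκ
    have h1 : q / (1 + δ) ≤ Y := by
      rw [hq, div_div, mul_comm m]
      exact hYge
    have h2 : q * (1 - δ) ≤ Y := by
      refine le_trans ?_ h1
      rw [le_div_iff₀ (by linarith)]
      nlinarith only [mul_nonneg hq0 (mul_self_nonneg δ)]
    have h3 : 0 ≤ 1 - (1 - ε / 2) * q := by nlinarith only [hε1, hκ1, hqκ]
    have h4 := mul_le_mul_of_nonneg_left h2 h3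
    have h5 : 0 ≤ q * ((1 - (1 - ε / 2) * q) * (1 - δ) - (1 - ε / 2)) := by
      refine mul_nonneg hq0 ?_
      nlinarith only [hη, hη2, hε, hε1, hδε, hκ1, hq0, hqκ, mul_nonneg hq0 hδ.le]
    nlinarith only [h4, h5]
  -- conclusion
  set Pr : ℝ := (∏ i, b i) * (∏ i, (a i)⁻¹) with hPr
  have hPr0 : 0 ≤ Pr :=
    mul_nonneg (prod_nonneg fun i _ => (hb0 i).le) (prod_nonneg fun i _ => (inv_pos.2 (ha0 i)).le)
  have hPle : Pr ≤ (1 + (1 + η / 4) * (SS / m)) * (1 - (1 - ε / 2) * (ξ / m)) := by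
    have e1 : 1 ≤ (1 + (1 + η / 4) * (SS / m)) * (1 - X) := by
      nlinarith only [hX3]
    have hY0 : 0 ≤ 1 + Y := by
      have : 0 ≤ Y := sum_nonneg fun i _ => div_nonneg (hx0 i) (hbd i).le
      linarith only [this]
    have hX1 : 0 ≤ 1 - X := by linarith only [hη2, hA, hX2]
    have e2 : 0 ≤ (1 - (1 - ε / 2) * (ξ / m)) * (1 + Y) := by linarith only [hη2, hδ, hY3]
    set p1 := 1 + (1 + η / 4) * (SS / m)
    set p2 := 1 - (1 - ε / 2) * (ξ / m)
    have e3 : 1 ≤ (p1 * p2) * ((1 - X) * (1 + Y)) := by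
      have : (p1 * p2) * ((1 - X) * (1 + Y)) = (p1 * (1 - X)) * (p2 * (1 + Y)) := by ring
      rw [this]
      nlinarith only [e1, hY3]
    have e4 : Pr * ((1 - X) * (1 + Y)) ≤ (p1 * p2) * ((1 - X) * (1 + Y)) := hprod.trans e3
    have e5 : 0 < (1 - X) * (1 + Y) := by
      have : 0 ≤ Y := sum_nonneg fun i _ => div_nonneg (hx0 i) (hbd i).le
      have : 0 < 1 - X := by linarith
      positivity
    exact le_of_mul_le_mul_right e4 e5
  have hc0 : 0 ≤ 1 - c := by linarith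
  have hfin : Pr * (1 - c) ≤
      (1 + (1 + η / 4) * (SS / m)) * (1 - (1 - ε / 2) * (ξ / m)) * (1 - c) :=
    mul_le_mul_of_nonneg_right hPle hc0
  have hLHS : (∏ i, b i) * ((∏ i, (a i)⁻¹) * (1 - c)) = Pr * (1 - c) := by rw [hPr]; ring
  rw [hLHS]
  refine hfin.trans ?_
  -- everything in units of m
  have hcm : (1 / 2 + η) * (SS / m - S2 / m + H / m) + N / m ≤ c := by
    have : ((1 / 2 + η) * (SS - S2 + H) + N) / m ≤ c := by
      rw [div_le_iff₀ hm]; exact hc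
    have e : ((1 / 2 + η) * (SS - S2 + H) + N) / m =
        (1 / 2 + η) * (SS / m - S2 / m + H / m) + N / m := by ring
    rw [← e]; exact this
  have g1 : (1 / 2 - η / 2) * SS / m = (1 / 2 - η / 2) * (SS / m) := by ring
  have g2 : (1 - ε) * (ξ + H / 2 + N) / m = (1 - ε) * (ξ / m + (H / m) / 2 + N / m) := by ring
  rw [g1, g2]
  have k1 : 0 ≤ SS / m := by positivity
  have k2 : 0 ≤ S2 / m := by positivity
  have k3 : 0 ≤ H / m := by positivity
  have k4 : 0 ≤ N / m := by positivity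
  have k5 : 0 ≤ ξ / m := by positivity
  have k6 : ξ / m ≤ κ := by rw [div_le_iff₀ hm]; exact hξκ
  have k7 : S2 / m ≤ SS / m := div_le_div_of_nonneg_right hS2 hm.le
  generalize SS / m = s at *
  generalize S2 / m = t at *
  generalize H / m = g at *
  generalize N / m = n at *
  generalize ξ / m = q at *
  have hq' : 0 ≤ 1 - (1 - ε / 2) * q := by nlinarith only [hε1, hκ1, k5, k6]
  have hcnn : 0 ≤ c := by
    have : 0 ≤ (1 / 2 + η) * (s - t + g) := mul_nonneg (by linarith only [hδ, hδη]) (by linarith only [k7, k3])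
    linarith only [k4, hcm, this]
  -- (1+p)(1-Q)(1-c) ≤ 1 + p - Q - c + Q c
  have step1 : (1 + (1 + η / 4) * s) * (1 - (1 - ε / 2) * q) * (1 - c) ≤
      1 + (1 + η / 4) * s - (1 - ε / 2) * q - (1 - κ) * c := by
    have hp : 0 ≤ (1 + η / 4) * s := by positivity
    have hQ0 : 0 ≤ (1 - ε / 2) * q := mul_nonneg (by linarith only [hε1]) k5
    have hQκ : (1 - ε / 2) * q ≤ κ := by nlinarith only [hε, k5, k6]
    generalize (1 + η / 4) * s = p at *
    generalize (1 - ε / 2) * q = Q at *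
    have u1 : 0 ≤ p * (Q + c - Q * c) := mul_nonneg hp (by nlinarith only [hc1, hcnn, hQ0])
    have u2 : Q * c ≤ κ * c := mul_le_mul_of_nonneg_right hQκ hcnn
    nlinarith only [u1, u2]
  refine step1.trans ?_
  have step2 : (1 - κ) * ((1 / 2 + η) * (s - t + g) + n) ≤ (1 - κ) * c :=
    mul_le_mul_of_nonneg_left hcm (by linarith only [hε1, hκ1])
  -- coefficientwise
  have c1 : (1 + η / 4) * s - (1 - κ) * ((1 / 2 + η) * s) ≤ (1 / 2 - η / 2) * s := by
    have : 0 ≤ ((1 / 2 - η / 2) - (1 + η / 4) + (1 - κ) * (1 / 2 + η)) * s := by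
      refine mul_nonneg ?_ k1
      nlinarith only [hη, hη2, hκ2]
    nlinarith only [this]
  have c2 : (1 - κ) * ((1 / 2 + η) * t) ≤ t := by
    have : (1 - κ) * (1 / 2 + η) ≤ 1 := by nlinarith only [hη, hη2, hκ0]
    nlinarith only [k2, this]
  have c3 : (1 - ε) * (g / 2) ≤ (1 - κ) * ((1 / 2 + η) * g) := by
    have : (1 - ε) / 2 ≤ (1 - κ) * (1 / 2 + η) := by nlinarith only [hε1, hδ, hδε, hδη, hκ1]
    nlinarith only [k3, this]
  have c4 : (1 - ε) * n ≤ (1 - κ) * n := mul_le_mul_of_nonneg_right (by linarith) k4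
  have c5 : (1 - ε) * q ≤ (1 - ε / 2) * q := mul_le_mul_of_nonneg_right (by linarith) k5
  nlinarith only [step2, c1, c2, c3, c4, c5]

/-- upper bound for the weight of a light clique -/
theorem point_le (R r : ℕ) (hR : 2 ≤ R) (C η ζ η₁ δ ε₇ : ℝ) (hC : 0 < C) (hη : 0 < η)
    (hη2 : η ≤ 1 / 2) (hζ : 0 < ζ) (hζ1 : ζ ≤ 1 / 4) (hη₁ : 0 < η₁)
    (hη₁R : 128 * R ^ 2 * η₁ ≤ η) (hδ0 : 0 < δ) (hδR : 64 * R * δ ≤ η) (hε : 0 < ε₇)
    (hε1 : ε₇ ≤ 1) (hδε : 16 * δ ≤ ε₇) :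
    ∃ m₀ : ℕ, ∀ m : ℕ, m₀ ≤ m →
      ∀ (V : Type) [DecidableEq V] (G : SimpleGraph V) [DecidableRel G.Adj] (S : Finset V)
        (B : Fin R → Finset V) (ν : Finset V → ℝ), S.card ≤ R * m + r → LS G S R m C η₁ δ B →
        (∀ T, 0 ≤ ν T ∧ ν T ≤ 1) → ∀ f ∈ tcl G B,
        (∏ l, ((B l).card : ℝ)) * lw G S m η ζ ν (im f) ≤
          1 + (1 / 2 - η / 2) * ss G B f / m + s2 G B f / m -
            (1 - ε₇) * XX G S B ζ ν f / m := by
  obtain ⟨m₁, hm₁⟩ := exists_nat_ge (max (4 * C / ε₇) (4 * C / η))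
  refine ⟨max m₁ (2 * (r + 1)), fun m hm V _ G _ S B ν hS h hν f hf => ?_⟩
  have hmr : 2 * ((r : ℝ) + 1) ≤ m := by exact_mod_cast (le_max_right _ _).trans hm
  have hm1 : (m₁ : ℝ) ≤ m := by exact_mod_cast (le_max_left _ _).trans hm
  have hr0 : (0 : ℝ) ≤ r := Nat.cast_nonneg r
  have hm0 : (0 : ℝ) < m := by linarith
  have hκ1 : 4 * (C / m) ≤ ε₇ := by
    have : 4 * C / ε₇ ≤ m := (le_max_left _ _).trans (hm₁.trans hm1)
    rw [div_le_iff₀ hε] at this
    rw [← mul_div_assoc, div_le_iff₀ hm0]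
    linarith
  have hκ2 : 4 * (C / m) ≤ η := by
    have : 4 * C / η ≤ m := (le_max_right _ _).trans (hm₁.trans hm1)
    rw [div_le_iff₀ hη] at this
    rw [← mul_div_assoc, div_le_iff₀ hm0]
    linarith
  have hR2 : (2 : ℝ) ≤ R := by exact_mod_cast hR
  have hcost := cost_le R r hη hη2 hζ hζ1 hη₁ (by linarith) hδ0 (by linarith) hmr hS h hν hf
  -- the data
  have hξ : ∑ l, (((S \ un B).filter fun z => hs G (im f) z = {f l}).card : ℝ) =
      (((S \ un B).filter fun z => (hs G (im f) z).card = 1).card : ℝ) := by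
    rw [← Nat.cast_sum, ← card_biUnion]
    · congr 2
      ext z
      simp only [mem_biUnion, mem_univ, true_and, mem_filter]
      constructor
      · rintro ⟨l, hz, hl⟩
        exact ⟨hz, by rw [hl, card_singleton]⟩
      · rintro ⟨hz, hc⟩
        obtain ⟨t, ht⟩ := card_eq_one.1 hc
        have : t ∈ hs G (im f) z := by rw [ht]; exact mem_singleton_self t
        obtain ⟨l, hl⟩ := mem_im.1 (mem_hs.1 this).1
        exact ⟨l, hz, by rw [ht, hl]⟩
    · intro a _ b _ hab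
      refine disjoint_left.2 fun z hz hz' => ?_
      rw [mem_filter] at hz hz'
      rw [hz.2] at hz'
      exact hab (tcl_injective hf (singleton_inj.1 hz'.2))
  have hXX : XX G S B ζ ν f = (((S \ un B).filter fun z => (hs G (im f) z).card = 1).card : ℝ) +
      (((S \ un B).filter fun z => (hs G (im f) z).card = 2).card : ℝ) / 2 + ζ * ν (im f) := by
    unfold XX
    congr 1
    rw [card_filter, card_filter]
    push_cast
    rw [sum_div, ← sum_add_distrib]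
    refine sum_congr rfl fun z _ => ?_
    by_cases h1 : (hs G (im f) z).card = 1
    · rw [if_pos h1, if_pos h1, if_neg (by omega)]; norm_num
    · rw [if_neg h1, if_neg h1]
      by_cases h2 : (hs G (im f) z).card = 2
      · rw [if_pos h2, if_pos h2]; norm_num
      · rw [if_neg h2, if_neg h2]; norm_num
  have hh2 := h2_ge h hf
  unfold lw
  rw [prod_im hf (fun t => ((aa G S (im f) t : ℝ))⁻¹), hXX]
  refine point_real (A := 2 * R ^ 2 * η₁) (κ := C / m) (δ := δ)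
    (d := fun i => (((B i).filter fun z => ∃ j, j ≠ i ∧ ¬ G.Adj z (f j)).card : ℝ))
    (x := fun i => (((S \ un B).filter fun z => hs G (im f) z = {f i}).card : ℝ))
    hm0 hη hη2 hε hε1 hδ0 hδε (by nlinarith only [hη, hδR, hR2]) (by positivity) hκ1 hκ2 (by positivity)
    (by nlinarith only [hη₁R]) h.size_lo h.size_hi (fun i => Nat.cast_nonneg _) ?_
    (fun i => Nat.cast_nonneg _) (fun i => aa_ge h hf i) hξ ?_ rfl ?_ ?_ (Nat.cast_nonneg _)
    (mul_nonneg hζ.le (hν _).1) hcost ?_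
  · refine (sum_le_sum fun i _ => delta_le h hη₁.le hf i).trans ?_
    rw [sum_const, nsmul_eq_mul, card_univ, Fintype.card_fin]
    apply le_of_eq
    ring
  · have h1 : (((S \ un B).filter fun z => (hs G (im f) z).card = 1).card : ℝ) ≤
        ((S \ un B).card : ℝ) := by
      exact_mod_cast card_le_card (filter_subset _ _)
    rw [div_mul_cancel₀ _ hm0.ne']
    exact h1.trans h.hX
  · unfold s2
    exact sum_nonneg fun i _ => Nat.cast_nonneg _
  · unfold s2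
    refine sum_le_sum fun i _ => ?_
    have : ((B i).filter fun z => ∃ j k, j ≠ i ∧ k ≠ i ∧ j ≠ k ∧ ¬ G.Adj z (f j) ∧
        ¬ G.Adj z (f k)) ⊆ ((B i).filter fun z => ∃ j, j ≠ i ∧ ¬ G.Adj z (f j)) := by
      intro z hz
      rw [mem_filter] at hz ⊢
      obtain ⟨hz, j, k, hji, -, -, hj, -⟩ := hz
      exact ⟨hz, j, hji, hj⟩
    exact_mod_cast card_le_card this
  · rw [div_mul_cancel₀ _ hm0.ne']
    have h1 : (1 / 2 + η) * (ss G B f - s2 G B f +
        (((S \ un B).filter fun z => (hs G (im f) z).card = 2).card : ℝ)) ≤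
          (1 / 2 + η) * (h2 G S (im f) : ℝ) := mul_le_mul_of_nonneg_left hh2 (by linarith)
    linarith only [h1]

end H57LC
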