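import Pool.Agent.H57.LC.TSums
import Pool.Agent.H57.LC.Point

/-!
The sum of the weights of the light cliques (note 3541, 4d).
-/

namespace H57LC

open Finset

set_option linter.unusedSectionVars false

private lemma LSum_ss_nonneg {V : Type*} [DecidableEq V] {G : SimpleGraph V} [DecidableRel G.Adj]
    {R : ℕ} (B : Fin R → Finset V) (f : Fin R → V) : 0 ≤ ss G B f := by
  unfold ss
  exact Finset.sum_nonneg fun i _ => Nat.cast_nonneg _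

private lemma LSum_s2_nonneg {V : Type*} [DecidableEq V] {G : SimpleGraph V} [DecidableRel G.Adj]
    {R : ℕ} (B : Fin R → Finset V) (f : Fin R → V) : 0 ≤ s2 G B f := by
  unfold s2
  exact Finset.sum_nonneg fun i _ => Nat.cast_nonneg _

private lemma LSum_coef (R : ℕ) (hR : 2 ≤ R) (η η₁ δ : ℝ) (hη : 0 < η)
    (hη₁ : 0 < η₁) (hη₁R : 128 * R ^ 2 * η₁ ≤ η) (hδ0 : 0 < δ) (hδR : 64 * R * δ ≤ η) :
    -(1 / 2) + R ^ 2 * η₁ + (1 / 2 - η / 2) * (1 + δ) + 4 * η₁ * R ≤ -(η / 4) := by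
  have hR2 : (2 : ℝ) ≤ R := by exact_mod_cast hR
  have h1 : (R : ℝ) * η₁ ≤ R ^ 2 * η₁ := by
    have : (R : ℝ) * η₁ * 1 ≤ (R : ℝ) * η₁ * R :=
      mul_le_mul_of_nonneg_left (by linarith) (by positivity)
    nlinarith
  have h2 : 2 * δ ≤ (R : ℝ) * δ := mul_le_mul_of_nonneg_right hR2 hδ0.le
  have h3 : 0 < η * δ := mul_pos hη hδ0
  nlinarith

theorem light_sum (R r : ℕ) (hR : 2 ≤ R) (C η ζ η₁ δ ε₇ : ℝ) (hC : 0 < C) (hη : 0 < η)
    (hη2 : η ≤ 1 / 2) (hζ : 0 < ζ) (hζ1 : ζ ≤ 1 / 4) (hη₁ : 0 < η₁)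
    (hη₁R : 128 * R ^ 2 * η₁ ≤ η) (hδ0 : 0 < δ) (hδR : 64 * R * δ ≤ η) (hε : 0 < ε₇)
    (hε1 : ε₇ ≤ 1) (hδε : 16 * δ ≤ ε₇) :
    ∃ m₀ : ℕ, ∀ m : ℕ, m₀ ≤ m →
      ∀ (V : Type) [DecidableEq V] (G : SimpleGraph V) [DecidableRel G.Adj] (S : Finset V)
        (B : Fin R → Finset V) (ν : Finset V → ℝ), S.card ≤ R * m + r → LS G S R m C η₁ δ B →
        (∀ T, 0 ≤ ν T ∧ ν T ≤ 1) →
        ∑ f ∈ tcl G B, lw G S m η ζ ν (im f) ≤
          1 - (η / 4) * (∑ f ∈ Fintype.piFinset B, DD G f) / (∏ l, ((B l).card : ℝ)) -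
            (1 - ε₇) * (∑ f ∈ tcl G B, XX G S B ζ ν f) / (m * ∏ l, ((B l).card : ℝ)) := by
  obtain ⟨m₁, hm₁⟩ := point_le R r hR C η ζ η₁ δ ε₇ hC hη hη2 hζ hζ1 hη₁ hη₁R hδ0 hδR hε hε1 hδε
  refine ⟨max m₁ 1, ?_⟩
  intro m hm V _ G _ S B ν hS h hν
  have hpt := hm₁ m ((le_max_left _ _).trans hm) V G S B ν hS h hν
  have hm1 : 0 < m := lt_of_lt_of_le Nat.one_pos ((le_max_right _ _).trans hm)
  have hm0 : (0 : ℝ) < m := by exact_mod_cast hm1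
  have hR2 : (2 : ℝ) ≤ R := by exact_mod_cast hR
  have hδ2 : δ ≤ 1 / 2 := by
    have h2 : 2 * δ ≤ (R : ℝ) * δ := mul_le_mul_of_nonneg_right hR2 hδ0.le
    nlinarith
  set P : ℝ := ∏ l, ((B l).card : ℝ) with hP
  have hPpos : 0 < P := by
    rw [hP]
    refine Finset.prod_pos fun l _ => ?_
    have h3 := h.size_lo l
    have h4 : (1 / 2 : ℝ) * m ≤ (1 - δ) * m := mul_le_mul_of_nonneg_right (by linarith) hm0.le
    linarith
  set D : ℝ := ∑ f ∈ Fintype.piFinset B, DD G f with hD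
  have hD0 : 0 ≤ D := Finset.sum_nonneg fun f _ => DD_nonneg f
  set X : ℝ := ∑ f ∈ tcl G B, XX G S B ζ ν f with hX
  have hsub : tcl G B ⊆ Fintype.piFinset B := by
    unfold tcl
    exact filter_subset _ _
  have hss : ∑ f ∈ tcl G B, ss G B f ≤ (1 + δ) * m * D :=
    (Finset.sum_le_sum_of_subset_of_nonneg hsub fun f _ _ => LSum_ss_nonneg B f).trans
      (sum_ss_le h)
  have hs2 : ∑ f ∈ tcl G B, s2 G B f ≤ 4 * η₁ * R * m * D :=
    (Finset.sum_le_sum_of_subset_of_nonneg hsub fun f _ _ => LSum_s2_nonneg B f).trans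
      (sum_s2_le h hη₁.le hδ2 hδ0.le hm1)
  have hcard := card_tcl_le h hη₁.le hδ2 hm1
  have hsum : P * ∑ f ∈ tcl G B, lw G S m η ζ ν (im f) ≤
      ((tcl G B).card : ℝ) + (1 / 2 - η / 2) * (∑ f ∈ tcl G B, ss G B f) / m +
        (∑ f ∈ tcl G B, s2 G B f) / m - (1 - ε₇) * X / m := by
    rw [Finset.mul_sum]
    refine (Finset.sum_le_sum fun f hf => hpt f hf).trans (le_of_eq ?_)
    rw [Finset.sum_sub_distrib, Finset.sum_add_distrib, Finset.sum_add_distrib, Finset.sum_const,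
      nsmul_eq_mul, mul_one, ← Finset.sum_div, ← Finset.sum_div, ← Finset.sum_div,
      ← Finset.mul_sum, ← Finset.mul_sum]
  have hss' : (1 / 2 - η / 2) * (∑ f ∈ tcl G B, ss G B f) / m ≤
      (1 / 2 - η / 2) * (1 + δ) * D := by
    rw [div_le_iff₀ hm0]
    have := mul_le_mul_of_nonneg_left hss (by linarith : 0 ≤ 1 / 2 - η / 2)
    calc _ ≤ _ := this
      _ = _ := by ring
  have hs2' : (∑ f ∈ tcl G B, s2 G B f) / m ≤ 4 * η₁ * R * D := by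
    rw [div_le_iff₀ hm0]
    calc _ ≤ _ := hs2
      _ = _ := by ring
  have hcoef := mul_le_mul_of_nonneg_right
    (LSum_coef R hR η η₁ δ hη hη₁ hη₁R hδ0 hδR) hD0
  have htot : P * ∑ f ∈ tcl G B, lw G S m η ζ ν (im f) ≤
      P - (η / 4) * D - (1 - ε₇) * X / m := by
    have e : (-(1 / 2) + (R : ℝ) ^ 2 * η₁ + (1 / 2 - η / 2) * (1 + δ) + 4 * η₁ * R) * D =
        -(1 / 2) * D + (R : ℝ) ^ 2 * η₁ * D + (1 / 2 - η / 2) * (1 + δ) * D +
          4 * η₁ * R * D := by ring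
    rw [e] at hcoef
    linarith
  have hfin : 1 - (η / 4) * D / P - (1 - ε₇) * X / (m * P) =
      (P - (η / 4) * D - (1 - ε₇) * X / m) / P := by
    field_simp
  rw [hfin, le_div_iff₀ hPpos]
  calc _ = P * ∑ f ∈ tcl G B, lw G S m η ζ ν (im f) := by ring
    _ ≤ _ := htot

end H57LC
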