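import Mathlib

/-!
Project LC (local weights for cliques): definitions and basic lemmas.
Paper proof: note 3541 on MP_e32fce_co.
-/

namespace H57LC

open Finset

set_option linter.unusedSectionVars false

variable {V : Type*} [DecidableEq V] (G : SimpleGraph V) [DecidableRel G.Adj]

/-- the non-neighbours of `z` in `T` (this contains `z` if `z ∈ T`) -/
def hs (T : Finset V) (z : V) : Finset V := T.filter fun t => ¬ G.Adj z t

/-- `T` is a clique -/
def IsCl (T : Finset V) : Prop := ∀ a ∈ T, ∀ b ∈ T, a ≠ b → G.Adj a b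

instance decIsCl : DecidablePred (IsCl G) := fun T => by unfold IsCl; infer_instance

/-- the `k`-cliques inside `S` -/
def clq (S : Finset V) (k : ℕ) : Finset (Finset V) := (S.powersetCard k).filter fun T => IsCl G T

/-- the number of `z ∈ S` with `h_T(z) = {t}` -/
def aa (S T : Finset V) (t : V) : ℕ := (S.filter fun z => hs G T z = {t}).card

/-- the number of `z ∈ S` with exactly two non-neighbours in `T` -/
def h2 (S T : Finset V) : ℕ := (S.filter fun z => (hs G T z).card = 2).card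

/-- the number of `z ∈ S` with at least two non-neighbours in `T` -/
def hge (S T : Finset V) : ℕ := (S.filter fun z => 2 ≤ (hs G T z).card).card

/-- clique transversals of the family `B` -/
def tcl {R : ℕ} (B : Fin R → Finset V) : Finset (Fin R → V) :=
  (Fintype.piFinset B).filter fun f => ∀ i j, i ≠ j → G.Adj (f i) (f j)

/-- the image of a tuple -/
def im {R : ℕ} (f : Fin R → V) : Finset V := univ.image f

/-- the union of a family -/
def un {R : ℕ} (B : Fin R → Finset V) : Finset V := univ.biUnion B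

/-- indicator of non-adjacency -/
def na (x y : V) : ℝ := if G.Adj x y then 0 else 1

/-- the number of ordered non-adjacent pairs of a tuple -/
def DD {R : ℕ} (f : Fin R → V) : ℝ := ∑ i, ∑ j ∈ univ.erase i, na G (f i) (f j)

/-- the number of `z` in some `B i` with a non-neighbour `f j`, `j ≠ i` -/
def ss {R : ℕ} (B : Fin R → Finset V) (f : Fin R → V) : ℝ :=
  ∑ i, (((B i).filter fun z => ∃ j, j ≠ i ∧ ¬ G.Adj z (f j)).card : ℝ)

/-- the number of `z` in some `B i` with at least two non-neighbours `f j`, `j ≠ i` -/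
def s2 {R : ℕ} (B : Fin R → Finset V) (f : Fin R → V) : ℝ :=
  ∑ i, (((B i).filter fun z => ∃ j k, j ≠ i ∧ k ≠ i ∧ j ≠ k ∧ ¬ G.Adj z (f j) ∧
    ¬ G.Adj z (f k)).card : ℝ)

/-- the costs of the heavy vertices (those of `S` outside `un B`) at the tuple `f` -/
noncomputable def XX {R : ℕ} (S : Finset V) (B : Fin R → Finset V) (ζ : ℝ) (ν : Finset V → ℝ)
    (f : Fin R → V) : ℝ :=
  (∑ z ∈ S \ un B, (if (hs G (im f) z).card = 1 then (1 : ℝ) else
    if (hs G (im f) z).card = 2 then 1 / 2 else 0)) + ζ * ν (im f)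

/-- the weight of a light clique -/
noncomputable def lw (S : Finset V) (m : ℕ) (η ζ : ℝ) (ν : Finset V → ℝ) (T : Finset V) : ℝ :=
  (∏ t ∈ T, ((aa G S T t : ℝ))⁻¹) * (1 - ((1 / 2 + η) * h2 G S T + ζ * ν T) / m)

/-- the rule for the indicator `ν` of non-tight cliques -/
def Rule (S : Finset V) (R : ℕ) (ν : Finset V → ℝ) : Prop :=
  (∀ T, 0 ≤ ν T ∧ ν T ≤ 1) ∧
  ∀ T ∈ clq G S R, ∀ S' ⊆ T, S'.Nonempty →
    S'.card ≤ (S.filter fun z => 2 ≤ (hs G T z).card ∧ hs G T z ⊆ S').card → ν T = 1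

/-- the weight `x` is rich -/
def Rich (m R : ℕ) (C₁ x : ℝ) : Prop := (1 + C₁ / m) / (m : ℝ) ^ R ≤ x

/-- structure of a set `S` with many `R`-cliques, first version -/
structure AS (S : Finset V) (R m : ℕ) (C δ : ℝ) (A : Fin R → Finset V) : Prop where
  sub : ∀ i, A i ⊆ S
  disj : ∀ i j, i ≠ j → Disjoint (A i) (A j)
  ind : ∀ i, ∀ a ∈ A i, ∀ b ∈ A i, ¬ G.Adj a b
  hX : ((S \ un A).card : ℝ) ≤ C
  size_lo : ∀ i, (1 - δ) * m ≤ ((A i).card : ℝ)
  size_hi : ∀ i, ((A i).card : ℝ) ≤ (1 + δ) * m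
  tot : ∀ i j, i ≠ j → ∑ z ∈ A i, ((hs G (A j) z).card : ℝ) ≤ C * m

/-- structure of a set `S` with many `R`-cliques: the light sets -/
structure LS (S : Finset V) (R m : ℕ) (C η₁ δ : ℝ) (B : Fin R → Finset V) : Prop where
  sub : ∀ i, B i ⊆ S
  disj : ∀ i j, i ≠ j → Disjoint (B i) (B j)
  ind : ∀ i, ∀ a ∈ B i, ∀ b ∈ B i, ¬ G.Adj a b
  hX : ((S \ un B).card : ℝ) ≤ C
  size_lo : ∀ i, (1 - δ) * m ≤ ((B i).card : ℝ)
  size_hi : ∀ i, ((B i).card : ℝ) ≤ (1 + δ) * m
  row : ∀ i j, i ≠ j → ∀ z ∈ B i, ((hs G (B j) z).card : ℝ) ≤ 2 * η₁ * m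
  tot : ∀ i j, i ≠ j → ∑ z ∈ B i, ((hs G (B j) z).card : ℝ) ≤ C * m
  heavy : ∀ z ∈ S \ un B, ∀ i, ∃ j, j ≠ i ∧ η₁ / 2 * m ≤ ((hs G (B j) z).card : ℝ)

/-- the light vertices with a large row -/
noncomputable def big {R : ℕ} (B : Fin R → Finset V) (m : ℕ) (θ : ℝ) : Finset V := by
  classical
  exact (un B).filter fun z => ∃ i j, z ∈ B i ∧ j ≠ i ∧ θ * m ≤ ((hs G (B j) z).card : ℝ)

/-- reciprocal of the density of the Turan graph with `w` classes, `r` of them of size `m + 1`, the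
others of size `m` -/
noncomputable def rinv (w R r m : ℕ) : ℝ :=
  ∑ T ∈ powersetCard R (univ : Finset (Fin w)), ∏ i ∈ T,
    ((m : ℝ) + (if i.val < r then 1 else 0))⁻¹

/-- common neighbours -/
def cn [Fintype V] (U : Finset V) : Finset V := univ.filter fun z => ∀ a ∈ U, G.Adj a z

variable {G}

/-! ### basic lemmas -/

lemma mem_hs {T : Finset V} {z t : V} : t ∈ hs G T z ↔ t ∈ T ∧ ¬ G.Adj z t := by
  simp [hs]

lemma hs_subset (T : Finset V) (z : V) : hs G T z ⊆ T := filter_subset _ _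

lemma self_mem_hs {T : Finset V} {z : V} (h : z ∈ T) : z ∈ hs G T z :=
  mem_hs.2 ⟨h, G.loopless.irrefl z⟩

lemma hs_mono {T T' : Finset V} (h : T ⊆ T') (z : V) : hs G T z ⊆ hs G T' z :=
  filter_subset_filter _ h

lemma mem_clq {S T : Finset V} {k : ℕ} : T ∈ clq G S k ↔ (T ⊆ S ∧ T.card = k) ∧ IsCl G T := by
  simp [clq, mem_powersetCard]

lemma IsCl.subset {T T' : Finset V} (h : IsCl G T') (hT : T ⊆ T') : IsCl G T :=
  fun a ha b hb hab => h a (hT ha) b (hT hb) hab

lemma isCl_insert {T : Finset V} {z : V} (h : IsCl G T) (hz : ∀ t ∈ T, G.Adj z t) :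
    IsCl G (insert z T) := by
  intro a ha b hb hab
  rw [mem_insert] at ha hb
  rcases ha with rfl | ha <;> rcases hb with rfl | hb
  · exact absurd rfl hab
  · exact hz b hb
  · exact (hz a ha).symm
  · exact h a ha b hb hab

/-- in a set without `(R + 1)`-cliques every vertex has a non-neighbour in every `R`-clique -/
lemma hs_nonempty {S T : Finset V} {R : ℕ} (hfree : clq G S (R + 1) = ∅) (hT : T ∈ clq G S R)
    {z : V} (hz : z ∈ S) : (hs G T z).Nonempty := by
  rw [mem_clq] at hT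
  by_contra hcon
  rw [not_nonempty_iff_eq_empty] at hcon
  have hadj : ∀ t ∈ T, G.Adj z t := by
    intro t ht
    by_contra h
    have : t ∈ hs G T z := mem_hs.2 ⟨ht, h⟩
    rw [hcon] at this
    exact absurd this (notMem_empty _)
  have hzT : z ∉ T := fun h => G.loopless.irrefl z (hadj z h)
  have : insert z T ∈ clq G S (R + 1) := by
    rw [mem_clq]
    refine ⟨⟨insert_subset hz hT.1.1, ?_⟩, isCl_insert hT.2 hadj⟩
    rw [card_insert_of_notMem hzT, hT.1.2]
  rw [hfree] at this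
  exact absurd this (notMem_empty _)

lemma mem_un {R : ℕ} {B : Fin R → Finset V} {z : V} : z ∈ un B ↔ ∃ i, z ∈ B i := by
  simp [un]

lemma subset_un {R : ℕ} (B : Fin R → Finset V) (i : Fin R) : B i ⊆ un B :=
  fun _ hz => mem_un.2 ⟨i, hz⟩

lemma mem_im {R : ℕ} {f : Fin R → V} {z : V} : z ∈ im f ↔ ∃ i, f i = z := by
  simp [im]

lemma mem_tcl {R : ℕ} {B : Fin R → Finset V} {f : Fin R → V} :
    f ∈ tcl G B ↔ (∀ i, f i ∈ B i) ∧ ∀ i j, i ≠ j → G.Adj (f i) (f j) := by
  simp [tcl, Fintype.mem_piFinset]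

lemma tcl_injective {R : ℕ} {B : Fin R → Finset V} {f : Fin R → V} (hf : f ∈ tcl G B) :
    Function.Injective f := by
  intro i j hij
  by_contra hne
  have := (mem_tcl.1 hf).2 i j hne
  rw [hij] at this
  exact G.loopless.irrefl _ this

lemma im_card {R : ℕ} {B : Fin R → Finset V} {f : Fin R → V} (hf : f ∈ tcl G B) :
    (im f).card = R := by
  unfold im
  rw [card_image_of_injective _ (tcl_injective hf), card_univ, Fintype.card_fin]

lemma im_isCl {R : ℕ} {B : Fin R → Finset V} {f : Fin R → V} (hf : f ∈ tcl G B) :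
    IsCl G (im f) := by
  intro a ha b hb hab
  obtain ⟨i, rfl⟩ := mem_im.1 ha
  obtain ⟨j, rfl⟩ := mem_im.1 hb
  exact (mem_tcl.1 hf).2 i j (fun h => hab (by rw [h]))

lemma im_subset {R : ℕ} {B : Fin R → Finset V} {f : Fin R → V} (hf : f ∈ tcl G B) :
    im f ⊆ un B := by
  intro a ha
  obtain ⟨i, rfl⟩ := mem_im.1 ha
  exact mem_un.2 ⟨i, (mem_tcl.1 hf).1 i⟩

lemma im_mem_clq {R : ℕ} {S : Finset V} {B : Fin R → Finset V} (hB : ∀ i, B i ⊆ S)
    {f : Fin R → V} (hf : f ∈ tcl G B) : im f ∈ clq G S R := by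
  rw [mem_clq]
  refine ⟨⟨fun a ha => ?_, im_card hf⟩, im_isCl hf⟩
  obtain ⟨i, hi⟩ := mem_un.1 (im_subset hf ha)
  exact hB i hi

lemma na_nonneg (x y : V) : 0 ≤ na G x y := by
  unfold na; split_ifs <;> norm_num

lemma na_le_one (x y : V) : na G x y ≤ 1 := by
  unfold na; split_ifs <;> norm_num

lemma na_comm (x y : V) : na G x y = na G y x := by
  unfold na; simp only [G.adj_comm]

lemma sum_na (B : Finset V) (z : V) : ∑ y ∈ B, na G z y = ((hs G B z).card : ℝ) := by
  unfold na hs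
  rw [card_filter]
  push_cast
  refine sum_congr rfl fun y _ => ?_
  by_cases h : G.Adj z y <;> simp [h]

lemma DD_nonneg {R : ℕ} (f : Fin R → V) : 0 ≤ DD G f :=
  sum_nonneg fun _ _ => sum_nonneg fun _ _ => na_nonneg _ _

lemma mem_cn [Fintype V] {U : Finset V} {z : V} : z ∈ cn G U ↔ ∀ a ∈ U, G.Adj a z := by
  simp [cn]

end H57LC
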