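import Pool.Agent.H57.LC.Tup

/-!
Cliques with at least two heavy vertices (note 3541, 4e, H2).
-/

namespace H57LC

open Finset

set_option linter.unusedSectionVars false

variable {V : Type*} [DecidableEq V] {G : SimpleGraph V} [DecidableRel G.Adj]

/-- the restricted family: the vertex of `T'` in the hit parts, the common neighbours of `T'` in
the other ones -/
def rB {R : ℕ} (G : SimpleGraph V) [DecidableRel G.Adj] (B : Fin R → Finset V) (T' : Finset V)
    (i : Fin R) : Finset V :=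
  if (T' ∩ B i).Nonempty then T' ∩ B i else (B i).filter fun z => ∀ t ∈ T', G.Adj t z

lemma rB_subset {R : ℕ} (B : Fin R → Finset V) (T' : Finset V) (i : Fin R) :
    rB G B T' i ⊆ B i := by
  unfold rB
  split_ifs
  · exact inter_subset_right
  · exact filter_subset _ _

lemma rB_hit {R : ℕ} {B : Fin R → Finset V} {T' : Finset V} {i : Fin R}
    (h : (T' ∩ B i).Nonempty) : rB G B T' i = T' ∩ B i := by
  unfold rB; rw [if_pos h]

lemma rB_unhit {R : ℕ} {B : Fin R → Finset V} {T' : Finset V} {i : Fin R}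
    (h : ¬ (T' ∩ B i).Nonempty) :
    rB G B T' i = (B i).filter fun z => ∀ t ∈ T', G.Adj t z := by
  unfold rB; rw [if_neg h]

lemma rB_adj {R : ℕ} {B : Fin R → Finset V} (hdisj : ∀ i j, i ≠ j → Disjoint (B i) (B j))
    {T' : Finset V} (hcl : IsCl G T') {i j : Fin R} (hij : i ≠ j)
    (hi : (T' ∩ B i).Nonempty) {x y : V} (hx : x ∈ rB G B T' i) (hy : y ∈ rB G B T' j) :
    G.Adj x y := by
  have hxT : x ∈ T' ∩ B i := by rwa [rB_hit hi] at hx
  rw [mem_inter] at hxT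
  by_cases hj : (T' ∩ B j).Nonempty
  · have hyT : y ∈ T' ∩ B j := by rwa [rB_hit hj] at hy
    rw [mem_inter] at hyT
    refine hcl x hxT.1 y hyT.1 ?_
    rintro rfl
    exact (disjoint_left.1 (hdisj i j hij)) hxT.2 hyT.2
  · rw [rB_unhit hj, mem_filter] at hy
    exact hy.2 x hxT.1

lemma rB_card_hit {R : ℕ} {B : Fin R → Finset V} (hind : ∀ i, ∀ a ∈ B i, ∀ b ∈ B i, ¬ G.Adj a b)
    {T' : Finset V} (hcl : IsCl G T') {i : Fin R} (hi : (T' ∩ B i).Nonempty) :
    ((rB G B T' i).card : ℝ) = 1 := by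
  rw [rB_hit hi]
  have h1 := clique_inter_card hind hcl i
  have h2 := card_pos.2 hi
  have : (T' ∩ B i).card = 1 := by omega
  exact_mod_cast this

lemma rB_card_unhit {R m : ℕ} {S : Finset V} {C η₁ δ : ℝ} {B : Fin R → Finset V}
    (h : LS G S R m C η₁ δ B) (hR2 : (2 : ℝ) ≤ R) (hη₁ : 0 ≤ η₁) (hη₁R : 128 * R ^ 2 * η₁ ≤ 1)
    (hδ : δ ≤ 1 / 16) {T' : Finset V} (hT' : T' ⊆ un B) (hc : T'.card ≤ R) {i : Fin R}
    (hi : ¬ (T' ∩ B i).Nonempty) : 9 / 10 * (m : ℝ) ≤ ((rB G B T' i).card : ℝ) := by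
  have hm0 : (0 : ℝ) ≤ m := Nat.cast_nonneg m
  have hcardT : (T'.card : ℝ) ≤ R := by exact_mod_cast hc
  have hη2 : 2 * (R : ℝ) * η₁ ≤ 1 / 128 := by
    have a : 0 ≤ (R : ℝ) * η₁ := by positivity
    have b : 2 * ((R : ℝ) * η₁) ≤ R * (R * η₁) := mul_le_mul_of_nonneg_right hR2 a
    have c : 128 * (R : ℝ) ^ 2 * η₁ = 128 * (R * (R * η₁)) := by ring
    have d : 2 * (R : ℝ) * η₁ = 2 * (R * η₁) := by ring
    rw [c] at hη₁R
    rw [d]
    linarith
  rw [rB_unhit hi]
  have hsplit : B i ⊆ ((B i).filter fun z => ∀ t ∈ T', G.Adj t z) ∪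
      T'.biUnion fun t => hs G (B i) t := by
    intro z hz
    rw [mem_union, mem_filter, mem_biUnion]
    by_cases hall : ∀ t ∈ T', G.Adj t z
    · exact Or.inl ⟨hz, hall⟩
    · push Not at hall
      obtain ⟨t, ht, hn⟩ := hall
      exact Or.inr ⟨t, ht, mem_hs.2 ⟨hz, hn⟩⟩
  have h1 : (B i).card ≤ ((B i).filter fun z => ∀ t ∈ T', G.Adj t z).card +
      ∑ t ∈ T', (hs G (B i) t).card :=
    (card_le_card hsplit).trans ((card_union_le _ _).trans
      (Nat.add_le_add_left card_biUnion_le _))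
  have h1' : ((B i).card : ℝ) ≤ (((B i).filter fun z => ∀ t ∈ T', G.Adj t z).card : ℝ) +
      ∑ t ∈ T', ((hs G (B i) t).card : ℝ) := by exact_mod_cast h1
  have h2 : ∑ t ∈ T', ((hs G (B i) t).card : ℝ) ≤ T'.card * (2 * η₁ * m) := by
    rw [← nsmul_eq_mul]
    refine sum_le_card_nsmul _ _ _ fun t ht => ?_
    obtain ⟨j, hj⟩ := mem_un.1 (hT' ht)
    have hji : j ≠ i := by
      rintro rfl
      exact hi ⟨t, mem_inter.2 ⟨ht, hj⟩⟩
    exact h.row j i hji t hj
  have h3 : (T'.card : ℝ) * (2 * η₁ * m) ≤ R * (2 * η₁ * m) :=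
    mul_le_mul_of_nonneg_right hcardT (by positivity)
  have h4 := h.size_lo i
  have h5 : (R : ℝ) * (2 * η₁ * m) ≤ 1 / 128 * m := by
    have : (R : ℝ) * (2 * η₁ * m) = 2 * R * η₁ * m := by ring
    rw [this]
    exact mul_le_mul_of_nonneg_right hη2 hm0
  have h6 : 15 / 16 * (m : ℝ) ≤ (1 - δ) * m :=
    mul_le_mul_of_nonneg_right (by linarith) hm0
  linarith

lemma unhit_card {R : ℕ} {B : Fin R → Finset V} (hdisj : ∀ i j, i ≠ j → Disjoint (B i) (B j))
    {T' : Finset V} (hc : T'.card + 2 ≤ R) :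
    2 ≤ (univ.filter fun i : Fin R => ¬ (T' ∩ B i).Nonempty).card := by
  have h1 : (univ.filter fun i : Fin R => (T' ∩ B i).Nonempty).card ≤ T'.card := by
    calc (univ.filter fun i : Fin R => (T' ∩ B i).Nonempty).card
        = ∑ i ∈ univ.filter (fun i : Fin R => (T' ∩ B i).Nonempty), 1 := by
          rw [sum_const, smul_eq_mul, mul_one]
      _ ≤ ∑ i ∈ univ.filter (fun i : Fin R => (T' ∩ B i).Nonempty), (T' ∩ B i).card := by
          refine sum_le_sum fun i hi => ?_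
          exact card_pos.2 (mem_filter.1 hi).2
      _ = ((univ.filter (fun i : Fin R => (T' ∩ B i).Nonempty)).biUnion
            fun i => T' ∩ B i).card := by
          rw [card_biUnion]
          intro i _ j _ hij
          exact (hdisj i j hij).mono inter_subset_right inter_subset_right
      _ ≤ T'.card := by
          refine card_le_card ?_
          intro x hx
          obtain ⟨i, _, hx⟩ := mem_biUnion.1 hx
          exact (mem_inter.1 hx).1
  have h2 : (univ.filter fun i : Fin R => (T' ∩ B i).Nonempty).card +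
      (univ.filter fun i : Fin R => ¬ (T' ∩ B i).Nonempty).card = R := by
    have := card_filter_add_card_filter_not (s := (univ : Finset (Fin R)))
      (fun i : Fin R => (T' ∩ B i).Nonempty)
    rwa [card_univ, Fintype.card_fin] at this
  omega

lemma rB_prod {R m : ℕ} {B : Fin R → Finset V} {T' : Finset V} (hm : (2 : ℝ) ≤ m)
    (hU : 2 ≤ (univ.filter fun i : Fin R => ¬ (T' ∩ B i).Nonempty).card)
    (hhit : ∀ i, (T' ∩ B i).Nonempty → ((rB G B T' i).card : ℝ) = 1)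
    (hun : ∀ i, ¬ (T' ∩ B i).Nonempty → 9 / 10 * (m : ℝ) ≤ ((rB G B T' i).card : ℝ)) :
    81 / 100 * (m : ℝ) ^ 2 ≤ ∏ l, ((rB G B T' l).card : ℝ) := by
  rw [← prod_filter_mul_prod_filter_not univ (fun i : Fin R => (T' ∩ B i).Nonempty)]
  have h2 : ∏ l ∈ univ.filter (fun i : Fin R => (T' ∩ B i).Nonempty),
      ((rB G B T' l).card : ℝ) = 1 :=
    prod_eq_one fun i hi => hhit i (mem_filter.1 hi).2
  have h3 : (9 / 10 * (m : ℝ)) ^ (univ.filter fun i : Fin R => ¬ (T' ∩ B i).Nonempty).card ≤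
      ∏ l ∈ univ.filter (fun i : Fin R => ¬ (T' ∩ B i).Nonempty), ((rB G B T' l).card : ℝ) := by
    rw [← prod_const]
    exact prod_le_prod (fun _ _ => by positivity) fun i hi => hun i (mem_filter.1 hi).2
  have h4 : (9 / 10 * (m : ℝ)) ^ 2 ≤
      (9 / 10 * (m : ℝ)) ^ (univ.filter fun i : Fin R => ¬ (T' ∩ B i).Nonempty).card :=
    pow_le_pow_right₀ (by linarith) hU
  rw [h2, one_mul]
  have h5 : (9 / 10 * (m : ℝ)) ^ 2 = 81 / 100 * (m : ℝ) ^ 2 := by ring
  rw [h5] at h4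
  exact h4.trans h3

lemma rB_pair {R m : ℕ} {S : Finset V} {C η₁ δ : ℝ} {B : Fin R → Finset V}
    (h : LS G S R m C η₁ δ B) (hm : (2 : ℝ) ≤ m) (hη₁ : 0 ≤ η₁) {T' : Finset V}
    (hcl : IsCl G T') (hpos : ∀ i, (0 : ℝ) < ((rB G B T' i).card : ℝ))
    (hun : ∀ i, ¬ (T' ∩ B i).Nonempty → 9 / 10 * (m : ℝ) ≤ ((rB G B T' i).card : ℝ))
    {i j : Fin R} (hij : i ≠ j) :
    ∑ f ∈ Fintype.piFinset (rB G B T'), na G (f i) (f j) ≤
      20 / 9 * η₁ * ∏ l, ((rB G B T' l).card : ℝ) := by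
  have hP0 : 0 < ∏ l, ((rB G B T' l).card : ℝ) := prod_pos fun i _ => hpos i
  set P : ℝ := ∏ l, ((rB G B T' l).card : ℝ) with hP
  by_cases hi : (T' ∩ B i).Nonempty
  · have : ∑ f ∈ Fintype.piFinset (rB G B T'), na G (f i) (f j) = 0 := by
      refine sum_eq_zero fun f hf => ?_
      rw [Fintype.mem_piFinset] at hf
      unfold na
      rw [if_pos (rB_adj h.disj hcl hij hi (hf i) (hf j))]
    rw [this]; positivity
  by_cases hj : (T' ∩ B j).Nonempty
  · have : ∑ f ∈ Fintype.piFinset (rB G B T'), na G (f i) (f j) = 0 := by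
      refine sum_eq_zero fun f hf => ?_
      rw [Fintype.mem_piFinset] at hf
      unfold na
      rw [if_pos (rB_adj h.disj hcl hij.symm hj (hf j) (hf i)).symm]
    rw [this]; positivity
  have h1 := pair_sum (rB G B T') hij (na G)
  have h2 : ∑ y ∈ rB G B T' i, ∑ z ∈ rB G B T' j, na G y z ≤
      (rB G B T' i).card * (2 * η₁ * m) := by
    rw [← nsmul_eq_mul]
    refine sum_le_card_nsmul _ _ _ fun y hy => ?_
    calc ∑ z ∈ rB G B T' j, na G y z ≤ ∑ z ∈ B j, na G y z :=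
          sum_le_sum_of_subset_of_nonneg (rB_subset B T' j) fun _ _ _ => na_nonneg _ _
      _ = ((hs G (B j) y).card : ℝ) := sum_na _ _
      _ ≤ 2 * η₁ * m := h.row i j hij y (rB_subset B T' i hy)
  have hbi := hpos i
  have hbj' := hun j hj
  set Sg := ∑ f ∈ Fintype.piFinset (rB G B T'), na G (f i) (f j) with hSg
  have hSg0 : 0 ≤ Sg := sum_nonneg fun _ _ => na_nonneg _ _
  have h3 : ((rB G B T' i).card : ℝ) * ((rB G B T' j).card * Sg) ≤
      (rB G B T' i).card * (P * (2 * η₁ * m)) := by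
    calc ((rB G B T' i).card : ℝ) * ((rB G B T' j).card * Sg)
        = (rB G B T' i).card * (rB G B T' j).card * Sg := by ring
      _ = P * ∑ y ∈ rB G B T' i, ∑ z ∈ rB G B T' j, na G y z := h1
      _ ≤ P * ((rB G B T' i).card * (2 * η₁ * m)) := mul_le_mul_of_nonneg_left h2 hP0.le
      _ = _ := by ring
  have h4 : ((rB G B T' j).card : ℝ) * Sg ≤ P * (2 * η₁ * m) := le_of_mul_le_mul_left h3 hbi
  have h5 : 9 / 10 * (m : ℝ) * Sg ≤ P * (2 * η₁ * m) :=
    (mul_le_mul_of_nonneg_right hbj' hSg0).trans h4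
  have hm0 : (0 : ℝ) < m := by linarith
  have h6 : (m : ℝ) * (9 / 10 * Sg) ≤ m * (P * (2 * η₁)) := by
    have e1 : (m : ℝ) * (9 / 10 * Sg) = 9 / 10 * (m : ℝ) * Sg := by ring
    have e2 : (m : ℝ) * (P * (2 * η₁)) = P * (2 * η₁ * m) := by ring
    rw [e1, e2]; exact h5
  have h7 := le_of_mul_le_mul_left h6 hm0
  have e3 : 20 / 9 * η₁ * P = 10 / 9 * (P * (2 * η₁)) := by ring
  rw [e3]
  linarith

lemma sum_DD_le {R : ℕ} (B : Fin R → Finset V) {c : ℝ} (hc : 0 ≤ c)
    (hp : ∀ i j : Fin R, i ≠ j → ∑ f ∈ Fintype.piFinset B, na G (f i) (f j) ≤ c) :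
    ∑ f ∈ Fintype.piFinset B, DD G f ≤ R ^ 2 * c := by
  have h1 : ∑ f ∈ Fintype.piFinset B, DD G f =
      ∑ i, ∑ j ∈ univ.erase i, ∑ f ∈ Fintype.piFinset B, na G (f i) (f j) := by
    unfold DD
    rw [sum_comm]
    refine sum_congr rfl fun i _ => ?_
    rw [sum_comm]
  rw [h1]
  calc ∑ i, ∑ j ∈ univ.erase i, ∑ f ∈ Fintype.piFinset B, na G (f i) (f j)
      ≤ ∑ i : Fin R, (R : ℝ) * c := by
        refine sum_le_sum fun i _ => ?_
        calc ∑ j ∈ univ.erase i, ∑ f ∈ Fintype.piFinset B, na G (f i) (f j)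
            ≤ ((univ.erase i).card : ℝ) * c := by
              rw [← nsmul_eq_mul]
              exact sum_le_card_nsmul _ _ _ fun j hj => hp i j (ne_of_mem_erase hj).symm
          _ ≤ (R : ℝ) * c := by
              refine mul_le_mul_of_nonneg_right ?_ hc
              have : (univ.erase i).card ≤ R := by
                have := card_le_card (erase_subset i univ)
                rwa [card_univ, Fintype.card_fin] at this
              exact_mod_cast this
    _ = R ^ 2 * c := by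
        rw [sum_const, card_univ, Fintype.card_fin, nsmul_eq_mul]; ring

/-- many clique transversals contain a given light clique `T'` -/
theorem ext_count {R m : ℕ} {S : Finset V} {C η₁ δ : ℝ} {B : Fin R → Finset V}
    (h : LS G S R m C η₁ δ B) (hm : 2 ≤ m) (hη₁ : 0 ≤ η₁) (hη₁R : 128 * R ^ 2 * η₁ ≤ 1)
    (hδ : δ ≤ 1 / 16) {T' : Finset V} (hT' : T' ⊆ un B) (hcl : IsCl G T') (hc : T'.card + 2 ≤ R) :
    (m : ℝ) ^ 2 / 8 ≤ (((tcl G B).filter fun f => T' ⊆ im f).card : ℝ) := by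
  have hmR : (2 : ℝ) ≤ m := by exact_mod_cast hm
  have hR2 : (2 : ℝ) ≤ R := by
    have : 2 ≤ R := by omega
    exact_mod_cast this
  have hsub : tcl G (rB G B T') ⊆ (tcl G B).filter fun f => T' ⊆ im f := by
    intro f hf
    rw [mem_tcl] at hf
    rw [mem_filter, mem_tcl]
    refine ⟨⟨fun i => rB_subset B T' i (hf.1 i), hf.2⟩, ?_⟩
    intro t ht
    obtain ⟨i, hi⟩ := mem_un.1 (hT' ht)
    have hne : (T' ∩ B i).Nonempty := ⟨t, mem_inter.2 ⟨ht, hi⟩⟩
    have hfi := hf.1 i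
    rw [rB_hit hne] at hfi
    have hc1 := clique_inter_card h.ind hcl i
    have := card_le_one.1 hc1 _ hfi _ (mem_inter.2 ⟨ht, hi⟩)
    exact mem_im.2 ⟨i, this⟩
  have hcard : ((tcl G (rB G B T')).card : ℝ) ≤
      (((tcl G B).filter fun f => T' ⊆ im f).card : ℝ) := by
    exact_mod_cast card_le_card hsub
  have hhit : ∀ i, (T' ∩ B i).Nonempty → ((rB G B T' i).card : ℝ) = 1 := fun i hi =>
    rB_card_hit h.ind hcl hi
  have hun : ∀ i, ¬ (T' ∩ B i).Nonempty → 9 / 10 * (m : ℝ) ≤ ((rB G B T' i).card : ℝ) :=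
    fun i hi => rB_card_unhit h hR2 hη₁ hη₁R hδ hT' (by omega) hi
  have hpos : ∀ i, (0 : ℝ) < ((rB G B T' i).card : ℝ) := by
    intro i
    by_cases hi : (T' ∩ B i).Nonempty
    · rw [hhit i hi]; norm_num
    · have := hun i hi
      linarith
  have hPge := rB_prod hmR (unhit_card h.disj hc) hhit hun
  have hP0 : 0 < ∏ l, ((rB G B T' l).card : ℝ) := prod_pos fun i _ => hpos i
  have hge := card_tcl_ge (G := G) (rB G B T')
  have hpair : ∀ i j : Fin R, i ≠ j →
      ∑ f ∈ Fintype.piFinset (rB G B T'), na G (f i) (f j) ≤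
        20 / 9 * η₁ * ∏ l, ((rB G B T' l).card : ℝ) := fun i j hij =>
    rB_pair h hmR hη₁ hcl hpos hun hij
  have hDD := sum_DD_le (rB G B T') (by positivity) hpair
  generalize (∏ l, ((rB G B T' l).card : ℝ)) = P at *
  have e1 : (R : ℝ) ^ 2 * (20 / 9 * η₁ * P) = 20 / 9 / 128 * ((128 * R ^ 2 * η₁) * P) := by ring
  rw [e1] at hDD
  have h1 : (128 * (R : ℝ) ^ 2 * η₁) * P ≤ 1 * P := mul_le_mul_of_nonneg_right hη₁R hP0.le
  have hm2 : 0 ≤ (m : ℝ) ^ 2 := sq_nonneg _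
  linarith

lemma cost_nonneg {R : ℕ} (f : Fin R → V) (z : V) :
    (0 : ℝ) ≤ (if (hs G (im f) z).card = 1 then (1 : ℝ) else
      if (hs G (im f) z).card = 2 then 1 / 2 else 0) := by
  split_ifs <;> norm_num

lemma XX_nonneg' {R : ℕ} {S : Finset V} {B : Fin R → Finset V} {ζ : ℝ} (hζ : 0 < ζ)
    {ν : Finset V → ℝ} (hν : ∀ T, 0 ≤ ν T ∧ ν T ≤ 1) (f : Fin R → V) : 0 ≤ XX G S B ζ ν f := by
  unfold XX
  have h1 : 0 ≤ ∑ z ∈ S \ un B, (if (hs G (im f) z).card = 1 then (1 : ℝ) else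
      if (hs G (im f) z).card = 2 then 1 / 2 else 0) := sum_nonneg fun z _ => cost_nonneg f z
  have h2 : 0 ≤ ζ * ν (im f) := mul_nonneg hζ.le (hν _).1
  linarith

/-- the cost is at least `ζ` at every clique transversal containing the light part of a clique
with at least two heavy vertices -/
theorem XX_ge {R : ℕ} {S : Finset V} {B : Fin R → Finset V} (hB : ∀ i, B i ⊆ S)
    (hfree : clq G S (R + 1) = ∅) {ζ : ℝ} (hζ : 0 < ζ) (hζ1 : ζ ≤ 1 / 4) {ν : Finset V → ℝ}
    (hν : Rule G S R ν) {T : Finset V} (hT : T ∈ clq G S R) (h2 : 2 ≤ (T \ un B).card)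
    {f : Fin R → V} (hf : f ∈ tcl G B) (hTf : T ∩ un B ⊆ im f) :
    ζ ≤ XX G S B ζ ν f := by
  classical
  have himc : im f ∈ clq G S R := im_mem_clq hB hf
  obtain ⟨⟨hTS, hTc⟩, hTcl⟩ := mem_clq.1 hT
  have hsub : ∀ z ∈ T \ un B, hs G (im f) z ⊆ im f \ (T ∩ un B) := by
    intro z hz t ht
    rw [mem_hs] at ht
    rw [mem_sdiff]
    refine ⟨ht.1, fun htT => ?_⟩
    rw [mem_sdiff] at hz
    rw [mem_inter] at htT
    refine ht.2 (hTcl z hz.1 t htT.1 ?_)
    rintro rfl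
    exact hz.2 htT.2
  have hne : ∀ z ∈ T \ un B, (hs G (im f) z).Nonempty := fun z hz =>
    hs_nonempty hfree himc (hTS (mem_sdiff.1 hz).1)
  have hsum : 0 ≤ ∑ z ∈ S \ un B, (if (hs G (im f) z).card = 1 then (1 : ℝ) else
      if (hs G (im f) z).card = 2 then 1 / 2 else 0) := sum_nonneg fun z _ => cost_nonneg f z
  have hν0 : 0 ≤ ζ * ν (im f) := mul_nonneg hζ.le (hν.1 _).1
  by_cases hone : ∃ z ∈ T \ un B, (hs G (im f) z).card = 1
  · obtain ⟨z, hz, hz1⟩ := hone
    have hzS : z ∈ S \ un B := by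
      rw [mem_sdiff] at hz ⊢
      exact ⟨hTS hz.1, hz.2⟩
    have h1 : (1 : ℝ) ≤ ∑ z ∈ S \ un B, (if (hs G (im f) z).card = 1 then (1 : ℝ) else
        if (hs G (im f) z).card = 2 then 1 / 2 else 0) := by
      have := single_le_sum (f := fun z => (if (hs G (im f) z).card = 1 then (1 : ℝ) else
        if (hs G (im f) z).card = 2 then 1 / 2 else 0)) (fun z _ => cost_nonneg f z) hzS
      simpa [hz1] using this
    unfold XX
    linarith
  · push Not at hone
    have hcardS' : (im f \ (T ∩ un B)).card = (T \ un B).card := by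
      rw [card_sdiff_of_subset hTf, im_card hf]
      have := card_inter_add_card_sdiff T (un B)
      omega
    have hν1 : ν (im f) = 1 := by
      refine hν.2 (im f) himc (im f \ (T ∩ un B)) sdiff_subset ?_ ?_
      · rw [← card_pos, hcardS']; omega
      · rw [hcardS']
        refine card_le_card ?_
        intro z hz
        rw [mem_filter]
        refine ⟨hTS (mem_sdiff.1 hz).1, ?_, hsub z hz⟩
        have h1 := card_pos.2 (hne z hz)
        have h3 := hone z hz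
        omega
    unfold XX
    rw [hν1]
    linarith

theorem card_H2 {R m : ℕ} {S : Finset V} {C η₁ δ : ℝ} {B : Fin R → Finset V}
    (h : LS G S R m C η₁ δ B) (hfree : clq G S (R + 1) = ∅) (hm : 2 ≤ m) (hη₁ : 0 ≤ η₁)
    (hη₁R : 128 * R ^ 2 * η₁ ≤ 1) (hδ : δ ≤ 1 / 16) {ζ : ℝ} (hζ : 0 < ζ) (hζ1 : ζ ≤ 1 / 4)
    {ν : Finset V → ℝ} (hν : Rule G S R ν) :
    (((clq G S R).filter fun T => 2 ≤ (T \ un B).card).card : ℝ) * ((m : ℝ) ^ 2 / 8) * ζ ≤
      2 ^ ((S \ un B).card + R) * ∑ f ∈ tcl G B, XX G S B ζ ν f := by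
  classical
  set H := (clq G S R).filter fun T => 2 ≤ (T \ un B).card with hH
  have hlow : (H.card : ℝ) * ((m : ℝ) ^ 2 / 8) * ζ ≤
      ∑ T ∈ H, ∑ f ∈ (tcl G B).filter (fun f => T ∩ un B ⊆ im f), XX G S B ζ ν f := by
    have h0 : (H.card : ℝ) * ((m : ℝ) ^ 2 / 8) * ζ = H.card • ((m : ℝ) ^ 2 / 8 * ζ) := by
      rw [nsmul_eq_mul]; ring
    rw [h0]
    refine card_nsmul_le_sum _ _ _ fun T hT => ?_
    rw [hH, mem_filter] at hT
    obtain ⟨hTc, hT2⟩ := hT
    obtain ⟨⟨hTS, hTcard⟩, hTcl⟩ := mem_clq.1 hTc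
    have hcardT : (T ∩ un B).card + 2 ≤ R := by
      have := card_inter_add_card_sdiff T (un B)
      omega
    have hext := ext_count h hm hη₁ hη₁R hδ (T' := T ∩ un B) inter_subset_right
      (hTcl.subset inter_subset_left) hcardT
    calc (m : ℝ) ^ 2 / 8 * ζ
        ≤ (((tcl G B).filter fun f => T ∩ un B ⊆ im f).card : ℝ) * ζ :=
          mul_le_mul_of_nonneg_right hext hζ.le
      _ ≤ ∑ f ∈ (tcl G B).filter (fun f => T ∩ un B ⊆ im f), XX G S B ζ ν f := by
          rw [← nsmul_eq_mul]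
          refine card_nsmul_le_sum _ _ _ fun f hf => ?_
          rw [mem_filter] at hf
          exact XX_ge h.sub hfree hζ hζ1 hν hTc hT2 hf.1 hf.2
  refine hlow.trans ?_
  have hswap : ∑ T ∈ H, ∑ f ∈ (tcl G B).filter (fun f => T ∩ un B ⊆ im f), XX G S B ζ ν f =
      ∑ f ∈ tcl G B, ∑ T ∈ H.filter (fun T => T ∩ un B ⊆ im f), XX G S B ζ ν f := by
    simp_rw [sum_filter]
    rw [sum_comm]
  rw [hswap, mul_sum]
  refine sum_le_sum fun f hf => ?_
  rw [sum_const, nsmul_eq_mul]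
  refine mul_le_mul_of_nonneg_right ?_ (XX_nonneg' hζ hν.1 f)
  have hcount : (H.filter fun T => T ∩ un B ⊆ im f).card ≤
      ((S \ un B).powerset ×ˢ (im f).powerset).card := by
    refine card_le_card_of_injOn (fun T => (T \ un B, T ∩ un B)) ?_ ?_
    · intro T hT
      rw [mem_coe, mem_filter, hH, mem_filter] at hT
      obtain ⟨⟨hTc, _⟩, hTf⟩ := hT
      rw [mem_coe, mem_product, mem_powerset, mem_powerset]
      exact ⟨sdiff_subset_sdiff (mem_clq.1 hTc).1.1 (subset_refl _), hTf⟩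
    · intro T _ T' _ heq
      simp only [Prod.mk.injEq] at heq
      rw [← sdiff_union_inter T (un B), ← sdiff_union_inter T' (un B), heq.1, heq.2]
  rw [card_product, card_powerset, card_powerset, im_card hf, ← pow_add] at hcount
  exact_mod_cast hcount

end H57LC
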