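import Pool.Agent.H57.LC.Heavy1
import Pool.Agent.H57.LC.Heavy2

/-!
The sum of the weights of the heavy cliques (note 3541, 4e), assembly.
-/

namespace H57LC

open Finset

set_option linter.unusedSectionVars false

/-- `(1 + d)^R ≤ 1 + 2 R d` for small `R d` -/
lemma one_add_pow_le (R : ℕ) {d : ℝ} (hd : 0 ≤ d) (hRd : (R : ℝ) * d ≤ 1 / 2) (hd1 : d ≤ 1) :
    (1 + d) ^ R ≤ 1 + 2 * (R * d) := by
  have h1 : 1 - (R : ℝ) * d ≤ (1 - d) ^ R := by
    have := one_add_mul_le_pow (a := -d) (by linarith) R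
    have h2 : 1 + (R : ℝ) * -d = 1 - R * d := by ring
    rw [h2] at this
    have h3 : (1 + -d) = 1 - d := by ring
    rwa [h3] at this
  have h2 : (1 + d) ^ R * (1 - d) ^ R ≤ 1 := by
    rw [← mul_pow]
    refine pow_le_one₀ ?_ ?_
    · nlinarith
    · nlinarith
  have h3 : (1 + d) ^ R * (1 - R * d) ≤ 1 := by
    refine le_trans (mul_le_mul_of_nonneg_left h1 (by positivity)) h2
  set x := (R : ℝ) * d with hx
  have hx0 : 0 ≤ x := by positivity
  have h4 : 1 ≤ (1 + 2 * x) * (1 - x) := by nlinarith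
  have h5 : 0 < 1 - x := by linarith
  exact le_of_mul_le_mul_right (le_trans h3 h4) h5

/-- the sum of the costs dominates the counts `n1`, `n2` -/
lemma sum_XX_ge {V : Type*} [DecidableEq V] {G : SimpleGraph V} [DecidableRel G.Adj] {R m : ℕ}
    {S : Finset V} {B : Fin R → Finset V} {θ ζ : ℝ} (hζ : 0 < ζ) {ν : Finset V → ℝ}
    (hν : Rule G S R ν) :
    ∑ z ∈ S \ un B, ((n1 G B m θ z : ℝ) + (1 / 2) * n2 G B z) ≤ ∑ f ∈ tcl G B, XX G S B ζ ν f := by
  classical
  have h1 : ∑ f ∈ tcl G B, ∑ z ∈ S \ un B, (if (hs G (im f) z).card = 1 then (1 : ℝ) else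
      if (hs G (im f) z).card = 2 then 1 / 2 else 0) ≤ ∑ f ∈ tcl G B, XX G S B ζ ν f := by
    refine sum_le_sum fun f _ => ?_
    unfold XX
    have := (hν.1 (im f)).1
    have h2 : 0 ≤ ζ * ν (im f) := by positivity
    linarith
  refine le_trans ?_ h1
  rw [sum_comm]
  refine sum_le_sum fun z _ => ?_
  have h2 : ∀ f ∈ tcl G B, (if (∀ i, f i ∉ big G B m θ) ∧ (hs G (im f) z).card = 1 then (1 : ℝ) else 0)
      + (1 / 2) * (if (hs G (im f) z).card = 2 then (1 : ℝ) else 0) ≤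
      (if (hs G (im f) z).card = 1 then (1 : ℝ) else
        if (hs G (im f) z).card = 2 then 1 / 2 else 0) := by
    intro f _
    by_cases ha : (hs G (im f) z).card = 1
    · have hb : ¬ (hs G (im f) z).card = 2 := by omega
      rw [if_pos ha, if_neg hb]
      split_ifs <;> norm_num
    · rw [if_neg ha, if_neg (fun h => ha h.2)]
      split_ifs <;> norm_num
  refine le_trans (le_of_eq ?_) (sum_le_sum h2)
  rw [sum_add_distrib, ← mul_sum]
  unfold n1 n2
  rw [card_filter, card_filter]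
  push_cast
  rfl

theorem heavy_sum (R r : ℕ) (hR : 2 ≤ R) (C η ζ η₁ δ : ℝ) (hC : 0 < C) (hη : 0 < η)
    (hη2 : η ≤ 1 / 2) (hζ : 0 < ζ) (hζ1 : ζ ≤ 1 / 4) (hη₁ : 0 < η₁)
    (hη₁R : 128 * R ^ 2 * η₁ ≤ 1) (hδ0 : 0 < δ) (hδ : 16000 * R * δ ≤ η₁) :
    ∃ m₀ : ℕ, ∀ m : ℕ, m₀ ≤ m →
      ∀ (V : Type) [DecidableEq V] (G : SimpleGraph V) [DecidableRel G.Adj] (S : Finset V)
        (B : Fin R → Finset V) (ν : Finset V → ℝ), S.card ≤ R * m + r →
        clq G S (R + 1) = ∅ → LS G S R m C η₁ δ B → Rule G S R ν →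
        (1 + η₁ / 100) / (m : ℝ) ^ R *
            (((clq G S R).filter fun T => ¬ T ⊆ un B).card : ℝ) ≤
          (η / 4) * (∑ f ∈ Fintype.piFinset B, DD G f) / (∏ l, ((B l).card : ℝ)) +
            (1 - η₁ / 1000) * (∑ f ∈ tcl G B, XX G S B ζ ν f) / (m * ∏ l, ((B l).card : ℝ)) := by
  have hRr : (2 : ℝ) ≤ R := by exact_mod_cast hR
  have hR0 : (0 : ℝ) < R := by linarith
  have hη₁s : η₁ ≤ 1 / 512 := by nlinarith [mul_nonneg (sub_nonneg.2 hRr) hη₁.le, sq_nonneg ((R : ℝ) - 2)]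
  have hRδ : (R : ℝ) * δ ≤ η₁ / 16000 := by linarith
  have hδs : δ ≤ η₁ / 32000 := by nlinarith
  have hδ1 : δ ≤ 1 / 16 := by linarith
  have hδ2 : δ ≤ 1 / 2 := by linarith
  set θ : ℝ := η₁ / (1000 * R) with hθdef
  have hθ : 0 < θ := by positivity
  have hRθ : (R : ℝ) * θ = η₁ / 1000 := by rw [hθdef]; field_simp
  obtain ⟨m1, h1⟩ := t1_le R hR C η₁ δ θ hC hη₁ hθ (by rw [hRθ]; linarith)
  obtain ⟨m2, h2⟩ := n1_le R hR C η₁ δ θ hC hη₁ hθ hδ0.le hδ1 (by
    have : 8 * (R : ℝ) * θ = 8 * (η₁ / 1000) := by rw [mul_assoc, hRθ]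
    rw [this]; linarith)
  set K : ℝ := 2 ^ (⌊C⌋₊ + R) with hK
  have hK0 : 0 < K := by positivity
  set q0 : ℝ := 8 * C * ((R : ℝ) + r) ^ (R - 2) * 2 ^ (R - 2) / (η * θ) with hq0
  set q2 : ℝ := 16000 * K / (ζ * η₁) with hq2
  refine ⟨max (max m1 m2) (max 2 (max ⌈q0⌉₊ ⌈q2⌉₊)), ?_⟩
  intro m hm V _ G _ S B ν hS hfree hLS hν
  classical
  have hm1 : m1 ≤ m := le_trans (le_trans (le_max_left _ _) (le_max_left _ _)) hm
  have hm2 : m2 ≤ m := le_trans (le_trans (le_max_right _ _) (le_max_left _ _)) hm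
  have hm3 : 2 ≤ m := le_trans (le_trans (le_max_left _ _) (le_max_right _ _)) hm
  have hm4 : q0 ≤ m := by
    refine le_trans (Nat.le_ceil _) ?_
    exact_mod_cast le_trans (le_trans (le_max_left _ _)
      (le_trans (le_max_right _ _) (le_max_right _ _))) hm
  have hm5 : q2 ≤ m := by
    refine le_trans (Nat.le_ceil _) ?_
    exact_mod_cast le_trans (le_trans (le_max_right _ _)
      (le_trans (le_max_right _ _) (le_max_right _ _))) hm
  have hmR : (2 : ℝ) ≤ m := by exact_mod_cast hm3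
  have hm0 : (0 : ℝ) < m := by linarith
  -- the product of the sizes
  set P : ℝ := ∏ l, ((B l).card : ℝ) with hP
  have hP0 : 0 < P := by
    refine prod_pos fun l _ => ?_
    have := hLS.size_lo l
    have h3 : 0 < (1 - δ) * m := by
      have : 0 < 1 - δ := by linarith
      positivity
    linarith
  have hP1 : P ≤ (1 + 2 * (R * δ)) * (m : ℝ) ^ R := by
    have h3 : P ≤ ∏ _l : Fin R, ((1 + δ) * m) :=
      prod_le_prod (fun l _ => Nat.cast_nonneg _) fun l _ => hLS.size_hi l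
    rw [prod_const, card_univ, Fintype.card_fin, mul_pow] at h3
    refine le_trans h3 (mul_le_mul_of_nonneg_right ?_ (by positivity))
    exact one_add_pow_le R hδ0.le (by linarith) (by linarith)
  -- the classes
  set DS : ℝ := ∑ f ∈ Fintype.piFinset B, DD G f with hDS
  set XS : ℝ := ∑ f ∈ tcl G B, XX G S B ζ ν f with hXS
  have hDS0 : 0 ≤ DS := sum_nonneg fun f _ => DD_nonneg f
  have hXX0 := sum_XX_ge (G := G) (m := m) (S := S) (B := B) (θ := θ) hζ hν
  rw [← hXS] at hXX0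
  have hXS0 : 0 ≤ XS := le_trans (sum_nonneg fun z _ => by positivity) hXX0
  set F0 := (clq G S R).filter (fun T => ¬ T ⊆ un B ∧ ¬ Disjoint T (big G B m θ)) with hF0
  set F2 := (clq G S R).filter (fun T => 2 ≤ (T \ un B).card) with hF2
  set F1 := (S \ un B).biUnion (fun z => (clq G S R).filter
    fun T => z ∈ T ∧ T.erase z ⊆ un B \ big G B m θ) with hF1
  have hcov : (clq G S R).filter (fun T => ¬ T ⊆ un B) ⊆ F0 ∪ (F1 ∪ F2) := by
    intro T hT
    rw [mem_filter] at hT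
    obtain ⟨hTc, hTu⟩ := hT
    by_cases hd : Disjoint T (big G B m θ)
    · by_cases h3 : 2 ≤ (T \ un B).card
      · exact mem_union_right _ (mem_union_right _ (mem_filter.2 ⟨hTc, h3⟩))
      · obtain ⟨z, hzT, hzu⟩ := not_subset.1 hTu
        have hz1 : z ∈ T \ un B := mem_sdiff.2 ⟨hzT, hzu⟩
        have h4 : (T \ un B).card = 1 := by
          have := card_pos.2 ⟨z, hz1⟩
          omega
        obtain ⟨y, hy⟩ := card_eq_one.1 h4
        have hyz : y = z := by
          rw [hy, mem_singleton] at hz1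
          exact hz1.symm
        subst hyz
        refine mem_union_right _ (mem_union_left _ (mem_biUnion.2 ⟨y, ?_, ?_⟩))
        · exact mem_sdiff.2 ⟨(mem_clq.1 hTc).1.1 hzT, hzu⟩
        · refine mem_filter.2 ⟨hTc, hzT, ?_⟩
          intro x hx
          rw [mem_erase] at hx
          rw [mem_sdiff]
          constructor
          · by_contra hxu
            have : x ∈ T \ un B := mem_sdiff.2 ⟨hx.2, hxu⟩
            rw [hy, mem_singleton] at this
            exact hx.1 this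
          · intro hxb
            exact (disjoint_left.1 hd) hx.2 hxb
    · exact mem_union_left _ (mem_filter.2 ⟨hTc, hTu, hd⟩)
  have hcard : (((clq G S R).filter fun T => ¬ T ⊆ un B).card : ℝ) ≤
      (F0.card : ℝ) + ((F1.card : ℝ) + F2.card) := by
    have h3 := card_le_card hcov
    have h4 := card_union_le F0 (F1 ∪ F2)
    have h5 := card_union_le F1 F2
    exact_mod_cast le_trans h3 (le_trans h4 (Nat.add_le_add_left h5 _))
  set κ : ℝ := (1 + η₁ / 100) * (1 + 2 * (R * δ)) with hκ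
  have hκ0 : 0 < κ := by positivity
  have hκ1 : κ ≤ 1 + η₁ / 50 := by
    rw [hκ]
    nlinarith
  have hκ2 : κ ≤ 2 := by linarith
  have hX := hLS.hX
  have hC0 : 0 ≤ C := hC.le
  -- H0
  have hH0 : κ * (F0.card : ℝ) ≤ (η / 4) * DS := by
    have h3 : (F0.card : ℝ) ≤ ((S \ un B).card : ℝ) * (big G B m θ).card * (S.card : ℝ) ^ (R - 2) := by
      have := card_H0 (G := G) hR S B hLS.sub m θ
      rw [hF0]
      exact_mod_cast this
    have h4 := sum_DD_ge hLS hR hδ2 hθ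
    rw [← hDS] at h4
    have h5 : (S.card : ℝ) ≤ ((R : ℝ) + r) * m := by
      have h6 : (S.card : ℝ) ≤ R * m + r := by exact_mod_cast hS
      have h7 : (r : ℝ) ≤ r * m := by
        have : (0 : ℝ) ≤ r := Nat.cast_nonneg _
        nlinarith
      linarith
    have h6 : (S.card : ℝ) ^ (R - 2) ≤ ((R : ℝ) + r) ^ (R - 2) * (m : ℝ) ^ (R - 2) := by
      rw [← mul_pow]
      exact pow_le_pow_left₀ (Nat.cast_nonneg _) h5 _
    set β : ℝ := ((big G B m θ).card : ℝ) with hβ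
    have hβ0 : 0 ≤ β := Nat.cast_nonneg _
    have h7 : (F0.card : ℝ) ≤ C * β * (((R : ℝ) + r) ^ (R - 2) * (m : ℝ) ^ (R - 2)) := by
      refine le_trans h3 ?_
      refine mul_le_mul (mul_le_mul_of_nonneg_right hX hβ0) h6 (by positivity) (by positivity)
    have h8 : 8 * C * ((R : ℝ) + r) ^ (R - 2) * 2 ^ (R - 2) ≤ m * (η * θ) := by
      have := (div_le_iff₀ (by positivity : (0 : ℝ) < η * θ)).1 hm4
      exact this
    have h9 : β * (θ * m) * ((m : ℝ) / 2) ^ (R - 2) * 2 ^ (R - 2) = β * (θ * m) * (m : ℝ) ^ (R - 2) := by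
      rw [mul_assoc, ← mul_pow]
      congr 2
      ring
    have h10 : (0 : ℝ) < 2 ^ (R - 2) := by positivity
    -- multiply by 2^(R-2)
    have h11 : κ * (F0.card : ℝ) * 2 ^ (R - 2) ≤ (η / 4) * DS * 2 ^ (R - 2) := by
      calc κ * (F0.card : ℝ) * 2 ^ (R - 2)
          ≤ 2 * (C * β * (((R : ℝ) + r) ^ (R - 2) * (m : ℝ) ^ (R - 2))) * 2 ^ (R - 2) := by
            refine mul_le_mul_of_nonneg_right ?_ h10.le
            exact mul_le_mul hκ2 h7 (Nat.cast_nonneg _) (by norm_num)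
        _ = (β * (m : ℝ) ^ (R - 2) / 4) * (8 * C * ((R : ℝ) + r) ^ (R - 2) * 2 ^ (R - 2)) := by ring
        _ ≤ (β * (m : ℝ) ^ (R - 2) / 4) * (m * (η * θ)) := by
            refine mul_le_mul_of_nonneg_left h8 (by positivity)
        _ = (η / 4) * (β * (θ * m) * (m : ℝ) ^ (R - 2)) := by ring
        _ = (η / 4) * (β * (θ * m) * ((m : ℝ) / 2) ^ (R - 2)) * 2 ^ (R - 2) := by rw [← h9]; ring
        _ ≤ (η / 4) * DS * 2 ^ (R - 2) := by
            refine mul_le_mul_of_nonneg_right ?_ h10.le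
            exact mul_le_mul_of_nonneg_left h4 (by positivity)
    exact le_of_mul_le_mul_right h11 h10
  -- H2
  have hH2 : κ * (F2.card : ℝ) ≤ (η₁ / 1000) * (XS / m) := by
    have h3 := card_H2 hLS hfree hm3 hη₁.le hη₁R hδ1 hζ hζ1 hν
    rw [← hXS, ← hF2] at h3
    have h4 : (2 : ℝ) ^ ((S \ un B).card + R) ≤ K := by
      rw [hK]
      refine pow_le_pow_right₀ (by norm_num) ?_
      have : (S \ un B).card ≤ ⌊C⌋₊ := Nat.le_floor hX
      omega
    have h5 : (F2.card : ℝ) * ((m : ℝ) ^ 2 / 8) * ζ ≤ K * XS :=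
      le_trans h3 (mul_le_mul_of_nonneg_right h4 hXS0)
    have h6 : 16000 * K ≤ m * (ζ * η₁) := (div_le_iff₀ (by positivity)).1 hm5
    have h7 : κ * (F2.card : ℝ) * ((m : ℝ) ^ 2 / 8 * ζ) ≤
        (η₁ / 1000) * (XS / m) * ((m : ℝ) ^ 2 / 8 * ζ) := by
      calc κ * (F2.card : ℝ) * ((m : ℝ) ^ 2 / 8 * ζ)
          = κ * ((F2.card : ℝ) * ((m : ℝ) ^ 2 / 8) * ζ) := by ring
        _ ≤ 2 * (K * XS) := by
            exact mul_le_mul hκ2 h5 (by positivity) (by norm_num)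
        _ = (XS / 8000) * (16000 * K) := by ring
        _ ≤ (XS / 8000) * (m * (ζ * η₁)) := mul_le_mul_of_nonneg_left h6 (by positivity)
        _ = (η₁ / 1000) * (XS / m) * ((m : ℝ) ^ 2 / 8 * ζ) := by
            field_simp
            ring
    exact le_of_mul_le_mul_right h7 (by positivity)
  -- H1
  have hH1 : κ * (F1.card : ℝ) ≤ (1 - η₁ / 500) * (XS / m) := by
    have h3 : (F1.card : ℝ) ≤ ∑ z ∈ S \ un B, (t1 G S B m θ z : ℝ) := by
      have := card_biUnion_le (s := S \ un B) (t := fun z => (clq G S R).filter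
        fun T => z ∈ T ∧ T.erase z ⊆ un B \ big G B m θ)
      rw [hF1]
      unfold t1
      exact_mod_cast this
    have h4 : ∀ z ∈ S \ un B, (1 - η₁ / 500) * m * (t1 G S B m θ z : ℝ) ≤ (n1 G B m θ z : ℝ) := by
      intro z hz
      have := h1 m hm1 V G S B hfree hLS z hz
      have h5 : 1 - 2 * (R : ℝ) * θ = 1 - η₁ / 500 := by
        rw [mul_assoc, hRθ]; ring
      rwa [h5] at this
    have h5 : ∀ z ∈ S \ un B, η₁ / 9 * (n1 G B m θ z : ℝ) ≤ (n2 G B z : ℝ) := fun z hz =>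
      h2 m hm2 V G S B hfree hLS z hz
    set N1 : ℝ := ∑ z ∈ S \ un B, (n1 G B m θ z : ℝ) with hN1
    have hN10 : 0 ≤ N1 := sum_nonneg fun _ _ => Nat.cast_nonneg _
    have h6 : (1 + η₁ / 18) * N1 ≤ XS := by
      refine le_trans ?_ hXX0
      rw [hN1, mul_sum]
      refine sum_le_sum fun z hz => ?_
      have := h5 z hz
      linarith
    have h7 : (1 - η₁ / 500) * m * ∑ z ∈ S \ un B, (t1 G S B m θ z : ℝ) ≤ N1 := by
      rw [hN1, mul_sum]
      exact sum_le_sum h4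
    have h8 : 0 < 1 - η₁ / 500 := by linarith
    have h9 : (1 - η₁ / 500) * m * (F1.card : ℝ) ≤ N1 :=
      le_trans (mul_le_mul_of_nonneg_left h3 (by positivity)) h7
    have h10 : κ * (F1.card : ℝ) * ((1 - η₁ / 500) * m) ≤
        (1 - η₁ / 500) * (XS / m) * ((1 - η₁ / 500) * m) := by
      have h11 : κ ≤ (1 - η₁ / 500) ^ 2 * (1 + η₁ / 18) := by
        refine le_trans hκ1 ?_
        nlinarith [hη₁.le, mul_pos hη₁ hη₁, mul_nonneg hη₁.le (sub_nonneg.2 hη₁s)]
      calc κ * (F1.card : ℝ) * ((1 - η₁ / 500) * m)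
          = κ * ((1 - η₁ / 500) * m * (F1.card : ℝ)) := by ring
        _ ≤ κ * N1 := mul_le_mul_of_nonneg_left h9 hκ0.le
        _ ≤ (1 - η₁ / 500) ^ 2 * (1 + η₁ / 18) * N1 := mul_le_mul_of_nonneg_right h11 hN10
        _ = (1 - η₁ / 500) ^ 2 * ((1 + η₁ / 18) * N1) := by ring
        _ ≤ (1 - η₁ / 500) ^ 2 * XS := mul_le_mul_of_nonneg_left h6 (by positivity)
        _ = (1 - η₁ / 500) * (XS / m) * ((1 - η₁ / 500) * m) := by
            field_simp
    exact le_of_mul_le_mul_right h10 (by positivity)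
  -- assembly
  set N : ℝ := (((clq G S R).filter fun T => ¬ T ⊆ un B).card : ℝ) with hN
  have hN0 : 0 ≤ N := Nat.cast_nonneg _
  have key : κ * N ≤ (η / 4) * DS + (1 - η₁ / 1000) * (XS / m) := by
    have h3 := mul_le_mul_of_nonneg_left hcard hκ0.le
    have h4 : κ * ((F0.card : ℝ) + ((F1.card : ℝ) + F2.card)) =
      κ * (F0.card : ℝ) + κ * (F1.card : ℝ) + κ * (F2.card : ℝ) := by ring
    have h5 : (1 - η₁ / 500) * (XS / m) + (η₁ / 1000) * (XS / m) = (1 - η₁ / 1000) * (XS / m) := by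
      ring
    linarith
  have hmRpos : (0 : ℝ) < (m : ℝ) ^ R := by positivity
  have h3 : (1 + η₁ / 100) / (m : ℝ) ^ R * N * P ≤ κ * N := by
    rw [div_mul_eq_mul_div, div_mul_eq_mul_div, div_le_iff₀ hmRpos, hκ]
    calc (1 + η₁ / 100) * N * P ≤ (1 + η₁ / 100) * N * ((1 + 2 * (R * δ)) * (m : ℝ) ^ R) :=
          mul_le_mul_of_nonneg_left hP1 (by positivity)
      _ = (1 + η₁ / 100) * (1 + 2 * (R * δ)) * N * (m : ℝ) ^ R := by ring
  have h4 : (η / 4) * DS / P + (1 - η₁ / 1000) * XS / (m * P) =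
      ((η / 4) * DS + (1 - η₁ / 1000) * (XS / m)) / P := by
    field_simp
  rw [h4, le_div_iff₀ hP0]
  exact le_trans h3 key

end H57LC
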