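import Pool.Agent.H57.LC.Tup

/-!
Light vertices with large rows (note 3541, 4e, H0).
-/

namespace H57LC

open Finset

set_option linter.unusedSectionVars false

variable {V : Type*} [DecidableEq V] {G : SimpleGraph V} [DecidableRel G.Adj]

lemma mem_big {R : ℕ} {B : Fin R → Finset V} {m : ℕ} {θ : ℝ} {z : V} :
    z ∈ big G B m θ ↔ ∃ i j, z ∈ B i ∧ j ≠ i ∧ θ * m ≤ ((hs G (B j) z).card : ℝ) := by
  classical
  unfold big
  rw [mem_filter]
  constructor
  · rintro ⟨_, i, j, h⟩
    exact ⟨i, j, h⟩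
  · rintro ⟨i, j, h⟩
    exact ⟨mem_un.2 ⟨i, h.1⟩, i, j, h⟩

/-- few vertices have a large row -/
theorem card_big_le {R m : ℕ} {S : Finset V} {C η₁ δ θ : ℝ} {B : Fin R → Finset V}
    (h : LS G S R m C η₁ δ B) (hm : 0 < m) (hθ : 0 < θ) :
    ((big G B m θ).card : ℝ) ≤ (R : ℝ) ^ 2 * C / θ := by
  classical
  have hC : 0 ≤ C := le_trans (Nat.cast_nonneg _) h.hX
  have hmR : (0 : ℝ) < m := by exact_mod_cast hm
  set s : Fin R → Fin R → Finset V := fun i j =>
    if j = i then ∅ else (B i).filter fun z => θ * m ≤ ((hs G (B j) z).card : ℝ) with hs_def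
  have hsub : big G B m θ ⊆ (univ : Finset (Fin R)).biUnion fun i =>
      (univ : Finset (Fin R)).biUnion fun j => s i j := by
    intro z hz
    obtain ⟨i, j, hzi, hji, hz2⟩ := mem_big.1 hz
    rw [mem_biUnion]
    refine ⟨i, mem_univ _, ?_⟩
    rw [mem_biUnion]
    refine ⟨j, mem_univ _, ?_⟩
    simp only [hs_def, if_neg hji, mem_filter]
    exact ⟨hzi, hz2⟩
  have hone : ∀ i j, ((s i j).card : ℝ) ≤ C / θ := by
    intro i j
    by_cases hji : j = i
    · simp only [hs_def, if_pos hji, card_empty, Nat.cast_zero]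
      positivity
    · rw [le_div_iff₀ hθ]
      have h1 : ((s i j).card : ℝ) * (θ * m) ≤ ∑ z ∈ s i j, ((hs G (B j) z).card : ℝ) := by
        have := Finset.card_nsmul_le_sum (s i j) (fun z => ((hs G (B j) z).card : ℝ)) (θ * m)
          (by
            intro z hz
            simp only [hs_def, if_neg hji, mem_filter] at hz
            exact hz.2)
        rwa [nsmul_eq_mul] at this
      have h2 : ∑ z ∈ s i j, ((hs G (B j) z).card : ℝ) ≤
          ∑ z ∈ B i, ((hs G (B j) z).card : ℝ) := by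
        refine sum_le_sum_of_subset_of_nonneg ?_ (fun _ _ _ => Nat.cast_nonneg _)
        simp only [hs_def, if_neg hji]
        exact filter_subset _ _
      have h3 := h.tot i j (Ne.symm hji)
      have h4 : ((s i j).card : ℝ) * θ * m ≤ C * m := by
        calc ((s i j).card : ℝ) * θ * m = ((s i j).card : ℝ) * (θ * m) := by ring
          _ ≤ C * m := le_trans h1 (le_trans h2 h3)
      exact le_of_mul_le_mul_right h4 hmR
  have hcard : ((big G B m θ).card : ℝ) ≤ ∑ i : Fin R, ∑ j : Fin R, ((s i j).card : ℝ) := by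
    have h1 : (big G B m θ).card ≤ ∑ i : Fin R, ∑ j : Fin R, (s i j).card := by
      refine le_trans (card_le_card hsub) (le_trans card_biUnion_le ?_)
      exact sum_le_sum fun i _ => card_biUnion_le
    exact_mod_cast h1
  have hsum : ∑ i : Fin R, ∑ j : Fin R, ((s i j).card : ℝ) ≤
      ∑ _i : Fin R, ∑ _j : Fin R, C / θ :=
    sum_le_sum fun i _ => sum_le_sum fun j _ => hone i j
  have heq : ∑ _i : Fin R, ∑ _j : Fin R, C / θ = (R : ℝ) ^ 2 * C / θ := by
    simp only [sum_const, card_univ, Fintype.card_fin, nsmul_eq_mul]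
    ring
  linarith

/-- the number of `R`-cliques with a heavy vertex and a big light vertex -/
theorem card_H0 {R : ℕ} (hR : 2 ≤ R) (S : Finset V) (B : Fin R → Finset V) (hB : ∀ i, B i ⊆ S)
    (m : ℕ) (θ : ℝ) :
    ((clq G S R).filter (fun T => ¬ T ⊆ un B ∧ ¬ Disjoint T (big G B m θ))).card ≤
      (S \ un B).card * (big G B m θ).card * S.card ^ (R - 2) := by
  classical
  have hsub : (clq G S R).filter (fun T => ¬ T ⊆ un B ∧ ¬ Disjoint T (big G B m θ)) ⊆
      (((S \ un B) ×ˢ (big G B m θ)) ×ˢ (powersetCard (R - 2) S)).image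
        (fun q => insert q.1.1 (insert q.1.2 q.2)) := by
    intro T hT
    rw [mem_filter, mem_clq] at hT
    obtain ⟨⟨⟨hTS, hTc⟩, _⟩, hT1, hT2⟩ := hT
    obtain ⟨z, hzT, hzu⟩ := not_subset.1 hT1
    obtain ⟨t, htT, htb⟩ := not_disjoint_iff.1 hT2
    have htu : t ∈ un B := by
      obtain ⟨i, j, hi, _⟩ := mem_big.1 htb
      exact mem_un.2 ⟨i, hi⟩
    have hne : t ≠ z := fun h => hzu (h ▸ htu)
    rw [mem_image]
    refine ⟨((z, t), (T.erase z).erase t), ?_, ?_⟩
    · rw [mem_product, mem_product, mem_powersetCard]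
      refine ⟨⟨mem_sdiff.2 ⟨hTS hzT, hzu⟩, htb⟩, ?_, ?_⟩
      · exact (erase_subset _ _).trans ((erase_subset _ _).trans hTS)
      · rw [card_erase_of_mem (mem_erase.2 ⟨hne, htT⟩), card_erase_of_mem hzT, hTc]
        omega
    · simp only
      rw [insert_erase (mem_erase.2 ⟨hne, htT⟩), insert_erase hzT]
  refine le_trans (card_le_card hsub) (le_trans card_image_le ?_)
  rw [card_product, card_product, card_powersetCard]
  exact Nat.mul_le_mul_left _ (Nat.choose_le_pow _ _)

/-- big light vertices make the sum of `DD` large -/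
theorem sum_DD_ge {R m : ℕ} {S : Finset V} {C η₁ δ θ : ℝ} {B : Fin R → Finset V}
    (h : LS G S R m C η₁ δ B) (hR : 2 ≤ R) (hδ : δ ≤ 1 / 2) (hθ : 0 < θ) :
    ((big G B m θ).card : ℝ) * (θ * m) * ((m : ℝ) / 2) ^ (R - 2) ≤
      ∑ f ∈ Fintype.piFinset B, DD G f := by
  classical
  have hDD : ∑ f ∈ Fintype.piFinset B, DD G f =
      ∑ i : Fin R, ∑ j ∈ univ.erase i, ∑ f ∈ Fintype.piFinset B, na G (f i) (f j) := by
    unfold DD
    rw [sum_comm]
    refine sum_congr rfl fun i _ => ?_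
    rw [sum_comm]
  rcases Nat.eq_zero_or_pos m with hm | hm
  · subst hm
    simp only [Nat.cast_zero, mul_zero, zero_mul]
    exact sum_nonneg fun f _ => DD_nonneg f
  have hmR : (0 : ℝ) < m := by exact_mod_cast hm
  have hb : ∀ l, (m : ℝ) / 2 ≤ ((B l).card : ℝ) := by
    intro l
    have h1 := h.size_lo l
    nlinarith
  have hpair : ∀ i j, j ≠ i → ((m : ℝ) / 2) ^ (R - 2) * ∑ y ∈ B i, ((hs G (B j) y).card : ℝ) ≤
      ∑ f ∈ Fintype.piFinset B, na G (f i) (f j) := by
    intro i j hji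
    have h1 := pair_sum (V := V) B (Ne.symm hji) (fun x y => na G x y)
    have h2 : ∑ y ∈ B i, ∑ z ∈ B j, na G y z = ∑ y ∈ B i, ((hs G (B j) y).card : ℝ) :=
      sum_congr rfl fun y _ => sum_na _ _
    rw [h2] at h1
    set Q : ℝ := ∏ l ∈ (univ.erase i).erase j, ((B l).card : ℝ) with hQ
    have hP : (∏ l, ((B l).card : ℝ)) = ((B i).card : ℝ) * (B j).card * Q := by
      rw [hQ, mul_assoc, mul_prod_erase (univ.erase i) (fun l => ((B l).card : ℝ))
        (mem_erase.2 ⟨hji, mem_univ _⟩), mul_prod_erase univ (fun l => ((B l).card : ℝ))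
        (mem_univ _)]
    have hQge : ((m : ℝ) / 2) ^ (R - 2) ≤ Q := by
      have hc : ((univ.erase i).erase j : Finset (Fin R)).card = R - 2 := by
        rw [card_erase_of_mem (mem_erase.2 ⟨hji, mem_univ _⟩), card_erase_of_mem (mem_univ _),
          card_univ, Fintype.card_fin]
        omega
      rw [hQ, ← hc, ← prod_const]
      exact prod_le_prod (fun _ _ => by positivity) (fun l _ => hb l)
    have hbi : (0 : ℝ) < ((B i).card : ℝ) := lt_of_lt_of_le (by positivity) (hb i)
    have hbj : (0 : ℝ) < ((B j).card : ℝ) := lt_of_lt_of_le (by positivity) (hb j)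
    rw [hP, mul_assoc (((B i).card : ℝ) * (B j).card) Q] at h1
    have h3 := mul_left_cancel₀ (mul_pos hbi hbj).ne' h1
    rw [h3]
    exact mul_le_mul_of_nonneg_right hQge (sum_nonneg fun _ _ => Nat.cast_nonneg _)
  have hge : ((m : ℝ) / 2) ^ (R - 2) * ∑ i : Fin R, ∑ j ∈ univ.erase i,
      ∑ y ∈ B i, ((hs G (B j) y).card : ℝ) ≤ ∑ f ∈ Fintype.piFinset B, DD G f := by
    rw [hDD, mul_sum]
    refine sum_le_sum fun i _ => ?_
    rw [mul_sum]
    exact sum_le_sum fun j hj => hpair i j (ne_of_mem_erase hj)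
  have hbig : ((big G B m θ).card : ℝ) * (θ * m) ≤ ∑ i : Fin R, ∑ j ∈ univ.erase i,
      ∑ y ∈ B i, ((hs G (B j) y).card : ℝ) := by
    set bi : Fin R → Finset V := fun i =>
      (B i).filter fun z => ∃ j, j ≠ i ∧ θ * m ≤ ((hs G (B j) z).card : ℝ) with hbi_def
    have h1 : (big G B m θ).card ≤ ∑ i : Fin R, (bi i).card := by
      refine le_trans (card_le_card ?_) card_biUnion_le
      intro z hz
      obtain ⟨i, j, hi, hj⟩ := mem_big.1 hz
      rw [mem_biUnion]
      refine ⟨i, mem_univ _, ?_⟩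
      simp only [hbi_def, mem_filter]
      exact ⟨hi, j, hj⟩
    have h2 : ((big G B m θ).card : ℝ) ≤ ∑ i : Fin R, ((bi i).card : ℝ) := by exact_mod_cast h1
    have h3 : ∀ i : Fin R, ((bi i).card : ℝ) * (θ * m) ≤ ∑ j ∈ univ.erase i,
        ∑ y ∈ B i, ((hs G (B j) y).card : ℝ) := by
      intro i
      rw [sum_comm]
      have h4 : ((bi i).card : ℝ) * (θ * m) ≤
          ∑ y ∈ bi i, ∑ j ∈ univ.erase i, ((hs G (B j) y).card : ℝ) := by
        have := Finset.card_nsmul_le_sum (bi i)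
          (fun y => ∑ j ∈ univ.erase i, ((hs G (B j) y).card : ℝ)) (θ * m)
          (by
            intro y hy
            simp only [hbi_def, mem_filter] at hy
            obtain ⟨_, j, hji, hj⟩ := hy
            refine le_trans hj ?_
            exact single_le_sum (f := fun j => ((hs G (B j) y).card : ℝ))
              (fun _ _ => Nat.cast_nonneg _) (mem_erase.2 ⟨hji, mem_univ _⟩))
        rwa [nsmul_eq_mul] at this
      refine le_trans h4 (sum_le_sum_of_subset_of_nonneg (filter_subset _ _) ?_)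
      exact fun _ _ _ => sum_nonneg fun _ _ => Nat.cast_nonneg _
    calc ((big G B m θ).card : ℝ) * (θ * m)
        ≤ (∑ i : Fin R, ((bi i).card : ℝ)) * (θ * m) :=
          mul_le_mul_of_nonneg_right h2 (by positivity)
      _ = ∑ i : Fin R, ((bi i).card : ℝ) * (θ * m) := by rw [sum_mul]
      _ ≤ _ := sum_le_sum fun i _ => h3 i
  calc ((big G B m θ).card : ℝ) * (θ * m) * ((m : ℝ) / 2) ^ (R - 2)
      = ((m : ℝ) / 2) ^ (R - 2) * (((big G B m θ).card : ℝ) * (θ * m)) := by ring
    _ ≤ ((m : ℝ) / 2) ^ (R - 2) * ∑ i : Fin R, ∑ j ∈ univ.erase i,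
      ∑ y ∈ B i, ((hs G (B j) y).card : ℝ) := mul_le_mul_of_nonneg_left hbig (by positivity)
    _ ≤ _ := hge

end H57LC
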