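import Pool.Agent.H57.LC.Heavy0

/-!
Cliques with exactly one heavy vertex (note 3541, 4e, H1).
-/

namespace H57LC

open Finset

set_option linter.unusedSectionVars false

/-- the number of cliques `z + T'`, `T'` light without big vertices -/
noncomputable def t1 {V : Type*} [DecidableEq V] (G : SimpleGraph V) [DecidableRel G.Adj] {R : ℕ}
    (S : Finset V) (B : Fin R → Finset V) (m : ℕ) (θ : ℝ) (z : V) : ℕ :=
  ((clq G S R).filter fun T => z ∈ T ∧ T.erase z ⊆ un B \ big G B m θ).card

/-- clique transversals without big vertices, in which `z` has exactly one non-neighbour -/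
noncomputable def n1 {V : Type*} [DecidableEq V] (G : SimpleGraph V) [DecidableRel G.Adj] {R : ℕ}
    (B : Fin R → Finset V) (m : ℕ) (θ : ℝ) (z : V) : ℕ :=
  ((tcl G B).filter fun f => (∀ i, f i ∉ big G B m θ) ∧ (hs G (im f) z).card = 1).card

/-- clique transversals in which `z` has exactly two non-neighbours -/
noncomputable def n2 {V : Type*} [DecidableEq V] (G : SimpleGraph V) [DecidableRel G.Adj] {R : ℕ}
    (B : Fin R → Finset V) (z : V) : ℕ :=
  ((tcl G B).filter fun f => (hs G (im f) z).card = 2).card

/-- the positions of a tuple at which `z` has a non-neighbour -/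
def cnt {V : Type*} [DecidableEq V] (G : SimpleGraph V) [DecidableRel G.Adj] {R : ℕ}
    (f : Fin R → V) (z : V) : Finset (Fin R) := univ.filter fun k => ¬ G.Adj z (f k)

lemma mem_cnt {V : Type*} [DecidableEq V] {G : SimpleGraph V} [DecidableRel G.Adj] {R : ℕ}
    {f : Fin R → V} {z : V} {k : Fin R} : k ∈ cnt G f z ↔ ¬ G.Adj z (f k) := by
  simp [cnt]

lemma hs_im {V : Type*} [DecidableEq V] {G : SimpleGraph V} [DecidableRel G.Adj] {R : ℕ}
    (f : Fin R → V) (z : V) : hs G (im f) z = (cnt G f z).image f := by
  ext x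
  simp only [mem_hs, mem_im, mem_image, mem_cnt]
  constructor
  · rintro ⟨⟨i, rfl⟩, h⟩
    exact ⟨i, h, rfl⟩
  · rintro ⟨i, h, rfl⟩
    exact ⟨⟨i, rfl⟩, h⟩

lemma card_hs_im {V : Type*} [DecidableEq V] {G : SimpleGraph V} [DecidableRel G.Adj] {R : ℕ}
    {B : Fin R → Finset V} {f : Fin R → V} (hf : f ∈ tcl G B) (z : V) :
    (hs G (im f) z).card = (cnt G f z).card := by
  rw [hs_im, card_image_of_injective _ (tcl_injective hf)]

/-- an `(R - 1)`-clique inside `un B` misses exactly one part -/
lemma exists_missed {V : Type*} [DecidableEq V] {G : SimpleGraph V} [DecidableRel G.Adj] {R : ℕ}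
    {B : Fin R → Finset V} (hR : 1 ≤ R) (hdisj : ∀ i j, i ≠ j → Disjoint (B i) (B j))
    (hind : ∀ i, ∀ a ∈ B i, ∀ b ∈ B i, ¬ G.Adj a b) {T : Finset V} (hT : IsCl G T)
    (hc : T.card = R - 1) (hsub : T ⊆ un B) :
    ∃ i, (∀ x ∈ T, x ∉ B i) ∧ ∀ j, j ≠ i → (T ∩ B j).Nonempty := by
  classical
  set I : Finset (Fin R) := univ.filter fun j => (T ∩ B j).Nonempty with hI
  have h1 : T = (univ : Finset (Fin R)).biUnion fun j => T ∩ B j := by
    ext x
    simp only [mem_biUnion, mem_univ, true_and, mem_inter]
    constructor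
    · intro hx
      obtain ⟨i, hi⟩ := mem_un.1 (hsub hx)
      exact ⟨i, hx, hi⟩
    · rintro ⟨i, hx, -⟩
      exact hx
  have h2 : T.card = ∑ j : Fin R, (T ∩ B j).card := by
    conv_lhs => rw [h1]
    refine card_biUnion fun i _ j _ hij => ?_
    exact (hdisj i j hij).mono inter_subset_right inter_subset_right
  have h3 : ∑ j : Fin R, (T ∩ B j).card = I.card := by
    rw [hI, card_filter]
    refine sum_congr rfl fun j _ => ?_
    have := clique_inter_card hind hT j
    split_ifs with h
    · have := card_pos.2 h
      omega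
    · rw [not_nonempty_iff_eq_empty] at h
      rw [h, card_empty]
  have h4 : (Iᶜ).card = 1 := by
    rw [card_compl, Fintype.card_fin]
    omega
  obtain ⟨i, hi⟩ := card_eq_one.1 h4
  refine ⟨i, fun x hx hxi => ?_, fun j hj => ?_⟩
  · have : i ∈ Iᶜ := by rw [hi]; exact mem_singleton_self i
    rw [mem_compl, hI, mem_filter] at this
    exact this ⟨mem_univ _, ⟨x, mem_inter.2 ⟨hx, hxi⟩⟩⟩
  · by_contra hcon
    have : j ∈ Iᶜ := by
      rw [mem_compl, hI, mem_filter]
      exact fun h => hcon h.2
    rw [hi, mem_singleton] at this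
    exact hj this

theorem t1_le (R : ℕ) (hR : 2 ≤ R) (C η₁ δ θ : ℝ) (hC : 0 < C) (hη₁ : 0 < η₁) (hθ : 0 < θ)
    (hδ : 2 * δ ≤ R * θ) :
    ∃ m₀ : ℕ, ∀ m : ℕ, m₀ ≤ m →
      ∀ (V : Type) [DecidableEq V] (G : SimpleGraph V) [DecidableRel G.Adj] (S : Finset V)
        (B : Fin R → Finset V), clq G S (R + 1) = ∅ → LS G S R m C η₁ δ B →
        ∀ z ∈ S \ un B, (1 - 2 * R * θ) * m * (t1 G S B m θ z : ℝ) ≤ (n1 G B m θ z : ℝ) := by
  classical
  refine ⟨⌈(R : ℝ) ^ 2 * C / θ ^ 2⌉₊ + 1, fun m hm V _ G _ S B hfree h z hz => ?_⟩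
  have hR1 : (2 : ℝ) ≤ R := by exact_mod_cast hR
  have hm1 : (R : ℝ) ^ 2 * C / θ ^ 2 ≤ m := by
    have h1 := Nat.le_ceil ((R : ℝ) ^ 2 * C / θ ^ 2)
    have h2 : ((⌈(R : ℝ) ^ 2 * C / θ ^ 2⌉₊ + 1 : ℕ) : ℝ) ≤ m := by exact_mod_cast hm
    push_cast at h2
    linarith
  have hm0 : 0 < m := by omega
  have hmR : (0 : ℝ) < m := by exact_mod_cast hm0
  obtain ⟨hzS, hzu⟩ := mem_sdiff.1 hz
  set N1 := (tcl G B).filter fun f => (∀ i, f i ∉ big G B m θ) ∧ (hs G (im f) z).card = 1 with hN1
  set T1 := (clq G S R).filter fun T => z ∈ T ∧ T.erase z ⊆ un B \ big G B m θ with hT1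
  set τ : (Fin R → V) → Finset V := fun f => insert z (im f \ hs G (im f) z) with hτ
  have hmaps : ∀ f ∈ N1, τ f ∈ T1 := by
    intro f hf
    rw [hN1, mem_filter] at hf
    obtain ⟨hft, hfb, hfc⟩ := hf
    have hzim : z ∉ im f := fun hh => hzu (im_subset hft hh)
    have hzi : z ∉ im f \ hs G (im f) z := fun hh => hzim (mem_sdiff.1 hh).1
    have himc := im_mem_clq (fun i => h.sub i) hft
    rw [mem_clq] at himc
    rw [hT1, mem_filter, mem_clq]
    refine ⟨⟨⟨?_, ?_⟩, ?_⟩, ?_, ?_⟩
    · exact insert_subset hzS (sdiff_subset.trans himc.1.1)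
    · rw [hτ]
      simp only
      rw [card_insert_of_notMem hzi, card_sdiff_of_subset (hs_subset _ _), hfc, himc.1.2]
      omega
    · refine isCl_insert (himc.2.subset sdiff_subset) fun t ht => ?_
      rw [mem_sdiff, mem_hs] at ht
      by_contra hcon
      exact ht.2 ⟨ht.1, hcon⟩
    · exact mem_insert_self _ _
    · rw [hτ]
      simp only
      rw [erase_insert hzi]
      intro x hx
      have hx1 := (mem_sdiff.1 hx).1
      obtain ⟨i, rfl⟩ := mem_im.1 hx1
      exact mem_sdiff.2 ⟨im_subset hft hx1, hfb i⟩
  have hcard := card_eq_sum_card_fiberwise hmaps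
  have hfib : ∀ T ∈ T1, (1 - 2 * R * θ) * m ≤ ((N1.filter fun f => τ f = T).card : ℝ) := by
    intro T hT
    rw [hT1, mem_filter, mem_clq] at hT
    obtain ⟨⟨⟨hTS, hTc⟩, hTcl⟩, hzT, hTu⟩ := hT
    set T' := T.erase z with hT'
    have hT'cl : IsCl G T' := hTcl.subset (erase_subset _ _)
    have hT'c : T'.card = R - 1 := by rw [hT', card_erase_of_mem hzT, hTc]
    have hT'u : T' ⊆ un B := hTu.trans sdiff_subset
    have hzT' : z ∉ T' := notMem_erase _ _
    have hzadj : ∀ x ∈ T', G.Adj z x := fun x hx =>
      hTcl z hzT x (mem_of_mem_erase hx) (fun hh => hzT' (hh ▸ hx))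
    obtain ⟨i, hi1, hi2⟩ := exists_missed (by omega) h.disj h.ind hT'cl hT'c hT'u
    have hex : ∀ j, ∃ x, j ≠ i → x ∈ T' ∩ B j := by
      intro j
      by_cases hj : j = i
      · exact ⟨z, fun hh => absurd hj hh⟩
      · obtain ⟨x, hx⟩ := hi2 j hj
        exact ⟨x, fun _ => hx⟩
    choose g hg using hex
    have hgT : ∀ j, j ≠ i → g j ∈ T' := fun j hj => (mem_inter.1 (hg j hj)).1
    have hgB : ∀ j, j ≠ i → g j ∈ B j := fun j hj => (mem_inter.1 (hg j hj)).2
    set Y := (B i).filter fun y => y ∉ big G B m θ ∧ ∀ x ∈ T', G.Adj y x with hY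
    have hYle : Y.card ≤ (N1.filter fun f => τ f = T).card := by
      refine card_le_card_of_injOn (fun y => Function.update g i y) ?_ ?_
      · intro y hy
        rw [mem_coe, hY, mem_filter] at hy
        obtain ⟨hyB, hyb, hyadj⟩ := hy
        have hyT : y ∉ T' := fun hh => hi1 y hh hyB
        have him : im (Function.update g i y) = insert y T' := by
          ext x
          rw [mem_im, mem_insert]
          constructor
          · rintro ⟨k, rfl⟩
            by_cases hk : k = i
            · subst hk
              left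
              rw [Function.update_self]
            · right
              rw [Function.update_of_ne hk]
              exact hgT k hk
          · rintro (rfl | hx)
            · exact ⟨i, Function.update_self _ _ _⟩
            · obtain ⟨k, hk⟩ := mem_un.1 (hT'u hx)
              have hki : k ≠ i := by
                rintro rfl
                exact hi1 x hx hk
              refine ⟨k, ?_⟩
              rw [Function.update_of_ne hki]
              have := clique_inter_card h.ind hT'cl k
              rw [card_le_one] at this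
              exact this _ (hg k hki) _ (mem_inter.2 ⟨hx, hk⟩)
        have htcl : Function.update g i y ∈ tcl G B := by
          rw [mem_tcl]
          constructor
          · intro k
            by_cases hk : k = i
            · subst hk
              rw [Function.update_self]
              exact hyB
            · rw [Function.update_of_ne hk]
              exact hgB k hk
          · intro k l hkl
            by_cases hk : k = i
            · subst hk
              rw [Function.update_self, Function.update_of_ne hkl.symm]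
              exact hyadj _ (hgT l hkl.symm)
            · by_cases hl : l = i
              · subst hl
                rw [Function.update_self, Function.update_of_ne hk]
                exact (hyadj _ (hgT k hk)).symm
              · rw [Function.update_of_ne hk, Function.update_of_ne hl]
                refine hT'cl _ (hgT k hk) _ (hgT l hl) fun hh => ?_
                have := disjoint_left.1 (h.disj k l hkl) (hgB k hk)
                rw [hh] at this
                exact this (hgB l hl)
        have hhs : hs G (insert y T') z = {y} := by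
          have hne := hs_nonempty hfree (im_mem_clq (fun i => h.sub i) htcl) hzS
          rw [him] at hne
          obtain ⟨x, hx⟩ := hne
          rw [mem_hs, mem_insert] at hx
          have hzy : ¬ G.Adj z y := by
            rcases hx.1 with rfl | hx1
            · exact hx.2
            · exact absurd (hzadj x hx1) hx.2
          ext w
          rw [mem_hs, mem_insert, mem_singleton]
          constructor
          · rintro ⟨rfl | hw, hw2⟩
            · rfl
            · exact absurd (hzadj w hw) hw2
          · rintro rfl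
            exact ⟨Or.inl rfl, hzy⟩
        rw [mem_coe, mem_filter, hN1, mem_filter]
        refine ⟨⟨htcl, fun k => ?_, ?_⟩, ?_⟩
        · change Function.update g i y k ∉ big G B m θ
          by_cases hk : k = i
          · subst hk
            rw [Function.update_self]
            exact hyb
          · rw [Function.update_of_ne hk]
            exact (mem_sdiff.1 (hTu (hgT k hk))).2
        · rw [him, hhs, card_singleton]
        · rw [hτ]
          simp only
          rw [him, hhs, insert_sdiff_of_mem _ (mem_singleton_self y),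
            sdiff_singleton_eq_erase, erase_eq_of_notMem hyT, hT', insert_erase hzT]
      · intro y _ y' _ hyy
        have := congrFun hyy i
        simpa using this
    have hYge : (1 - 2 * R * θ) * m ≤ (Y.card : ℝ) := by
      have hsubB : B i ⊆ (Y ∪ big G B m θ) ∪ T'.biUnion fun x => hs G (B i) x := by
        intro y hy
        by_cases h1 : y ∈ big G B m θ
        · exact mem_union_left _ (mem_union_right _ h1)
        · by_cases h2 : ∀ x ∈ T', G.Adj y x
          · refine mem_union_left _ (mem_union_left _ ?_)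
            rw [hY, mem_filter]
            exact ⟨hy, h1, h2⟩
          · push Not at h2
            obtain ⟨x, hx, hxy⟩ := h2
            refine mem_union_right _ ?_
            rw [mem_biUnion]
            exact ⟨x, hx, mem_hs.2 ⟨hy, fun hh => hxy hh.symm⟩⟩
      have h1 : (B i).card ≤ Y.card + (big G B m θ).card + ∑ x ∈ T', (hs G (B i) x).card :=
        (card_le_card hsubB).trans ((card_union_le _ _).trans
          (Nat.add_le_add (card_union_le _ _) card_biUnion_le))
      have h2 : ((B i).card : ℝ) ≤ Y.card + (big G B m θ).card +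
          ∑ x ∈ T', ((hs G (B i) x).card : ℝ) := by exact_mod_cast h1
      have h3 : ∑ x ∈ T', ((hs G (B i) x).card : ℝ) ≤ ∑ _x ∈ T', θ * m := by
        refine sum_le_sum fun x hx => ?_
        obtain ⟨hxu, hxb⟩ := mem_sdiff.1 (hTu hx)
        obtain ⟨j, hj⟩ := mem_un.1 hxu
        by_contra hcon
        push Not at hcon
        refine hxb (mem_big.2 ⟨j, i, hj, ?_, hcon.le⟩)
        rintro rfl
        exact hi1 x hx hj
      rw [sum_const, hT'c, nsmul_eq_mul, Nat.cast_sub (by omega), Nat.cast_one] at h3
      have h4 := card_big_le h hm0 hθ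
      have h5 := h.size_lo i
      have h6 : (R : ℝ) ^ 2 * C / θ ≤ θ * m := by
        rw [div_le_iff₀ (by positivity)] at hm1
        rw [div_le_iff₀ hθ]
        nlinarith
      have h7 : 2 * δ * m ≤ R * θ * m := mul_le_mul_of_nonneg_right hδ hmR.le
      have h8 : 0 ≤ θ * m := by positivity
      have h9 : 0 ≤ (R : ℝ) * θ * m := by positivity
      nlinarith
    exact hYge.trans (by exact_mod_cast hYle)
  have hfin : (N1.card : ℝ) = ∑ T ∈ T1, ((N1.filter fun f => τ f = T).card : ℝ) := by
    exact_mod_cast hcard
  change (1 - 2 * R * θ) * m * (T1.card : ℝ) ≤ (N1.card : ℝ)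
  rw [hfin]
  calc (1 - 2 * R * θ) * m * (T1.card : ℝ) = ∑ _T ∈ T1, (1 - 2 * R * θ) * m := by
        rw [sum_const, nsmul_eq_mul]; ring
    _ ≤ _ := sum_le_sum hfib

theorem n1_le (R : ℕ) (hR : 2 ≤ R) (C η₁ δ θ : ℝ) (hC : 0 < C) (hη₁ : 0 < η₁) (hθ : 0 < θ)
    (hδ0 : 0 ≤ δ) (hδ : δ ≤ 1 / 16) (hθ1 : 8 * R * θ ≤ η₁) :
    ∃ m₀ : ℕ, ∀ m : ℕ, m₀ ≤ m →
      ∀ (V : Type) [DecidableEq V] (G : SimpleGraph V) [DecidableRel G.Adj] (S : Finset V)
        (B : Fin R → Finset V), clq G S (R + 1) = ∅ → LS G S R m C η₁ δ B →
        ∀ z ∈ S \ un B, η₁ / 9 * (n1 G B m θ z : ℝ) ≤ (n2 G B z : ℝ) := by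
  classical
  refine ⟨1, fun m hm V _ G _ S B _ h z hz => ?_⟩
  have hm0 : 0 < m := hm
  have hmR : (0 : ℝ) < m := by exact_mod_cast hm0
  set N1 := (tcl G B).filter fun f => (∀ i, f i ∉ big G B m θ) ∧ (hs G (im f) z).card = 1 with hN1
  set N2 := (tcl G B).filter fun f => (hs G (im f) z).card = 2 with hN2
  set r : (Fin R → V) → (Fin R → V) → Prop := fun f f' =>
    ∃ j, ¬ G.Adj z (f' j) ∧ ∀ k, k ≠ j → f' k = f k with hr
  have hdc := sum_card_bipartiteAbove_eq_sum_card_bipartiteBelow (s := N1) (t := N2) r
  have habove : ∀ f ∈ N1, 3 / 8 * η₁ * m ≤ ((bipartiteAbove r N2 f).card : ℝ) := by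
    intro f hf
    rw [hN1, mem_filter] at hf
    obtain ⟨hft, hfb, hfc⟩ := hf
    rw [card_hs_im hft, card_eq_one] at hfc
    obtain ⟨i, hi⟩ := hfc
    have hi1 : ¬ G.Adj z (f i) := by
      rw [← mem_cnt, hi]
      exact mem_singleton_self i
    have hi2 : ∀ k, k ≠ i → G.Adj z (f k) := by
      intro k hk
      by_contra hcon
      rw [← mem_cnt, hi, mem_singleton] at hcon
      exact hk hcon
    obtain ⟨j, hji, hj⟩ := h.heavy z hz i
    rw [mem_tcl] at hft
    set Y := (hs G (B j) z).filter fun y => ∀ k, k ≠ j → G.Adj y (f k) with hY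
    have hYle : Y.card ≤ (bipartiteAbove r N2 f).card := by
      refine card_le_card_of_injOn (fun y => Function.update f j y) ?_ ?_
      · intro y hy
        rw [mem_coe, hY, mem_filter, mem_hs] at hy
        obtain ⟨⟨hyB, hyz⟩, hyadj⟩ := hy
        have htcl : Function.update f j y ∈ tcl G B := by
          rw [mem_tcl]
          constructor
          · intro k
            by_cases hk : k = j
            · subst hk
              rw [Function.update_self]
              exact hyB
            · rw [Function.update_of_ne hk]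
              exact hft.1 k
          · intro k l hkl
            by_cases hk : k = j
            · subst hk
              rw [Function.update_self, Function.update_of_ne hkl.symm]
              exact hyadj l hkl.symm
            · by_cases hl : l = j
              · subst hl
                rw [Function.update_self, Function.update_of_ne hk]
                exact (hyadj k hk).symm
              · rw [Function.update_of_ne hk, Function.update_of_ne hl]
                exact hft.2 k l hkl
        rw [mem_coe, mem_bipartiteAbove, hN2, mem_filter]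
        refine ⟨⟨htcl, ?_⟩, j, ?_, fun k hk => Function.update_of_ne hk _ _⟩
        · rw [card_hs_im htcl]
          have : cnt G (Function.update f j y) z = {j, i} := by
            ext k
            rw [mem_cnt, mem_insert, mem_singleton]
            by_cases hk : k = j
            · subst hk
              rw [Function.update_self]
              exact ⟨fun _ => Or.inl rfl, fun _ => hyz⟩
            · rw [Function.update_of_ne hk]
              constructor
              · intro hh
                right
                by_contra hki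
                exact hh (hi2 k hki)
              · rintro (hh | rfl)
                · exact absurd hh hk
                · exact hi1
          rw [this, card_pair hji]
        · change ¬ G.Adj z (Function.update f j y j)
          rw [Function.update_self]
          exact hyz
      · intro y _ y' _ hyy
        have := congrFun hyy j
        simpa using this
    have hsub : hs G (B j) z ⊆ Y ∪ (univ.erase j).biUnion fun k => hs G (B j) (f k) := by
      intro y hy
      by_cases h2 : ∀ k, k ≠ j → G.Adj y (f k)
      · refine mem_union_left _ ?_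
        rw [hY, mem_filter]
        exact ⟨hy, h2⟩
      · push Not at h2
        obtain ⟨k, hk, hky⟩ := h2
        refine mem_union_right _ ?_
        rw [mem_biUnion]
        exact ⟨k, mem_erase.2 ⟨hk, mem_univ _⟩, mem_hs.2 ⟨(mem_hs.1 hy).1, fun hh => hky hh.symm⟩⟩
    have h1 : (hs G (B j) z).card ≤ Y.card + ∑ k ∈ univ.erase j, (hs G (B j) (f k)).card :=
      (card_le_card hsub).trans ((card_union_le _ _).trans
        (Nat.add_le_add le_rfl card_biUnion_le))
    have h2 : ((hs G (B j) z).card : ℝ) ≤ Y.card +
        ∑ k ∈ univ.erase j, ((hs G (B j) (f k)).card : ℝ) := by exact_mod_cast h1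
    have h3 : ∑ k ∈ univ.erase j, ((hs G (B j) (f k)).card : ℝ) ≤ ∑ _k ∈ univ.erase j, θ * m := by
      refine sum_le_sum fun k hk => ?_
      by_contra hcon
      push Not at hcon
      exact hfb k (mem_big.2 ⟨k, j, hft.1 k, (ne_of_mem_erase hk).symm, hcon.le⟩)
    rw [sum_const, card_erase_of_mem (mem_univ _), card_univ, Fintype.card_fin, nsmul_eq_mul,
      Nat.cast_sub (by omega), Nat.cast_one] at h3
    have h4 : 8 * R * θ * m ≤ η₁ * m := mul_le_mul_of_nonneg_right hθ1 hmR.le
    have h5 : 0 ≤ θ * m := by positivity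
    have h6 : (Y.card : ℝ) ≤ ((bipartiteAbove r N2 f).card : ℝ) := by exact_mod_cast hYle
    nlinarith
  have hbelow : ∀ f' ∈ N2, ((bipartiteBelow r N1 f').card : ℝ) ≤ 2 * ((1 + δ) * m) := by
    intro f' hf'
    rw [hN2, mem_filter] at hf'
    obtain ⟨hft, hfc⟩ := hf'
    rw [card_hs_im hft] at hfc
    have hsub : bipartiteBelow r N1 f' ⊆
        (cnt G f' z).biUnion fun j => (B j).image fun v => Function.update f' j v := by
      intro f hf
      rw [mem_bipartiteBelow, hN1, mem_filter, mem_tcl] at hf
      obtain ⟨⟨⟨hfB, -⟩, -⟩, j, hj1, hj2⟩ := hf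
      rw [mem_biUnion]
      refine ⟨j, mem_cnt.2 hj1, ?_⟩
      rw [mem_image]
      refine ⟨f j, hfB j, ?_⟩
      funext k
      by_cases hk : k = j
      · subst hk
        rw [Function.update_self]
      · rw [Function.update_of_ne hk]
        exact hj2 k hk
    have h1 : (bipartiteBelow r N1 f').card ≤ ∑ j ∈ cnt G f' z, (B j).card :=
      (card_le_card hsub).trans (card_biUnion_le.trans (sum_le_sum fun j _ => card_image_le))
    have h2 : ((bipartiteBelow r N1 f').card : ℝ) ≤ ∑ j ∈ cnt G f' z, ((B j).card : ℝ) := by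
      exact_mod_cast h1
    refine h2.trans ((sum_le_sum fun j _ => h.size_hi j).trans ?_)
    rw [sum_const, hfc, nsmul_eq_mul]
    norm_num
  have hdc' : ∑ f ∈ N1, ((bipartiteAbove r N2 f).card : ℝ) =
      ∑ f' ∈ N2, ((bipartiteBelow r N1 f').card : ℝ) := by exact_mod_cast hdc
  have hA : (N1.card : ℝ) * (3 / 8 * η₁ * m) ≤ ∑ f ∈ N1, ((bipartiteAbove r N2 f).card : ℝ) := by
    rw [← nsmul_eq_mul]
    exact card_nsmul_le_sum _ _ _ habove
  have hB : ∑ f' ∈ N2, ((bipartiteBelow r N1 f').card : ℝ) ≤ (N2.card : ℝ) * (2 * ((1 + δ) * m)) := by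
    rw [← nsmul_eq_mul]
    exact sum_le_card_nsmul _ _ _ hbelow
  change η₁ / 9 * (N1.card : ℝ) ≤ (N2.card : ℝ)
  have h1 : (N1.card : ℝ) * (3 / 8 * η₁ * m) ≤ (N2.card : ℝ) * (2 * ((1 + δ) * m)) := by
    rw [hdc'] at hA
    exact hA.trans hB
  have h2 : (N2.card : ℝ) * (2 * ((1 + δ) * m)) ≤ (N2.card : ℝ) * (17 / 8 * m) := by
    refine mul_le_mul_of_nonneg_left ?_ (Nat.cast_nonneg _)
    nlinarith
  have h3 : (N1.card : ℝ) * (3 / 8 * η₁) ≤ (N2.card : ℝ) * (17 / 8) := by
    have h4 : ((N1.card : ℝ) * (3 / 8 * η₁)) * m ≤ ((N2.card : ℝ) * (17 / 8)) * m := by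
      linarith
    exact le_of_mul_le_mul_right h4 hmR
  have h5 : 0 ≤ (N1.card : ℝ) * η₁ := by positivity
  linarith

end H57LC
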