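import Pool.Agent.H57.LC.Defs
import Pool.Agent.H57.LC.Tight

/-!
From the graph to the numbers `a t`, `N i j` of a `w`-clique `K` (note 3541, 0 and 2).
-/

namespace H57LC

open Finset

set_option linter.unusedSectionVars false

variable {V : Type*} [Fintype V] [DecidableEq V] (G : SimpleGraph V) [DecidableRel G.Adj]

/-- `a_t(K)` -/
def aK (K : Finset V) (t : V) : ℕ := (univ.filter fun z => hs G K z = {t}).card

/-- `N_{ij}(K)` -/
def nK (K : Finset V) (i j : V) : ℕ :=
  if i = j then 0 else (univ.filter fun z => hs G K z = {i, j}).card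

/-- `ν(K)` -/
noncomputable def nuK (w m r : ℕ) (K : Finset V) : ℝ :=
  if ∑ t ∈ K, aK G K t = w * m + r then 0 else 1

variable {G}

lemma mem_cn_sdiff {K T : Finset V} {z : V} : z ∈ cn G (K \ T) ↔ hs G K z ⊆ T := by
  rw [mem_cn]
  constructor
  · intro h t ht
    rw [mem_hs] at ht
    by_contra hcon
    exact ht.2 (h t (mem_sdiff.2 ⟨ht.1, hcon⟩)).symm
  · intro h a ha
    rw [mem_sdiff] at ha
    by_contra hcon
    exact ha.2 (h (mem_hs.2 ⟨ha.1, fun h2 => hcon h2.symm⟩))

lemma hs_of_mem_cn {K T : Finset V} (hT : T ⊆ K) {z : V} (hz : z ∈ cn G (K \ T)) :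
    hs G T z = hs G K z := by
  refine Subset.antisymm (hs_mono hT z) fun t ht => ?_
  exact mem_hs.2 ⟨mem_cn_sdiff.1 hz ht, (mem_hs.1 ht).2⟩

lemma aa_cn {K T : Finset V} (hT : T ⊆ K) {t : V} (ht : t ∈ T) :
    aa G (cn G (K \ T)) T t = aK G K t := by
  unfold aa aK
  congr 1
  ext z
  simp only [mem_filter, mem_univ, true_and]
  constructor
  · rintro ⟨h1, h2⟩
    rw [← hs_of_mem_cn hT h1, h2]
  · intro h
    have h1 : z ∈ cn G (K \ T) := mem_cn_sdiff.2 (by rw [h]; exact singleton_subset_iff.2 ht)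
    exact ⟨h1, by rw [hs_of_mem_cn hT h1, h]⟩

lemma card_pairs (T s : Finset V) :
    (∑ i ∈ T, ∑ j ∈ T, if i ≠ j ∧ s = {i, j} then 1 else 0) =
      if s.card = 2 ∧ s ⊆ T then 2 else 0 := by
  rw [← sum_product', ← card_filter]
  split_ifs with h
  · have h1 : ((T ×ˢ T).filter fun p : V × V => p.1 ≠ p.2 ∧ s = {p.1, p.2}) = s.offDiag := by
      ext ⟨i, j⟩
      simp only [mem_filter, mem_product, mem_offDiag]
      constructor
      · rintro ⟨_, hij, rfl⟩
        exact ⟨by simp, by simp, hij⟩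
      · rintro ⟨hi, hj, hij⟩
        refine ⟨⟨h.2 hi, h.2 hj⟩, hij, ?_⟩
        refine (eq_of_subset_of_card_le ?_ ?_).symm
        · intro a ha
          rw [mem_insert, mem_singleton] at ha
          rcases ha with rfl | rfl
          · exact hi
          · exact hj
        · rw [h.1, card_pair hij]
    rw [h1, offDiag_card, h.1]
  · rw [card_eq_zero, filter_eq_empty_iff]
    rintro ⟨i, j⟩ hp ⟨hij, hs⟩
    rw [mem_product] at hp
    refine h ⟨by rw [hs, card_pair hij], ?_⟩
    rw [hs]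
    intro a ha
    rw [mem_insert, mem_singleton] at ha
    rcases ha with rfl | rfl
    · exact hp.1
    · exact hp.2

lemma h2_cn {K T : Finset V} (hT : T ⊆ K) :
    2 * h2 G (cn G (K \ T)) T = ∑ i ∈ T, ∑ j ∈ T, nK G K i j := by
  have h1 : ∀ i j, nK G K i j = ∑ z : V, if i ≠ j ∧ hs G K z = {i, j} then 1 else 0 := by
    intro i j
    unfold nK
    by_cases hij : i = j
    · simp [hij]
    · rw [if_neg hij, card_filter]
      refine sum_congr rfl fun z _ => ?_
      simp [hij]
  have h3 : ∑ i ∈ T, ∑ j ∈ T, nK G K i j =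
      ∑ z : V, ∑ i ∈ T, ∑ j ∈ T, if i ≠ j ∧ hs G K z = {i, j} then 1 else 0 := by
    simp only [h1]
    rw [sum_comm' (s := univ) (t := fun _ => T) (t' := T) (s' := fun _ => univ) (by simp)]
    refine sum_congr rfl fun i _ => ?_
    rw [sum_comm]
  rw [h3]
  simp only [card_pairs]
  unfold h2
  rw [card_filter, mul_sum]
  rw [← sum_filter_add_sum_filter_not univ (fun z => z ∈ cn G (K \ T))]
  have h4 : ∑ z ∈ univ.filter (fun z => z ∉ cn G (K \ T)),
      (if (hs G K z).card = 2 ∧ hs G K z ⊆ T then 2 else 0) = 0 := by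
    refine sum_eq_zero fun z hz => ?_
    rw [mem_filter] at hz
    rw [if_neg]
    rintro ⟨_, h5⟩
    exact hz.2 (mem_cn_sdiff.2 h5)
  rw [h4, add_zero, filter_mem_eq_inter, univ_inter]
  refine sum_congr rfl fun z hz => ?_
  rw [hs_of_mem_cn hT hz]
  have h5 := mem_cn_sdiff.1 hz
  by_cases h6 : (hs G K z).card = 2 <;> simp [h6, h5]

lemma nK_symm (K : Finset V) (i j : V) : nK G K i j = nK G K j i := by
  unfold nK
  by_cases h : i = j
  · simp [h]
  · rw [if_neg h, if_neg (fun h2 => h h2.symm), pair_comm]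

lemma nK_self (K : Finset V) (i : V) : nK G K i i = 0 := by
  simp [nK]

/-- every member of a clique counts for itself -/
lemma one_le_aK {K : Finset V} (hK : IsCl G K) {t : V} (ht : t ∈ K) : 1 ≤ aK G K t := by
  unfold aK
  rw [Nat.one_le_iff_ne_zero, ← Nat.pos_iff_ne_zero, card_pos]
  refine ⟨t, mem_filter.2 ⟨mem_univ _, ?_⟩⟩
  ext a
  rw [mem_hs, mem_singleton]
  constructor
  · rintro ⟨h1, h2⟩
    by_contra h3
    exact h2 (hK t ht a h1 (fun h => h3 h.symm))
  · rintro rfl
    exact ⟨ht, G.loopless.irrefl a⟩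

/-- the sum of the `a_t` and the number of vertices with at least two non-neighbours in `K`, all
of them in `T` -/
lemma sum_aK_hge {K T : Finset V} (hT : T ⊆ K) :
    (∑ t ∈ T, aK G K t) + (univ.filter fun z => 2 ≤ (hs G K z).card ∧ hs G K z ⊆ T).card ≤
      (cn G (K \ T)).card := by
  have h1 : ∑ t ∈ T, aK G K t = (T.biUnion fun t => univ.filter fun z => hs G K z = {t}).card := by
    rw [card_biUnion]
    · rfl
    · intro a _ b _ hab
      change Disjoint _ _
      rw [disjoint_left]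
      intro z hz hz'
      rw [mem_filter] at hz hz'
      exact hab (singleton_injective (hz.2.symm.trans hz'.2))
  rw [h1, ← card_union_of_disjoint]
  · refine card_le_card fun z hz => ?_
    rw [mem_cn_sdiff]
    rcases mem_union.1 hz with h | h
    · obtain ⟨t, ht, h2⟩ := mem_biUnion.1 h
      rw [(mem_filter.1 h2).2]
      exact singleton_subset_iff.2 ht
    · exact (mem_filter.1 h).2.2
  · rw [disjoint_left]
    intro z hz hz'
    obtain ⟨t, ht, h2⟩ := mem_biUnion.1 hz
    have h3 := (mem_filter.1 hz').2.1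
    rw [(mem_filter.1 h2).2, card_singleton] at h3
    omega

lemma sum_aK_nK {K T : Finset V} (hT : T ⊆ K) :
    2 * (∑ t ∈ T, aK G K t) + ∑ i ∈ T, ∑ j ∈ T, nK G K i j ≤ 2 * (cn G (K \ T)).card := by
  rw [← h2_cn hT, ← mul_add]
  refine Nat.mul_le_mul_left 2 (le_trans (Nat.add_le_add_left ?_ _) (sum_aK_hge hT))
  unfold h2
  refine card_le_card fun z hz => ?_
  rw [mem_filter] at hz ⊢
  rw [hs_of_mem_cn hT hz.1] at hz
  exact ⟨mem_univ _, hz.2.ge, mem_cn_sdiff.1 hz.1⟩

/-- the rule holds for `ν` -/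
theorem rule_nuK {u R r m : ℕ} (hu : 1 ≤ u) (hR : 1 ≤ R) (hr : r + 1 ≤ R)
    (hdeg : ∀ U ∈ clq G univ u, (cn G U).card ≤ R * m + r)
    {U : Finset V} (hU : U ∈ clq G univ u) :
    Rule G (cn G U) R (fun T => nuK G (R + u) m r (U ∪ T)) := by
  refine ⟨fun T => ?_, ?_⟩
  · unfold nuK
    dsimp only
    split_ifs <;> norm_num
  · intro T hT S' hS' hne hcard
    have hUm := mem_clq.1 hU
    have hTm := mem_clq.1 hT
    have hadj : ∀ t ∈ T, ∀ a ∈ U, G.Adj a t := fun t ht => mem_cn.1 (hTm.1.1 ht)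
    have hdis : Disjoint U T := by
      rw [disjoint_left]
      intro a ha ha'
      exact G.loopless.irrefl a (hadj a ha' a ha)
    have hKc : (U ∪ T).card = R + u := by
      rw [card_union_of_disjoint hdis, hUm.1.2, hTm.1.2, add_comm]
    have hKcl : IsCl G (U ∪ T) := by
      intro a ha b hb hab
      rcases mem_union.1 ha with h1 | h1 <;> rcases mem_union.1 hb with h2 | h2
      · exact hUm.2 a h1 b h2 hab
      · exact hadj b h2 a h1
      · exact (hadj a h1 b h2).symm
      · exact hTm.2 a h1 b h2 hab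
    have hKT : (U ∪ T) \ T = U := by
      rw [union_sdiff_right]
      exact sdiff_eq_self_of_disjoint hdis
    by_contra hcon
    have hE : ∑ t ∈ U ∪ T, aK G (U ∪ T) t = (R + u) * m + r := by
      by_contra h
      refine hcon ?_
      simp only [nuK]
      rw [if_neg h]
    have key : ∀ T₀ ⊆ U ∪ T, T₀.card = R →
        (∑ t ∈ T₀, aK G (U ∪ T) t) +
          (univ.filter fun z => 2 ≤ (hs G (U ∪ T) z).card ∧ hs G (U ∪ T) z ⊆ T₀).card ≤
            R * m + r := by
      intro T₀ hT₀ hc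
      refine le_trans (sum_aK_hge hT₀) (hdeg _ (mem_clq.2 ⟨⟨subset_univ _, ?_⟩, ?_⟩))
      · rw [card_sdiff_of_subset hT₀, hKc, hc]
        omega
      · exact hKcl.subset sdiff_subset
    have hsum : ∀ T₀ : Finset V, (∑ t ∈ T₀, ((m : ℤ) - (aK G (U ∪ T) t : ℤ))) =
        (T₀.card : ℤ) * m - ((∑ t ∈ T₀, aK G (U ∪ T) t : ℕ) : ℤ) := by
      intro T₀
      rw [sum_sub_distrib, sum_const, nsmul_eq_mul]
      push_cast
      rfl
    refine tight_three (K := U ∪ T) (R := R) (u := u) (r := (r : ℤ))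
      (e := fun t => (m : ℤ) - (aK G (U ∪ T) t : ℤ)) (S' := S') hKc hu (by omega) ?_ ?_
      (hS'.trans subset_union_right) hne ?_ ?_
    · intro T₀ hT₀ hc
      have h1 := key T₀ hT₀ hc
      rw [hsum, hc]
      have h2 : ((∑ t ∈ T₀, aK G (U ∪ T) t : ℕ) : ℤ) ≤ ((R * m + r : ℕ) : ℤ) := by
        exact_mod_cast le_trans (Nat.le_add_right _ _) h1
      push_cast at h2 ⊢
      linarith
    · rw [hsum, hKc, hE]
      push_cast
      ring
    · rw [← hTm.1.2]
      exact card_le_card hS'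
    · intro T₀ hT₀ hc hS₀
      have h1 := key T₀ hT₀ hc
      have h3 : ((cn G U).filter fun z => 2 ≤ (hs G T z).card ∧ hs G T z ⊆ S').card ≤
          (univ.filter fun z => 2 ≤ (hs G (U ∪ T) z).card ∧ hs G (U ∪ T) z ⊆ T₀).card := by
        refine card_le_card fun z hz => ?_
        rw [mem_filter] at hz ⊢
        have h4 : z ∈ cn G ((U ∪ T) \ T) := by rw [hKT]; exact hz.1
        rw [hs_of_mem_cn subset_union_right h4] at hz
        exact ⟨mem_univ _, hz.2.1, hz.2.2.trans hS₀⟩
      have h5 : S'.card + ∑ t ∈ T₀, aK G (U ∪ T) t ≤ R * m + r := by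
        have := le_trans hcard h3
        omega
      rw [hsum, hc]
      have h6 : ((S'.card + ∑ t ∈ T₀, aK G (U ∪ T) t : ℕ) : ℤ) ≤ ((R * m + r : ℕ) : ℤ) := by
        exact_mod_cast h5
      push_cast at h6 ⊢
      linarith

end H57LC
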