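import Pool.Agent.H57.LC.AStr
import Pool.Agent.H57.LC.LStr
import Pool.Agent.H57.LC.LSum
import Pool.Agent.H57.LC.Heavy

/-!
The local theorem (note 3541, 4), assembly.
-/

namespace H57LC

open Finset

set_option linter.unusedSectionVars false

/-- every `R`-clique inside `un B` is the image of a clique transversal -/
private theorem local_exists_tuple {V : Type*} [DecidableEq V] {G : SimpleGraph V}
    [DecidableRel G.Adj] {R : ℕ} {S : Finset V} {B : Fin R → Finset V} (hsub : ∀ i, B i ⊆ S)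
    (hdisj : ∀ i j, i ≠ j → Disjoint (B i) (B j))
    (hind : ∀ i, ∀ a ∈ B i, ∀ b ∈ B i, ¬ G.Adj a b) {T : Finset V} (hT : T ∈ clq G S R)
    (hTB : T ⊆ un B) : ∃ f ∈ tcl G B, im f = T := by
  by_contra hcon
  push Not at hcon
  have h1 := sum_light (G := G) (S := S) hsub hdisj hind (fun T' => if T' = T then (1 : ℝ) else 0)
  have h2 : ∑ f ∈ tcl G B, (if im f = T then (1 : ℝ) else 0) = 0 :=
    sum_eq_zero fun f hf => if_neg (hcon f hf)
  rw [h2, sum_ite_eq' _ T (fun _ => (1 : ℝ)), if_pos (mem_filter.2 ⟨hT, hTB⟩)] at h1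
  exact one_ne_zero h1

/-- few cliques -/
private theorem local_few {R m : ℕ} {C₁ k : ℝ} (hm : 0 < (m : ℝ)) (hC₁ : 0 < C₁) (hk : 0 < k)
    (h : k ≤ (m : ℝ) ^ R * (1 - C₁ / m)) : Rich m R C₁ (1 / k) := by
  unfold Rich
  have hp : 0 < (m : ℝ) ^ R := by positivity
  rw [div_le_div_iff₀ hp hk]
  have h0 : 0 ≤ 1 + C₁ / (m : ℝ) := by positivity
  calc (1 + C₁ / (m : ℝ)) * k ≤ (1 + C₁ / (m : ℝ)) * ((m : ℝ) ^ R * (1 - C₁ / m)) :=
        mul_le_mul_of_nonneg_left h h0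
    _ = (m : ℝ) ^ R * (1 - (C₁ / m) ^ 2) := by ring
    _ ≤ 1 * (m : ℝ) ^ R := by nlinarith [sq_nonneg (C₁ / (m : ℝ))]

theorem local_thm (R r : ℕ) (hR : 2 ≤ R) (C₁ η ζ ε : ℝ) (hC₁ : 0 < C₁) (hη : 0 < η)
    (hη2 : η ≤ 1 / 2) (hζ : 0 < ζ) (hζ1 : ζ ≤ 1 / 4) (hε : 0 < ε) (hε1 : ε < 1) :
    ∃ m₀ : ℕ, ∀ m : ℕ, m₀ ≤ m →
      ∀ (V : Type) [DecidableEq V] (G : SimpleGraph V) [DecidableRel G.Adj] (S : Finset V)
        (ν : Finset V → ℝ), S.card ≤ R * m + r → clq G S (R + 1) = ∅ → Rule G S R ν →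
        ∃ v : Finset V → ℝ, (∀ T, 0 ≤ v T) ∧ ∑ T ∈ clq G S R, v T ≤ 1 ∧
          ∀ T ∈ clq G S R, Rich m R C₁ (v T) ∨
            ((∀ t ∈ T, (1 - ε) * m ≤ (aa G S T t : ℝ)) ∧ lw G S m η ζ ν T ≤ v T) := by
  have hRr : (2 : ℝ) ≤ (R : ℝ) := by exact_mod_cast hR
  have hR0 : (0 : ℝ) < (R : ℝ) := by linarith
  -- the parameters
  obtain ⟨η₁, hη₁, ha, hb⟩ : ∃ η₁ : ℝ, 0 < η₁ ∧ 128 * (R : ℝ) ^ 2 * η₁ ≤ η ∧
      8 * (R : ℝ) * η₁ ≤ ε := by
    refine ⟨min (η / (128 * (R : ℝ) ^ 2)) (ε / (8 * R)), lt_min (by positivity) (by positivity),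
      ?_, ?_⟩
    · have h1 := min_le_left (η / (128 * (R : ℝ) ^ 2)) (ε / (8 * R))
      calc 128 * (R : ℝ) ^ 2 * min (η / (128 * (R : ℝ) ^ 2)) (ε / (8 * R))
          ≤ 128 * (R : ℝ) ^ 2 * (η / (128 * (R : ℝ) ^ 2)) :=
            mul_le_mul_of_nonneg_left h1 (by positivity)
        _ = η := by field_simp
    · have h1 := min_le_right (η / (128 * (R : ℝ) ^ 2)) (ε / (8 * R))
      calc 8 * (R : ℝ) * min (η / (128 * (R : ℝ) ^ 2)) (ε / (8 * R))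
          ≤ 8 * (R : ℝ) * (ε / (8 * R)) := mul_le_mul_of_nonneg_left h1 (by positivity)
        _ = ε := by field_simp
  have hR2 : (4 : ℝ) ≤ (R : ℝ) ^ 2 := by nlinarith
  have hc : 128 * (R : ℝ) ^ 2 * η₁ ≤ 1 := by linarith
  have hη16 : η₁ ≤ 1 / 16 := by nlinarith
  have hηη : η₁ ≤ η := by nlinarith
  obtain ⟨δ, hδ0, hδe⟩ : ∃ δ : ℝ, 0 < δ ∧ 16000 * (R : ℝ) * δ = η₁ := by
    refine ⟨η₁ / (16000 * R), by positivity, ?_⟩
    field_simp
  have hδR : 64 * (R : ℝ) * δ ≤ η := by nlinarith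
  have hδR1 : 64 * (R : ℝ) * δ ≤ 1 := by nlinarith
  have hRδ : δ ≤ (R : ℝ) * δ := by nlinarith
  have hδε : 16 * δ ≤ η₁ / 1000 := by nlinarith
  have hε₇ : 0 < η₁ / 1000 := by positivity
  have hε₇1 : η₁ / 1000 ≤ 1 := by linarith
  have hδε2 : 1 - ε ≤ 1 - δ - 2 * R * η₁ := by nlinarith
  -- the structure theorems
  obtain ⟨C, hC, hAS⟩ := exists_AS R r hR C₁ hC₁
  obtain ⟨C', hC', hLS⟩ := exists_LS_of_AS R hR C η₁ hC hη₁ hη16
  obtain ⟨δ', hδ', mL, hmL⟩ := hLS δ hδ0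
  obtain ⟨mA, hmA⟩ := hAS δ' hδ'
  obtain ⟨m1, hm1⟩ := light_sum R r hR C' η ζ η₁ δ (η₁ / 1000) hC' hη hη2 hζ hζ1 hη₁ ha hδ0 hδR
    hε₇ hε₇1 hδε
  obtain ⟨m2, hm2⟩ := heavy_sum R r hR C' η ζ η₁ δ hC' hη hη2 hζ hζ1 hη₁ hc hδ0 hδe.le
  obtain ⟨m3, hm3⟩ := lw_nonneg R r hR C' η ζ η₁ δ hη hη2 hζ hζ1 hη₁ hc hδ0 hδR1
  obtain ⟨m4, hm4⟩ := exists_nat_ge (100 * C₁ / η₁)
  refine ⟨max mA (max mL (max m1 (max m2 (max m3 (max m4 1))))), fun m hm V _ G _ S ν hS hfree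
    hν => ?_⟩
  simp only [max_le_iff] at hm
  obtain ⟨hmA', hmL', hm1', hm2', hm3', hm4', hm5⟩ := hm
  have hm0 : (0 : ℝ) < (m : ℝ) := by
    have : 0 < m := hm5
    exact_mod_cast this
  rcases le_or_gt ((clq G S R).card : ℝ) ((m : ℝ) ^ R * (1 - C₁ / m)) with hk | hk
  · -- few cliques
    refine ⟨fun _ => 1 / ((clq G S R).card : ℝ), fun _ => by positivity, ?_, fun T hT => ?_⟩
    · rw [sum_const, nsmul_eq_mul, mul_one_div]
      exact div_self_le_one _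
    · left
      have hpos : (0 : ℝ) < ((clq G S R).card : ℝ) := by
        have : 0 < (clq G S R).card := card_pos.2 ⟨T, hT⟩
        exact_mod_cast this
      exact local_few hm0 hC₁ hpos hk
  -- many cliques
  obtain ⟨A, hA⟩ := hmA m hmA' V G S hS hfree hk
  obtain ⟨B, hB⟩ := hmL m hmL' V G S A hfree hA
  have hv0 : ∀ f ∈ tcl G B, 0 ≤ lw G S m η ζ ν (im f) := hm3 m hm3' V G S B ν hS hB hν.1
  have hx0 : 0 ≤ (1 + η₁ / 100) / (m : ℝ) ^ R := by positivity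
  refine ⟨fun T => if T ∈ clq G S R ∧ T ⊆ un B then lw G S m η ζ ν T else
    (1 + η₁ / 100) / (m : ℝ) ^ R, fun T => ?_, ?_, fun T hT => ?_⟩
  · dsimp only
    split_ifs with h
    · obtain ⟨f, hf, rfl⟩ := local_exists_tuple hB.sub hB.disj hB.ind h.1 h.2
      exact hv0 f hf
    · exact hx0
  · rw [← sum_filter_add_sum_filter_not (clq G S R) (fun T => T ⊆ un B)]
    have e1 : ∑ T ∈ (clq G S R).filter (fun T => T ⊆ un B),
        (if T ∈ clq G S R ∧ T ⊆ un B then lw G S m η ζ ν T else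
          (1 + η₁ / 100) / (m : ℝ) ^ R) = ∑ f ∈ tcl G B, lw G S m η ζ ν (im f) := by
      rw [← sum_light (G := G) (S := S) hB.sub hB.disj hB.ind (fun T => lw G S m η ζ ν T)]
      refine sum_congr rfl fun T hT => ?_
      rw [if_pos (mem_filter.1 hT)]
    have e2 : ∑ T ∈ (clq G S R).filter (fun T => ¬ T ⊆ un B),
        (if T ∈ clq G S R ∧ T ⊆ un B then lw G S m η ζ ν T else
          (1 + η₁ / 100) / (m : ℝ) ^ R) = (1 + η₁ / 100) / (m : ℝ) ^ R *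
            (((clq G S R).filter fun T => ¬ T ⊆ un B).card : ℝ) := by
      rw [sum_congr rfl (g := fun _ => (1 + η₁ / 100) / (m : ℝ) ^ R), sum_const, nsmul_eq_mul,
        mul_comm]
      intro T hT
      rw [if_neg fun h => (mem_filter.1 hT).2 h.2]
    have e3 := hm1 m hm1' V G S B ν hS hB hν.1
    have e4 := hm2 m hm2' V G S B ν hS hfree hB hν
    rw [e1, e2]
    linarith
  · dsimp only
    by_cases h : T ⊆ un B
    · right
      obtain ⟨f, hf, rfl⟩ := local_exists_tuple hB.sub hB.disj hB.ind hT h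
      rw [if_pos ⟨hT, h⟩]
      refine ⟨fun t ht => ?_, le_refl _⟩
      refine le_trans ?_ (aa_lower hB hη₁.le hf ht)
      exact mul_le_mul_of_nonneg_right hδε2 hm0.le
    · left
      rw [if_neg fun h' => h h'.2]
      unfold Rich
      apply div_le_div_of_nonneg_right _ (by positivity)
      have h4 : 100 * C₁ / η₁ ≤ (m : ℝ) := hm4.trans (by exact_mod_cast hm4')
      rw [div_le_iff₀ hη₁] at h4
      have h5 : C₁ / (m : ℝ) ≤ η₁ / 100 := by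
        rw [div_le_div_iff₀ hm0 (by norm_num)]
        linarith
      linarith

end H57LC
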