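import Mathlib

/-!
Theorem P (note 3541, 1): a pure statement about integers.

`S2 N V` is the ordered double sum of `N` over `V` (twice the number of pairs).  If every `R`-subset `T` of `V`
(`|V| = R + u`) satisfies `N(T) ≤ e(T) + r`, then `A' N(V) ≤ (A' + u)(e(V) + r)`, `A' = R - 1 - max r 0`.
-/

set_option autoImplicit false

namespace H57LC

open Finset

set_option linter.unusedSectionVars false

variable {ι : Type*} [DecidableEq ι]

/-- ordered double sum -/
private def S2 (N : ι → ι → ℤ) (V : Finset ι) : ℤ := ∑ i ∈ V, ∑ j ∈ V, N i j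

/-- row sum -/
private def row (N : ι → ι → ℤ) (V : Finset ι) (k : ι) : ℤ := ∑ j ∈ V, N k j

private theorem S2_erase (N : ι → ι → ℤ) (hs : ∀ i j, N i j = N j i) (hd : ∀ i, N i i = 0)
    (V : Finset ι) (k : ι) (hk : k ∈ V) :
    S2 N (V.erase k) = S2 N V - 2 * row N V k := by
  unfold S2 row
  have h1 : ∀ i, ∑ j ∈ V.erase k, N i j = ∑ j ∈ V, N i j - N i k := by
    intro i
    rw [← Finset.add_sum_erase V (fun j => N i j) hk]; ring
  have h2 : ∑ i ∈ V.erase k, ∑ j ∈ V.erase k, N i j
      = ∑ i ∈ V.erase k, (∑ j ∈ V, N i j) - ∑ i ∈ V.erase k, N i k := by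
    rw [← Finset.sum_sub_distrib]
    exact Finset.sum_congr rfl fun i _ => h1 i
  rw [h2]
  have h3 : ∑ i ∈ V.erase k, (∑ j ∈ V, N i j) = ∑ i ∈ V, (∑ j ∈ V, N i j) - ∑ j ∈ V, N k j := by
    rw [← Finset.add_sum_erase V (fun i => ∑ j ∈ V, N i j) hk]; ring
  have h4 : ∑ i ∈ V.erase k, N i k = ∑ j ∈ V, N k j := by
    rw [← Finset.add_sum_erase V (fun i => N k i) hk, hd k, zero_add]
    exact Finset.sum_congr rfl fun i _ => hs i k
  rw [h3, h4]; ring

private theorem sum_row (N : ι → ι → ℤ) (V : Finset ι) : ∑ k ∈ V, row N V k = S2 N V := rfl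

private theorem e_erase (e : ι → ℤ) (V : Finset ι) (k : ι) (hk : k ∈ V) :
    ∑ i ∈ V.erase k, e i = ∑ i ∈ V, e i - e k := by
  rw [← Finset.add_sum_erase V e hk]; ring

private theorem row_nonneg (N : ι → ι → ℤ) (h0 : ∀ i j, 0 ≤ N i j) (V : Finset ι) (k : ι) : 0 ≤ row N V k :=
  Finset.sum_nonneg fun j _ => h0 k j

private theorem S2_nonneg (N : ι → ι → ℤ) (h0 : ∀ i j, 0 ≤ N i j) (V : Finset ι) : 0 ≤ S2 N V :=
  Finset.sum_nonneg fun i _ => row_nonneg N h0 V i

/-- averaging over the subsets of size `R ≥ 2`, by removing one element at a time -/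
private theorem avg (N : ι → ι → ℤ) (hs : ∀ i j, N i j = N j i) (hd : ∀ i, N i i = 0)
    (e : ι → ℤ) (r : ℤ) (V : Finset ι) (R : ℕ) (hR : 2 ≤ R)
    (h : ∀ T ⊆ V, T.card = R → S2 N T ≤ 2 * (∑ i ∈ T, e i + r)) :
    ∀ m : ℕ, R ≤ m → ∀ T ⊆ V, T.card = m →
      (R : ℤ) * (R - 1) * S2 N T ≤ 2 * (m - 1) * (R * ∑ i ∈ T, e i + m * r) := by
  intro m hm
  induction m, hm using Nat.le_induction with
  | base =>
    intro T hT hc
    have h1 := h T hT hc
    have hR' : (2 : ℤ) ≤ R := by exact_mod_cast hR
    have h2 : (0 : ℤ) ≤ (R : ℤ) * (R - 1) := by nlinarith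
    calc (R : ℤ) * (R - 1) * S2 N T ≤ (R : ℤ) * (R - 1) * (2 * (∑ i ∈ T, e i + r)) :=
          mul_le_mul_of_nonneg_left h1 h2
      _ = _ := by ring
  | succ m hm ih =>
    intro T hT hc
    have hm' : (2 : ℤ) ≤ m := by exact_mod_cast (le_trans hR hm)
    have h1 : ∀ k ∈ T, (R : ℤ) * (R - 1) * (S2 N T - 2 * row N T k)
        ≤ 2 * (m - 1) * (R * (∑ i ∈ T, e i - e k) + m * r) := by
      intro k hk
      have := ih (T.erase k) ((Finset.erase_subset k T).trans hT) (by rw [Finset.card_erase_of_mem hk, hc]; omega)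
      rwa [S2_erase N hs hd T k hk, e_erase e T k hk] at this
    have h2 := Finset.sum_le_sum h1
    rw [← Finset.mul_sum, ← Finset.mul_sum, Finset.sum_sub_distrib, Finset.sum_add_distrib, ← Finset.mul_sum,
      ← Finset.mul_sum, Finset.sum_sub_distrib, Finset.sum_const, Finset.sum_const, Finset.sum_const, hc,
      sum_row] at h2
    simp only [nsmul_eq_mul] at h2
    push_cast at h2 ⊢
    have h3 : ((m : ℤ) - 1) * ((R : ℤ) * (R - 1) * S2 N T) ≤
        ((m : ℤ) - 1) * (2 * ((m : ℤ) + 1 - 1) * (R * ∑ i ∈ T, e i + (m + 1) * r)) := by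
      nlinarith [h2]
    exact le_of_mul_le_mul_left h3 (by linarith)

private theorem S2_single (N : ι → ι → ℤ) (hd : ∀ i, N i i = 0) (k : ι) : S2 N {k} = 0 := by
  simp [S2, hd]

private theorem thmP_aux : ∀ (n : ℕ) (V : Finset ι) (R u : ℕ) (r : ℤ) (e : ι → ℤ) (N : ι → ι → ℤ),
    V.card = n → V.card = R + u → 1 ≤ R → r ≤ (R : ℤ) - 1 → (∀ i j, 0 ≤ N i j) → (∀ i j, N i j = N j i) →
    (∀ i, N i i = 0) → (∀ T ⊆ V, T.card = R → S2 N T ≤ 2 * (∑ i ∈ T, e i + r)) →
    ((R : ℤ) - 1 - max r 0) * S2 N V ≤ 2 * ((R : ℤ) - 1 - max r 0 + u) * (∑ i ∈ V, e i + r) := by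
  intro n
  induction n with
  | zero =>
    intro V R u r e N hn hc hR hr h0 hs hd h
    omega
  | succ n ih =>
    intro V R u r e N hn hc hR hr h0 hs hd h
    have hSV := S2_nonneg N h0 V
    rcases Nat.eq_zero_or_pos u with hu | hu
    · -- u = 0
      subst hu
      have h1 := h V (Finset.Subset.refl V) (by omega)
      have hA : 0 ≤ (R : ℤ) - 1 - max r 0 := by
        have : (1 : ℤ) ≤ R := by exact_mod_cast hR
        rcases le_total r 0 with h2 | h2
        · rw [max_eq_right h2]; linarith
        · rw [max_eq_left h2]; linarith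
      push_cast
      nlinarith [mul_le_mul_of_nonneg_left h1 hA]
    have huZ : (1 : ℤ) ≤ u := by exact_mod_cast hu
    rcases Nat.lt_or_ge R 2 with hR2 | hR2
    · -- R = 1
      have hR1 : R = 1 := by omega
      subst hR1
      have hr0 : r ≤ 0 := by push_cast at hr; linarith
      rw [max_eq_right hr0]
      push_cast
      have h1 : ∀ i ∈ V, -r ≤ e i := by
        intro i hi
        have := h {i} (by simpa using hi) (by simp)
        rw [S2_single N hd] at this
        simp at this; linarith
      have h2 : ∑ i ∈ V, (-r) ≤ ∑ i ∈ V, e i := Finset.sum_le_sum h1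
      rw [Finset.sum_const, nsmul_eq_mul, hc] at h2
      push_cast at h2
      have h3 : 0 ≤ ∑ i ∈ V, e i + r := by nlinarith
      have h4 : (0 : ℤ) ≤ u * (∑ i ∈ V, e i + r) := mul_nonneg (by linarith) h3
      linarith
    have hRZ : (2 : ℤ) ≤ R := by exact_mod_cast hR2
    have hav := avg N hs hd e r V R hR2 h (R + u) (by omega) V (Finset.Subset.refl V) hc
    push_cast at hav
    rcases le_or_gt r 0 with hr0 | hr0
    · -- r ≤ 0
      rw [max_eq_right hr0]
      have h1 : (R : ℤ) * ∑ i ∈ V, e i + (R + u) * r ≤ R * (∑ i ∈ V, e i + r) := by nlinarith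
      have h2 : (R : ℤ) * (((R : ℤ) - 1 - 0) * S2 N V) ≤ R * (2 * ((R : ℤ) - 1 - 0 + u) * (∑ i ∈ V, e i + r)) := by
        nlinarith [mul_le_mul_of_nonneg_left h1 (show (0 : ℤ) ≤ 2 * (R + u - 1) by linarith)]
      exact le_of_mul_le_mul_left h2 (by linarith)
    -- r ≥ 1
    rw [max_eq_left hr0.le]
    set A : ℤ := (R : ℤ) - 1 - r with hA
    set E : ℤ := ∑ i ∈ V, e i + r with hE
    have hA0 : 0 ≤ A := by rw [hA]; linarith
    -- deletion in T
    have del : ∀ k ∈ V, r + e k ≤ (R : ℤ) - 2 →
        ((R : ℤ) - 2 - max (r + e k) 0) * (S2 N V - 2 * row N V k) ≤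
          2 * ((R : ℤ) - 2 - max (r + e k) 0 + u) * (E - row N V k) := by
      intro k hk hrk
      have key := ih (V.erase k) (R - 1) u (r + e k) (fun i => e i - N i k) N
        (by rw [Finset.card_erase_of_mem hk, hn]; rfl) (by rw [Finset.card_erase_of_mem hk, hc]; omega)
        (by omega) (by push_cast [Nat.cast_sub hR]; linarith) h0 hs hd ?_
      · rw [S2_erase N hs hd V k hk] at key
        have e1 : ∑ i ∈ V.erase k, (e i - N i k) = ∑ i ∈ V, e i - e k - row N V k := by
          rw [Finset.sum_sub_distrib, e_erase e V k hk]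
          congr 1
          unfold row
          rw [← Finset.add_sum_erase V (fun i => N k i) hk, hd k, zero_add]
          exact Finset.sum_congr rfl fun i _ => hs i k
        rw [e1] at key
        push_cast [Nat.cast_sub hR] at key
        have e2 : (R : ℤ) - 1 - 1 = R - 2 := by ring
        rw [e2] at key
        have e3 : ∑ i ∈ V, e i - e k - row N V k + (r + e k) = E - row N V k := by rw [hE]; ring
        rw [e3] at key
        exact key
      · intro T hT hTc
        have hkT : k ∉ T := fun hh => Finset.notMem_erase k V (hT hh)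
        have h1 := h (insert k T) (Finset.insert_subset hk (hT.trans (Finset.erase_subset k V)))
          (by rw [Finset.card_insert_of_notMem hkT, hTc]; omega)
        have h2 := S2_erase N hs hd (insert k T) k (Finset.mem_insert_self k T)
        rw [Finset.erase_insert hkT] at h2
        have h3 : row N (insert k T) k = ∑ i ∈ T, N i k := by
          unfold row
          rw [Finset.sum_insert hkT, hd k, zero_add]
          exact Finset.sum_congr rfl fun i _ => hs k i
        rw [h2, h3]
        rw [Finset.sum_insert hkT] at h1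
        rw [Finset.sum_sub_distrib]
        have h4 : 0 ≤ ∑ i ∈ T, N i k := Finset.sum_nonneg fun i _ => h0 i k
        linarith
    have hrow := row_nonneg N h0 V
    have hSrow : ∀ k ∈ V, 2 * row N V k ≤ S2 N V := by
      intro k hk
      have := S2_nonneg N h0 (V.erase k)
      rw [S2_erase N hs hd V k hk] at this; linarith
    by_cases hneg : ∃ k ∈ V, e k < 0
    · obtain ⟨k, hk, hek⟩ := hneg
      have h1 := del k hk (by linarith)
      set A2 : ℤ := (R : ℤ) - 2 - max (r + e k) 0 with hA2
      have hAA : A ≤ A2 := by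
        rw [hA, hA2]
        rcases le_total (r + e k) 0 with h2 | h2
        · rw [max_eq_right h2]; linarith
        · rw [max_eq_left h2]; linarith
      have hA20 : 0 ≤ A2 := le_trans hA0 hAA
      have h2 : A2 * S2 N V ≤ 2 * (A2 + u) * E := by nlinarith [hrow k]
      have hEr : 0 ≤ E - row N V k := by
        by_contra hcon
        push Not at hcon
        have h3 : 0 ≤ A2 * (S2 N V - 2 * row N V k) := mul_nonneg hA20 (by linarith [hSrow k hk])
        nlinarith
      have hE0 : 0 ≤ E := by linarith [hrow k]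
      rcases eq_or_lt_of_le hA20 with hz | hz
      · have : A = 0 := le_antisymm (by rw [hz]; exact hAA) hA0
        rw [this]; nlinarith
      · have h3 : A2 * (A * S2 N V) ≤ A2 * (2 * (A + u) * E) := by
          calc A2 * (A * S2 N V) = A * (A2 * S2 N V) := by ring
            _ ≤ A * (2 * (A2 + u) * E) := mul_le_mul_of_nonneg_left h2 hA0
            _ ≤ A2 * (2 * (A + u) * E) := by nlinarith [mul_nonneg (mul_nonneg (sub_nonneg.2 hAA) (by linarith : (0:ℤ) ≤ u)) hE0]
        exact le_of_mul_le_mul_left h3 hz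
    · push Not at hneg
      have heV : 0 ≤ ∑ i ∈ V, e i := Finset.sum_nonneg hneg
      have hE1 : 1 ≤ E := by rw [hE]; linarith
      rcases eq_or_lt_of_le hA0 with hz | hz
      · rw [← hz]; nlinarith
      by_cases hzero : ∃ k ∈ V, e k = 0
      · obtain ⟨k, hk, hek⟩ := hzero
        have hr2 : r ≤ (R : ℤ) - 2 := by rw [hA] at hz; linarith
        have h1 := del k hk (by rw [hek, add_zero]; exact hr2)
        rw [hek, add_zero, max_eq_left hr0.le] at h1
        have e1 : (R : ℤ) - 2 - r = A - 1 := by rw [hA]; ring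
        rw [e1] at h1
        have h2 := ih (V.erase k) R (u - 1) r e N
          (by rw [Finset.card_erase_of_mem hk, hn]; rfl) (by rw [Finset.card_erase_of_mem hk, hc]; omega)
          hR hr h0 hs hd (fun T hT hTc => h T (hT.trans (Finset.erase_subset k V)) hTc)
        rw [max_eq_left hr0.le, S2_erase N hs hd V k hk, e_erase e V k hk, hek, sub_zero] at h2
        push_cast [Nat.cast_sub hu] at h2
        rw [← hA, ← hE] at h2
        -- A * h1 + u * h2
        have h3 : (A + u - 1) * (A * S2 N V) ≤ (A + u - 1) * (2 * (A + u) * E) := by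
          have h4 := mul_le_mul_of_nonneg_left h1 hA0
          have h5 := mul_le_mul_of_nonneg_left h2 (show (0 : ℤ) ≤ u by linarith)
          nlinarith [h4, h5]
        exact le_of_mul_le_mul_left h3 (by linarith)
      · push Not at hzero
        have hpos : ∀ i ∈ V, (1 : ℤ) ≤ e i := fun i hi => by
          have h1 := hneg i hi
          have h2 := hzero i hi
          omega
        have hsum : ((R : ℤ) + u) ≤ ∑ i ∈ V, e i := by
          have := Finset.sum_le_sum hpos
          rw [Finset.sum_const, nsmul_eq_mul, hc] at this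
          push_cast at this; linarith
        -- average
        set s : ℤ := ∑ i ∈ V, e i with hs'
        have hQ : (1 : ℤ) ≤ (R : ℤ) - 1 := by linarith
        -- R Q A S2 ≤ 2 (w-1) A (R s + w r) ≤ 2 R Q (A+u) (s + r)
        have h1 : (A * (2 * (R + u - 1) * (R * s + (R + u) * r))) ≤ (R : ℤ) * (R - 1) * (2 * (A + u) * (s + r)) := by
          have hrZ : 1 ≤ r := hr0
          have hx : A = (R : ℤ) - 1 - r := hA
          have hid : (R : ℤ) * (R - 1) * (2 * (A + u) * (s + r)) - (A * (2 * (R + u - 1) * (R * s + (R + u) * r)))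
              = 2 * (R * u * r * (s - (R + u)) + u * r * (1 + r) * (2 * R + u - 1)) := by
            rw [hx]; ring
          have : 0 ≤ 2 * (R * u * r * (s - (R + u)) + u * r * (1 + r) * (2 * R + u - 1)) := by
            have a1 : 0 ≤ (R : ℤ) * u * r * (s - (R + u)) :=
              mul_nonneg (mul_nonneg (mul_nonneg (by linarith) (by linarith)) (by linarith)) (by linarith)
            have a2 : 0 ≤ (u : ℤ) * r * (1 + r) * (2 * R + u - 1) :=
              mul_nonneg (mul_nonneg (mul_nonneg (by linarith) (by linarith)) (by linarith)) (by linarith)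
            linarith
          linarith
        have h2 : (R : ℤ) * (R - 1) * (A * S2 N V) ≤ (R : ℤ) * (R - 1) * (2 * (A + u) * E) := by
          calc (R : ℤ) * (R - 1) * (A * S2 N V) = A * ((R : ℤ) * (R - 1) * S2 N V) := by ring
            _ ≤ A * (2 * (R + u - 1) * (R * s + (R + u) * r)) := mul_le_mul_of_nonneg_left hav hA0
            _ ≤ _ := by rw [hE]; exact h1
        exact le_of_mul_le_mul_left h2 (mul_pos (by linarith) (by linarith))

/-- **Theorem P**, for the symmetric matrix `N` (zero diagonal); the double sums count every pair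
twice. -/
theorem thmP {ι : Type*} [DecidableEq ι] (n : ℕ) : ∀ (V : Finset ι) (R u : ℕ) (r : ℤ) (e : ι → ℤ)
    (N : ι → ι → ℤ), V.card = n → n = R + u → 1 ≤ R → r ≤ (R : ℤ) - 1 → (∀ i j, 0 ≤ N i j) →
    (∀ i j, N i j = N j i) → (∀ i, N i i = 0) →
    (∀ T ⊆ V, T.card = R → ∑ i ∈ T, ∑ j ∈ T, N i j ≤ 2 * (∑ i ∈ T, e i + r)) →
    ((R : ℤ) - 1 - max r 0) * ∑ i ∈ V, ∑ j ∈ V, N i j ≤
      2 * ((R : ℤ) - 1 - max r 0 + u) * (∑ i ∈ V, e i + r) := by
  intro V R u r e N hn hc hR hr h0 hs hd h
  exact thmP_aux n V R u r e N hn (hn.trans hc) hR hr h0 hs hd h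

end H57LC
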