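import Pool.Agent.H57.LC.Local
import Pool.Agent.H57.LC.KIneq
import Pool.Agent.H57.LC.KGraph
import Pool.Agent.H57.LC.Count

/-!
The upper bound (note 3541, 0), assembly.
-/

namespace H57LC

open Finset

set_option linter.unusedSectionVars false

/-- the complement of an `R`-subset in a clique with `R + u` elements is a `u`-clique -/
private theorem upper_sdiff {V : Type*} [Fintype V] [DecidableEq V] {G : SimpleGraph V}
    [DecidableRel G.Adj] {R u : ℕ} {K T : Finset V} (hK : K ∈ clq G univ (R + u)) (hT : T ⊆ K)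
    (hc : T.card = R) : K \ T ∈ clq G univ u := by
  have hK' := mem_clq.1 hK
  rw [mem_clq]
  refine ⟨⟨subset_univ _, ?_⟩, hK'.2.subset sdiff_subset⟩
  have := card_sdiff_add_card_eq_card hT
  have h2 := hK'.1.2
  omega

/-- an `R`-subset of a clique is a clique in the common neighbourhood of the rest -/
private theorem upper_mem {V : Type*} [Fintype V] [DecidableEq V] {G : SimpleGraph V}
    [DecidableRel G.Adj] {R u : ℕ} {K T : Finset V} (hK : K ∈ clq G univ (R + u)) (hT : T ⊆ K)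
    (hc : T.card = R) : T ∈ clq G (cn G (K \ T)) R := by
  have hK' := mem_clq.1 hK
  rw [mem_clq]
  refine ⟨⟨fun t ht => ?_, hc⟩, hK'.2.subset hT⟩
  rw [mem_cn]
  intro a ha
  have ha' := mem_sdiff.1 ha
  exact hK'.2 a ha'.1 t (hT ht) (fun e => ha'.2 (e ▸ ht))

theorem upper (u R r : ℕ) (hu : 1 ≤ u) (hr : 1 ≤ r) (hr2 : r + 2 ≤ R)
    (hcond : 0 < ((R : ℤ) - 1) * (R - 1 - r) + u * (R - 1 - 2 * r)) :
    ∃ m₀ : ℕ, ∀ m : ℕ, m₀ ≤ m →
      ∀ (V : Type) [Fintype V] [DecidableEq V] (G : SimpleGraph V) [DecidableRel G.Adj],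
        (∀ U ∈ clq G univ u, (cn G U).card ≤ R * m + r) → clq G univ (R + u + 1) = ∅ →
        ((clq G univ (R + u)).card : ℝ) * rinv (R + u) R r m ≤ ((clq G univ u).card : ℝ) := by
  obtain ⟨C₁, η, ζ, ε, hC₁, hη, hη2, hζ, hζ4, hε, hε1, m₁, hK⟩ := K_ineq u R r hu hr hr2 hcond
  obtain ⟨m₂, hL⟩ := local_thm R r (by omega) C₁ η ζ ε hC₁ hη hη2 hζ hζ4 hε hε1
  refine ⟨max m₁ m₂, fun m hm V _ _ G _ hdeg hfree => ?_⟩
  have hm1 : m₁ ≤ m := (le_max_left _ _).trans hm
  have hm2 : m₂ ≤ m := (le_max_right _ _).trans hm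
  have key : ∀ U ∈ clq G univ u, ∃ v : Finset V → ℝ, (∀ T, 0 ≤ v T) ∧
      ∑ T ∈ clq G (cn G U) R, v T ≤ 1 ∧
      ∀ T ∈ clq G (cn G U) R, Rich m R C₁ (v T) ∨
        ((∀ t ∈ T, (1 - ε) * m ≤ (aa G (cn G U) T t : ℝ)) ∧
          lw G (cn G U) m η ζ (fun T => nuK G (R + u) m r (U ∪ T)) T ≤ v T) := fun U hU =>
    hL m hm2 V G (cn G U) (fun T => nuK G (R + u) m r (U ∪ T)) (hdeg U hU) (cn_free hfree hU)
      (rule_nuK hu (by omega) (by omega) hdeg hU)
  choose! v hv0 hv1 hv2 using key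
  calc ((clq G univ (R + u)).card : ℝ) * rinv (R + u) R r m
      = ∑ K ∈ clq G univ (R + u), rinv (R + u) R r m := by rw [sum_const, nsmul_eq_mul]
    _ ≤ ∑ K ∈ clq G univ (R + u), ∑ T ∈ powersetCard R K, v (K \ T) T := by
        refine sum_le_sum fun K hKm => ?_
        have hK' := mem_clq.1 hKm
        refine hK m hm1 V K (aK G K) (nK G K) (fun T => v (K \ T) T) (nuK G (R + u) m r K)
          hK'.1.2 (fun t ht => one_le_aK hK'.2 ht) (nK_symm K) (nK_self K) ?_ rfl ?_
        · intro T hT hc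
          have h1 := sum_aK_nK (G := G) hT
          have h2 := hdeg (K \ T) (upper_sdiff hKm hT hc)
          omega
        · intro T hT hc
          rcases hv2 (K \ T) (upper_sdiff hKm hT hc) T (upper_mem hKm hT hc) with h | ⟨h1, h3⟩
          · exact Or.inl h
          · right
            refine ⟨fun t ht => ?_, ?_⟩
            · have := h1 t ht
              rwa [aa_cn hT ht] at this
            · refine le_trans (le_of_eq ?_) h3
              unfold lw
              have e1 : K \ T ∪ T = K := sdiff_union_of_subset hT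
              have e2 : ∏ t ∈ T, ((aa G (cn G (K \ T)) T t : ℝ))⁻¹ =
                  ∏ t ∈ T, ((aK G K t : ℝ))⁻¹ :=
                prod_congr rfl fun t ht => by rw [aa_cn hT ht]
              have e3 : (((∑ i ∈ T, ∑ j ∈ T, nK G K i j : ℕ) : ℝ) / 2) =
                  (h2 G (cn G (K \ T)) T : ℝ) := by
                rw [← h2_cn hT]
                push_cast
                ring
              beta_reduce
              rw [e2, e3, e1]
    _ = ∑ U ∈ clq G univ u, ∑ T ∈ clq G (cn G U) R, v U T := (double_count u R v).symm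
    _ ≤ ∑ U ∈ clq G univ u, (1 : ℝ) := sum_le_sum hv1
    _ = ((clq G univ u).card : ℝ) := by rw [sum_const, nsmul_eq_mul, mul_one]

end H57LC
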